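import Pool.Agent.P.MP_1bacd4_an.Defs

/-! Norms of vectors and matrices, orthogonal projections as matrices. -/

set_option autoImplicit false

namespace Pool.Agent.P.MP_1bacd4_an

open Finset Module Matrix

section vec
variable {I J K : Type} [Fintype I] [Fintype J] [Fintype K]

theorem n2_nonneg (x : I → ℝ) : 0 ≤ n2 x := Real.sqrt_nonneg _

theorem n2_sq (x : I → ℝ) : n2 x ^ 2 = ∑ i, x i ^ 2 :=
  Real.sq_sqrt (sum_nonneg fun _ _ => sq_nonneg _)

theorem n2_sq_dot (x : I → ℝ) : n2 x ^ 2 = x ⬝ᵥ x := by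
  rw [n2_sq]; simp [dotProduct, pow_two]

theorem n2_eq_norm (x : I → ℝ) : n2 x = ‖(WithLp.toLp 2 x : EuclideanSpace ℝ I)‖ := by
  rw [EuclideanSpace.norm_eq]; simp [n2]

theorem norm_eq_n2 (x : EuclideanSpace ℝ I) : ‖x‖ = n2 (fun i => x i) := by
  rw [EuclideanSpace.norm_eq]; simp [n2]

theorem n2_zero : n2 (0 : I → ℝ) = 0 := by simp [n2]

theorem n2_add_le (x y : I → ℝ) : n2 (x + y) ≤ n2 x + n2 y := by
  simp only [n2_eq_norm, WithLp.toLp_add]; exact norm_add_le _ _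

theorem n2_smul (c : ℝ) (x : I → ℝ) : n2 (c • x) = |c| * n2 x := by
  simp only [n2_eq_norm, WithLp.toLp_smul, norm_smul, Real.norm_eq_abs]

theorem n2_neg (x : I → ℝ) : n2 (-x) = n2 x := by simp [n2]

theorem n2_sub_le (x y : I → ℝ) : n2 (x - y) ≤ n2 x + n2 y := by
  rw [sub_eq_add_neg]; exact (n2_add_le _ _).trans (by rw [n2_neg])

theorem n2_sub_comm (x y : I → ℝ) : n2 (x - y) = n2 (y - x) := by rw [← n2_neg, neg_sub]

theorem n2_sum_le {α : Type} (s : Finset α) (x : α → I → ℝ) :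
    n2 (∑ a ∈ s, x a) ≤ ∑ a ∈ s, n2 (x a) :=
  Finset.le_sum_of_subadditive n2 n2_zero.le n2_add_le s x

theorem n2_eq_zero {x : I → ℝ} (h : n2 x = 0) : x = 0 := by
  rw [n2_eq_norm, norm_eq_zero] at h
  simpa using congrArg WithLp.ofLp h

theorem n2_le_of_sq {x : I → ℝ} {c : ℝ} (hc : 0 ≤ c) (h : ∑ i, x i ^ 2 ≤ c ^ 2) : n2 x ≤ c :=
  Real.sqrt_le_iff.2 ⟨hc, h⟩

theorem n2_mono {x y : I → ℝ} (h : ∀ i, |x i| ≤ |y i|) : n2 x ≤ n2 y :=
  Real.sqrt_le_sqrt (sum_le_sum fun i _ => sq_le_sq.2 (h i))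

theorem abs_le_n2 (x : I → ℝ) (i : I) : |x i| ≤ n2 x :=
  Real.abs_le_sqrt (single_le_sum (f := fun i => x i ^ 2) (fun _ _ => sq_nonneg _) (mem_univ i))

theorem dot_le (x y : I → ℝ) : x ⬝ᵥ y ≤ n2 x * n2 y := by
  unfold n2 dotProduct
  exact Real.sum_mul_le_sqrt_mul_sqrt univ x y

theorem abs_dot_le (x y : I → ℝ) : |x ⬝ᵥ y| ≤ n2 x * n2 y := by
  refine abs_le.2 ⟨?_, dot_le x y⟩
  have := dot_le (-x) y
  rw [neg_dotProduct, n2_neg] at this; linarith

theorem n2_pyth {x y : I → ℝ} (h : x ⬝ᵥ y = 0) : n2 (x + y) ^ 2 = n2 x ^ 2 + n2 y ^ 2 := by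
  simp only [n2_sq_dot, add_dotProduct, dotProduct_add, h, dotProduct_comm y x]; ring

/-- If `n2 x ^ 2 ≤ c * n2 x` then `n2 x ≤ c`. -/
theorem le_of_sq_le_mul {a c : ℝ} (_ha : 0 ≤ a) (hc : 0 ≤ c) (h : a ^ 2 ≤ c * a) : a ≤ c := by
  by_contra hh
  push Not at hh
  nlinarith

theorem le_of_sq_le_sq' {a b : ℝ} (hb : 0 ≤ b) (h : a ^ 2 ≤ b ^ 2) : a ≤ b :=
  (abs_le_of_sq_le_sq' h hb).2

theorem sq_nonneg' : 0 ≤ sq I := Real.sqrt_nonneg _

theorem sq_sq : sq I ^ 2 = Fintype.card I := Real.sq_sqrt (Nat.cast_nonneg _)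

theorem sq_mul_sq : sq I * sq I = Fintype.card I := Real.mul_self_sqrt (Nat.cast_nonneg _)

theorem l1_nonneg (x : I → ℝ) : 0 ≤ l1 x := sum_nonneg fun _ _ => abs_nonneg _

theorem l1_zero : l1 (0 : I → ℝ) = 0 := by simp [l1]

theorem l1_add_le (x y : I → ℝ) : l1 (x + y) ≤ l1 x + l1 y := by
  unfold l1; rw [← sum_add_distrib]; exact sum_le_sum fun i _ => abs_add_le _ _

theorem l1_neg (x : I → ℝ) : l1 (-x) = l1 x := by simp [l1]

theorem l1_sub_le (x y : I → ℝ) : l1 (x - y) ≤ l1 x + l1 y := by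
  rw [sub_eq_add_neg]; exact (l1_add_le _ _).trans (by rw [l1_neg])

theorem l1_smul (c : ℝ) (x : I → ℝ) : l1 (c • x) = |c| * l1 x := by
  simp [l1, abs_mul, mul_sum]

theorem l1_mono {x y : I → ℝ} (h : ∀ i, |x i| ≤ |y i|) : l1 x ≤ l1 y := sum_le_sum fun i _ => h i

/-- Cauchy-Schwarz on a finset. -/
theorem sum_abs_le_sqrt_card (s : Finset I) (x : I → ℝ) :
    ∑ i ∈ s, |x i| ≤ √(s.card : ℝ) * n2 x := by
  have h := Real.sum_mul_le_sqrt_mul_sqrt s (fun _ => (1 : ℝ)) (fun i => |x i|)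
  simp only [one_mul, one_pow, sum_const, nsmul_eq_mul, mul_one, sq_abs] at h
  refine h.trans (mul_le_mul_of_nonneg_left (Real.sqrt_le_sqrt ?_) (Real.sqrt_nonneg _))
  exact sum_le_sum_of_subset_of_nonneg (subset_univ s) fun _ _ _ => sq_nonneg _

theorem l1_le (x : I → ℝ) : l1 x ≤ sq I * n2 x := by
  simpa [l1, sq] using sum_abs_le_sqrt_card univ x

theorem l1_le_supp (x : I → ℝ) : l1 x ≤ √(supp x : ℝ) * n2 x := by
  have : l1 x = ∑ i ∈ univ.filter fun i => x i ≠ 0, |x i| := by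
    unfold l1
    rw [sum_filter]
    exact sum_congr rfl fun i _ => by by_cases h : x i = 0 <;> simp [h]
  rw [this]; exact sum_abs_le_sqrt_card _ x

theorem n2_sq_le_sup_mul {x : I → ℝ} {τ : ℝ} (h : ∀ i, |x i| ≤ τ) : n2 x ^ 2 ≤ τ * l1 x := by
  rw [n2_sq, l1, mul_sum]
  refine sum_le_sum fun i _ => ?_
  rw [← sq_abs, pow_two]; exact mul_le_mul_of_nonneg_right (h i) (abs_nonneg _)

theorem supp_le_card {x : I → ℝ} {S : Finset I} (h : ∀ i, i ∉ S → x i = 0) : supp x ≤ S.card :=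
  card_le_card fun i hi => by
    by_contra hh
    exact (mem_filter.1 hi).2 (h i hh)

theorem supp_add_le (x y : I → ℝ) : supp (x + y) ≤ supp x + supp y := by
  classical
  refine le_trans (card_le_card ?_) (card_union_le _ _)
  intro i hi
  simp only [mem_filter, mem_univ, true_and, mem_union, Pi.add_apply] at hi ⊢
  by_contra hh
  push Not at hh
  exact hi (by rw [hh.1, hh.2, add_zero])

theorem supp_neg (x : I → ℝ) : supp (-x) = supp x := by simp [supp]

theorem supp_mono {x y : I → ℝ} (h : ∀ i, y i = 0 → x i = 0) : supp x ≤ supp y :=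
  card_le_card fun i hi => by
    simp only [mem_filter, mem_univ, true_and] at hi ⊢
    exact fun hh => hi (h i hh)

/-- There is a set of the `s` largest coordinates. -/
theorem exists_top (x : I → ℝ) {s : ℕ} (hs : s ≤ Fintype.card I) :
    ∃ T : Finset I, T.card = s ∧ ∀ i ∈ T, ∀ j, j ∉ T → |x j| ≤ |x i| := by
  classical
  obtain ⟨T, hT, hmax⟩ := exists_max_image (powersetCard s (univ : Finset I))
    (fun T => ∑ i ∈ T, |x i|) (powersetCard_nonempty.2 (by simpa using hs))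
  have hc := (mem_powersetCard.1 hT).2
  refine ⟨T, hc, fun i hi j hj => ?_⟩
  have hj' : j ∉ T.erase i := fun h => hj (mem_of_mem_erase h)
  have h1 := hmax (insert j (T.erase i)) (mem_powersetCard.2 ⟨subset_univ _, by
    rw [card_insert_of_notMem hj', card_erase_of_mem hi, hc]
    have : 0 < s := hc ▸ card_pos.2 ⟨i, hi⟩
    omega⟩)
  rw [sum_insert hj', ← add_sum_erase T _ hi] at h1
  linarith

/-! ### Matrices -/

theorem fro_nonneg (M : Matrix I J ℝ) : 0 ≤ fro M := Real.sqrt_nonneg _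

theorem fro_sq (M : Matrix I J ℝ) : fro M ^ 2 = ∑ i, ∑ j, M i j ^ 2 :=
  Real.sq_sqrt (sum_nonneg fun _ _ => sum_nonneg fun _ _ => sq_nonneg _)

theorem fro_eq_n2 (M : Matrix I J ℝ) : fro M = n2 fun p : I × J => M p.1 p.2 := by
  simp [fro, n2, Fintype.sum_prod_type]

theorem fro_mat (G : GS (I × J)) : fro (mat G) = ‖G‖ := by
  rw [fro_eq_n2, norm_eq_n2]; rfl

theorem fro_sq_rows (M : Matrix I J ℝ) : fro M ^ 2 = ∑ i, n2 (M i) ^ 2 := by
  simp [fro_sq, n2_sq]

theorem fro_sq_cols (M : Matrix I J ℝ) : fro M ^ 2 = ∑ j, n2 (fun i => M i j) ^ 2 := by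
  rw [fro_sq, sum_comm]; simp [n2_sq]

theorem fro_transpose (M : Matrix I J ℝ) : fro Mᵀ = fro M := by
  unfold fro; rw [sum_comm]; rfl

theorem fro_zero : fro (0 : Matrix I J ℝ) = 0 := by simp [fro]

theorem fro_add_le (M N : Matrix I J ℝ) : fro (M + N) ≤ fro M + fro N := by
  simp only [fro_eq_n2]; exact n2_add_le (fun p : I × J => M p.1 p.2) fun p => N p.1 p.2

theorem fro_smul (c : ℝ) (M : Matrix I J ℝ) : fro (c • M) = |c| * fro M := by
  simp only [fro_eq_n2]; exact n2_smul c fun p : I × J => M p.1 p.2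

theorem fro_neg (M : Matrix I J ℝ) : fro (-M) = fro M := by simp [fro]

theorem fro_sub_le (M N : Matrix I J ℝ) : fro (M - N) ≤ fro M + fro N := by
  rw [sub_eq_add_neg]; exact (fro_add_le _ _).trans (by rw [fro_neg])

theorem fro_sum_le {α : Type} (s : Finset α) (M : α → Matrix I J ℝ) :
    fro (∑ a ∈ s, M a) ≤ ∑ a ∈ s, fro (M a) :=
  Finset.le_sum_of_subadditive fro fro_zero.le fro_add_le s M

theorem fro_eq_zero {M : Matrix I J ℝ} (h : fro M = 0) : M = 0 := by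
  rw [fro_eq_n2] at h
  ext i j; exact congrFun (n2_eq_zero h) (i, j)

theorem fro_mono {M N : Matrix I J ℝ} (h : ∀ i j, |M i j| ≤ |N i j|) : fro M ≤ fro N := by
  simp only [fro_eq_n2]; exact n2_mono fun p => h _ _

/-- Rowwise comparison. -/
theorem fro_le_rows {J' : Type} [Fintype J'] {M : Matrix I J ℝ} {N : Matrix I J' ℝ} {a c : ℝ}
    (ha : 0 ≤ a) (hc : 0 ≤ c) (h : ∀ i, a * n2 (M i) ≤ c * n2 (N i)) : a * fro M ≤ c * fro N := by
  refine le_of_sq_le_sq' (mul_nonneg hc (fro_nonneg _)) ?_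
  rw [mul_pow, mul_pow, fro_sq_rows, fro_sq_rows, mul_sum, mul_sum]
  refine sum_le_sum fun i _ => ?_
  rw [← mul_pow, ← mul_pow]
  exact pow_le_pow_left₀ (mul_nonneg ha (n2_nonneg _)) (h i) 2

/-- Columnwise comparison. -/
theorem fro_le_cols {I' : Type} [Fintype I'] {M : Matrix I J ℝ} {N : Matrix I' J ℝ} {a c : ℝ}
    (ha : 0 ≤ a) (hc : 0 ≤ c) (h : ∀ j, a * n2 (fun i => M i j) ≤ c * n2 fun i => N i j) :
    a * fro M ≤ c * fro N := by
  rw [← fro_transpose M, ← fro_transpose N]; exact fro_le_rows ha hc h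

omit [Fintype I] [Fintype K] in
theorem col_mul (A : Matrix I J ℝ) (B : Matrix J K ℝ) (k : K) :
    (fun i => (A * B) i k) = A *ᵥ fun j => B j k := rfl

omit [Fintype I] [Fintype K] in
theorem row_mul (A : Matrix I J ℝ) (B : Matrix J K ℝ) (i : I) : (A * B) i = Bᵀ *ᵥ A i := by
  ext k; simp [mul_apply, mulVec, dotProduct, mul_comm]

theorem fro_mul_le_left {A : Matrix I J ℝ} {c : ℝ} (hc : 0 ≤ c) (B : Matrix J K ℝ)
    (h : ∀ k, n2 (A *ᵥ fun j => B j k) ≤ c * n2 fun j => B j k) : fro (A * B) ≤ c * fro B := by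
  have := fro_le_cols (M := A * B) (N := B) zero_le_one hc fun k => by
    rw [one_mul, col_mul]; exact h k
  rwa [one_mul] at this

theorem fro_mul_le_right {B : Matrix J K ℝ} {c : ℝ} (hc : 0 ≤ c) (A : Matrix I J ℝ)
    (h : ∀ i, n2 (Bᵀ *ᵥ A i) ≤ c * n2 (A i)) : fro (A * B) ≤ c * fro A := by
  have := fro_le_rows (M := A * B) (N := A) zero_le_one hc fun k => by
    rw [one_mul, row_mul]; exact h k
  rwa [one_mul] at this

theorem le_fro_mul_left {A : Matrix I J ℝ} {c : ℝ} (hc : 0 ≤ c) (B : Matrix J K ℝ)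
    (h : ∀ k, c * n2 (fun j => B j k) ≤ n2 (A *ᵥ fun j => B j k)) : c * fro B ≤ fro (A * B) := by
  have := fro_le_cols (N := A * B) (M := B) hc zero_le_one fun k => by
    rw [one_mul, col_mul]; exact h k
  rwa [one_mul] at this

theorem le_fro_mul_right {B : Matrix J K ℝ} {c : ℝ} (hc : 0 ≤ c) (A : Matrix I J ℝ)
    (h : ∀ i, c * n2 (A i) ≤ n2 (Bᵀ *ᵥ A i)) : c * fro A ≤ fro (A * B) := by
  have := fro_le_rows (N := A * B) (M := A) hc zero_le_one fun k => by
    rw [one_mul, row_mul]; exact h k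
  rwa [one_mul] at this

theorem dot_mulVec_eq (A : Matrix I J ℝ) (w : I → ℝ) (v : J → ℝ) :
    w ⬝ᵥ A *ᵥ v = Aᵀ *ᵥ w ⬝ᵥ v := by
  rw [dotProduct_mulVec, mulVec_transpose]

/-- An operator bound passes to the transpose. -/
theorem op_transpose {A : Matrix I J ℝ} {c : ℝ} (hc : 0 ≤ c) (h : ∀ v, n2 (A *ᵥ v) ≤ c * n2 v)
    (w : I → ℝ) : n2 (Aᵀ *ᵥ w) ≤ c * n2 w := by
  refine le_of_sq_le_mul (n2_nonneg _) (mul_nonneg hc (n2_nonneg _)) ?_
  rw [n2_sq_dot, ← dot_mulVec_eq]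
  refine (dot_le _ _).trans ?_
  have := mul_le_mul_of_nonneg_left (h (Aᵀ *ᵥ w)) (n2_nonneg w)
  linarith

theorem n2_mulVec_le (A : Matrix I J ℝ) (v : J → ℝ) : n2 (A *ᵥ v) ≤ fro A * n2 v := by
  refine n2_le_of_sq (mul_nonneg (fro_nonneg _) (n2_nonneg _)) ?_
  rw [mul_pow, fro_sq_rows, sum_mul]
  refine sum_le_sum fun i _ => ?_
  rw [← mul_pow, ← sq_abs]
  exact pow_le_pow_left₀ (abs_nonneg _) (abs_dot_le _ _) 2

theorem fro_mul_le (A : Matrix I J ℝ) (B : Matrix J K ℝ) : fro (A * B) ≤ fro A * fro B :=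
  fro_mul_le_left (fro_nonneg _) B fun _ => n2_mulVec_le _ _

theorem sum_rows_le (M : Matrix I J ℝ) : ∑ i, n2 (M i) ≤ sq I * fro M := by
  have h := l1_le (fun i => n2 (M i))
  have h2 : n2 (fun i => n2 (M i)) = fro M := by
    rw [n2, ← fro_sq_rows, Real.sqrt_sq (fro_nonneg _)]
  rw [h2] at h
  refine le_trans (le_of_eq ?_) h
  exact sum_congr rfl fun i _ => (abs_of_nonneg (n2_nonneg _)).symm

theorem sum_cols_le (M : Matrix I J ℝ) : ∑ j, n2 (fun i => M i j) ≤ sq J * fro M := by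
  rw [← fro_transpose]; exact sum_rows_le Mᵀ

theorem sum_l1_le (M : Matrix I J ℝ) : ∑ i, l1 (M i) ≤ sq I * sq J * fro M := by
  refine (sum_le_sum fun i _ => l1_le (M i)).trans ?_
  rw [← mul_sum, mul_comm (sq I), mul_assoc]
  exact mul_le_mul_of_nonneg_left (sum_rows_le M) sq_nonneg'

omit [Fintype K] in
theorem sum_l1_cols (M : Matrix I J ℝ) : ∑ j, l1 (fun i => M i j) = ∑ i, l1 (M i) := by
  unfold l1; exact sum_comm

/-- Frobenius inner product. -/
def ip (M N : Matrix I J ℝ) : ℝ := ∑ i, ∑ j, M i j * N i j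

theorem ip_comm (M N : Matrix I J ℝ) : ip M N = ip N M := by simp [ip, mul_comm]

theorem ip_self (M : Matrix I J ℝ) : ip M M = fro M ^ 2 := by
  rw [fro_sq]; simp [ip, pow_two]

theorem ip_eq_dot (M N : Matrix I J ℝ) :
    ip M N = (fun p : I × J => M p.1 p.2) ⬝ᵥ fun p => N p.1 p.2 := by
  simp [ip, dotProduct, Fintype.sum_prod_type]

theorem ip_le (M N : Matrix I J ℝ) : ip M N ≤ fro M * fro N := by
  rw [ip_eq_dot, fro_eq_n2, fro_eq_n2]; exact dot_le _ _

theorem abs_ip_le (M N : Matrix I J ℝ) : |ip M N| ≤ fro M * fro N := by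
  rw [ip_eq_dot, fro_eq_n2, fro_eq_n2]; exact abs_dot_le _ _

theorem ip_add_left (M M' N : Matrix I J ℝ) : ip (M + M') N = ip M N + ip M' N := by
  simp [ip, add_mul, sum_add_distrib]

theorem ip_add_right (M N N' : Matrix I J ℝ) : ip M (N + N') = ip M N + ip M N' := by
  simp [ip, mul_add, sum_add_distrib]

theorem ip_sub_left (M M' N : Matrix I J ℝ) : ip (M - M') N = ip M N - ip M' N := by
  simp [ip, sub_mul, sum_sub_distrib]

theorem ip_sub_right (M N N' : Matrix I J ℝ) : ip M (N - N') = ip M N - ip M N' := by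
  simp [ip, mul_sub, sum_sub_distrib]

theorem ip_smul_left (c : ℝ) (M N : Matrix I J ℝ) : ip (c • M) N = c * ip M N := by
  simp [ip, mul_sum, mul_assoc]

theorem ip_smul_right (c : ℝ) (M N : Matrix I J ℝ) : ip M (c • N) = c * ip M N := by
  rw [ip_comm, ip_smul_left, ip_comm]

theorem ip_zero_left (N : Matrix I J ℝ) : ip 0 N = 0 := by simp [ip]

theorem ip_zero_right (N : Matrix I J ℝ) : ip N 0 = 0 := by simp [ip]

theorem ip_sum_left {α : Type} (s : Finset α) (M : α → Matrix I J ℝ) (N : Matrix I J ℝ) :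
    ip (∑ a ∈ s, M a) N = ∑ a ∈ s, ip (M a) N := by
  classical
  induction s using Finset.induction_on with
  | empty => simp [ip_zero_left]
  | insert a s ha ih => rw [sum_insert ha, sum_insert ha, ip_add_left, ih]

theorem ip_sum_right {α : Type} (s : Finset α) (M : α → Matrix I J ℝ) (N : Matrix I J ℝ) :
    ip N (∑ a ∈ s, M a) = ∑ a ∈ s, ip N (M a) := by
  rw [ip_comm, ip_sum_left]; simp only [ip_comm]

theorem ip_transpose (M N : Matrix I J ℝ) : ip Mᵀ Nᵀ = ip M N := by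
  unfold ip; rw [sum_comm]; rfl

theorem ip_eq_trace (M N : Matrix I J ℝ) : ip M N = (Mᵀ * N).trace := by
  unfold ip; rw [sum_comm]; simp [trace, mul_apply]

theorem ip_mul_left (A : Matrix I J ℝ) (B : Matrix J K ℝ) (C : Matrix I K ℝ) :
    ip (A * B) C = ip B (Aᵀ * C) := by
  simp only [ip_eq_trace, transpose_mul, Matrix.mul_assoc]

theorem ip_mul_right (A : Matrix I J ℝ) (B : Matrix J K ℝ) (C : Matrix I K ℝ) :
    ip (A * B) C = ip A (C * Bᵀ) := by
  rw [← ip_transpose, transpose_mul, ip_mul_left, ← ip_transpose A, transpose_mul,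
    transpose_transpose]

theorem fro_pyth {M N : Matrix I J ℝ} (h : ip M N = 0) :
    fro (M + N) ^ 2 = fro M ^ 2 + fro N ^ 2 := by
  simp only [← ip_self, ip_add_left, ip_add_right, h, ip_comm N M]; ring

end vec

/-! ### Projections -/

section pr
variable {Ω : Type} [Fintype Ω]

theorem mem_perp {A : Submodule ℝ (Ω → ℝ)} {x : Ω → ℝ} : x ∈ perp A ↔ ∀ a ∈ A, a ⬝ᵥ x = 0 :=
  Iff.rfl

theorem perp_anti {A B : Submodule ℝ (Ω → ℝ)} (h : A ≤ B) : perp B ≤ perp A :=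
  fun _ hx a ha => hx a (h ha)

theorem le_perp_perp (A : Submodule ℝ (Ω → ℝ)) : A ≤ perp (perp A) :=
  fun x hx a ha => by rw [dotProduct_comm]; exact ha x hx

theorem Perp.symm {A B : Submodule ℝ (Ω → ℝ)} (h : Perp A B) : Perp B A :=
  fun b hb a ha => by rw [dotProduct_comm]; exact h a ha b hb

theorem Perp.le_perp {A B : Submodule ℝ (Ω → ℝ)} (h : Perp A B) : B ≤ perp A :=
  fun b hb a ha => h a ha b hb

theorem Perp.sup_left {A A' B : Submodule ℝ (Ω → ℝ)} (h : Perp A B) (h' : Perp A' B) :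
    Perp (A ⊔ A') B := fun a ha b hb => by
  obtain ⟨x, hx, y, hy, rfl⟩ := Submodule.mem_sup.1 ha
  rw [add_dotProduct, h x hx b hb, h' y hy b hb, add_zero]

theorem Perp.sup_right {A B B' : Submodule ℝ (Ω → ℝ)} (h : Perp A B) (h' : Perp A B') :
    Perp A (B ⊔ B') := (h.symm.sup_left h'.symm).symm

theorem perp_sup (A B : Submodule ℝ (Ω → ℝ)) : perp (A ⊔ B) = perp A ⊓ perp B := by
  refine le_antisymm (le_inf (perp_anti le_sup_left) (perp_anti le_sup_right)) ?_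
  intro x hx a ha
  obtain ⟨y, hy, z, hz, rfl⟩ := Submodule.mem_sup.1 ha
  rw [add_dotProduct, hx.1 y hy, hx.2 z hz, add_zero]

theorem finrank_euc (A : Submodule ℝ (Ω → ℝ)) : finrank ℝ (euc A) = finrank ℝ A := by
  have : euc A = A.map (WithLp.linearEquiv 2 ℝ (Ω → ℝ)).symm.toLinearMap := by
    rw [euc, Submodule.comap_equiv_eq_map_symm]
  rw [this]; exact LinearEquiv.finrank_map_eq _ _

theorem mem_euc {A : Submodule ℝ (Ω → ℝ)} {x : EuclideanSpace ℝ Ω} :
    x ∈ euc A ↔ (fun i => x i) ∈ A := Iff.rfl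

variable [DecidableEq Ω]

theorem proj_mulVec (A : Submodule ℝ (Ω → ℝ)) (x : Ω → ℝ) :
    proj A *ᵥ x = fun i => (euc A).starProjection (WithLp.toLp 2 x) i := by
  have hx : (WithLp.toLp 2 x : EuclideanSpace ℝ Ω) =
      ∑ j, x j • (EuclideanSpace.single j 1 : EuclideanSpace ℝ Ω) := by
    ext i; simp [Pi.single_apply]
  ext i
  rw [hx, map_sum]
  simp [proj, mulVec, dotProduct, mul_comm]

theorem proj_mem (A : Submodule ℝ (Ω → ℝ)) (x : Ω → ℝ) : proj A *ᵥ x ∈ A := by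
  rw [proj_mulVec]; exact (euc A).starProjection_apply_mem _

theorem sub_proj_mem (A : Submodule ℝ (Ω → ℝ)) (x : Ω → ℝ) : x - proj A *ᵥ x ∈ perp A := by
  intro a ha
  have h := (euc A).sub_starProjection_mem_orthogonal (WithLp.toLp 2 x) (WithLp.toLp 2 a) ha
  rw [proj_mulVec]
  simp only [PiLp.inner_apply, RCLike.inner_apply, conj_trivial] at h
  rw [← h, dotProduct]
  exact sum_congr rfl fun i _ => by simp [mul_comm]

theorem proj_unique {A : Submodule ℝ (Ω → ℝ)} {x a : Ω → ℝ} (ha : a ∈ A) (hx : x - a ∈ perp A) :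
    proj A *ᵥ x = a := by
  have h1 : proj A *ᵥ x - a ∈ A := A.sub_mem (proj_mem A x) ha
  have h2 : proj A *ᵥ x - a ∈ perp A := by
    have := (perp A).sub_mem hx (sub_proj_mem A x)
    rwa [show x - a - (x - proj A *ᵥ x) = proj A *ᵥ x - a by abel] at this
  have h3 := h2 _ h1
  rw [← n2_sq_dot] at h3
  exact sub_eq_zero.1 (n2_eq_zero (pow_eq_zero_iff two_ne_zero |>.1 h3))

theorem proj_of_mem {A : Submodule ℝ (Ω → ℝ)} {x : Ω → ℝ} (hx : x ∈ A) : proj A *ᵥ x = x :=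
  proj_unique hx (by simp)

theorem proj_of_perp {A : Submodule ℝ (Ω → ℝ)} {x : Ω → ℝ} (hx : x ∈ perp A) :
    proj A *ᵥ x = 0 := proj_unique A.zero_mem (by simpa using hx)

theorem dot_proj {A : Submodule ℝ (Ω → ℝ)} {a : Ω → ℝ} (ha : a ∈ A) (x : Ω → ℝ) :
    a ⬝ᵥ proj A *ᵥ x = a ⬝ᵥ x := by
  have := sub_proj_mem A x a ha
  rw [dotProduct_sub] at this; linarith

theorem proj_dot (A : Submodule ℝ (Ω → ℝ)) (x y : Ω → ℝ) :
    proj A *ᵥ x ⬝ᵥ y = x ⬝ᵥ proj A *ᵥ y := by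
  rw [← dot_proj (proj_mem A x) y, dotProduct_comm x, ← dot_proj (proj_mem A y) x,
    dotProduct_comm]

theorem ext_mulVec {J : Type} {M N : Matrix J Ω ℝ} (h : ∀ x, M *ᵥ x = N *ᵥ x) : M = N := by
  ext i j
  have := congrFun (h (Pi.single j 1)) i
  simpa using this

theorem proj_transpose (A : Submodule ℝ (Ω → ℝ)) : (proj A)ᵀ = proj A := by
  ext i j
  have := proj_dot A (Pi.single i 1) (Pi.single j 1)
  simpa using this

theorem proj_mul_of_le {A B : Submodule ℝ (Ω → ℝ)} (h : A ≤ B) : proj B * proj A = proj A :=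
  ext_mulVec fun x => by rw [← mulVec_mulVec, proj_of_mem (h (proj_mem A x))]

theorem proj_mul_of_le' {A B : Submodule ℝ (Ω → ℝ)} (h : A ≤ B) : proj A * proj B = proj A := by
  have := congrArg transpose (proj_mul_of_le h)
  rwa [transpose_mul, proj_transpose, proj_transpose] at this

theorem proj_mul_self (A : Submodule ℝ (Ω → ℝ)) : proj A * proj A = proj A :=
  proj_mul_of_le le_rfl

theorem proj_mul_of_perp {A B : Submodule ℝ (Ω → ℝ)} (h : Perp A B) : proj A * proj B = 0 :=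
  ext_mulVec fun x => by
    rw [← mulVec_mulVec, proj_of_perp (h.le_perp (proj_mem B x)), zero_mulVec]

theorem proj_pyth (A : Submodule ℝ (Ω → ℝ)) (x : Ω → ℝ) :
    n2 x ^ 2 = n2 (proj A *ᵥ x) ^ 2 + n2 (x - proj A *ᵥ x) ^ 2 := by
  rw [← n2_pyth (sub_proj_mem A x _ (proj_mem A x)), add_sub_cancel]

theorem n2_proj_le (A : Submodule ℝ (Ω → ℝ)) (x : Ω → ℝ) : n2 (proj A *ᵥ x) ≤ n2 x := by
  refine le_of_sq_le_sq' (n2_nonneg _) ?_
  rw [proj_pyth A x]; nlinarith [sq_nonneg (n2 (x - proj A *ᵥ x))]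

theorem perp_perp (A : Submodule ℝ (Ω → ℝ)) : perp (perp A) = A := by
  refine le_antisymm (fun x hx => ?_) (le_perp_perp A)
  have h1 := sub_proj_mem A x
  have h2 : x - proj A *ᵥ x ∈ perp (perp A) :=
    (perp (perp A)).sub_mem hx (le_perp_perp A (proj_mem A x))
  have h3 := h2 _ h1
  rw [← n2_sq_dot] at h3
  rw [sub_eq_zero.1 (n2_eq_zero (pow_eq_zero_iff two_ne_zero |>.1 h3))]
  exact proj_mem A x

theorem perp_inf (A B : Submodule ℝ (Ω → ℝ)) : perp (A ⊓ B) = perp A ⊔ perp B := by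
  rw [← perp_perp (perp A ⊔ perp B), perp_sup, perp_perp, perp_perp]

theorem proj_perp (A : Submodule ℝ (Ω → ℝ)) : proj (perp A) = 1 - proj A :=
  ext_mulVec fun x => by
    rw [sub_mulVec, one_mulVec]
    exact proj_unique (sub_proj_mem A x) (by simpa using le_perp_perp A (proj_mem A x))

theorem proj_sup {A B : Submodule ℝ (Ω → ℝ)} (h : Perp A B) :
    proj (A ⊔ B) = proj A + proj B :=
  ext_mulVec fun x => by
    rw [add_mulVec]
    refine proj_unique (Submodule.add_mem_sup (proj_mem A x) (proj_mem B x)) ?_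
    rw [perp_sup]
    refine ⟨?_, ?_⟩
    · rw [← sub_sub]
      exact (perp A).sub_mem (sub_proj_mem A x) (h.le_perp (proj_mem B x))
    · rw [add_comm, ← sub_sub]
      exact (perp B).sub_mem (sub_proj_mem B x) (h.symm.le_perp (proj_mem A x))

theorem proj_bot : proj (⊥ : Submodule ℝ (Ω → ℝ)) = 0 :=
  ext_mulVec fun x => by rw [zero_mulVec]; exact (Submodule.mem_bot ℝ).1 (proj_mem ⊥ x)

theorem proj_inf_perp {A B : Submodule ℝ (Ω → ℝ)} (h : A ≤ B) :
    proj (B ⊓ perp A) = proj B - proj A :=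
  ext_mulVec fun x => by
    rw [sub_mulVec]
    have h1 : proj A *ᵥ x = proj A *ᵥ (proj B *ᵥ x) := by rw [mulVec_mulVec, proj_mul_of_le' h]
    refine proj_unique ⟨B.sub_mem (proj_mem B x) (h (proj_mem A x)), ?_⟩ ?_
    · rw [h1]; exact sub_proj_mem A _
    · rw [perp_inf, perp_perp, show x - (proj B *ᵥ x - proj A *ᵥ x) =
        (x - proj B *ᵥ x) + proj A *ᵥ x by abel]
      exact Submodule.add_mem_sup (sub_proj_mem B x) (proj_mem A x)

theorem fro_proj_mul_le {J : Type} [Fintype J] (A : Submodule ℝ (Ω → ℝ)) (M : Matrix Ω J ℝ) :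
    fro (proj A * M) ≤ fro M := by
  simpa using fro_mul_le_left zero_le_one M fun _ => by rw [one_mul]; exact n2_proj_le A _

theorem fro_mul_proj_le {J : Type} [Fintype J] (A : Submodule ℝ (Ω → ℝ)) (M : Matrix J Ω ℝ) :
    fro (M * proj A) ≤ fro M := by
  simpa using fro_mul_le_right zero_le_one M fun _ => by
    rw [one_mul, proj_transpose]; exact n2_proj_le A _

theorem trace_proj (A : Submodule ℝ (Ω → ℝ)) : (proj A).trace = finrank ℝ A := by
  have h : LinearMap.IsProj A (Matrix.toLin' (proj A)) :=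
    ⟨fun x => proj_mem A x, fun x hx => proj_of_mem hx⟩
  rw [← h.trace, Matrix.trace_toLin'_eq]

theorem fro_proj_sq (A : Submodule ℝ (Ω → ℝ)) : fro (proj A) ^ 2 = finrank ℝ A := by
  rw [← ip_self, ip_eq_trace, proj_transpose, proj_mul_self, trace_proj]

/-- The columns of `M` lie in `A` iff `proj A * M = M`. -/
theorem proj_mul_eq_self {J : Type} {A : Submodule ℝ (Ω → ℝ)} {M : Matrix Ω J ℝ}
    (h : ∀ j, (fun i => M i j) ∈ A) : proj A * M = M := by
  ext i j; exact congrFun (proj_of_mem (h j)) i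

theorem proj_mul_eq_zero {J : Type} {A : Submodule ℝ (Ω → ℝ)} {M : Matrix Ω J ℝ}
    (h : ∀ j, (fun i => M i j) ∈ perp A) : proj A * M = 0 := by
  ext i j; exact congrFun (proj_of_perp (h j)) i

theorem mul_proj_eq_self {J : Type} {A : Submodule ℝ (Ω → ℝ)} {M : Matrix J Ω ℝ}
    (h : ∀ j, M j ∈ A) : M * proj A = M := by
  ext j i; rw [row_mul, proj_transpose, proj_of_mem (h j)]

theorem mul_proj_eq_zero {J : Type} {A : Submodule ℝ (Ω → ℝ)} {M : Matrix J Ω ℝ}
    (h : ∀ j, M j ∈ perp A) : M * proj A = 0 := by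
  ext j i; rw [row_mul, proj_transpose, proj_of_perp (h j)]; rfl

/-- Vectors supported in `S`. -/
def coordS (S : Finset Ω) : Submodule ℝ (Ω → ℝ) where
  carrier := {x | ∀ i, i ∉ S → x i = 0}
  add_mem' := fun hx hy i hi => by simp [hx i hi, hy i hi]
  zero_mem' := fun _ _ => rfl
  smul_mem' := fun c x hx i hi => by simp [hx i hi]

omit [Fintype Ω] [DecidableEq Ω] in
theorem mem_coordS {S : Finset Ω} {x : Ω → ℝ} : x ∈ coordS S ↔ ∀ i, i ∉ S → x i = 0 := Iff.rfl

theorem perp_coordS (S : Finset Ω) : perp (coordS S) = coordS Sᶜ := by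
  ext x
  refine ⟨fun h i hi => ?_, fun h a ha => ?_⟩
  · have := h (Pi.single i 1) fun j hj => by
      rw [Pi.single_apply, if_neg]; rintro rfl; simp [hj] at hi
    simpa using this
  · refine sum_eq_zero fun i _ => ?_
    by_cases hi : i ∈ S
    · rw [h i (by simpa using hi), mul_zero]
    · rw [ha i hi, zero_mul]

theorem finrank_coordS_le (S : Finset Ω) : finrank ℝ (coordS S) ≤ S.card := by
  have : coordS S ≤ Submodule.span ℝ (↑(S.image fun i => (Pi.single i 1 : Ω → ℝ)) : Set (Ω → ℝ)) := by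
    intro x hx
    have hx' : x = ∑ i ∈ S, x i • (Pi.single i 1 : Ω → ℝ) := by
      ext j
      by_cases hj : j ∈ S
      · simp [Pi.single_apply, hj]
      · simp [Pi.single_apply, hj, hx j hj]
    rw [hx']
    exact Submodule.sum_mem _ fun i hi => Submodule.smul_mem _ _
      (Submodule.subset_span (by simpa using ⟨i, hi, rfl⟩))
  exact (Submodule.finrank_mono this).trans ((finrank_span_finset_le_card _).trans card_image_le)

end pr

end Pool.Agent.P.MP_1bacd4_an
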