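import Pool.Agent.P.MP_1bacd4_an.Basic

/-! One step of the Gaussian chaining. -/

set_option autoImplicit false

namespace Pool.Agent.P.MP_1bacd4_an

open Finset Module MeasureTheory ProbabilityTheory Matrix

noncomputable section

namespace ChainA

/-- Jensen for the square root. -/
lemma int_sqrt {X : Type} [MeasurableSpace X] {μ : Measure X} [IsProbabilityMeasure μ]
    {Q : X → ℝ} (hQ : Integrable Q μ) (h0 : ∀ x, 0 ≤ Q x) {c : ℝ} (hc : 0 ≤ c)
    (h : ∫ x, Q x ∂μ ≤ c ^ 2) :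
    Integrable (fun x => √(Q x)) μ ∧ ∫ x, √(Q x) ∂μ ≤ c := by
  have hb : ∀ (d : ℝ), 0 < d → ∀ x, √(Q x) ≤ (2 * d)⁻¹ * Q x + d / 2 := fun d hd x => by
    have h1 : √(Q x) ^ 2 = Q x := Real.sq_sqrt (h0 x)
    have h2 : (2 * d)⁻¹ * Q x + d / 2 - √(Q x) = (2 * d)⁻¹ * (√(Q x) - d) ^ 2 := by
      rw [sub_sq, h1]; field_simp; ring
    have h3 : 0 ≤ (2 * d)⁻¹ * (√(Q x) - d) ^ 2 := by positivity
    linarith
  have hi : ∀ d : ℝ, Integrable (fun x => (2 * d)⁻¹ * Q x + d / 2) μ := fun d =>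
    (hQ.const_mul _).add (integrable_const _)
  have hI : Integrable (fun x => √(Q x)) μ := by
    refine (hi 1).mono' (Real.continuous_sqrt.comp_aestronglyMeasurable hQ.1)
      (Filter.Eventually.of_forall fun x => ?_)
    rw [Real.norm_eq_abs, abs_of_nonneg (Real.sqrt_nonneg _)]
    exact hb 1 one_pos x
  refine ⟨hI, le_of_forall_pos_le_add fun δ hδ => ?_⟩
  have hd : 0 < c + δ := by linarith
  refine (integral_mono hI (hi (c + δ)) (hb _ hd)).trans ?_
  rw [integral_add (hQ.const_mul _) (integrable_const _), integral_const_mul, integral_const]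
  have h4 : (2 * (c + δ))⁻¹ * ∫ x, Q x ∂μ ≤ (2 * (c + δ))⁻¹ * (c + δ) ^ 2 :=
    mul_le_mul_of_nonneg_left (h.trans (by nlinarith)) (by positivity)
  have h5 : (2 * (c + δ))⁻¹ * (c + δ) ^ 2 = (c + δ) / 2 := by field_simp
  simp only [probReal_univ, smul_eq_mul, one_mul]
  linarith

/-- Fourth moment of a shifted Gaussian. -/
lemma four (hm : S_Mom) {I : Type} [Fintype I] (u : I → ℝ) (y : ℝ) :
    Integrable (fun x : GS I => (y + ∑ i, u i * x i) ^ 4) (gm I) ∧
      ∫ x : GS I, (y + ∑ i, u i * x i) ^ 4 ∂(gm I) ≤ (y ^ 2 + 3 * ∑ i, u i ^ 2) ^ 2 := by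
  have e : (fun x : GS I => (y + ∑ i, u i * x i) ^ 4) = fun x : GS I =>
      y ^ 4 + 4 * y ^ 3 * (∑ i, u i * x i) ^ 1 + 6 * y ^ 2 * (∑ i, u i * x i) ^ 2 +
        4 * y * (∑ i, u i * x i) ^ 3 + (∑ i, u i * x i) ^ 4 := by
    funext x; ring
  have i0 : Integrable (fun _ : GS I => y ^ 4) (gm I) := integrable_const _
  have i1 := (hm.int I u 1).const_mul (4 * y ^ 3)
  have i2 := (hm.int I u 2).const_mul (6 * y ^ 2)
  have i3 := (hm.int I u 3).const_mul (4 * y)
  have i4 := hm.int I u 4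
  have j1 : Integrable (fun x : GS I => y ^ 4 + 4 * y ^ 3 * (∑ i, u i * x i) ^ 1) (gm I) :=
    i0.add i1
  have j2 : Integrable (fun x : GS I => y ^ 4 + 4 * y ^ 3 * (∑ i, u i * x i) ^ 1 +
      6 * y ^ 2 * (∑ i, u i * x i) ^ 2) (gm I) := j1.add i2
  have j3 : Integrable (fun x : GS I => y ^ 4 + 4 * y ^ 3 * (∑ i, u i * x i) ^ 1 +
      6 * y ^ 2 * (∑ i, u i * x i) ^ 2 + 4 * y * (∑ i, u i * x i) ^ 3) (gm I) := j2.add i3
  rw [e]
  refine ⟨j3.add i4, ?_⟩
  have m1 : ∫ x : GS I, (∑ i, u i * x i) ^ 1 ∂(gm I) = 0 := by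
    simp only [pow_one]; exact hm.one I u
  have m2 : ∫ x : GS I, (∑ i, u i * x i) ^ 2 ∂(gm I) = ∑ i, u i ^ 2 := by
    simp only [pow_two]; exact hm.two I u u
  rw [integral_add j3 i4, integral_add j2 i3, integral_add j1 i2, integral_add i0 i1,
    integral_const_mul, integral_const_mul, integral_const_mul, m1, m2, hm.three, hm.four,
    integral_const]
  simp only [probReal_univ, smul_eq_mul, one_mul]
  nlinarith [sq_nonneg (∑ i, u i ^ 2)]

variable {Ω J : Type} [Fintype Ω] [Fintype J]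

lemma row (hm : S_Mom) (y : Ω → ℝ) (a : J → ℝ) :
    Integrable (fun b : GS (Ω × J) => √(∑ w, (y w + ∑ j, a j * b (w, j)) ^ 4)) (gm (Ω × J)) ∧
      ∫ b : GS (Ω × J), √(∑ w, (y w + ∑ j, a j * b (w, j)) ^ 4) ∂(gm (Ω × J)) ≤
        √(∑ w, y w ^ 4) + 3 * sq Ω * ∑ j, a j ^ 2 := by
  classical
  let u : Ω → Ω × J → ℝ := fun w p => if p.1 = w then a p.2 else 0
  have hu : ∀ w (b : GS (Ω × J)), ∑ p, u w p * b p = ∑ j, a j * b (w, j) := fun w b => by
    simp [u, Fintype.sum_prod_type, ite_mul]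
  have hu2 : ∀ w, ∑ p, u w p ^ 2 = ∑ j, a j ^ 2 := fun w => by
    simp [u, Fintype.sum_prod_type]
  have h4 := fun w => four hm (u w) (y w)
  simp only [hu, hu2] at h4
  set v := ∑ j, a j ^ 2 with hv
  have hv0 : 0 ≤ v := sum_nonneg fun _ _ => sq_nonneg _
  have hs : 0 ≤ sq Ω := sq_nonneg'
  refine int_sqrt (integrable_finsetSum _ fun w _ => (h4 w).1)
    (fun b => sum_nonneg fun w _ => by positivity) (by positivity) ?_
  rw [integral_finsetSum _ fun w _ => (h4 w).1]
  refine (sum_le_sum fun w _ => (h4 w).2).trans ?_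
  have h1 := n2_add_le (fun w => y w ^ 2) fun _ : Ω => 3 * v
  have h2 : n2 (fun w => y w ^ 2) = √(∑ w, y w ^ 4) := by
    simp only [n2, ← pow_mul]
  have h3 : n2 (fun _ : Ω => 3 * v) = 3 * sq Ω * v := by
    rw [n2, sum_const, card_univ, nsmul_eq_mul, Real.sqrt_mul (Nat.cast_nonneg _),
      Real.sqrt_sq (by positivity), sq]
    ring
  rw [h2, h3] at h1
  have h5 := n2_sq ((fun w => y w ^ 2) + fun _ : Ω => 3 * v)
  simp only [Pi.add_apply] at h5
  rw [← h5]
  exact pow_le_pow_left₀ (n2_nonneg _) h1 2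

lemma int_pot (hm : S_Mom) (Y : Matrix Ω Ω ℝ) (A : Matrix Ω J ℝ) :
    Integrable (fun b : GS (Ω × J) => pot (Y + A * (mat b)ᵀ)) (gm (Ω × J)) ∧
      ∫ b : GS (Ω × J), pot (Y + A * (mat b)ᵀ) ∂(gm (Ω × J)) ≤ pot Y + 3 * sq Ω * fro A ^ 2 := by
  have e : (fun b : GS (Ω × J) => pot (Y + A * (mat b)ᵀ)) = fun b : GS (Ω × J) =>
      ∑ ω, √(∑ w, (Y ω w + ∑ j, A ω j * b (w, j)) ^ 4) := rfl
  rw [e]
  refine ⟨integrable_finsetSum _ fun ω _ => (row hm (Y ω) (A ω)).1, ?_⟩
  rw [integral_finsetSum _ fun ω _ => (row hm (Y ω) (A ω)).1]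
  refine (sum_le_sum fun ω _ => (row hm (Y ω) (A ω)).2).trans_eq ?_
  rw [sum_add_distrib, ← mul_sum, fro_sq, pot]

lemma pot_nonneg (Y : Matrix Ω Ω ℝ) : 0 ≤ pot Y := sum_nonneg fun _ _ => Real.sqrt_nonneg _

lemma cont_pot : Continuous (pot : Matrix Ω Ω ℝ → ℝ) := by
  unfold pot
  refine continuous_finsetSum _ fun ω _ => Real.continuous_sqrt.comp ?_
  exact continuous_finsetSum _ fun w _ => (continuous_id.matrix_elem ω w).pow 4

lemma cont_mat : Continuous (mat : GS (Ω × J) → Matrix Ω J ℝ) :=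
  continuous_matrix fun i j => by
    change Continuous fun G : GS (Ω × J) => G (i, j)
    fun_prop

lemma open_Ok (A : ℕ → Matrix Ω J ℝ) (t : ℕ → ℝ) (η : ℝ) (k : ℕ) : IsOpen (Ok A t η k) := by
  have e : Ok A t η k = ⋃ Δ : ℕ → Matrix Ω J ℝ, ⋃ _ : ∀ j < k, fro (Δ j) < t j,
      {G | pot (∑ j ∈ range k, A j * (mat G - Δ j)ᵀ) <
        (1 + η) ^ k * (1 + 3 * sq Ω * ∑ j ∈ range k, fro (A j) ^ 2)} := by
    ext G; simp [Ok]
  rw [e]
  refine isOpen_iUnion fun Δ => isOpen_iUnion fun _ => isOpen_lt ?_ continuous_const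
  exact cont_pot.comp (continuous_finsetSum _ fun j _ =>
    continuous_const.matrix_mul (cont_mat.sub continuous_const).matrix_transpose)

/-- Markov and concentration: most points are near a point of small potential. -/
lemma near (hc : S_Conc) (hm : S_Mom) (Y : Matrix Ω Ω ℝ) (A : Matrix Ω J ℝ) {β η t : ℝ}
    (hη : 0 < η) (ht : 0 ≤ t) (hY : pot Y < β) :
    (gm (Ω × J)).real {b | ¬ ∃ b0 : GS (Ω × J), fro (mat b - mat b0) < t ∧
      pot (Y + A * (mat b0)ᵀ) < (1 + η) * (β + 3 * sq Ω * fro A ^ 2)} ≤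
      (1 + 1 / η) * Real.exp (-t ^ 2 / 5) := by
  obtain ⟨hi, hle⟩ := int_pot hm Y A
  set β' := β + 3 * sq Ω * fro A ^ 2 with hβ'
  have hs : 0 ≤ sq Ω := sq_nonneg'
  have h3 : 0 ≤ 3 * sq Ω * fro A ^ 2 := by positivity
  have hp : 0 < β' := by linarith [pot_nonneg Y]
  set good : Set (GS (Ω × J)) := {b | pot (Y + A * (mat b)ᵀ) < (1 + η) * β'} with hgood
  have hgo : IsOpen good := isOpen_lt (cont_pot.comp (continuous_const.add
    (continuous_const.matrix_mul cont_mat.matrix_transpose))) continuous_const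
  have hmk := mul_meas_ge_le_integral_of_nonneg (μ := gm (Ω × J))
    (f := fun b : GS (Ω × J) => pot (Y + A * (mat b)ᵀ))
    (Filter.Eventually.of_forall fun b => pot_nonneg _) hi ((1 + η) * β')
  have hco : {b : GS (Ω × J) | (1 + η) * β' ≤ pot (Y + A * (mat b)ᵀ)} = goodᶜ := by
    ext b; simp [hgood]
  rw [hco, probReal_compl_eq_one_sub hgo.measurableSet] at hmk
  have hg : η ≤ (1 + η) * (gm (Ω × J)).real good := by
    have h1 : β' * ((1 + η) * (1 - (gm (Ω × J)).real good)) ≤ β' * 1 := by nlinarith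
    have h2 := le_of_mul_le_mul_left h1 hp
    linarith
  have hne : good.Nonempty := by
    by_contra h
    rw [Set.not_nonempty_iff_eq_empty.1 h, measureReal_empty] at hg
    linarith
  have h := hc (Ω × J) (fun b => Metric.infDist b good) (Metric.lipschitz_infDist_pt good) 0 t ht
  have h1 : (gm (Ω × J)).real good ≤ (gm (Ω × J)).real {b | Metric.infDist b good ≤ 0} :=
    measureReal_mono fun b hb => (Metric.infDist_zero_of_mem hb).le
  refine le_trans (measureReal_mono (s₂ := {b | 0 + t ≤ Metric.infDist b good}) fun b hb => ?_) ?_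
  · by_contra hh
    simp only [Set.mem_ofPred_eq, zero_add, not_le] at hh
    obtain ⟨b0, hb0, hd⟩ := (Metric.infDist_lt_iff hne).1 hh
    refine hb ⟨b0, ?_, hb0⟩
    rw [dist_eq_norm, ← fro_mat] at hd
    exact hd
  · set P := (gm (Ω × J)).real {b | 0 + t ≤ Metric.infDist b good}
    have hP : 0 ≤ P := measureReal_nonneg
    have h2 : η * P ≤ (1 + η) * Real.exp (-t ^ 2 / 5) := by
      calc η * P ≤ (1 + η) * (gm (Ω × J)).real good * P := mul_le_mul_of_nonneg_right hg hP
        _ = (1 + η) * ((gm (Ω × J)).real good * P) := mul_assoc _ _ _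
        _ ≤ _ := mul_le_mul_of_nonneg_left
          ((mul_le_mul_of_nonneg_right h1 hP).trans h) (by linarith)
    refine le_of_mul_le_mul_left (h2.trans_eq ?_) hη
    field_simp
    ring

/-- Right multiplication by a matrix, on the Gaussian space. -/
def rmul (P : Matrix J J ℝ) : GS (Ω × J) →L[ℝ] GS (Ω × J) :=
  LinearMap.toContinuousLinearMap
    { toFun := fun G => WithLp.toLp 2 fun p => (mat G * P) p.1 p.2
      map_add' := fun G H => by
        ext p
        simp [mat, mul_apply, add_mul, sum_add_distrib]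
      map_smul' := fun c G => by
        ext p
        simp [mat, mul_apply, mul_sum, mul_assoc] }

lemma mat_rmul (P : Matrix J J ℝ) (G : GS (Ω × J)) : mat (rmul P G) = mat G * P := rfl

lemma mat_inj {G H : GS (Ω × J)} (h : mat G = mat H) : G = H := by
  ext p
  exact congrFun (congrFun h p.1) p.2

lemma inner_mat (G H : GS (Ω × J)) : inner ℝ G H = ip (mat G) (mat H) := by
  simp [PiLp.inner_apply, ip, mat, Fintype.sum_prod_type, mul_comm]

end ChainA

open ChainA

theorem chain (hc : S_Conc) (hm : S_Mom) : S_Chain := by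
  intro Ω J _ _ _ A t η k hη ht hA
  let U : Submodule ℝ (J → ℝ) := LinearMap.ker (A k).mulVecLin
  have hP1 : ∀ j < k, A j * proj U = A j := fun j hj => mul_proj_eq_self fun ω => by
    ext w
    exact congrFun (congrFun (hA j hj) w) ω
  have hP2 : A k * proj U = 0 := mul_proj_eq_zero fun ω a ha => by
    rw [dotProduct_comm]
    exact congrFun ha ω
  let p : GS (Ω × J) →L[ℝ] GS (Ω × J) := rmul (proj U)
  have hmix := hm.mix (Ω × J) p
    (fun x y => by
      rw [inner_mat, inner_mat, mat_rmul, mat_rmul, ip_mul_right, proj_transpose])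
    (fun x => mat_inj (by rw [mat_rmul, mat_rmul, Matrix.mul_assoc, proj_mul_self]))
  have hG : ∀ a b : GS (Ω × J), (mat (p a + (b - p b)))ᵀ =
      proj U * (mat a)ᵀ + ((mat b)ᵀ - proj U * (mat b)ᵀ) := fun a b => by
    have : mat (p a + (b - p b)) = mat a * proj U + (mat b - mat b * proj U) := rfl
    rw [this, transpose_add, transpose_sub, transpose_mul, transpose_mul, proj_transpose]
  have hG1 : ∀ (a b : GS (Ω × J)) (Δ : Matrix Ω J ℝ), ∀ j < k,
      A j * (mat (p a + (b - p b)) - Δ)ᵀ = A j * (mat a - Δ)ᵀ := fun a b Δ j hj => by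
    rw [transpose_sub, transpose_sub, hG, Matrix.mul_sub, Matrix.mul_sub, Matrix.mul_add,
      Matrix.mul_sub, ← Matrix.mul_assoc, ← Matrix.mul_assoc, hP1 j hj, sub_self, add_zero]
  have hG2 : ∀ a b b0 : GS (Ω × J),
      A k * (mat (p a + (b - p b)) - (mat b - mat b0))ᵀ = A k * (mat b0)ᵀ := fun a b b0 => by
    rw [transpose_sub, transpose_sub, hG, Matrix.mul_sub, Matrix.mul_sub, Matrix.mul_add,
      Matrix.mul_sub, ← Matrix.mul_assoc, ← Matrix.mul_assoc, hP2, Matrix.zero_mul,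
      Matrix.zero_mul]
    abel
  have hS : MeasurableSet (Ok A t η k \ Ok A t η (k + 1)) :=
    (open_Ok A t η k).measurableSet.diff (open_Ok A t η (k + 1)).measurableSet
  have hB : 0 ≤ (1 + 1 / η) * Real.exp (-t k ^ 2 / 5) := by positivity
  have slice : ∀ a : GS (Ω × J),
      (gm (Ω × J)).real {b | p a + (b - p b) ∈ Ok A t η k \ Ok A t η (k + 1)} ≤
        (1 + 1 / η) * Real.exp (-t k ^ 2 / 5) := fun a => by
    by_cases ha : a ∈ Ok A t η k
    · obtain ⟨Δ, hΔ, hpot⟩ := ha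
      refine le_trans (measureReal_mono ?_) (near hc hm _ (A k) hη ht hpot)
      rintro b hb ⟨b0, h1, h2⟩
      refine hb.2 ⟨Function.update Δ k (mat b - mat b0), fun j hj => ?_, ?_⟩
      · rcases Nat.lt_succ_iff_lt_or_eq.1 hj with hj | rfl
        · rw [Function.update_of_ne hj.ne]; exact hΔ j hj
        · rw [Function.update_self]; exact h1
      · rw [sum_range_succ, sum_range_succ, Function.update_self, hG2,
          sum_congr rfl fun j hj => by
            rw [Function.update_of_ne (mem_range.1 hj).ne, hG1 a b _ j (mem_range.1 hj)]]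
        refine h2.trans_le ?_
        have h3 : 1 ≤ (1 + η) ^ k := one_le_pow₀ (by linarith)
        have hs : 0 ≤ sq Ω := sq_nonneg'
        have h4 : 0 ≤ 3 * sq Ω * fro (A k) ^ 2 := by positivity
        rw [pow_succ' (1 + η) k, mul_assoc (1 + η)]
        refine mul_le_mul_of_nonneg_left ?_ (by linarith)
        nlinarith [mul_le_mul_of_nonneg_right h3 h4]
    · have : {b | p a + (b - p b) ∈ Ok A t η k \ Ok A t η (k + 1)} = ∅ := by
        refine Set.eq_empty_of_forall_notMem fun b hb => ha ?_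
        obtain ⟨Δ, hΔ, hpot⟩ := hb.1
        refine ⟨Δ, hΔ, ?_⟩
        rwa [sum_congr rfl fun j hj => hG1 a b _ j (mem_range.1 hj)] at hpot
      rw [this, measureReal_empty]
      exact hB
  rw [Measure.real, ← hmix.measure_preimage hS.nullMeasurableSet,
    Measure.prod_apply (hmix.measurable hS)]
  refine ENNReal.toReal_le_of_le_ofReal hB ?_
  refine (lintegral_mono (g := fun _ => ENNReal.ofReal ((1 + 1 / η) * Real.exp (-t k ^ 2 / 5)))
    fun a => ?_).trans (by simp)
  exact (ENNReal.le_ofReal_iff_toReal_le (measure_ne_top _ _) hB).2 (slice a)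

end

end Pool.Agent.P.MP_1bacd4_an
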