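import Pool.Agent.P.MP_1bacd4_an.Defs

/-! Gaussian concentration for Lipschitz functions, by the rotation argument. -/

set_option autoImplicit false

namespace Pool.Agent.P.MP_1bacd4_an

open Finset MeasureTheory ProbabilityTheory Filter Topology

noncomputable section

namespace ConcA

theorem pi_ac (μ ν : Measure ℝ) [SigmaFinite μ] [SigmaFinite ν] (h : μ ≪ ν) (n : ℕ) :
    Measure.pi (fun _ : Fin n => μ) ≪ Measure.pi (fun _ : Fin n => ν) := by
  induction n with
  | zero =>
    rw [Measure.pi_of_empty _ (fun i => i.elim0), Measure.pi_of_empty _ (fun i => i.elim0)]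
  | succ n ih =>
    have h1 := (measurePreserving_piFinSuccAbove (fun _ : Fin (n + 1) => μ) 0).symm
    have h2 := (measurePreserving_piFinSuccAbove (fun _ : Fin (n + 1) => ν) 0).symm
    rw [← h1.map_eq, ← h2.map_eq]
    exact (h.prod ih).map (MeasurableEquiv.measurable _)

variable {E : Type} [NormedAddCommGroup E] [InnerProductSpace ℝ E] [FiniteDimensional ℝ E]
  [MeasurableSpace E] [BorelSpace E]

theorem ae_diff (f : E → ℝ) (hf : LipschitzWith 1 f) :
    ∀ᵐ x ∂(stdGaussian E), DifferentiableAt ℝ f x := by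
  let T : (Fin (Module.finrank ℝ E) → ℝ) ≃L[ℝ] E :=
    (stdOrthonormalBasis ℝ E).toBasis.equivFun.symm.toContinuousLinearEquiv
  have hT : (fun x : Fin (Module.finrank ℝ E) → ℝ => ∑ i, x i • stdOrthonormalBasis ℝ E i)
      = T := by
    funext x
    exact ((stdOrthonormalBasis ℝ E).toBasis.equivFun_symm_apply x).symm
  rw [stdGaussian, hT, ae_map_iff T.continuous.aemeasurable
    (measurableSet_of_differentiableAt ℝ f)]
  have h1 : ∀ᵐ x ∂(volume : Measure (Fin (Module.finrank ℝ E) → ℝ)),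
      DifferentiableAt ℝ (f ∘ T) x :=
    (hf.comp (T : (Fin (Module.finrank ℝ E) → ℝ) →L[ℝ] E).lipschitz).ae_differentiableAt
  have h2 := pi_ac (gaussianReal 0 1) volume
    (gaussianReal_absolutelyContinuous 0 one_ne_zero) (Module.finrank ℝ E)
  filter_upwards [h2.ae_le h1] with x hx
  exact (T.comp_right_differentiableAt_iff).1 hx

theorem int_exp_norm (c : ℝ) :
    Integrable (fun x : E => Real.exp (c * ‖x‖)) (stdGaussian E) := by
  obtain ⟨C, hC, hi⟩ := IsGaussian.exists_integrable_exp_sq (stdGaussian E)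
  refine (hi.const_mul (Real.exp (c ^ 2 / (4 * C)))).mono' (by fun_prop) ?_
  refine Eventually.of_forall fun x => ?_
  rw [Real.norm_eq_abs, abs_of_pos (Real.exp_pos _), ← Real.exp_add, Real.exp_le_exp]
  have h1 : 0 ≤ (c - 2 * C * ‖x‖) ^ 2 / (4 * C) := by positivity
  have h2 : (c - 2 * C * ‖x‖) ^ 2 / (4 * C) = c ^ 2 / (4 * C) + C * ‖x‖ ^ 2 - c * ‖x‖ := by
    field_simp
    ring
  linarith

theorem int_bound (c : ℝ) :
    Integrable (fun z : E × E => Real.exp (c * (‖z.1‖ + ‖z.2‖)))
      ((stdGaussian E).prod (stdGaussian E)) := by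
  have := (int_exp_norm (E := E) c).mul_prod (int_exp_norm (E := E) c)
  refine this.congr (Eventually.of_forall fun z => ?_)
  simp only [mul_add, Real.exp_add]

theorem mgf_dual (L : E →L[ℝ] ℝ) (c : ℝ) :
    ∫ y, Real.exp (c * L y) ∂(stdGaussian E) = Real.exp (‖L‖ ^ 2 * c ^ 2 / 2) := by
  have h := mgf_gaussianReal (IsGaussian.map_eq_gaussianReal (μ := stdGaussian E) L) c
  rw [integral_strongDual_stdGaussian, variance_dual_stdGaussian,
    Real.coe_toNNReal _ (by positivity)] at h
  simpa [mgf] using h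

/-- The rotated point. -/
def pt (θ : ℝ) (z : E × E) : E := Real.cos θ • z.1 + Real.sin θ • z.2

omit [FiniteDimensional ℝ E] [MeasurableSpace E] [BorelSpace E] in
theorem pt_rot (a b : ℝ) (z : E × E) :
    pt a (ContinuousLinearMap.rotation b z) = pt (b + a) z := by
  simp only [pt, ContinuousLinearMap.rotation_apply, Real.cos_add, Real.sin_add]
  module

omit [FiniteDimensional ℝ E] [MeasurableSpace E] [BorelSpace E] in
theorem pt_zero (z : E × E) : pt 0 z = z.1 := by simp [pt]

omit [FiniteDimensional ℝ E] [MeasurableSpace E] [BorelSpace E] in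
theorem norm_pt_sub (h : ℝ) (hh : 0 ≤ h) (z : E × E) :
    ‖pt h z - z.1‖ ≤ h * (‖z.1‖ + ‖z.2‖) := by
  have e : pt h z - z.1 = (Real.cos h - Real.cos 0) • z.1 + Real.sin h • z.2 := by
    simp only [pt, Real.cos_zero]
    module
  have h1 : |Real.cos h - Real.cos 0| ≤ h := by
    have := Real.abs_cos_sub_cos_le h 0
    rwa [sub_zero, abs_of_nonneg hh] at this
  have h2 : |Real.sin h| ≤ h := by
    have := Real.abs_sin_le_abs (x := h)
    rwa [abs_of_nonneg hh] at this
  rw [e, mul_add]
  refine (norm_add_le _ _).trans (add_le_add ?_ ?_)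
  · rw [norm_smul, Real.norm_eq_abs]
    exact mul_le_mul_of_nonneg_right h1 (norm_nonneg _)
  · rw [norm_smul, Real.norm_eq_abs]
    exact mul_le_mul_of_nonneg_right h2 (norm_nonneg _)

/-- Step angle. -/
def hs (m : ℕ) : ℝ := Real.pi / 2 / (m + 1)

theorem hs_pos (m : ℕ) : 0 < hs m := by
  unfold hs
  have := Real.pi_pos
  positivity

theorem hs_mul (m : ℕ) : ((m : ℝ) + 1) * hs m = Real.pi / 2 := by
  unfold hs
  field_simp

/-- One step of the rotation. -/
def G (f : E → ℝ) (l : ℝ) (m : ℕ) (z : E × E) : ℝ :=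
  Real.exp (l * (((m : ℝ) + 1) * (f (pt (hs m) z) - f z.1)))

omit [FiniteDimensional ℝ E] [MeasurableSpace E] [BorelSpace E] in
theorem G_cont (f : E → ℝ) (hf : LipschitzWith 1 f) (l : ℝ) (m : ℕ) : Continuous (G f l m) := by
  have := hf.continuous
  unfold G pt
  fun_prop

omit [FiniteDimensional ℝ E] [MeasurableSpace E] [BorelSpace E] in
theorem G_le (f : E → ℝ) (hf : LipschitzWith 1 f) (l : ℝ) (hl : 0 ≤ l) (m : ℕ) (z : E × E) :
    ‖G f l m z‖ ≤ Real.exp (l * (Real.pi / 2) * (‖z.1‖ + ‖z.2‖)) := by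
  rw [G, Real.norm_eq_abs, abs_of_pos (Real.exp_pos _), Real.exp_le_exp, mul_assoc l]
  refine mul_le_mul_of_nonneg_left ?_ hl
  have h1 : f (pt (hs m) z) - f z.1 ≤ hs m * (‖z.1‖ + ‖z.2‖) := by
    have := hf.dist_le_mul (pt (hs m) z) z.1
    rw [NNReal.coe_one, one_mul, Real.dist_eq, dist_eq_norm] at this
    exact (le_abs_self _).trans (this.trans (norm_pt_sub _ (hs_pos m).le z))
  rw [← hs_mul m, mul_assoc]
  exact mul_le_mul_of_nonneg_left h1 (by positivity)

theorem G_int (f : E → ℝ) (hf : LipschitzWith 1 f) (l : ℝ) (hl : 0 ≤ l) (m : ℕ) :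
    Integrable (G f l m) ((stdGaussian E).prod (stdGaussian E)) :=
  (int_bound (l * (Real.pi / 2))).mono' (G_cont f hf l m).aestronglyMeasurable
    (Eventually.of_forall (G_le f hf l hl m))

omit [FiniteDimensional ℝ E] [MeasurableSpace E] [BorelSpace E] in
theorem conv (f : E → ℝ) (l : ℝ) (m : ℕ) (z : E × E) :
    Real.exp (l * (f z.2 - f z.1)) ≤
      ∑ j ∈ range (m + 1), ((m : ℝ) + 1)⁻¹ *
        G f l m (ContinuousLinearMap.rotation (j * hs m) z) := by
  have hm : (0 : ℝ) < (m : ℝ) + 1 := by positivity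
  have h := convexOn_exp.map_sum_le (t := range (m + 1)) (w := fun _ => ((m : ℝ) + 1)⁻¹)
    (p := fun j : ℕ => l * (((m : ℝ) + 1) *
      (f (pt (((j + 1 : ℕ) : ℝ) * hs m) z) - f (pt ((j : ℝ) * hs m) z))))
    (fun _ _ => by positivity) (by simp; field_simp) (fun _ _ => Set.mem_univ _)
  have e1 : ∑ j ∈ range (m + 1), ((m : ℝ) + 1)⁻¹ • (l * (((m : ℝ) + 1) *
      (f (pt (((j + 1 : ℕ) : ℝ) * hs m) z) - f (pt ((j : ℝ) * hs m) z))))
      = l * (f z.2 - f z.1) := by
    have : ∀ j ∈ range (m + 1), ((m : ℝ) + 1)⁻¹ • (l * (((m : ℝ) + 1) *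
        (f (pt (((j + 1 : ℕ) : ℝ) * hs m) z) - f (pt ((j : ℝ) * hs m) z))))
        = l * (f (pt (((j + 1 : ℕ) : ℝ) * hs m) z) - f (pt ((j : ℝ) * hs m) z)) := by
      intro j _
      rw [smul_eq_mul]
      field_simp
    rw [sum_congr rfl this, ← mul_sum,
      sum_range_sub (fun j : ℕ => f (pt ((j : ℝ) * hs m) z))]
    congr 2
    · push_cast
      rw [hs_mul]
      simp [pt]
    · simp [pt]
  rw [e1] at h
  refine h.trans (le_of_eq (sum_congr rfl fun j _ => ?_))
  rw [smul_eq_mul, G, pt_rot, ← pt_zero (ContinuousLinearMap.rotation _ z), pt_rot]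
  push_cast
  rw [add_zero, add_mul (j : ℝ) 1, one_mul]

theorem rot_mp (θ : ℝ) : MeasurePreserving (ContinuousLinearMap.rotation θ : E × E → E × E)
    ((stdGaussian E).prod (stdGaussian E)) ((stdGaussian E).prod (stdGaussian E)) :=
  ⟨(ContinuousLinearMap.rotation θ : E × E →L[ℝ] E × E).continuous.measurable,
    IsGaussian.map_rotation_eq_self (by simp) θ⟩

theorem D_int (f : E → ℝ) (hf : LipschitzWith 1 f) (l : ℝ) (hl : 0 ≤ l) :
    Integrable (fun z : E × E => Real.exp (l * (f z.2 - f z.1)))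
      ((stdGaussian E).prod (stdGaussian E)) := by
  have := hf.continuous
  refine (int_bound l).mono' (by fun_prop) (Eventually.of_forall fun z => ?_)
  rw [Real.norm_eq_abs, abs_of_pos (Real.exp_pos _), Real.exp_le_exp]
  refine mul_le_mul_of_nonneg_left ?_ hl
  have := hf.dist_le_mul z.2 z.1
  rw [NNReal.coe_one, one_mul, Real.dist_eq, dist_eq_norm] at this
  have h2 := norm_sub_le z.2 z.1
  have h3 := le_abs_self (f z.2 - f z.1)
  linarith

theorem D_le (f : E → ℝ) (hf : LipschitzWith 1 f) (l : ℝ) (hl : 0 ≤ l) (m : ℕ) :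
    ∫ z, Real.exp (l * (f z.2 - f z.1)) ∂((stdGaussian E).prod (stdGaussian E)) ≤
      ∫ z, G f l m z ∂((stdGaussian E).prod (stdGaussian E)) := by
  have hi : ∀ j : ℕ, Integrable (fun z => G f l m (ContinuousLinearMap.rotation (j * hs m) z))
      ((stdGaussian E).prod (stdGaussian E)) := fun j =>
    (rot_mp _).integrable_comp_of_integrable (G_int f hf l hl m)
  have he : ∀ j : ℕ, ∫ z, G f l m (ContinuousLinearMap.rotation (j * hs m) z)
      ∂((stdGaussian E).prod (stdGaussian E))
      = ∫ z, G f l m z ∂((stdGaussian E).prod (stdGaussian E)) := by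
    intro j
    have h := rot_mp (E := E) (j * hs m)
    rw [← integral_map h.measurable.aemeasurable (G_cont f hf l m).aestronglyMeasurable,
      h.map_eq]
  refine (integral_mono (D_int f hf l hl)
    (integrable_finsetSum _ fun j _ => (hi j).const_mul _) (conv f l m)).trans (le_of_eq ?_)
  rw [integral_finsetSum _ fun j _ => (hi j).const_mul _]
  simp only [integral_const_mul, he, sum_const, card_range, nsmul_eq_mul]
  push_cast
  field_simp

omit [FiniteDimensional ℝ E] [MeasurableSpace E] [BorelSpace E] in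
theorem G_lim (f : E → ℝ) (l : ℝ) (z : E × E) (hz : DifferentiableAt ℝ f z.1) :
    Tendsto (fun m => G f l m z) atTop
      (𝓝 (Real.exp (l * (Real.pi / 2) * fderiv ℝ f z.1 z.2))) := by
  have h1 : HasDerivAt (fun θ : ℝ => pt θ z) z.2 0 := by
    have := ((Real.hasDerivAt_cos 0).smul_const z.1).fun_add
      ((Real.hasDerivAt_sin 0).smul_const z.2)
    simpa [pt] using this
  have h2 : HasFDerivAt f (fderiv ℝ f z.1) (pt 0 z) := by
    rw [pt_zero]
    exact hz.hasFDerivAt
  have h3 := (h2.comp_hasDerivAt 0 h1).tendsto_slope_zero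
  have h4 : Tendsto hs atTop (𝓝[≠] 0) := by
    refine tendsto_nhdsWithin_iff.2 ⟨?_, Eventually.of_forall fun m => (hs_pos m).ne'⟩
    exact tendsto_const_nhds.div_atTop
      (tendsto_atTop_add_const_right _ 1 tendsto_natCast_atTop_atTop)
  have h5 := ((h3.comp h4).const_mul (l * (Real.pi / 2))).rexp
  refine h5.congr fun m => ?_
  simp only [G, Function.comp, zero_add, pt_zero, smul_eq_mul]
  congr 1
  have := (hs_pos m).ne'
  rw [← hs_mul m]
  field_simp

theorem main (f : E → ℝ) (hf : LipschitzWith 1 f) (l : ℝ) (hl : 0 ≤ l) :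
    ∫ z, Real.exp (l * (f z.2 - f z.1)) ∂((stdGaussian E).prod (stdGaussian E)) ≤
      Real.exp ((l * (Real.pi / 2)) ^ 2 / 2) := by
  have hae : ∀ᵐ z ∂((stdGaussian E).prod (stdGaussian E)), Tendsto (fun m => G f l m z) atTop
      (𝓝 (Real.exp (l * (Real.pi / 2) * fderiv ℝ f z.1 z.2))) := by
    filter_upwards [Measure.quasiMeasurePreserving_fst.ae (ae_diff f hf)] with z hz
    exact G_lim f l z hz
  have ht := tendsto_integral_of_dominated_convergence _
    (fun m => (G_cont f hf l m).aestronglyMeasurable) (int_bound (l * (Real.pi / 2)))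
    (fun m => Eventually.of_forall (G_le f hf l hl m)) hae
  refine (ge_of_tendsto' ht (D_le f hf l hl)).trans ?_
  have hi : Integrable (fun z : E × E => Real.exp (l * (Real.pi / 2) * fderiv ℝ f z.1 z.2))
      ((stdGaussian E).prod (stdGaussian E)) := by
    refine (int_bound (l * (Real.pi / 2))).mono'
      (aestronglyMeasurable_of_tendsto_ae atTop
        (fun m => (G_cont f hf l m).aestronglyMeasurable) hae) ?_
    filter_upwards [hae] with z hz
    exact le_of_tendsto' hz.norm fun m => G_le f hf l hl m z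
  rw [integral_prod _ hi]
  simp only [mgf_dual]
  have hb : ∀ x : E, Real.exp (‖fderiv ℝ f x‖ ^ 2 * (l * (Real.pi / 2)) ^ 2 / 2) ≤
      Real.exp ((l * (Real.pi / 2)) ^ 2 / 2) := by
    intro x
    have h1 : ‖fderiv ℝ f x‖ ≤ 1 := by simpa using norm_fderiv_le_of_lipschitz ℝ (x₀ := x) hf
    have h2 : ‖fderiv ℝ f x‖ ^ 2 ≤ 1 := pow_le_one₀ (norm_nonneg _) h1
    rw [Real.exp_le_exp]
    have := mul_le_of_le_one_left (sq_nonneg (l * (Real.pi / 2))) h2
    linarith
  have := integral_mono_of_nonneg (μ := stdGaussian E)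
    (Eventually.of_forall fun x => (Real.exp_pos _).le)
    (integrable_const (Real.exp ((l * (Real.pi / 2)) ^ 2 / 2))) (Eventually.of_forall hb)
  simpa using this

theorem tail (f : E → ℝ) (hf : LipschitzWith 1 f) (a t : ℝ) (ht : 0 ≤ t) :
    (stdGaussian E).real {x | f x ≤ a} * (stdGaussian E).real {x | a + t ≤ f x} ≤
      Real.exp (-t ^ 2 / 5) := by
  have hc := hf.continuous
  have hl : 0 ≤ 2 * t / 5 := by positivity
  have h1 := main f hf _ hl
  have h2 := mul_meas_ge_le_integral_of_nonneg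
    (μ := (stdGaussian E).prod (stdGaussian E))
    (f := fun z : E × E => Real.exp (2 * t / 5 * (f z.2 - f z.1)))
    (Eventually.of_forall fun z => (Real.exp_pos _).le) (D_int f hf _ hl)
    (Real.exp (2 * t / 5 * t))
  have h3 : (stdGaussian E).real {x | f x ≤ a} * (stdGaussian E).real {x | a + t ≤ f x} ≤
      ((stdGaussian E).prod (stdGaussian E)).real
        {z : E × E | Real.exp (2 * t / 5 * t) ≤ Real.exp (2 * t / 5 * (f z.2 - f z.1))} := by
    rw [← measureReal_prod_prod]
    refine measureReal_mono fun z hz => ?_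
    have h4 : f z.1 ≤ a := hz.1
    have h5 : a + t ≤ f z.2 := hz.2
    exact Real.exp_le_exp.2 (mul_le_mul_of_nonneg_left (by linarith) hl)
  have h6 : Real.exp ((2 * t / 5 * (Real.pi / 2)) ^ 2 / 2) ≤
      Real.exp (2 * t / 5 * t) * Real.exp (-t ^ 2 / 5) := by
    rw [← Real.exp_add, Real.exp_le_exp]
    have hp : Real.pi ^ 2 ≤ 10 := by
      have := Real.pi_lt_d2
      have := Real.pi_pos
      nlinarith
    have := mul_le_mul_of_nonneg_left hp (sq_nonneg t)
    nlinarith
  have h7 := (mul_le_mul_of_nonneg_left h3 (Real.exp_pos (2 * t / 5 * t)).le).trans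
    (h2.trans (h1.trans h6))
  exact le_of_mul_le_mul_left h7 (Real.exp_pos _)

end ConcA

theorem conc : S_Conc := fun _ _ f hf a t ht => ConcA.tail f hf a t ht

end

end Pool.Agent.P.MP_1bacd4_an
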