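import Pool.Agent.P.MP_1bacd4_an.Defs

/-! Complexification of a real Banach space. -/

set_option autoImplicit false

namespace Pool.Agent.P.MP_1bacd4_an

open Complex

noncomputable section

namespace CxA

/-- The complexification, realised as the real linear maps from `ℂ` to `X`. -/
def XC (X : Type) [NormedAddCommGroup X] [NormedSpace ℝ X] : Type := ℂ →L[ℝ] X

variable {X : Type} [NormedAddCommGroup X] [NormedSpace ℝ X]

instance : NormedAddCommGroup (XC X) := inferInstanceAs (NormedAddCommGroup (ℂ →L[ℝ] X))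

instance [CompleteSpace X] : CompleteSpace (XC X) := inferInstanceAs (CompleteSpace (ℂ →L[ℝ] X))

/-- The underlying map. -/
def ap (φ : XC X) : ℂ →L[ℝ] X := φ

/-- The element given by a map. -/
def mk (φ : ℂ →L[ℝ] X) : XC X := φ

theorem ext' {φ ψ : XC X} (h : ∀ z, ap φ z = ap ψ z) : φ = ψ := ContinuousLinearMap.ext h

theorem ap_add (φ ψ : XC X) (z : ℂ) : ap (φ + ψ) z = ap φ z + ap ψ z := rfl

theorem ap_zero (z : ℂ) : ap (0 : XC X) z = 0 := rfl

theorem norm_ap (φ : XC X) : ‖ap φ‖ = ‖φ‖ := rfl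

instance : SMul ℂ (XC X) := ⟨fun c φ => mk ((ap φ).comp (ContinuousLinearMap.mul ℝ ℂ c))⟩

theorem ap_smul (c : ℂ) (φ : XC X) (z : ℂ) : ap (c • φ) z = ap φ (c * z) := rfl

instance : Module ℂ (XC X) where
  one_smul φ := ext' fun z => by rw [ap_smul, one_mul]
  mul_smul a b φ := ext' fun z => by
    rw [ap_smul, ap_smul, ap_smul]
    congr 1
    ring
  smul_zero c := ext' fun z => by rw [ap_smul, ap_zero, ap_zero]
  smul_add c φ ψ := ext' fun z => by rw [ap_smul, ap_add, ap_add, ap_smul, ap_smul]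
  add_smul a b φ := ext' fun z => by rw [ap_smul, ap_add, ap_smul, ap_smul, add_mul, map_add]
  zero_smul φ := ext' fun z => by rw [ap_smul, zero_mul, map_zero, ap_zero]

instance : NormedSpace ℂ (XC X) where
  norm_smul_le c φ := by
    change ‖(ap φ).comp (ContinuousLinearMap.mul ℝ ℂ c)‖ ≤ ‖c‖ * ‖ap φ‖
    refine (ContinuousLinearMap.opNorm_comp_le _ _).trans ?_
    rw [mul_comm]
    exact mul_le_mul_of_nonneg_right (ContinuousLinearMap.opNorm_mul_apply_le ℝ ℂ c)
      (norm_nonneg _)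

theorem ap_eq (φ : XC X) (z : ℂ) : ap φ z = z.re • ap φ 1 + z.im • ap φ I := by
  rw [← map_smul, ← map_smul, ← map_add]
  congr 1
  simp

theorem ap_rsmul (r : ℝ) (φ : XC X) (z : ℂ) : ap (r • φ) z = r • ap φ z := by
  rw [← Complex.coe_smul, ap_smul, ← map_smul]
  congr 1

theorem norm_ap_le (φ : XC X) (z : ℂ) : ‖ap φ z‖ ≤ ‖z‖ * ‖φ‖ := by
  rw [mul_comm, ← norm_ap]
  exact (ap φ).le_opNorm z

/-- Evaluation at a complex number. -/
def ev (z : ℂ) : XC X →L[ℝ] X :=
  LinearMap.mkContinuous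
    { toFun := fun φ => ap φ z
      map_add' := fun φ ψ => ap_add φ ψ z
      map_smul' := fun r φ => ap_rsmul r φ z } ‖z‖ fun φ => norm_ap_le φ z

theorem ev_apply (z : ℂ) (φ : XC X) : ev z φ = ap φ z := rfl

theorem norm_io_le (x : X) : ‖mk (reCLM.smulRight x)‖ ≤ ‖x‖ := by
  change ‖reCLM.smulRight x‖ ≤ ‖x‖
  refine ContinuousLinearMap.opNorm_le_bound _ (norm_nonneg _) fun z => ?_
  rw [ContinuousLinearMap.smulRight_apply, norm_smul, mul_comm]
  exact mul_le_mul_of_nonneg_left (abs_re_le_norm z) (norm_nonneg _)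

/-- The real embedding. -/
def io : X →L[ℝ] XC X :=
  LinearMap.mkContinuous
    { toFun := fun x => mk (reCLM.smulRight x)
      map_add' := fun x y => ext' fun z => by
        rw [ap_add]
        exact smul_add z.re x y
      map_smul' := fun r x => ext' fun z => by
        rw [RingHom.id_apply, ap_rsmul]
        exact smul_comm z.re r x } 1 fun x => by
    rw [one_mul]
    exact norm_io_le x

theorem ap_io (x : X) (z : ℂ) : ap (io x) z = z.re • x := rfl

theorem norm_io (x : X) : ‖io x‖ ≤ ‖x‖ := norm_io_le x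

theorem decomp (φ : XC X) : φ = io (ap φ 1) + I • io (-ap φ I) := by
  refine ext' fun z => ?_
  rw [ap_add, ap_smul, ap_io, ap_io, ap_eq φ z]
  simp

theorem norm_fc_le (f : X →L[ℝ] ℝ) (φ : XC X) :
    ‖(f (ap φ 1) : ℂ) + I * (f (-ap φ I) : ℂ)‖ ≤ 2 * ‖f‖ * ‖φ‖ := by
  have h1 : ‖ap φ 1‖ ≤ ‖φ‖ := by simpa using norm_ap_le φ 1
  have h2 : ‖-ap φ I‖ ≤ ‖φ‖ := by simpa using norm_ap_le φ I
  have h3 := (f.le_opNorm (ap φ 1)).trans (mul_le_mul_of_nonneg_left h1 (norm_nonneg f))
  have h4 := (f.le_opNorm (-ap φ I)).trans (mul_le_mul_of_nonneg_left h2 (norm_nonneg f))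
  refine (norm_add_le _ _).trans ?_
  rw [norm_mul, norm_I, one_mul, norm_real, norm_real]
  linarith

/-- The complexification of a functional. -/
def fc (f : X →L[ℝ] ℝ) : XC X →L[ℂ] ℂ :=
  LinearMap.mkContinuous
    { toFun := fun φ => (f (ap φ 1) : ℂ) + I * (f (-ap φ I) : ℂ)
      map_add' := fun φ ψ => by
        simp only [ap_add, neg_add, map_add]
        push_cast
        ring
      map_smul' := fun c φ => by
        rw [ap_smul, ap_smul, ap_eq φ (c * 1), ap_eq φ (c * I)]
        simp only [map_add, map_smul, map_neg, smul_eq_mul, RingHom.id_apply]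
        apply Complex.ext <;> simp } (2 * ‖f‖) fun φ => norm_fc_le f φ

theorem fc_apply (f : X →L[ℝ] ℝ) (φ : XC X) :
    fc f φ = (f (ap φ 1) : ℂ) + I * (f (-ap φ I) : ℂ) := rfl

theorem norm_fc (f : X →L[ℝ] ℝ) : ‖fc f‖ ≤ 2 * ‖f‖ :=
  LinearMap.mkContinuous_norm_le _ (by positivity) _

theorem hasSum_fc {J : Type} {f : J → X →L[ℝ] ℝ} {y : J → X} {N : X → X}
    (h : ∀ x, HasSum (fun i => f i x • y i) (N x)) (u : ℂ) (φ : XC X) :
    HasSum (fun i => fc (f i) φ • (u • io (y i)))
      (u • (io (N (ap φ 1)) + I • io (N (-ap φ I)))) := by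
  have h1 := (io (X := X)).hasSum (h (ap φ 1))
  have h2 := ((io (X := X)).hasSum (h (-ap φ I))).const_smul I
  have h3 := (h1.add h2).const_smul u
  have e : (fun i => fc (f i) φ • (u • io (y i))) =
      fun i => u • (io (f i (ap φ 1) • y i) + I • io (f i (-ap φ I) • y i)) := by
    funext i
    rw [fc_apply, map_smul, map_smul, ← Complex.coe_smul, ← Complex.coe_smul, smul_comm, add_smul,
      mul_smul]
  rw [e]
  exact h3

theorem summable_fc {J : Type} {f : J → X →L[ℝ] ℝ} {y : J → X}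
    (h : Summable fun i => ‖f i‖ * ‖y i‖) {u : ℂ} (hu : ‖u‖ = 1) :
    Summable fun i => ‖fc (f i)‖ * ‖u • io (y i)‖ := by
  refine Summable.of_nonneg_of_le (fun i => by positivity) (fun i => ?_) (h.mul_left 2)
  rw [norm_smul, hu, one_mul, ← mul_assoc]
  exact mul_le_mul (norm_fc _) (norm_io _) (norm_nonneg _) (by positivity)

theorem to_nat {E : Type} [NormedAddCommGroup E] [NormedSpace ℂ E] {J : Type} [Countable J]
    (f : J → E →L[ℂ] ℂ) (y : J → E) (hs : Summable fun i => ‖f i‖ * ‖y i‖) (N : E → E)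
    (h : ∀ x, HasSum (fun i => f i x • y i) (N x)) :
    ∃ f' : ℕ → (E →L[ℂ] ℂ), ∃ y' : ℕ → E, Summable (fun n => ‖f' n‖ * ‖y' n‖) ∧
      ∀ x : E, HasSum (fun n => f' n x • y' n) (N x) := by
  obtain ⟨e, he⟩ := exists_injective_nat J
  have h0 : ∀ n, n ∉ Set.range e → Function.extend e y 0 n = 0 := fun n hn =>
    Function.extend_apply' _ _ _ hn
  refine ⟨Function.extend e f 0, Function.extend e y 0, ?_, fun x => ?_⟩
  · refine (he.summable_iff fun n hn => ?_).mp ?_
    · rw [h0 n hn, norm_zero, mul_zero]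
    · refine hs.congr fun i => ?_
      simp only [Function.comp_apply, he.extend_apply]
  · refine (he.hasSum_iff fun n hn => ?_).mp ?_
    · rw [h0 n hn, smul_zero]
    · have : ((fun n => Function.extend e f 0 n x • Function.extend e y 0 n) ∘ e) =
          fun i => f i x • y i := by
        funext i
        simp only [Function.comp_apply, he.extend_apply]
      rw [this]
      exact h x

end CxA

open CxA in
theorem cx : S_Cx := by
  intro X _ _ _ hX
  refine ⟨XC X, inferInstance, inferInstance, inferInstance, fun hfin => hX.1 ?_, fun T => ?_⟩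
  · have h1 : Module.Finite ℝ (XC X) := Module.Finite.trans ℂ (XC X)
    refine Module.Finite.of_surjective (ev (X := X) 1).toLinearMap fun x => ⟨io x, ?_⟩
    change ap (io x) 1 = x
    rw [ap_io, one_re, one_smul]
  · obtain ⟨l1, C1, I1, _, f1, y1, hs1, -, h1⟩ :=
      hX.2 ((ev 1).comp ((T.restrictScalars ℝ).comp io))
    obtain ⟨l2, C2, I2, _, f2, y2, hs2, -, h2⟩ :=
      hX.2 (-(ev I).comp ((T.restrictScalars ℝ).comp io))
    refine ⟨l1 + I * l2, to_nat (J := I1 ⊕ I2)
      (Sum.elim (fun i => fc (f1 i)) fun i => fc (f2 i))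
      (Sum.elim (fun i => (1 : ℂ) • io (y1 i)) fun i => I • io (y2 i)) ?_
      (fun φ => T φ - ((l1 : ℂ) + I * l2) • φ) fun φ => ?_⟩
    · exact Summable.sum _ (summable_fc hs1 norm_one) (summable_fc hs2 norm_I)
    · have h3 := HasSum.sum (f := fun i : I1 ⊕ I2 =>
        (Sum.elim (fun i => fc (f1 i)) fun i => fc (f2 i)) i φ •
          (Sum.elim (fun i => (1 : ℂ) • io (y1 i)) fun i => I • io (y2 i)) i)
        (hasSum_fc h1 1 φ) (hasSum_fc h2 I φ)
      have key : ∀ x : X, T (io x) - ((l1 : ℂ) + I * l2) • io x =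
          io (ap (T (io x)) 1 - l1 • x) + I • io (-ap (T (io x)) I - l2 • x) := by
        intro x
        rw [map_sub, map_sub, map_smul, map_smul, ← Complex.coe_smul, ← Complex.coe_smul,
          smul_sub, add_smul, mul_smul]
        nth_rewrite 1 [decomp (T (io x))]
        abel
      have e : T φ - ((l1 : ℂ) + I * l2) • φ =
          (T (io (ap φ 1)) - ((l1 : ℂ) + I * l2) • io (ap φ 1)) +
            I • (T (io (-ap φ I)) - ((l1 : ℂ) + I * l2) • io (-ap φ I)) := by
        nth_rewrite 1 [decomp φ]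
        nth_rewrite 3 [decomp φ]
        rw [map_add, map_smul, smul_add, smul_sub, smul_comm I ((l1 : ℂ) + I * l2)]
        abel
      rw [e, key, key]
      refine (congrArg (fun a => HasSum _ a) ?_).mp h3
      simp only [ContinuousLinearMap.comp_apply, neg_apply, ev_apply,
        ContinuousLinearMap.coe_restrictScalars', one_smul, smul_add]
      abel

end

end Pool.Agent.P.MP_1bacd4_an
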