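import Pool.Agent.P.MP_1bacd4_an.Dec2

/-! The decoupled chaos bound. -/

set_option autoImplicit false

namespace Pool.Agent.P.MP_1bacd4_an

open Finset Module Matrix MeasureTheory

namespace DecA

noncomputable section

variable {Ω J : Type} [Fintype Ω] [Fintype J] [DecidableEq J]

theorem fro_sum_proj (H : Matrix J J ℝ) {V : ℕ → Submodule ℝ (J → ℝ)}
    (hV : ∀ j k, j < k → Perp (V j) (V k)) (S : Finset ℕ) :
    fro (∑ k ∈ S, proj (V k) * H) ^ 2 = ∑ k ∈ S, fro (proj (V k) * H) ^ 2 := by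
  rw [← ip_self, ip_sum_left]
  refine sum_congr rfl fun k hk => ?_
  rw [ip_sum_right, sum_eq_single_of_mem k hk, ip_self]
  intro j _ hjk
  have : Perp (V k) (V j) := by
    rcases lt_or_gt_of_ne hjk with h | h
    · exact (hV j k h).symm
    · exact hV k j h
  rw [ip_mul_left, proj_transpose, ← Matrix.mul_assoc, proj_mul_of_perp this, Matrix.zero_mul,
    ip_zero_right]

theorem parity (H : Matrix J J ℝ) {V : ℕ → Submodule ℝ (J → ℝ)}
    (hV : ∀ j k, j < k → Perp (V j) (V k)) (NM : Submodule ℝ (J → ℝ) → Finset (Matrix J J ℝ))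
    (hN1 : ∀ V, ∀ Z ∈ NM V, ∀ j, (fun i => Z i j) ∈ V)
    (hN2 : ∀ V, ∀ W : Matrix J J ℝ, (∀ j, (fun i => W i j) ∈ V) → fro W ≤ 1 →
      ∃ Z ∈ NM V, fro (W - Z) ≤ 1 / 8) {m : ℕ} (hm : 0 < m) (par : ℕ) :
    ∃ W : ℕ → Matrix J J ℝ, (∀ k, ∃ i ∈ range (m + 1), ∃ Z ∈ NM (V k), W k = ((i : ℝ) / m) • Z) ∧
      (∀ k, W k = 0 ∨ W (k + 1) = 0) ∧ ∑ k ∈ range m, fro (W k) ^ 2 ≤ 6 ∧
      3 / 4 * fro (∑ k ∈ (range m).filter (fun k => k % 2 = par), proj (V k) * H) ≤
        ∑ k ∈ range m, ip H (W k) := by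
  set S := (range m).filter (fun k => k % 2 = par) with hS
  set h := fro (∑ k ∈ S, proj (V k) * H) with hh
  have h0 : 0 ≤ h := fro_nonneg _
  have hsq : h ^ 2 = ∑ k ∈ S, fro (proj (V k) * H) ^ 2 := fro_sum_proj H hV S
  have hm' : (0 : ℝ) < m := Nat.cast_pos.2 hm
  let Θ : ℕ → Matrix J J ℝ := fun k => if k ∈ S then h⁻¹ • (proj (V k) * H) else 0
  have hΘV : ∀ k j, (fun i => Θ k i j) ∈ V k := fun k j => by
    by_cases hk : k ∈ S
    · simp only [Θ, if_pos hk]; exact (V k).smul_mem _ (proj_mem (V k) fun i => H i j)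
    · simp only [Θ, if_neg hk]; exact (V k).zero_mem
  have hle : ∀ k ∈ S, fro (proj (V k) * H) ≤ h := fun k hk =>
    le_of_sq_le_sq' h0 (hsq ▸ single_le_sum (f := fun k => fro (proj (V k) * H) ^ 2)
      (fun _ _ => sq_nonneg _) hk)
  have hc : ∀ k ∈ S, fro (proj (V k) * H) = h * fro (Θ k) := fun k hk => by
    simp only [Θ, if_pos hk]
    rcases h0.eq_or_lt with e | e
    · rw [← e, zero_mul]; exact le_antisymm (e ▸ hle k hk) (fro_nonneg _)
    · rw [fro_smul, abs_of_pos (inv_pos.2 e), mul_inv_cancel_left₀ e.ne']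
  have hsum : ∀ f : ℕ → ℝ, (∀ k, k ∉ S → f k = 0) → ∑ k ∈ range m, f k = ∑ k ∈ S, f k :=
    fun f hf => (sum_subset (filter_subset _ _) fun k _ hk => hf k hk).symm
  have hc2 : ∑ k ∈ range m, fro (Θ k) ^ 2 ≤ 1 := by
    rw [hsum _ fun k hk => by simp [Θ, hk, fro_zero]]
    rcases h0.eq_or_lt with e | e
    · refine le_trans (le_of_eq (sum_eq_zero fun k hk => ?_)) zero_le_one
      simp [Θ, ← e, fro_zero]
    · refine le_of_mul_le_mul_left ?_ (pow_pos e 2)
      rw [mul_sum, mul_one, hsq]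
      exact le_of_eq (sum_congr rfl fun k hk => by rw [← hsq, hc k hk, mul_pow])
  have hc1 : ∀ k, fro (Θ k) ≤ 1 := fun k => by
    by_cases hk : k ∈ S
    · have := (single_le_sum (f := fun k => fro (Θ k) ^ 2) (fun _ _ => sq_nonneg _)
        (filter_subset _ _ hk)).trans hc2
      exact le_of_sq_le_sq' zero_le_one (by simpa using this)
    · simp [Θ, hk, fro_zero]
  choose i hi Z hZ e1 e2 e3 e4 using fun k => approx (hN2 (V k)) hm (Θ k) (hΘV k) (hc1 k)
  have hW0 : ∀ k, k ∉ S → ((i k : ℝ) / m) • Z k = 0 := fun k hk => by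
    rw [e4 k (by simp [Θ, hk])]; simp
  refine ⟨fun k => ((i k : ℝ) / m) • Z k, fun k => ⟨i k, hi k, Z k, hZ k, rfl⟩, fun k => ?_, ?_, ?_⟩
  · by_cases hk : k ∈ S
    · refine Or.inr (hW0 _ fun h1 => ?_)
      have := (mem_filter.1 hk).2
      have := (mem_filter.1 h1).2
      omega
    · exact Or.inl (hW0 k hk)
  · have : ∀ k ∈ range m, fro (((i k : ℝ) / m) • Z k) ^ 2 ≤ 3 * fro (Θ k) ^ 2 + 3 / m := by
      intro k _
      have h1 := fro_add_le (((i k : ℝ) / m) • Z k - Θ k) (Θ k)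
      rw [sub_add_cancel] at h1
      have h2 : fro (((i k : ℝ) / m) • Z k) ≤ 9 / 8 * (fro (Θ k) + 1 / m) := by
        linarith [e1 k, e2 k, e3 k]
      have h3 := pow_le_pow_left₀ (fro_nonneg _) h2 2
      have h4 : (1 / m : ℝ) ≤ 1 := by rw [div_le_one hm']; exact_mod_cast hm
      have h5 : (0 : ℝ) ≤ 1 / m := by positivity
      have h6 : (3 / m : ℝ) = 3 * (1 / m) := by ring
      rw [h6]
      nlinarith [sq_nonneg (fro (Θ k) - 1 / m)]
    refine (sum_le_sum this).trans ?_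
    rw [sum_add_distrib, ← mul_sum, sum_const, card_range, nsmul_eq_mul, mul_div_cancel₀ _ hm'.ne']
    linarith
  · have key : ∀ k ∈ range m, h * fro (Θ k) ^ 2 - h / 8 * (fro (Θ k) ^ 2 + 1 / m) ≤
        ip H (((i k : ℝ) / m) • Z k) := by
      intro k _
      by_cases hk : k ∈ S
      · have hE : proj (V k) * (((i k : ℝ) / m) • Z k) = ((i k : ℝ) / m) • Z k :=
          proj_mul_eq_self fun j => (V k).smul_mem _ (hN1 _ _ (hZ k) j)
        have h1 : ip H (((i k : ℝ) / m) • Z k) = ip (proj (V k) * H) (Θ k) +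
            ip (proj (V k) * H) (((i k : ℝ) / m) • Z k - Θ k) := by
          rw [← ip_add_right, add_sub_cancel, ip_mul_left, proj_transpose, hE]
        have h2 : ip (proj (V k) * H) (Θ k) = h * fro (Θ k) ^ 2 := by
          rcases h0.eq_or_lt with e | e
          · simp [Θ, ← e, ip_zero_right]
          · have : proj (V k) * H = h • Θ k := by
              simp only [Θ, if_pos hk]; rw [smul_smul, mul_inv_cancel₀ e.ne', one_smul]
            rw [this, ip_smul_left, ip_self]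
        have h3 := (abs_le.1 (abs_ip_le (proj (V k) * H) (((i k : ℝ) / m) • Z k - Θ k))).1
        rw [hc k hk] at h3
        have h4 := mul_le_mul_of_nonneg_left ((e1 k).trans (show _ ≤ (fro (Θ k) + 1 / m) / 8 by
          linarith [e3 k])) (mul_nonneg h0 (fro_nonneg (Θ k)))
        have h5 : h * fro (Θ k) * (1 / m) ≤ h * (1 / m) :=
          mul_le_mul_of_nonneg_right (mul_le_of_le_one_right h0 (hc1 k)) (by positivity)
        rw [h1, h2]; nlinarith
      · rw [hW0 k hk, ip_zero_right]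
        have : Θ k = 0 := by simp [Θ, hk]
        rw [this, fro_zero]
        have : 0 ≤ h / 8 * (1 / m) := by positivity
        nlinarith
    refine le_trans ?_ (sum_le_sum key)
    rw [sum_sub_distrib, ← mul_sum, ← mul_sum, sum_add_distrib, sum_const, card_range,
      nsmul_eq_mul, mul_one_div_cancel hm'.ne']
    have h1 : h * ∑ k ∈ range m, fro (Θ k) ^ 2 = h := by
      rcases h0.eq_or_lt with e | e
      · rw [← e, zero_mul]
      · refine mul_left_cancel₀ e.ne' ?_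
        rw [hsum _ fun k hk => by simp [Θ, hk, fro_zero], ← mul_assoc, ← pow_two, mul_sum]
        conv_rhs => rw [hsq]
        exact sum_congr rfl fun k hk => by rw [hc k hk, mul_pow]
    nlinarith

/-- States of the tree of codes. -/
abbrev St (J : Type) := Submodule ℝ (J → ℝ) × (ℕ → Matrix J J ℝ)

open Classical in
def child (Nv : Finset (J → ℝ)) (NM : Submodule ℝ (J → ℝ) → Finset (Matrix J J ℝ)) (R m k : ℕ)
    (σ : St J) : Finset (St J) :=
  (Fintype.piFinset fun _ : Fin (R ^ (k + 1)) => Nv).biUnion fun n =>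
    (range (m + 1) ×ˢ NM ((σ.1 ⊔ Submodule.span ℝ (Set.range n)) ⊓ perp σ.1)).image fun p =>
      (σ.1 ⊔ Submodule.span ℝ (Set.range n), Function.update σ.2 k (((p.1 : ℝ) / m) • p.2))

open Classical in
def reach (Nv : Finset (J → ℝ)) (NM : Submodule ℝ (J → ℝ) → Finset (Matrix J J ℝ)) (R m : ℕ) :
    ℕ → Finset (St J)
  | 0 => {(⊥, 0)}
  | k + 1 => (reach Nv NM R m k).biUnion (child Nv NM R m k)

theorem card_child {Nv : Finset (J → ℝ)} {NM : Submodule ℝ (J → ℝ) → Finset (Matrix J J ℝ)}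
    {d R : ℕ} (hd : 1 ≤ d) (hR : 2 ≤ R) (h1 : Nv.card ≤ 25 ^ d)
    (h2 : ∀ V, (NM V).card ≤ 125 ^ (d * finrank ℝ V)) (k : ℕ) (σ : St J) :
    (child Nv NM R (d + 1) k σ).card ≤ 9375 ^ (d * R ^ (k + 1)) := by
  classical
  have hp : 1 ≤ R ^ (k + 1) := Nat.one_le_pow _ _ (by omega)
  have h3 : d + 1 + 1 ≤ 3 ^ (d * R ^ (k + 1)) := by
    have : ∀ n, 1 ≤ n → n + 1 + 1 ≤ 3 ^ n := fun n hn => by
      induction n, hn using Nat.le_induction with
      | base => norm_num
      | succ n _ ih => rw [pow_succ]; omega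
    exact (this d hd).trans (Nat.pow_le_pow_right (by norm_num) (Nat.le_mul_of_pos_right _ hp))
  unfold child
  refine (card_biUnion_le_card_mul _ _ (3 ^ (d * R ^ (k + 1)) * 125 ^ (d * R ^ (k + 1)))
    fun n _ => card_image_le.trans ?_).trans ?_
  · rw [card_product, card_range]
    exact Nat.mul_le_mul h3 ((h2 _).trans (Nat.pow_le_pow_right (by norm_num)
      (Nat.mul_le_mul_left _ (finrank_new_le _ _))))
  · rw [Fintype.card_piFinset, prod_const, card_univ, Fintype.card_fin,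
      show 9375 = 25 * (3 * 125) by norm_num, mul_pow, mul_pow]
    exact Nat.mul_le_mul_right _ ((Nat.pow_le_pow_left h1 _).trans (by rw [pow_mul]))

theorem card_reach {Nv : Finset (J → ℝ)} {NM : Submodule ℝ (J → ℝ) → Finset (Matrix J J ℝ)}
    {d R : ℕ} (hd : 1 ≤ d) (hR : 2 ≤ R) (h1 : Nv.card ≤ 25 ^ d)
    (h2 : ∀ V, (NM V).card ≤ 125 ^ (d * finrank ℝ V)) (k : ℕ) :
    (reach Nv NM R (d + 1) k).card ≤ 9375 ^ (d * (2 * R ^ k)) := by
  classical
  induction k with
  | zero => simpa [reach] using Nat.one_le_pow _ _ (by norm_num)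
  | succ k ih =>
    rw [reach]
    refine (card_biUnion_le_card_mul _ _ _ fun σ _ => card_child hd hR h1 h2 k σ).trans ?_
    refine (Nat.mul_le_mul_right _ ih).trans ?_
    rw [← pow_add, ← mul_add]
    refine Nat.pow_le_pow_right (by norm_num) (Nat.mul_le_mul_left _ ?_)
    have : 2 * R ^ k ≤ R ^ (k + 1) := by rw [pow_succ, mul_comm]; gcongr
    omega

omit [DecidableEq J] in
theorem mem_reach {Nv : Finset (J → ℝ)} {NM : Submodule ℝ (J → ℝ) → Finset (Matrix J J ℝ)}
    {R m : ℕ} {T : ℕ → Submodule ℝ (J → ℝ)} {n : ∀ k, Fin (R ^ (k + 1)) → J → ℝ} (h0 : T 0 = ⊥)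
    (hn : ∀ k i, n k i ∈ Nv) (hT : ∀ k, T (k + 1) = T k ⊔ Submodule.span ℝ (Set.range (n k)))
    {W : ℕ → Matrix J J ℝ}
    (hW : ∀ k, ∃ i ∈ range (m + 1), ∃ Z ∈ NM (T (k + 1) ⊓ perp (T k)), W k = ((i : ℝ) / m) • Z)
    (k : ℕ) : (T k, fun j => if j < k then W j else 0) ∈ reach Nv NM R m k := by
  classical
  induction k with
  | zero => simp only [reach, h0, mem_singleton]; rfl
  | succ k ih =>
    rw [reach, mem_biUnion]
    refine ⟨_, ih, ?_⟩
    obtain ⟨i, hi, Z, hZ, e⟩ := hW k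
    unfold child
    rw [mem_biUnion]
    refine ⟨n k, Fintype.mem_piFinset.2 (hn k), mem_image.2 ⟨(i, Z), ?_, ?_⟩⟩
    · rw [hT] at hZ; exact mem_product.2 ⟨hi, hZ⟩
    · refine Prod.ext (hT k).symm (funext fun j => ?_)
      by_cases hj : j = k
      · subst hj; simp [e]
      · have : j < k + 1 ↔ j < k := by omega
        simp [Function.update_of_ne hj, this]

omit [DecidableEq J] in
theorem Ok_congr {A A' : ℕ → Matrix Ω J ℝ} (t : ℕ → ℝ) (η : ℝ) {k : ℕ}
    (h : ∀ j < k, A j = A' j) : Ok A t η k = Ok A' t η k := by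
  ext G
  have e1 : ∀ Δ : ℕ → Matrix Ω J ℝ, ∑ j ∈ range k, A j * (mat G - Δ j)ᵀ =
      ∑ j ∈ range k, A' j * (mat G - Δ j)ᵀ := fun Δ =>
    sum_congr rfl fun j hj => by rw [h j (mem_range.1 hj)]
  have e2 : ∑ j ∈ range k, fro (A j) ^ 2 = ∑ j ∈ range k, fro (A' j) ^ 2 :=
    sum_congr rfl fun j hj => by rw [h j (mem_range.1 hj)]
  simp only [Ok, Set.mem_ofPred_eq, e1, e2]

theorem prob_bound {d R : ℕ} (hd : 1 ≤ d) (hR : 2 ≤ R) (k : ℕ) {N : ℕ} {t : ℝ}
    (hN : N ≤ 9375 ^ (d * (2 * R ^ (k + 1)))) (ht : t ^ 2 = 225 * (R : ℝ) ^ (k + 1) * d) :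
    (N : ℝ) * ((1 + 1 / (1 / ((d : ℝ) + 1))) * Real.exp (-t ^ 2 / 5)) ≤
      Real.exp (-(d : ℝ)) / (d + 1) := by
  have hd' : (1 : ℝ) ≤ d := by exact_mod_cast hd
  have hp : (1 : ℝ) ≤ (R : ℝ) ^ (k + 1) := one_le_pow₀ (by exact_mod_cast (by omega : 1 ≤ R))
  have h1 : (9375 : ℝ) ≤ Real.exp 10 := by
    have h := Real.exp_one_gt_d9
    have : Real.exp 10 = Real.exp 1 ^ 10 := by rw [← Real.exp_nat_mul]; norm_num
    rw [this]
    exact le_trans (by norm_num) (pow_le_pow_left₀ (by norm_num : (0 : ℝ) ≤ 2.7) (by linarith) 10)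
  have h2 : (N : ℝ) ≤ Real.exp (20 * ((R : ℝ) ^ (k + 1) * d)) := by
    have : (N : ℝ) ≤ (9375 : ℝ) ^ (d * (2 * R ^ (k + 1))) := by exact_mod_cast hN
    refine this.trans ((pow_le_pow_left₀ (by norm_num) h1 _).trans (le_of_eq ?_))
    rw [← Real.exp_nat_mul]; congr 1; push_cast; ring
  have h3 : (d : ℝ) + 2 ≤ Real.exp (2 * d) := by linarith [Real.add_one_le_exp (2 * (d : ℝ))]
  have h4 : (d : ℝ) + 1 ≤ Real.exp d := Real.add_one_le_exp _
  rw [le_div_iff₀ (by positivity), one_div_one_div, show 1 + ((d : ℝ) + 1) = d + 2 by ring]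
  calc (N : ℝ) * ((d + 2) * Real.exp (-t ^ 2 / 5)) * (d + 1)
      ≤ Real.exp (20 * ((R : ℝ) ^ (k + 1) * d)) * (Real.exp (2 * d) * Real.exp (-t ^ 2 / 5)) *
        Real.exp d := by gcongr
    _ ≤ _ := by
      rw [← Real.exp_add, ← Real.exp_add, ← Real.exp_add, Real.exp_le_exp, ht]; nlinarith

end

end DecA

open DecA in
theorem dec (hn : S_Net) (hch : S_Chain) : S_Dec := by
  classical
  refine ⟨500, by norm_num, fun Ω _ _ d r R hd hr hR Γ hΓ hΓ' => ?_⟩
  obtain ⟨Nv, hNv, hNv'⟩ := net_vec (J := Fin d) hn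
  choose NM hM1 hM2 hM3 using net_mat (J := Fin d) hn
  rw [Fintype.card_fin] at hNv hM1
  have hd' : (1 : ℝ) ≤ d := by exact_mod_cast hd
  have hR' : (2 : ℝ) ≤ R := by exact_mod_cast hR
  set a := √(d : ℝ) with ha
  set ρ := √(R : ℝ) with hρ
  have ha0 : 0 < a := Real.sqrt_pos.2 (by linarith)
  have hρ0 : 0 < ρ := Real.sqrt_pos.2 (by linarith)
  have ha2 : a ^ 2 = d := Real.sq_sqrt (by linarith)
  have hρ2 : ρ ^ 2 = R := Real.sq_sqrt (by linarith)
  let t : ℕ → ℝ := fun k => 15 * ρ * ρ ^ k * a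
  let η : ℝ := 1 / ((d : ℝ) + 1)
  have hη : 0 < η := by positivity
  refine le_trans (measureReal_mono (s₂ := ⋃ k ∈ range (d + 1),
    ⋃ σ ∈ reach Nv NM R (d + 1) (k + 1),
      Ok (Am Γ σ.2) t η k \ Ok (Am Γ σ.2) t η (k + 1)) ?_ (measure_ne_top _ _)) ?_
  swap
  · refine (measureReal_biUnion_finset_le _ _).trans ?_
    refine (sum_le_card_nsmul _ _ (Real.exp (-(d : ℝ)) / (d + 1)) fun k _ => ?_).trans ?_
    · refine (measureReal_biUnion_finset_le _ _).trans ?_
      refine (sum_le_card_nsmul _ _ _ fun σ _ => hch Ω (Fin d) _ t η k hη (by positivity)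
        fun j hj => Am_orth Γ σ.2 hj).trans ?_
      rw [nsmul_eq_mul]
      refine prob_bound hd hR k (card_reach hd hR hNv hM1 _) ?_
      simp only [t]
      rw [mul_pow, mul_pow, mul_pow, ha2, ← pow_mul, mul_comm k 2, pow_mul, hρ2]; ring
    · rw [card_range, nsmul_eq_mul]; push_cast
      rw [mul_div_cancel₀ _ (by positivity)]
  rintro G ⟨hG, hbad⟩
  by_contra hgood
  apply hbad
  simp only [Set.mem_iUnion, not_exists] at hgood
  suffices H : ∀ g : Matrix Ω Ω ℝ, Sparse r g → fro g = 1 →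
      fro (Γᵀ * g * mat G) ≤ dB 500 (Fintype.card Ω) d r R by
    intro g hg
    rcases (fro_nonneg g).eq_or_lt with e | e
    · rw [fro_eq_zero e.symm, Matrix.mul_zero, Matrix.zero_mul, fro_zero, fro_zero, mul_zero]
    · have := H ((fro g)⁻¹ • g) ⟨fun ω => (supp_mono fun i h => by simp [h]).trans (hg.1 ω),
        fun ω => (supp_mono fun i h => by simp [h]).trans (hg.2 ω)⟩
        (by rw [fro_smul, abs_of_pos (inv_pos.2 e), inv_mul_cancel₀ e.ne'])
      rwa [Matrix.mul_smul, Matrix.smul_mul, fro_smul, abs_of_pos (inv_pos.2 e),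
        ← div_eq_inv_mul, div_le_iff₀ e] at this
  intro g hg hg1
  have hb : 1 ≤ sq Ω := by
    rcases isEmpty_or_nonempty Ω with h | h
    · simp [fro] at hg1
    · exact Real.one_le_sqrt.2 (by exact_mod_cast Fintype.card_pos)
  set b := sq Ω with hbdef
  have hb2 : b ^ 2 = Fintype.card Ω := sq_sq
  set M := gᵀ * Γ with hM
  have hMf : fro M ≤ 2 * a := by
    have := fro_mul_le_right (B := Γ) (by positivity) gᵀ fun ω => hΓ' _ (hg.2 ω)
    rwa [fro_transpose, hg1, mul_one] at this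
  obtain ⟨T, n, hT0, hn, hT, hsum⟩ := exists_T hNv' M R
  have hsum' : ∀ K, ∑ k ∈ range (K + 1), (R : ℝ) ^ k * sop M (T k) ^ 2 ≤ 16 * a ^ 2 := fun K =>
    (hsum K).trans (by nlinarith [fro_nonneg M])
  have hTm : Monotone T := monotone_nat_of_le_succ fun k => by rw [hT]; exact le_sup_left
  let V : ℕ → Submodule ℝ (Fin d → ℝ) := fun k => T (k + 1) ⊓ perp (T k)
  have hVp : ∀ j k, j < k → Perp (V j) (V k) := fun j k h x hx y hy => hy.2 x (hTm h hx.1)
  have hVr : ∀ k, finrank ℝ (V k) ≤ R ^ (k + 1) := fun k => by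
    have e : V k = (T k ⊔ Submodule.span ℝ (Set.range (n k))) ⊓ perp (T k) := by rw [← hT]
    rw [e]; exact finrank_new_le _ _
  set H := Mᵀ * mat G with hH
  set X := 30 * (a * b / ρ) + 15 * √(√(r : ℝ) * b ^ 3) + 150 * (ρ * a ^ 2) with hX
  have hpar : ∀ par, 3 / 4 * fro (∑ k ∈ (range (d + 1)).filter (fun k => k % 2 = par),
      proj (V k) * H) ≤ X := by
    intro par
    obtain ⟨W, hW1, alt, hW2, hW3⟩ := parity H hVp NM hM2 hM3 (Nat.succ_pos d) par
    have hok : ∀ k ≤ d + 1, G ∈ Ok (Am Γ W) t η k := by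
      intro k hk
      induction k with
      | zero => exact ⟨0, fun j hj => absurd hj (Nat.not_lt_zero j), by simp [pot]⟩
      | succ k ih =>
        have h1 := hgood k (mem_range.2 hk) _ (mem_reach hT0 hn hT hW1 (k + 1))
        have e : ∀ j < k + 1, Am Γ (fun j => if j < k + 1 then W j else 0) j = Am Γ W j :=
          fun j hj => Am_congr Γ fun i hi => if_pos (hi.trans_lt hj)
        rw [Ok_congr t η e, Ok_congr t η fun j hj => e j (hj.trans (Nat.lt_succ_self k))] at h1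
        by_contra h2
        exact h1 ⟨ih (by omega), h2⟩
    obtain ⟨Δ, hΔ, hp⟩ := hok (d + 1) le_rfl
    refine hW3.trans (branch hR ha0.le hρ0 hρ2 hb hΓ hG hg1.le hg.1 (hsum' d)
      (fun k => inf_le_right) hVr (fun k j => ?_) alt hW2 (fun k hk => (hΔ k hk).le)
      (hp.le.trans (mul_le_mul_of_nonneg_right ?_ (by positivity))))
    · obtain ⟨i, -, Z, hZ, e⟩ := hW1 k
      rw [e]; exact (V k).smul_mem _ (hM2 _ _ hZ j)
    · have h1 : 1 + η ≤ Real.exp η := by linarith [Real.add_one_le_exp η]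
      refine (pow_le_pow_left₀ (by positivity) h1 _).trans ?_
      rw [← Real.exp_nat_mul]
      have : ((d + 1 : ℕ) : ℝ) * η = 1 := by
        simp only [η]; push_cast; field_simp
      rw [this]; linarith [Real.exp_one_lt_d9]
  have htel : ∀ K, ∑ k ∈ range K, proj (V k) = proj (T K) := fun K => by
    induction K with
    | zero => rw [hT0, proj_bot, sum_range_zero]
    | succ K ih => rw [sum_range_succ, ih, proj_inf_perp (hTm K.le_succ)]; abel
  have hsplit : H = ∑ k ∈ (range (d + 1)).filter (fun k => k % 2 = 0), proj (V k) * H +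
      ∑ k ∈ (range (d + 1)).filter (fun k => k % 2 = 1), proj (V k) * H +
      (M * proj (perp (T (d + 1))))ᵀ * mat G := by
    have e : (range (d + 1)).filter (fun k => k % 2 = 1) =
        (range (d + 1)).filter (fun k => ¬ k % 2 = 0) := filter_congr fun k _ => by omega
    rw [e, sum_filter_add_sum_filter_not, ← Matrix.sum_mul, htel, transpose_mul, proj_transpose,
      Matrix.mul_assoc, ← hH, proj_perp, Matrix.sub_mul, Matrix.one_mul]
    abel
  have hGf : fro (mat G) ≤ 2 * b * a := by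
    have := fro_mul_le_left (A := mat G) (by positivity) (1 : Matrix (Fin d) (Fin d) ℝ)
      fun _ => hG _
    rw [Matrix.mul_one] at this
    refine this.trans (le_of_eq ?_)
    congr 1
    rw [ha, fro]; congr 1
    simp [one_apply]
  have htail : fro ((M * proj (perp (T (d + 1))))ᵀ * mat G) ≤ 8 * (a * b / ρ) := by
    have hμ := sop_nonneg M (T (d + 1))
    have h1 := fro_mul_le_left hμ (mat G) fun _ => op_transpose (A := M * proj (perp (T (d + 1))))
      hμ (fun v => by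
        rw [← mulVec_mulVec]
        exact (le_sop M (proj_mem _ v)).trans
          (mul_le_mul_of_nonneg_left (n2_proj_le _ _) hμ)) _
    have h2 : (R : ℝ) ^ (d + 1) * sop M (T (d + 1)) ^ 2 ≤ 16 * a ^ 2 :=
      le_trans (single_le_sum (f := fun k => (R : ℝ) ^ k * sop M (T k) ^ 2)
        (fun _ _ => by positivity) (self_mem_range_succ _)) (hsum' (d + 1))
    have h3 : (d : ℝ) ≤ (R : ℝ) ^ d := by exact_mod_cast (Nat.lt_pow_self (by omega)).le
    have h4 : ρ * sop M (T (d + 1)) ≤ 4 := by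
      refine le_of_sq_le_sq' (by norm_num) (le_of_mul_le_mul_left ?_ (by linarith : (0 : ℝ) < d))
      rw [mul_pow, hρ2]
      rw [pow_succ, ha2] at h2
      have : 0 ≤ (R : ℝ) * sop M (T (d + 1)) ^ 2 := by positivity
      nlinarith
    refine h1.trans ((mul_le_mul_of_nonneg_left hGf hμ).trans ?_)
    rw [← mul_div_assoc, le_div_iff₀ hρ0]
    have : 0 ≤ a * b := by positivity
    nlinarith
  have e0 : Γᵀ * g * mat G = H := by rw [hH, hM, transpose_mul, transpose_transpose]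
  have e1 : √((d : ℝ) * (Fintype.card Ω : ℕ) / R) = a * b / ρ := by
    rw [Real.sqrt_div (by positivity), Real.sqrt_mul (by positivity)]; rfl
  have e2 : √((r : ℝ) * (Fintype.card Ω : ℕ) ^ 3) = √(r : ℝ) * b ^ 3 := by
    rw [Real.sqrt_mul (by positivity), ← hb2, ← pow_mul, show 2 * 3 = 3 * 2 by norm_num, pow_mul,
      Real.sqrt_sq (by positivity)]
  rw [e0, dB, e1, e2, ← hρ, ← ha2, hsplit]
  refine ((fro_add_le _ _).trans (add_le_add (fro_add_le _ _) htail)).trans ?_
  have := hpar 0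
  have := hpar 1
  have : 0 ≤ a * b / ρ := by positivity
  have : 0 ≤ ρ * a ^ 2 := by positivity
  have := Real.sqrt_nonneg (√(r : ℝ) * b ^ 3)
  linarith

end Pool.Agent.P.MP_1bacd4_an
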