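import Pool.Agent.P.MP_1bacd4_an.Basic

/-! Gaussian decoupling of a traceless chaos. -/

set_option autoImplicit false

namespace Pool.Agent.P.MP_1bacd4_an

open Finset Module MeasureTheory ProbabilityTheory Matrix

noncomputable section

namespace DecoupA

variable {Ω J : Type} [Fintype Ω] [Fintype J]

theorem mat_add (G G' : GS (Ω × J)) : mat (G + G') = mat G + mat G' := by
  ext i j; simp [mat]

theorem mat_sub (G G' : GS (Ω × J)) : mat (G - G') = mat G - mat G' := by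
  ext i j; simp [mat]

theorem mat_smul (c : ℝ) (G : GS (Ω × J)) : mat (c • G) = c • mat G := by
  ext i j; simp [mat]

theorem cont (g : Matrix Ω Ω ℝ) :
    Continuous fun z : GS (Ω × J) × GS (Ω × J) => fro ((mat z.1)ᵀ * g * mat z.2) := by
  unfold fro mat
  simp only [Matrix.mul_apply, Matrix.transpose_apply, Matrix.of_apply]
  fun_prop

/-- The bad set of the decoupled chaos. -/
def Bad (J : Type) [Fintype J] (r : ℕ) (B : ℝ) : Set (GS (Ω × J) × GS (Ω × J)) :=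
  {z | ¬ ∀ g : Matrix Ω Ω ℝ, Sparse r g → fro ((mat z.1)ᵀ * g * mat z.2) ≤ B * fro g}

theorem open_bad (r : ℕ) (B : ℝ) : IsOpen (Bad (Ω := Ω) J r B) := by
  have h : Bad (Ω := Ω) J r B = ⋃ g : {g : Matrix Ω Ω ℝ // Sparse r g},
      {z : GS (Ω × J) × GS (Ω × J) | B * fro g.1 < fro ((mat z.1)ᵀ * g.1 * mat z.2)} := by
    ext z
    simp only [Bad, Set.mem_ofPred_eq, Set.mem_iUnion, not_forall, not_le, Subtype.exists,
      exists_prop]
  rw [h]
  exact isOpen_iUnion fun g => isOpen_lt continuous_const (cont g.1)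

theorem lin1 (A : Matrix J Ω ℝ) (H : Matrix J J ℝ) (x : GS (Ω × J)) :
    ip (A * mat x) H = ∑ b : Ω × J, (∑ j, A j b.1 * H j b.2) * x b := by
  simp only [ip, mat, Matrix.mul_apply, Matrix.of_apply, Fintype.sum_prod_type, sum_mul]
  rw [sum_comm]
  conv_rhs => rw [sum_comm]
  refine sum_congr rfl fun k _ => ?_
  rw [sum_comm]
  exact sum_congr rfl fun w _ => sum_congr rfl fun j _ => by ring

theorem lin2 (A : Matrix Ω J ℝ) (H : Matrix J J ℝ) (x : GS (Ω × J)) :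
    ip ((mat x)ᵀ * A) H = ∑ b : Ω × J, (∑ k, A b.1 k * H b.2 k) * x b := by
  simp only [ip, mat, Matrix.mul_apply, Matrix.of_apply, Matrix.transpose_apply,
    Fintype.sum_prod_type, sum_mul]
  conv_rhs => rw [sum_comm]
  refine sum_congr rfl fun j _ => ?_
  rw [sum_comm]
  exact sum_congr rfl fun w _ => sum_congr rfl fun k _ => by ring

theorem quad [DecidableEq Ω] [DecidableEq J] (g : Matrix Ω Ω ℝ) (H : Matrix J J ℝ)
    (x : GS (Ω × J)) :
    ip ((mat x)ᵀ * (g * mat x)) H = ∑ a : Ω × J,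
      (∑ i, (Pi.single a (1 : ℝ) : Ω × J → ℝ) i * x i) *
        (∑ b : Ω × J, (g a.1 b.1 * H a.2 b.2) * x b) := by
  rw [lin2]
  refine sum_congr rfl fun a _ => ?_
  have h1 : ∑ i, (Pi.single a (1 : ℝ) : Ω × J → ℝ) i * x i = x a := by
    simp [Pi.single_apply]
  rw [h1, mul_comm]
  congr 1
  simp only [mat, Matrix.mul_apply, Matrix.of_apply, Fintype.sum_prod_type, sum_mul]
  rw [sum_comm]
  exact sum_congr rfl fun w _ => sum_congr rfl fun k _ => by ring

theorem mean (hm : S_Mom) (M : Matrix Ω J ℝ) (g : Matrix Ω Ω ℝ) (hg : g.trace = 0)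
    (H : Matrix J J ℝ) :
    Integrable (fun x : GS (Ω × J) => ip ((M + mat x)ᵀ * g * (M - mat x)) H) (gm (Ω × J)) ∧
    ∫ x : GS (Ω × J), ip ((M + mat x)ᵀ * g * (M - mat x)) H ∂(gm (Ω × J)) =
      ip (Mᵀ * g * M) H := by
  classical
  set u : Ω × J → ℝ := fun b => ∑ j, (Mᵀ * g) j b.1 * H j b.2 with hu
  set v : Ω × J → ℝ := fun b => ∑ k, (g * M) b.1 k * H b.2 k with hv
  set q : GS (Ω × J) → ℝ := fun x => ∑ a : Ω × J,
      (∑ i, (Pi.single a (1 : ℝ) : Ω × J → ℝ) i * x i) *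
        (∑ b : Ω × J, (g a.1 b.1 * H a.2 b.2) * x b) with hq
  have e : (fun x : GS (Ω × J) => ip ((M + mat x)ᵀ * g * (M - mat x)) H) =
      fun x => ip (Mᵀ * g * M) H - ∑ b, u b * x b + ∑ b, v b * x b - q x := by
    funext x
    have h0 : (M + mat x)ᵀ * g * (M - mat x) =
        Mᵀ * g * M - Mᵀ * g * mat x + (mat x)ᵀ * (g * M) - (mat x)ᵀ * (g * mat x) := by
      rw [Matrix.transpose_add, Matrix.add_mul, Matrix.add_mul, Matrix.mul_sub, Matrix.mul_sub,
        Matrix.mul_assoc (mat x)ᵀ, Matrix.mul_assoc (mat x)ᵀ]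
      abel
    rw [h0, ip_sub_left, ip_add_left, ip_sub_left, lin1, lin2, quad]
  have i1 : Integrable (fun x : GS (Ω × J) => ∑ b, u b * x b) (gm (Ω × J)) := by
    simpa using hm.int (Ω × J) u 1
  have i2 : Integrable (fun x : GS (Ω × J) => ∑ b, v b * x b) (gm (Ω × J)) := by
    simpa using hm.int (Ω × J) v 1
  have i3 : ∀ a : Ω × J, Integrable (fun x : GS (Ω × J) =>
      (∑ i, (Pi.single a (1 : ℝ) : Ω × J → ℝ) i * x i) *
        (∑ b : Ω × J, (g a.1 b.1 * H a.2 b.2) * x b)) (gm (Ω × J)) := fun a => by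
    simpa only [pow_one] using
      hm.int2 (Ω × J) (Pi.single a (1 : ℝ)) (fun b => g a.1 b.1 * H a.2 b.2) 1 1
  have i4 : Integrable q (gm (Ω × J)) := integrable_finsetSum _ fun a _ => i3 a
  have i0 : Integrable (fun _ : GS (Ω × J) => ip (Mᵀ * g * M) H) (gm (Ω × J)) :=
    integrable_const _
  have q0 : ∫ x, q x ∂(gm (Ω × J)) = 0 := by
    rw [hq, integral_finsetSum _ fun a _ => i3 a]
    have h2 : ∀ a : Ω × J, ∫ x : GS (Ω × J),
        (∑ i, (Pi.single a (1 : ℝ) : Ω × J → ℝ) i * x i) *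
          (∑ b : Ω × J, (g a.1 b.1 * H a.2 b.2) * x b) ∂(gm (Ω × J)) = g a.1 a.1 * H a.2 a.2 := by
      intro a
      rw [hm.two (Ω × J) (Pi.single a (1 : ℝ)) (fun b => g a.1 b.1 * H a.2 b.2)]
      simp [Pi.single_apply]
    rw [sum_congr rfl fun a _ => h2 a, Fintype.sum_prod_type]
    simp only [← mul_sum, ← sum_mul]
    have h3 : ∑ w, g w w = 0 := hg
    rw [h3, zero_mul]
  rw [e]
  have j1 : Integrable (fun x : GS (Ω × J) => ip (Mᵀ * g * M) H - ∑ b, u b * x b)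
      (gm (Ω × J)) := i0.sub i1
  have j2 : Integrable (fun x : GS (Ω × J) => ip (Mᵀ * g * M) H - ∑ b, u b * x b +
      ∑ b, v b * x b) (gm (Ω × J)) := j1.add i2
  refine ⟨j2.sub i4, ?_⟩
  rw [integral_sub j2 i4, integral_add j1 i2, integral_sub i0 i1, hm.one, hm.one, q0]
  simp

theorem crude (G x : GS (Ω × J)) (g : Matrix Ω Ω ℝ) :
    fro ((mat G + mat x)ᵀ * g * (mat G - mat x)) ≤ (‖G‖ ^ 2 + ‖x‖ ^ 2) * fro g := by
  have h1 := fro_mul_le ((mat G + mat x)ᵀ * g) (mat G - mat x)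
  have h2 := fro_mul_le (mat G + mat x)ᵀ g
  rw [fro_transpose, ← mat_add, fro_mat] at h2
  rw [← mat_add, ← mat_sub, fro_mat] at h1
  rw [← mat_add, ← mat_sub]
  have h3 := parallelogram_law_with_norm ℝ G x
  have h4 : ‖G + x‖ * ‖G - x‖ ≤ ‖G‖ ^ 2 + ‖x‖ ^ 2 := by
    nlinarith [sq_nonneg (‖G + x‖ - ‖G - x‖)]
  have h5 := fro_nonneg g
  calc _ ≤ ‖G + x‖ * fro g * ‖G - x‖ :=
        h1.trans (mul_le_mul_of_nonneg_right h2 (norm_nonneg _))
    _ = ‖G + x‖ * ‖G - x‖ * fro g := by ring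
    _ ≤ _ := mul_le_mul_of_nonneg_right h4 h5

theorem key (hm : S_Mom) {B p : ℝ} (hB : 0 ≤ B) (hp : 0 < p) (hp1 : p ≤ 1) (G : GS (Ω × J))
    (hG : fro (mat G) ^ 2 ≤ 4 * Fintype.card (Ω × J)) (S : Set (GS (Ω × J)))
    (hS : MeasurableSet S) (hs : (gm (Ω × J)).real S ≤ p ^ 2) (g : Matrix Ω Ω ℝ)
    (hg : g.trace = 0)
    (hb : ∀ x, x ∉ S → fro ((mat G + mat x)ᵀ * g * (mat G - mat x)) ≤ 2 * B * fro g) :
    fro ((mat G)ᵀ * g * mat G) ≤ (2 * B + 6 * Fintype.card (Ω × J) * p) * fro g := by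
  set N : ℝ := (Fintype.card (Ω × J) : ℝ) with hN
  have hN0 : 0 ≤ N := Nat.cast_nonneg _
  have hg0 := fro_nonneg g
  have hc : 0 ≤ (2 * B + 6 * N * p) * fro g := by positivity
  rcases hN0.eq_or_lt with h0 | h0
  · have h1 : fro (mat G) = 0 := by
      have := fro_nonneg (mat G)
      rw [← h0] at hG
      nlinarith
    rw [fro_eq_zero h1, Matrix.mul_zero, fro_zero]
    exact hc
  set H := (mat G)ᵀ * g * mat G with hH
  have hH0 := fro_nonneg H
  obtain ⟨i1, e1⟩ := mean hm (mat G) g hg H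
  rw [fro_mat] at hG
  have i2 : Integrable (fun x : GS (Ω × J) => ‖x‖ ^ 4) (gm (Ω × J)) := hm.norm_int _ 4
  have i3 : Integrable (S.indicator fun _ : GS (Ω × J) => (4 * N + N / (2 * p))) (gm (Ω × J)) :=
    (integrable_const _).indicator hS
  have i0 : Integrable (fun _ : GS (Ω × J) => 2 * B) (gm (Ω × J)) := integrable_const _
  have i4 : Integrable (fun x : GS (Ω × J) => (2 * B + p / (2 * N) * ‖x‖ ^ 4 +
      S.indicator (fun _ : GS (Ω × J) => (4 * N + N / (2 * p))) x) * (fro g * fro H))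
      (gm (Ω × J)) := ((i0.add (i2.const_mul _)).add i3).mul_const _
  have le1 := integral_mono i1 i4 (fun x => by
    have h1 := ip_le ((mat G + mat x)ᵀ * g * (mat G - mat x)) H
    have h2 : 0 ≤ p / (2 * N) * ‖x‖ ^ 4 := by positivity
    have h3 : fro ((mat G + mat x)ᵀ * g * (mat G - mat x)) ≤ (2 * B + p / (2 * N) * ‖x‖ ^ 4 +
        S.indicator (fun _ : GS (Ω × J) => (4 * N + N / (2 * p))) x) * fro g := by
      by_cases hx : x ∈ S
      · rw [Set.indicator_of_mem hx]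
        refine (crude G x g).trans (mul_le_mul_of_nonneg_right ?_ hg0)
        have h4 : ‖x‖ ^ 2 ≤ p / (2 * N) * ‖x‖ ^ 4 + N / (2 * p) := by
          have h5 : p / (2 * N) * ‖x‖ ^ 4 + N / (2 * p) - ‖x‖ ^ 2 =
              (p * ‖x‖ ^ 2 - N) ^ 2 / (2 * N * p) := by
            field_simp
            ring
          have h6 : 0 ≤ (p * ‖x‖ ^ 2 - N) ^ 2 / (2 * N * p) := by positivity
          linarith
        linarith
      · rw [Set.indicator_of_notMem hx]
        refine (hb x hx).trans (mul_le_mul_of_nonneg_right ?_ hg0)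
        linarith
    calc _ ≤ _ := h1
      _ ≤ _ := mul_le_mul_of_nonneg_right h3 hH0
      _ = _ := by ring)
  have j1 : Integrable (fun x : GS (Ω × J) => p / (2 * N) * ‖x‖ ^ 4) (gm (Ω × J)) :=
    i2.const_mul _
  have j2 : Integrable (fun x : GS (Ω × J) => 2 * B + p / (2 * N) * ‖x‖ ^ 4) (gm (Ω × J)) :=
    i0.add j1
  rw [e1, ip_self, integral_mul_const, integral_add j2 i3,
    integral_add i0 j1, integral_const_mul (p / (2 * N)), integral_indicator_const _ hS] at le1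
  simp only [integral_const, probReal_univ, smul_eq_mul, one_mul] at le1
  have n4 := hm.norm4 (Ω × J)
  rw [← hN] at n4
  have b1 : p / (2 * N) * ∫ x : GS (Ω × J), ‖x‖ ^ 4 ∂(gm (Ω × J)) ≤ 3 / 2 * N * p := by
    calc _ ≤ p / (2 * N) * (3 * N ^ 2) := mul_le_mul_of_nonneg_left n4 (by positivity)
      _ = _ := by field_simp
  have b2 : (gm (Ω × J)).real S * (4 * N + N / (2 * p)) ≤ 9 / 2 * N * p := by
    calc _ ≤ p ^ 2 * (4 * N + N / (2 * p)) := mul_le_mul_of_nonneg_right hs (by positivity)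
      _ = 4 * N * p * p + N * p / 2 := by field_simp
      _ ≤ 4 * N * p * 1 + N * p / 2 := by gcongr
      _ = _ := by ring
  refine le_of_sq_le_mul hH0 hc (le1.trans ?_)
  calc _ ≤ (2 * B + 6 * N * p) * (fro g * fro H) :=
        mul_le_mul_of_nonneg_right (by linarith) (by positivity)
    _ = _ := by ring

end DecoupA

open DecoupA in
theorem decoup (hm : S_Mom) : S_Decoup := by
  intro Ω J _ _ r B p hB hp hp1 h
  set ρ : GS (Ω × J) × GS (Ω × J) → GS (Ω × J) × GS (Ω × J) :=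
    fun z => ((√2)⁻¹ • (z.1 + z.2), (√2)⁻¹ • (z.1 - z.2)) with hρ
  have hr : MeasurePreserving ρ _ _ := hm.rot (Ω × J)
  have hBm : MeasurableSet (Bad (Ω := Ω) J r B) := (open_bad r B).measurableSet
  have hT : MeasurableSet (ρ ⁻¹' Bad (Ω := Ω) J r B) := hr.measurable hBm
  have h1 : ((gm (Ω × J)).prod (gm (Ω × J))) (ρ ⁻¹' Bad (Ω := Ω) J r B) ≤
      ENNReal.ofReal (p ^ 4) := by
    rw [hr.measure_preimage hBm.nullMeasurableSet]
    exact (ENNReal.le_ofReal_iff_toReal_le (measure_ne_top _ _) (by positivity)).2 h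
  rw [Measure.prod_apply hT] at h1
  have hf := measurable_measure_prodMk_left (ν := gm (Ω × J)) hT
  have h2 := mul_meas_ge_le_lintegral (μ := gm (Ω × J)) hf (ENNReal.ofReal (p ^ 2))
  have h3 : (gm (Ω × J)) {G | ENNReal.ofReal (p ^ 2) ≤
      (gm (Ω × J)) (Prod.mk G ⁻¹' (ρ ⁻¹' Bad (Ω := Ω) J r B))} ≤ ENNReal.ofReal (p ^ 2) := by
    have h4 := h2.trans h1
    have h5 : ENNReal.ofReal (p ^ 4) = ENNReal.ofReal (p ^ 2) * ENNReal.ofReal (p ^ 2) := by
      rw [← ENNReal.ofReal_mul (by positivity)]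
      congr 1
      ring
    rw [h5] at h4
    exact (ENNReal.mul_le_mul_iff_right (by simpa using by positivity) ENNReal.ofReal_ne_top).1 h4
  refine (ENNReal.le_ofReal_iff_toReal_le (measure_ne_top _ _) (by positivity)).1
    ((measure_mono ?_).trans h3)
  rintro G ⟨hG, hn⟩
  by_contra hc
  simp only [Set.mem_ofPred_eq, not_le] at hc
  refine hn fun g hs hg => key hm hB hp hp1 G hG _ (measurable_prodMk_left hT)
    ((ENNReal.le_ofReal_iff_toReal_le (measure_ne_top _ _) (by positivity)).1 hc.le) g hg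
    fun x hx => ?_
  have h6 : ∀ g : Matrix Ω Ω ℝ, Sparse r g →
      fro ((mat ((√2)⁻¹ • (G + x)))ᵀ * g * mat ((√2)⁻¹ • (G - x))) ≤ B * fro g := not_not.1 hx
  have h7 := h6 g hs
  rw [mat_smul, mat_smul, mat_add, mat_sub, Matrix.transpose_smul, Matrix.smul_mul,
    Matrix.smul_mul, Matrix.mul_smul, smul_smul, fro_smul] at h7
  have h8 : (√2)⁻¹ * (√2)⁻¹ = (1 / 2 : ℝ) := by
    rw [← mul_inv, Real.mul_self_sqrt (by norm_num)]
    norm_num
  rw [h8, abs_of_pos (by norm_num)] at h7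
  linarith

end

end Pool.Agent.P.MP_1bacd4_an
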