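import Pool.Agent.P.MP_1bacd4_an.Basic

/-! Deterministic step: restricted isometry gives Euclidean sections. -/

set_option autoImplicit false

namespace Pool.Agent.P.MP_1bacd4_an

open Finset Module Matrix

namespace DetA

variable {Ω : Type} [Fintype Ω] [DecidableEq Ω]

/-- Restriction of a vector to a finset. -/
noncomputable def res (T : Finset Ω) (x : Ω → ℝ) : Ω → ℝ := fun i => if i ∈ T then x i else 0

theorem supp_res (T : Finset Ω) (x : Ω → ℝ) : supp (res T x) ≤ T.card :=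
  supp_le_card fun _ hi => if_neg hi

theorem res_dot (T : Finset Ω) (x : Ω → ℝ) : res T x ⬝ᵥ x = n2 (res T x) ^ 2 := by
  rw [n2_sq_dot]
  refine sum_congr rfl fun i _ => ?_
  by_cases h : i ∈ T <;> simp [res, h]

theorem l1_res_le (T : Finset Ω) (x : Ω → ℝ) : l1 (res T x) ≤ l1 x :=
  l1_mono fun i => by by_cases h : i ∈ T <;> simp [res, h]

theorem l1_sub_res_le (T : Finset Ω) (x : Ω → ℝ) : l1 (x - res T x) ≤ l1 x :=
  l1_mono fun i => by by_cases h : i ∈ T <;> simp [res, h]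

theorem top (x : Ω → ℝ) {s : ℕ} (h1 : 1 ≤ s) (hs : s ≤ Fintype.card Ω) :
    ∃ T : Finset Ω, T.card = s ∧ ∀ j, |(x - res T x) j| ≤ l1 (res T x) / s := by
  obtain ⟨T, hT, hmax⟩ := exists_top x hs
  have hs0 : (0 : ℝ) < s := by exact_mod_cast h1
  refine ⟨T, hT, fun j => ?_⟩
  by_cases hj : j ∈ T
  · simp only [Pi.sub_apply, res, hj, if_true, sub_self, abs_zero]
    exact div_nonneg (l1_nonneg _) hs0.le
  · simp only [Pi.sub_apply, res, hj, if_false, sub_zero]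
    rw [le_div_iff₀ hs0]
    have h2 : l1 (res T x) = ∑ i ∈ T, |x i| := by
      unfold l1
      rw [← sum_subset (subset_univ T) fun i _ hi => by simp [res, hi]]
      exact sum_congr rfl fun i hi => by simp [res, hi]
    have h3 : ∑ _i ∈ T, |x j| ≤ ∑ i ∈ T, |x i| := sum_le_sum fun i hi => hmax i hi j hj
    rw [sum_const, hT, nsmul_eq_mul, mul_comm] at h3
    exact h3.trans h2.symm.le

omit [DecidableEq Ω] in
theorem dot_le_sup {w x : Ω → ℝ} {τ : ℝ} (hx : ∀ i, |x i| ≤ τ) : w ⬝ᵥ x ≤ l1 w * τ := by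
  rw [l1, sum_mul]
  refine sum_le_sum fun i _ => (le_abs_self _).trans ?_
  rw [abs_mul]; exact mul_le_mul_of_nonneg_left (hx i) (abs_nonneg _)

/-- An operator bound on sparse vectors gives a bound in terms of the sup and l1 norms. -/
theorem block {J : Type} [Fintype J] (A : Matrix J Ω ℝ) {c τ : ℝ} {s : ℕ} (hc : 0 ≤ c)
    (h1 : 1 ≤ s) (hs : s ≤ Fintype.card Ω) (hA : ∀ x, supp x ≤ s → n2 (A *ᵥ x) ≤ c * n2 x)
    (x : Ω → ℝ) (hτ : 0 ≤ τ) (hx : ∀ i, |x i| ≤ τ) :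
    n2 (A *ᵥ x) ≤ c * √(s : ℝ) * (τ + l1 x / s) := by
  have hs0 : (0 : ℝ) < s := by exact_mod_cast h1
  set u := A *ᵥ x with hu
  set w := Aᵀ *ᵥ u with hw
  obtain ⟨T, hT, hoff⟩ := top w h1 hs
  have hsup : supp (res T w) ≤ s := hT ▸ supp_res T w
  have h2 : n2 (res T w) ≤ c * n2 u := by
    refine le_of_sq_le_mul (n2_nonneg _) (mul_nonneg hc (n2_nonneg _)) ?_
    rw [← res_dot, dotProduct_comm, hw, ← dot_mulVec_eq]
    refine (dot_le _ _).trans ?_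
    have := mul_le_mul_of_nonneg_left (hA _ hsup) (n2_nonneg u)
    linarith
  have h3 : l1 (res T w) ≤ √(s : ℝ) * (c * n2 u) := by
    refine (l1_le_supp _).trans (mul_le_mul (Real.sqrt_le_sqrt ?_) h2 (n2_nonneg _)
      (Real.sqrt_nonneg _))
    exact_mod_cast hsup
  have hb : 0 ≤ τ + l1 x / s := add_nonneg hτ (div_nonneg (l1_nonneg _) hs0.le)
  refine le_of_sq_le_mul (n2_nonneg _)
    (mul_nonneg (mul_nonneg hc (Real.sqrt_nonneg _)) hb) ?_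
  have h4 : n2 u ^ 2 = res T w ⬝ᵥ x + x ⬝ᵥ (w - res T w) := by
    rw [dotProduct_comm x, ← add_dotProduct, add_sub_cancel, hw, ← dot_mulVec_eq, n2_sq_dot]
  have h5 := dot_le_sup (w := res T w) hx
  have h6 := dot_le_sup (w := x) hoff
  have h7 : l1 x * (l1 (res T w) / s) = l1 (res T w) * (l1 x / s) := by ring
  have h8 := mul_le_mul_of_nonneg_right h3 hb
  rw [h4]
  nlinarith

/-- From a bound on the largest coordinates to the comparison of the l1 and l2 norms. -/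
theorem euc_of (x : Ω → ℝ) {s : ℕ} (h1 : 1 ≤ s) (hs : s ≤ Fintype.card Ω) {ρ : ℝ} (hρ : 0 < ρ)
    (hρs : ρ * sq Ω ≤ √(s : ℝ))
    (h : ∀ T : Finset Ω, T.card = s → (∀ j, |(x - res T x) j| ≤ l1 x / s) →
      n2 (res T x) ≤ n2 x / 2 + 32 * (√(s : ℝ) * (l1 x / s))) :
    sq Ω * n2 x ≤ 66 / ρ * l1 x := by
  have hs0 : (0 : ℝ) < s := by exact_mod_cast h1
  obtain ⟨T, hT, hoff⟩ := top x h1 hs
  have hoff' : ∀ j, |(x - res T x) j| ≤ l1 x / s := fun j =>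
    (hoff j).trans (div_le_div_of_nonneg_right (l1_res_le T x) hs0.le)
  have h2 := h T hT hoff'
  set t := √(s : ℝ) with ht
  have ht0 : 0 < t := Real.sqrt_pos.2 hs0
  have htt : t * t = s := Real.mul_self_sqrt hs0.le
  set a := l1 x / s with ha
  have ha0 : 0 ≤ a := div_nonneg (l1_nonneg _) hs0.le
  have hl : l1 x = t * t * a := by rw [htt, ha]; field_simp
  have h3 : n2 (x - res T x) ≤ t * a := by
    refine le_of_sq_le_sq' (mul_nonneg ht0.le ha0) ((n2_sq_le_sup_mul hoff').trans ?_)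
    have := mul_le_mul_of_nonneg_left (l1_sub_res_le T x) ha0
    rw [hl] at this
    nlinarith
  have h4 : n2 x ≤ n2 (res T x) + n2 (x - res T x) := by
    have := n2_add_le (res T x) (x - res T x)
    rwa [add_sub_cancel] at this
  have h5 : n2 x ≤ 66 * (t * a) := by linarith
  rw [div_mul_eq_mul_div, le_div_iff₀ hρ, hl]
  have h6 := mul_le_mul hρs h5 (n2_nonneg _) ht0.le
  nlinarith

/-- Spread vectors have a small inner product with sparse vectors. -/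
theorem spr_dot {ε : ℝ} (hε : 0 < ε) {s : ℕ} (hs : 48 * (s : ℝ) ≤ ε ^ 4 * Fintype.card Ω)
    (hL : 0 < Fintype.card Ω) {f x : Ω → ℝ} (hf : Spr ε f) (hx : supp x ≤ s) :
    x ⬝ᵥ f ≤ 2 * ε * n2 x * n2 f := by
  obtain ⟨f1, h1, h2⟩ := hf
  have hL0 : (0 : ℝ) < Fintype.card Ω := by exact_mod_cast hL
  set S := univ.filter fun i => x i ≠ 0 with hS
  have hSc : (S.card : ℝ) ≤ s := by exact_mod_cast hx
  have e1 : x ⬝ᵥ f1 = x ⬝ᵥ res S f1 := by
    refine sum_congr rfl fun i _ => ?_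
    by_cases h : x i = 0
    · simp [h]
    · simp [res, hS, h]
  have e2 : n2 (res S f1) ^ 2 = ∑ i ∈ S, |f1 i ^ 2| := by
    rw [n2_sq, ← sum_subset (subset_univ S) fun i _ hi => by simp [res, hi]]
    exact sum_congr rfl fun i hi => by simp [res, hi]
  have e3 := sum_abs_le_sqrt_card S fun i => f1 i ^ 2
  have e4 : n2 (fun i => f1 i ^ 2) ^ 2 = ∑ i, f1 i ^ 4 := by
    rw [n2_sq]; exact sum_congr rfl fun i _ => by ring
  have e5 : √(S.card : ℝ) * n2 (fun i => f1 i ^ 2) ≤ (ε * n2 f) ^ 2 := by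
    refine le_of_sq_le_sq' (sq_nonneg _) ?_
    rw [mul_pow, e4, Real.sq_sqrt (Nat.cast_nonneg _)]
    have h4 : 0 ≤ ∑ i, f1 i ^ 4 := sum_nonneg fun i _ => by positivity
    have h5 : 0 ≤ n2 f ^ 4 := pow_nonneg (n2_nonneg _) 4
    refine le_of_mul_le_mul_left ?_ hL0
    have h6 := mul_le_mul hSc h2 (mul_nonneg hL0.le h4) (Nat.cast_nonneg _)
    have h7 := mul_le_mul_of_nonneg_right hs h5
    nlinarith
  have e6 : n2 (res S f1) ≤ ε * n2 f :=
    le_of_sq_le_sq' (mul_nonneg hε.le (n2_nonneg _)) (by rw [e2]; exact e3.trans e5)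
  have e7 : x ⬝ᵥ f = x ⬝ᵥ (f - f1) + x ⬝ᵥ res S f1 := by rw [← e1, dotProduct_sub]; ring
  have e8 := (dot_le x (f - f1)).trans (mul_le_mul_of_nonneg_left h1 (n2_nonneg x))
  have e9 := (dot_le x (res S f1)).trans (mul_le_mul_of_nonneg_left e6 (n2_nonneg x))
  rw [e7]; linarith

theorem spr_proj {ε : ℝ} (hε : 0 < ε) {s : ℕ} (hs : 48 * (s : ℝ) ≤ ε ^ 4 * Fintype.card Ω)
    (hL : 0 < Fintype.card Ω) {W : Submodule ℝ (Ω → ℝ)} (hW : ∀ f ∈ W, Spr ε f) (x : Ω → ℝ)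
    (hx : supp x ≤ s) : n2 (proj W *ᵥ x) ≤ 2 * ε * n2 x := by
  refine le_of_sq_le_mul (n2_nonneg _) (mul_nonneg (by positivity) (n2_nonneg _)) ?_
  rw [n2_sq_dot, dot_proj (proj_mem W x), dotProduct_comm]
  exact spr_dot hε hs hL (hW _ (proj_mem W x)) hx

/-- The column space of a matrix. -/
def rg {J : Type} [Fintype J] (G : Matrix Ω J ℝ) : Submodule ℝ (Ω → ℝ) :=
  LinearMap.range G.mulVecLin

omit [DecidableEq Ω] in
theorem perp_rg {J : Type} [Fintype J] {G : Matrix Ω J ℝ} {y : Ω → ℝ} (hy : y ∈ perp (rg G)) :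
    Gᵀ *ᵥ y = 0 := by
  refine n2_eq_zero (pow_eq_zero_iff two_ne_zero |>.1 ?_)
  rw [n2_sq_dot, ← dot_mulVec_eq, dotProduct_comm]
  exact hy _ ⟨_, rfl⟩

theorem le_proj_rg {J : Type} [Fintype J] {G : Matrix Ω J ℝ} {b : ℝ} (hb : 0 ≤ b)
    (h : ∀ v, n2 (G *ᵥ v) ≤ b * n2 v) (x : Ω → ℝ) :
    n2 (Gᵀ *ᵥ x) ≤ b * n2 (proj (rg G) *ᵥ x) := by
  have h1 := perp_rg (sub_proj_mem (rg G) x)
  rw [mulVec_sub, sub_eq_zero] at h1
  rw [h1]; exact op_transpose hb h _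

theorem proj_rg_le {J : Type} [Fintype J] {G : Matrix Ω J ℝ} {a : ℝ} (ha : 0 < a)
    (h : ∀ v, a * n2 v ≤ n2 (G *ᵥ v)) (x : Ω → ℝ) :
    n2 (proj (rg G) *ᵥ x) ≤ a⁻¹ * n2 (Gᵀ *ᵥ x) := by
  refine le_of_sq_le_mul (n2_nonneg _) (mul_nonneg (inv_nonneg.2 ha.le) (n2_nonneg _)) ?_
  rw [n2_sq_dot, dot_proj (proj_mem _ x)]
  obtain ⟨v, hv⟩ := proj_mem (rg G) x
  rw [← hv, mulVecLin_apply, dotProduct_comm, dot_mulVec_eq]
  refine (dot_le _ _).trans ?_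
  have h1 : n2 v ≤ a⁻¹ * n2 (G *ᵥ v) := by
    rw [inv_mul_eq_div, le_div_iff₀ ha, mul_comm]; exact h v
  have := mul_le_mul_of_nonneg_left h1 (n2_nonneg (Gᵀ *ᵥ x))
  linarith

theorem fro_proj_rg {J : Type} [Fintype J] {G : Matrix Ω J ℝ} {a : ℝ} (ha : 0 < a)
    (h : ∀ v, a * n2 v ≤ n2 (G *ᵥ v)) (g : Matrix Ω Ω ℝ) :
    fro (proj (rg G) * g * proj (rg G)) ≤ a⁻¹ * (a⁻¹ * fro (Gᵀ * g * G)) := by
  have ha' : 0 ≤ a⁻¹ := inv_nonneg.2 ha.le
  have h1 : 1 * fro (proj (rg G) * (g * proj (rg G))) ≤ a⁻¹ * fro (Gᵀ * (g * proj (rg G))) :=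
    fro_le_cols zero_le_one ha' fun k => by
      rw [one_mul, col_mul, col_mul]; exact proj_rg_le ha h _
  have h2 : 1 * fro (Gᵀ * g * proj (rg G)) ≤ a⁻¹ * fro (Gᵀ * g * G) :=
    fro_le_rows zero_le_one ha' fun k => by
      rw [one_mul, row_mul (Gᵀ * g), row_mul (Gᵀ * g), proj_transpose]; exact proj_rg_le ha h _
  rw [one_mul] at h1 h2
  rw [Matrix.mul_assoc]
  refine h1.trans (mul_le_mul_of_nonneg_left ?_ ha')
  rw [← Matrix.mul_assoc]; exact h2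

theorem core {Λ Z Y : Submodule ℝ (Ω → ℝ)} (hΛZ : Perp Λ Z) (hΛY : Perp Λ Y) (hZY : Perp Z Y)
    {d s0 s : ℕ} {Γ : Matrix Ω (Fin d) ℝ} (hR : RG Γ (Λ ⊔ Z ⊔ Y) s0) (hss : s ≤ s0) (h1 : 1 ≤ s)
    (hs : s ≤ Fintype.card Ω) {c0 ε ρ : ℝ} (hc0 : 0 < c0) (hc1 : c0 ≤ 1) (hε : ε = c0 / 100000)
    (hρ : 0 < ρ) (hρs : ρ * sq Ω ≤ √(s : ℝ))
    (hΛ : ∀ x, supp x ≤ s → n2 (proj Λ *ᵥ x) ≤ 2 * ε * n2 x)
    (hZ : ∀ x, supp x ≤ s → n2 (proj Z *ᵥ x) ≤ 2 * ε * n2 x)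
    (hY : ∀ x, supp x ≤ s → n2 (proj Y *ᵥ x) ≤ 2 * ε * n2 x)
    (k1 : 45 * √(d : ℝ) ≤ sq Ω) (k2 : 16 * c0 * sq Ω ≤ √(d : ℝ))
    (k3 : √(d : ℝ) ≤ 24 * c0 * sq Ω) :
    ∃ B0 : Submodule ℝ (Ω → ℝ), Z ≤ B0 ∧ Perp Λ B0 ∧ Perp Y B0 ∧
      TFH B0 (Λ ⊔ B0) c0 (66 / ρ) s := by
  have hs0 : (0 : ℝ) < s := by exact_mod_cast h1
  have hQ : 0 < sq Ω := Real.sqrt_pos.2 (by exact_mod_cast h1.trans hs)
  set Q := sq Ω with hQd
  set r := √(d : ℝ) with hrd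
  have hr : 0 < r := lt_of_lt_of_le (by positivity) k2
  have hε0 : 0 < ε := by rw [hε]; positivity
  have hε1 : ε ≤ 1 / 100000 := by rw [hε]; linarith
  set Ξ := Λ ⊔ Z ⊔ Y with hΞ
  set P := proj Ξ with hP
  have hPs : P = proj Λ + proj Z + proj Y := by
    rw [hP, hΞ, proj_sup (hΛY.sup_left hZY), proj_sup hΛZ]
  have hPx : ∀ x, supp x ≤ s → n2 (P *ᵥ x) ≤ 6 * ε * n2 x := fun x hx => by
    rw [hPs, add_mulVec, add_mulVec]
    have a1 := n2_add_le (proj Λ *ᵥ x + proj Z *ᵥ x) (proj Y *ᵥ x)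
    have a2 := n2_add_le (proj Λ *ᵥ x) (proj Z *ᵥ x)
    linarith [hΛ x hx, hZ x hx, hY x hx]
  set G : Matrix Ω (Fin d) ℝ := proj (perp Ξ) * Γ with hG
  have hG2 : G = Γ - P * Γ := by rw [hG, proj_perp, Matrix.sub_mul, Matrix.one_mul]
  have hGt : ∀ x, Gᵀ *ᵥ x = Γᵀ *ᵥ (x - P *ᵥ x) := fun x => by
    rw [hG, transpose_mul, proj_transpose, ← mulVec_mulVec, proj_perp, sub_mulVec, one_mulVec]
  have hΓu : ∀ v, n2 (Γ *ᵥ v) ≤ 2 * Q * n2 v := fun v => (hR.r1 v (Set.mem_univ v)).2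
  have hΓl : ∀ v, Q / 4 * n2 v ≤ n2 (Γ *ᵥ v) := fun v => (hR.r1 v (Set.mem_univ v)).1
  have hPΓ : ∀ v, n2 ((P * Γ) *ᵥ v) ≤ 2 * r * n2 v := fun v => by
    have := op_transpose (A := (P * Γ)ᵀ) (c := 2 * r) (by positivity) (fun w => by
      rw [transpose_mul, hP, proj_transpose, ← mulVec_mulVec]
      refine (hR.r3 _ ⟨0, _, ?_, proj_mem Ξ w, (zero_add _).symm⟩).2.trans ?_
      · simp [supp]
      · exact mul_le_mul_of_nonneg_left (n2_proj_le Ξ w) (by positivity)) v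
    rwa [transpose_transpose] at this
  have hGu : ∀ v, n2 (G *ᵥ v) ≤ 2 * Q * n2 v := fun v => by
    rw [hG, ← mulVec_mulVec]; exact (n2_proj_le _ _).trans (hΓu v)
  have hGl : ∀ v, Q / 8 * n2 v ≤ n2 (G *ᵥ v) := fun v => by
    have a1 := n2_add_le (G *ᵥ v) ((P * Γ) *ᵥ v)
    rw [← add_mulVec, show G + P * Γ = Γ by rw [hG2]; abel] at a1
    have a2 := mul_le_mul_of_nonneg_right k1 (n2_nonneg v)
    have a3 := mul_nonneg hr.le (n2_nonneg v)
    linarith [hΓl v, hPΓ v]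
  have hGs : ∀ x, supp x ≤ s → r / 8 * n2 x ≤ n2 (Gᵀ *ᵥ x) ∧ n2 (Gᵀ *ᵥ x) ≤ 2 * r * n2 x := by
    intro x hx
    have a1 := hR.r3 (x - P *ᵥ x)
      ⟨x, -(P *ᵥ x), hx.trans hss, Ξ.neg_mem (proj_mem Ξ x), sub_eq_add_neg _ _⟩
    rw [← hGt] at a1
    have a2 := n2_add_le (x - P *ᵥ x) (P *ᵥ x)
    rw [sub_add_cancel] at a2
    have a3 : n2 (x - P *ᵥ x) ≤ n2 x := by
      have := n2_proj_le (perp Ξ) x
      rwa [proj_perp, sub_mulVec, one_mulVec] at this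
    have a4 := mul_le_mul_of_nonneg_right hε1 (n2_nonneg x)
    have a5 : n2 x / 2 ≤ n2 (x - P *ᵥ x) := by linarith [hPx x hx, n2_nonneg x]
    have a6 := mul_le_mul_of_nonneg_left a5 hr.le
    have a7 := mul_le_mul_of_nonneg_left a3 hr.le
    exact ⟨by linarith [a1.1], by linarith [a1.2]⟩
  have hRΞ : Perp Ξ (rg G) := by
    rintro a ha _ ⟨v, rfl⟩
    rw [mulVecLin_apply, hG, ← mulVec_mulVec]
    exact proj_mem (perp Ξ) _ a ha
  have hΛR : Perp Λ (rg G) := fun a ha =>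
    hRΞ a (Submodule.mem_sup_left (Submodule.mem_sup_left ha))
  have hZR : Perp Z (rg G) := fun a ha =>
    hRΞ a (Submodule.mem_sup_left (Submodule.mem_sup_right ha))
  have hYR : Perp Y (rg G) := fun a ha => hRΞ a (Submodule.mem_sup_right ha)
  have hB0 : proj (Z ⊔ rg G) = proj Z + proj (rg G) := proj_sup hZR
  have hB : proj (Λ ⊔ (Z ⊔ rg G)) = proj Λ + (proj Z + proj (rg G)) := by
    rw [proj_sup (hΛZ.sup_right hΛR), hB0]
  have hQ8 : (0 : ℝ) < Q / 8 := by positivity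
  have hup : ∀ x, supp x ≤ s → n2 (proj (Λ ⊔ (Z ⊔ rg G)) *ᵥ x) ≤ n2 x / 2 := by
    intro x hx
    rw [hB, add_mulVec, add_mulVec]
    have a1 := n2_add_le (proj Λ *ᵥ x) (proj Z *ᵥ x + proj (rg G) *ᵥ x)
    have a2 := n2_add_le (proj Z *ᵥ x) (proj (rg G) *ᵥ x)
    have a3 : n2 (proj (rg G) *ᵥ x) ≤ 16 / 45 * n2 x := by
      refine (proj_rg_le hQ8 hGl x).trans ?_
      rw [inv_mul_eq_div, div_le_iff₀ hQ8]
      have := mul_le_mul_of_nonneg_right k1 (n2_nonneg x)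
      linarith [(hGs x hx).2]
    have a4 := mul_le_mul_of_nonneg_right hε1 (n2_nonneg x)
    linarith [hΛ x hx, hZ x hx, n2_nonneg x]
  refine ⟨Z ⊔ rg G, le_sup_left, hΛZ.sup_right hΛR, hZY.symm.sup_right hYR,
    le_sup_right, ?_, ?_, ?_, hup, ?_⟩
  · intro b hb
    refine euc_of b h1 hs hρ hρs fun T hT _ => ?_
    have a1 : n2 (res T b) ≤ n2 b / 2 := by
      refine le_of_sq_le_mul (n2_nonneg _) (by linarith [n2_nonneg b]) ?_
      rw [← res_dot, dotProduct_comm, ← dot_proj hb]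
      refine (dot_le _ _).trans ?_
      have := mul_le_mul_of_nonneg_left (hup _ (hT ▸ supp_res T b)) (n2_nonneg b)
      linarith
    have a2 : 0 ≤ √(s : ℝ) * (l1 b / s) :=
      mul_nonneg (Real.sqrt_nonneg _) (div_nonneg (l1_nonneg _) hs0.le)
    linarith
  · intro y hy
    refine euc_of y h1 hs hρ hρs fun T hT hoff => ?_
    have a0 : 0 ≤ l1 y / s := div_nonneg (l1_nonneg _) hs0.le
    have a1 := perp_rg (perp_anti le_sup_right hy)
    have a2 : n2 (Gᵀ *ᵥ res T y) = n2 (Gᵀ *ᵥ (y - res T y)) := by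
      rw [mulVec_sub, a1, zero_sub, n2_neg]
    have a3 := block Gᵀ (c := 2 * r) (by positivity) h1 hs (fun x hx => (hGs x hx).2)
      (y - res T y) a0 hoff
    have a4 := (hGs _ (hT ▸ supp_res T y)).1
    have a5 : l1 (y - res T y) / s ≤ l1 y / s :=
      div_le_div_of_nonneg_right (l1_sub_res_le T y) hs0.le
    have a6 := mul_le_mul_of_nonneg_left a5 (show 0 ≤ 2 * r * √(s : ℝ) by positivity)
    have a7 : r * n2 (res T y) ≤ r * (32 * (√(s : ℝ) * (l1 y / s))) := by linarith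
    linarith [le_of_mul_le_mul_left a7 hr, n2_nonneg y]
  · intro x hx
    have a1 : n2 (proj (rg G) *ᵥ x) ≤ n2 (proj (Z ⊔ rg G) *ᵥ x) := by
      rw [← proj_mul_of_le' (le_sup_right : rg G ≤ Z ⊔ rg G), ← mulVec_mulVec]
      exact n2_proj_le _ _
    have a2 := le_proj_rg (b := 2 * Q) (by positivity) hGu x
    have a3 := mul_le_mul_of_nonneg_right k2 (n2_nonneg x)
    have a4 : Q * (c0 * n2 x) ≤ Q * n2 (proj (rg G) *ᵥ x) := by linarith [(hGs x hx).1]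
    exact (le_of_mul_le_mul_left a4 hQ).trans a1
  · intro g hg htr
    have hF := fro_nonneg g
    have hcol : ∀ (A : Matrix Ω Ω ℝ) (c : ℝ), 0 ≤ c → (∀ x, supp x ≤ s → n2 (A *ᵥ x) ≤ c * n2 x) →
        fro (A * g) ≤ c * fro g := fun A c hc h => fro_mul_le_left hc g fun k => h _ (hg.2 k)
    have hrow : ∀ (A : Matrix Ω Ω ℝ) (c : ℝ), 0 ≤ c → (∀ x, supp x ≤ s → n2 (Aᵀ *ᵥ x) ≤ c * n2 x) →
        fro (g * A) ≤ c * fro g := fun A c hc h => fro_mul_le_right hc g fun k => h _ (hg.1 k)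
    have e : proj (Z ⊔ rg G) * g * proj (Λ ⊔ (Z ⊔ rg G)) =
        proj Z * g * proj (Λ ⊔ (Z ⊔ rg G)) + (proj (rg G) * (g * proj Λ) +
          (proj (rg G) * (g * proj Z) + proj (rg G) * g * proj (rg G))) := by
      rw [hB0, Matrix.add_mul, Matrix.add_mul]
      congr 1
      rw [hB, Matrix.mul_add, Matrix.mul_add, Matrix.mul_assoc, Matrix.mul_assoc _ g (proj Z)]
    have a1 := (fro_mul_proj_le (Λ ⊔ (Z ⊔ rg G)) (proj Z * g)).trans
      (hcol _ _ (by positivity) hZ)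
    have a2 := (fro_proj_mul_le (rg G) (g * proj Λ)).trans
      (hrow _ (2 * ε) (by positivity) (by rw [proj_transpose]; exact hΛ))
    have a3 := (fro_proj_mul_le (rg G) (g * proj Z)).trans
      (hrow _ (2 * ε) (by positivity) (by rw [proj_transpose]; exact hZ))
    have hQ2 : (0 : ℝ) ≤ 2 * Q := by positivity
    have b1 : fro (Γᵀ * (P * g) * Γ) ≤ 2 * Q * (2 * Q * (6 * ε * fro g)) := by
      refine (fro_mul_le_right hQ2 _ fun i => op_transpose hQ2 hΓu _).trans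
        (mul_le_mul_of_nonneg_left ?_ hQ2)
      exact (fro_mul_le_left hQ2 _ fun i => op_transpose hQ2 hΓu _).trans
        (mul_le_mul_of_nonneg_left (hcol _ _ (by positivity) hPx) hQ2)
    have b2 : fro (Gᵀ * (g * P) * Γ) ≤ 2 * Q * (2 * Q * (6 * ε * fro g)) := by
      refine (fro_mul_le_right hQ2 _ fun i => op_transpose hQ2 hΓu _).trans
        (mul_le_mul_of_nonneg_left ?_ hQ2)
      exact (fro_mul_le_left hQ2 _ fun i => op_transpose hQ2 hGu _).trans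
        (mul_le_mul_of_nonneg_left
          (hrow _ _ (by positivity) (by rw [hP, proj_transpose]; exact hPx)) hQ2)
    have b3 := hR.r4 g ⟨fun ω => (hg.1 ω).trans hss, fun ω => (hg.2 ω).trans hss⟩ htr
    have e2 : Gᵀ * g * G = Γᵀ * g * Γ - Γᵀ * (P * g) * Γ - Gᵀ * (g * P) * Γ := by
      have e3 : Gᵀ = Γᵀ - Γᵀ * P := by
        rw [hG2, transpose_sub, transpose_mul, hP, proj_transpose]
      have e4 : Gᵀ * g * G = Gᵀ * g * Γ - Gᵀ * (g * P) * Γ := by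
        conv_lhs => rw [show Gᵀ * g * G = Gᵀ * g * (Γ - P * Γ) by rw [← hG2]]
        simp only [Matrix.mul_sub, Matrix.mul_assoc]
      rw [e4]
      congr 1
      rw [e3]
      simp only [Matrix.sub_mul, Matrix.mul_assoc]
    have b4 := fro_sub_le (Γᵀ * g * Γ - Γᵀ * (P * g) * Γ) (Gᵀ * (g * P) * Γ)
    have b5 := fro_sub_le (Γᵀ * g * Γ) (Γᵀ * (P * g) * Γ)
    rw [← e2] at b4
    have b6 := mul_le_mul_of_nonneg_right k3 (mul_nonneg hQ.le hF)
    have a4 : fro (proj (rg G) * g * proj (rg G)) ≤ c0 / 5 * fro g := by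
      refine (fro_proj_rg hQ8 hGl g).trans ?_
      rw [inv_mul_eq_div, div_le_iff₀ hQ8, inv_mul_eq_div, div_le_iff₀ hQ8]
      have b7 : 0 ≤ c0 * (Q * (Q * fro g)) := by positivity
      rw [hε] at b1 b2
      rw [← hrd, ← hQd] at b3
      linarith
    have a5 := fro_add_le (proj Z * g * proj (Λ ⊔ (Z ⊔ rg G))) (proj (rg G) * (g * proj Λ) +
      (proj (rg G) * (g * proj Z) + proj (rg G) * g * proj (rg G)))
    have a6 := fro_add_le (proj (rg G) * (g * proj Λ))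
      (proj (rg G) * (g * proj Z) + proj (rg G) * g * proj (rg G))
    have a7 := fro_add_le (proj (rg G) * (g * proj Z)) (proj (rg G) * g * proj (rg G))
    have a8 := mul_nonneg hc0.le hF
    rw [hε] at a1 a2 a3
    rw [e]
    linarith

end DetA

theorem det : S_Det := by
  intro D σ hD hσ hσ1
  have hD' : (2048 : ℝ) ≤ D := by exact_mod_cast hD
  set q := √(2 * (D : ℝ)) with hq
  have hqq : q * q = 2 * D := Real.mul_self_sqrt (by linarith)
  have hq1 : 1 ≤ q := Real.one_le_sqrt.2 (by linarith)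
  set c0 := 1 / (16 * q) with hc0
  have hc : 0 < c0 := by positivity
  have hcq : 16 * c0 * q = 1 := by rw [hc0]; field_simp
  have hc1 : c0 ≤ 1 := by nlinarith
  set ε := c0 / 100000 with hε
  have hε0 : 0 < ε := by positivity
  set σ1 := min σ (ε ^ 4 / 48) with hσ1d
  have h10 : 0 < σ1 := lt_min hσ (by positivity)
  have h11 : σ1 ≤ σ := min_le_left _ _
  have h12 : σ1 ≤ ε ^ 4 / 48 := min_le_right _ _
  set ρ := √(σ1 / 2) with hρ
  have hρ0 : 0 < ρ := Real.sqrt_pos.2 (by positivity)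
  have hρ1 : ρ ≤ 1 := Real.sqrt_le_one.2 (by linarith)
  refine ⟨ε, 66 / ρ, c0, σ1 / 2, hε0, ?_, hc, hc1, by positivity, by linarith, ⌈1 / σ1⌉₊, ?_⟩
  · rw [le_div_iff₀ hρ0]; linarith
  intro Ω _ _ hL Λ Z Y hΛZ hΛY hZY hΛ hZ hY d s Γ hd1 hd2 hs hR
  have hL1 : 1 ≤ σ1 * Fintype.card Ω := by
    have := Nat.ceil_le.1 hL
    rwa [div_le_iff₀ h10, mul_comm] at this
  have hL0 : (0 : ℝ) ≤ Fintype.card Ω := Nat.cast_nonneg _
  set s' := ⌊σ1 * Fintype.card Ω⌋₊ with hs'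
  have f1 : 1 ≤ s' := Nat.one_le_floor_iff _ |>.2 hL1
  have f1' : (1 : ℝ) ≤ s' := by exact_mod_cast f1
  have f2 : (s' : ℝ) ≤ σ1 * Fintype.card Ω := Nat.floor_le (by linarith)
  have f3 : σ1 * Fintype.card Ω < s' + 1 := Nat.lt_floor_add_one _
  have f4 : σ1 / 2 * Fintype.card Ω ≤ s' := by linarith
  have f5 := mul_le_mul_of_nonneg_right h11 hL0
  have f6 := mul_le_mul_of_nonneg_right hσ1 hL0
  have f7 := mul_le_mul_of_nonneg_right h12 hL0
  have hss : s' ≤ s := by exact_mod_cast f2.trans (f5.trans hs)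
  have hsL : s' ≤ Fintype.card Ω := by
    have : (s' : ℝ) ≤ Fintype.card Ω := by linarith
    exact_mod_cast this
  have hLp : 0 < Fintype.card Ω := f1.trans hsL
  have h48 : 48 * (s' : ℝ) ≤ ε ^ 4 * Fintype.card Ω := by linarith
  have hρs : ρ * sq Ω ≤ √(s' : ℝ) := by
    rw [hρ, sq, ← Real.sqrt_mul (by positivity)]; exact Real.sqrt_le_sqrt f4
  have hd1' : (D : ℝ) * d ≤ Fintype.card Ω := by exact_mod_cast hd1
  have hd2' : (Fintype.card Ω : ℝ) ≤ 2 * D * d := by exact_mod_cast hd2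
  have hd0 : (0 : ℝ) ≤ d := Nat.cast_nonneg _
  have hrr : √(d : ℝ) ^ 2 = d := Real.sq_sqrt hd0
  have hQ : 0 ≤ sq Ω := sq_nonneg'
  have k1 : 45 * √(d : ℝ) ≤ sq Ω := by
    refine le_of_sq_le_sq' hQ ?_
    rw [mul_pow, hrr, sq_sq]; nlinarith
  have k2 : 16 * c0 * sq Ω ≤ √(d : ℝ) := by
    have a1 : sq Ω ≤ q * √(d : ℝ) := by
      refine le_of_sq_le_sq' (by positivity) ?_
      rw [mul_pow, hrr, sq_sq, pow_two, hqq]; exact hd2'
    have a2 := mul_le_mul_of_nonneg_left a1 (show 0 ≤ 16 * c0 by positivity)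
    rwa [← mul_assoc, hcq, one_mul] at a2
  have k3 : √(d : ℝ) ≤ 24 * c0 * sq Ω := by
    have a1 : q * √(d : ℝ) ≤ 3 / 2 * sq Ω := by
      refine le_of_sq_le_sq' (by positivity) ?_
      rw [mul_pow, mul_pow, hrr, sq_sq, pow_two, hqq]; linarith
    have a2 := mul_le_mul_of_nonneg_left a1 (show 0 ≤ 16 * c0 by positivity)
    rw [← mul_assoc, hcq, one_mul] at a2
    linarith
  obtain ⟨B0, g1, g2, g3, g4⟩ := DetA.core hΛZ hΛY hZY hR hss f1 hsL hc hc1 hε hρ0 hρs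
    (DetA.spr_proj hε0 h48 hLp hΛ) (DetA.spr_proj hε0 h48 hLp hZ) (DetA.spr_proj hε0 h48 hLp hY)
    k1 k2 k3
  exact ⟨B0, s', g1, g2, g3, f4, g4⟩

end Pool.Agent.P.MP_1bacd4_an
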