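import Pool.Agent.P.MP_1bacd4_an.Defs

/-! Two-summing remainders and Pietsch domination. -/

set_option autoImplicit false

namespace Pool.Agent.P.MP_1bacd4_an

open Finset

namespace End1A

theorem n2_nonneg {I : Type} [Fintype I] (a : I → ℝ) : 0 ≤ n2 a := Real.sqrt_nonneg _

theorem n2_sq {I : Type} [Fintype I] (a : I → ℝ) : n2 a ^ 2 = ∑ i, a i ^ 2 :=
  Real.sq_sqrt (sum_nonneg fun _ _ => sq_nonneg _)

theorem cs {I : Type} [Fintype I] (a b : I → ℝ) : ∑ i, a i * b i ≤ n2 a * n2 b :=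
  Real.sum_mul_le_sqrt_mul_sqrt _ _ _

/-- Concatenation of two weakly square summable families. -/
theorem wl_append {E : Type} [NormedAddCommGroup E] [NormedSpace ℝ E] {n m : ℕ}
    (x : Fin n → E) (x' : Fin m → E) (hx : WL x 1) (hx' : WL x' 1) (a a' : ℝ)
    (ha : a ^ 2 + a' ^ 2 ≤ 1) :
    WL (Fin.append (fun i => a • x i) (fun i => a' • x' i)) 1 := by
  intro c
  rw [Fin.sum_univ_add]
  simp only [Fin.append_left, Fin.append_right]
  set c1 : Fin n → ℝ := fun i => c (Fin.castAdd m i)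
  set c2 : Fin m → ℝ := fun i => c (Fin.natAdd n i)
  have e1 : ∑ i, c (Fin.castAdd m i) • a • x i = a • ∑ i, c1 i • x i := by
    rw [smul_sum]; exact sum_congr rfl fun i _ => smul_comm _ _ _
  have e2 : ∑ i, c (Fin.natAdd n i) • a' • x' i = a' • ∑ i, c2 i • x' i := by
    rw [smul_sum]; exact sum_congr rfl fun i _ => smul_comm _ _ _
  rw [e1, e2]
  have h1 := hx c1
  have h2 := hx' c2
  rw [one_mul] at h1 h2 ⊢
  have hc : n2 c ^ 2 = n2 c1 ^ 2 + n2 c2 ^ 2 := by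
    rw [n2_sq, n2_sq, n2_sq, Fin.sum_univ_add]
  have h3 : ‖a • ∑ i, c1 i • x i + a' • ∑ i, c2 i • x' i‖ ≤ |a| * n2 c1 + |a'| * n2 c2 := by
    refine (norm_add_le _ _).trans ?_
    rw [norm_smul, norm_smul, Real.norm_eq_abs, Real.norm_eq_abs]
    exact add_le_add (mul_le_mul_of_nonneg_left h1 (abs_nonneg _))
      (mul_le_mul_of_nonneg_left h2 (abs_nonneg _))
  refine h3.trans ?_
  have p1 := n2_nonneg c1
  have p2 := n2_nonneg c2
  have p0 := n2_nonneg c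
  have q1 := abs_nonneg a
  have q2 := abs_nonneg a'
  have ha2 : |a| ^ 2 + |a'| ^ 2 ≤ 1 := by rwa [sq_abs, sq_abs]
  refine (pow_le_pow_iff_left₀ (by positivity) p0 two_ne_zero).1 ?_
  · rw [hc]
    nlinarith [sq_nonneg (|a| * n2 c2 - |a'| * n2 c1), sq_nonneg (n2 c1), sq_nonneg (n2 c2),
      mul_nonneg (sub_nonneg.2 ha2) (add_nonneg (sq_nonneg (n2 c1)) (sq_nonneg (n2 c2)))]

/-- One dimensional Helly argument. -/
theorem helly (P : Set (ℝ × ℝ)) (C0 : ℝ) (hneg : ∀ z ∈ P, -z ∈ P)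
    (hconv : ∀ z ∈ P, ∀ z' ∈ P, ∀ θ : ℝ, 0 ≤ θ → θ ≤ 1 → θ • z + (1 - θ) • z' ∈ P)
    (h0 : ∀ z ∈ P, z.1 = 0 → |z.2| ≤ C0) : ∃ l : ℝ, ∀ z ∈ P, |z.2 - l * z.1| ≤ C0 := by
  have key : ∀ z ∈ P, ∀ z' ∈ P, 0 < z.1 → 0 < z'.1 →
      (z.2 - C0) / z.1 ≤ (z'.2 + C0) / z'.1 := by
    intro z hz z' hz' h1 h2
    have hs : 0 < z.1 + z'.1 := by linarith
    have hm := hconv z hz (-z') (hneg z' hz') (z'.1 / (z.1 + z'.1)) (by positivity)
      (by rw [div_le_one hs]; linarith)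
    have := h0 _ hm (by
      simp only [Prod.fst_add, Prod.smul_fst, Prod.fst_neg, smul_eq_mul]
      field_simp
      ring)
    simp only [Prod.snd_add, Prod.smul_snd, Prod.snd_neg, smul_eq_mul] at this
    have h3 := (abs_le.1 this).2
    have h4 : z'.1 / (z.1 + z'.1) * z.2 + (1 - z'.1 / (z.1 + z'.1)) * -z'.2 =
        (z'.1 * z.2 - z.1 * z'.2) / (z.1 + z'.1) := by
      field_simp
      ring
    rw [h4, div_le_iff₀ hs] at h3
    rw [div_le_div_iff₀ h1 h2]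
    nlinarith
  have fin : ∀ l : ℝ, (∀ z ∈ P, 0 < z.1 → |z.2 - l * z.1| ≤ C0) →
      ∀ z ∈ P, |z.2 - l * z.1| ≤ C0 := by
    intro l hl z hz
    rcases lt_trichotomy z.1 0 with h | h | h
    · have := hl (-z) (hneg z hz) (by simpa using h)
      simp only [Prod.snd_neg, Prod.fst_neg] at this
      rw [← abs_neg]
      have e : -(z.2 - l * z.1) = -z.2 - l * -z.1 := by ring
      rwa [e]
    · rw [h, mul_zero, sub_zero]; exact h0 z hz h
    · exact hl z hz h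
  by_cases hne : ∃ z ∈ P, 0 < z.1
  · obtain ⟨z0, hz0, h00⟩ := hne
    let L : Set ℝ := {t | ∃ z ∈ P, 0 < z.1 ∧ t = (z.2 - C0) / z.1}
    have hLne : L.Nonempty := ⟨_, z0, hz0, h00, rfl⟩
    have hub : ∀ z' ∈ P, 0 < z'.1 → (z'.2 + C0) / z'.1 ∈ upperBounds L := by
      rintro z' hz' h' t ⟨z, hz, h, rfl⟩
      exact key z hz z' hz' h h'
    refine ⟨sSup L, fin _ fun z hz h => ?_⟩
    have a1 : (z.2 - C0) / z.1 ≤ sSup L := le_csSup ⟨_, hub z0 hz0 h00⟩ ⟨z, hz, h, rfl⟩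
    have a2 : sSup L ≤ (z.2 + C0) / z.1 := csSup_le hLne (hub z hz h)
    rw [div_le_iff₀ h] at a1
    rw [le_div_iff₀ h] at a2
    rw [abs_le]; constructor <;> linarith
  · exact ⟨0, fin _ fun z hz h => absurd ⟨z, hz, h⟩ hne⟩

/-- Hahn-Banach sandwich for a cone of lower bounds. -/
theorem sandwich {V : Type} [AddCommGroup V] [Module ℝ V] (p : V → ℝ)
    (ph : ∀ c : ℝ, 0 < c → ∀ v, p (c • v) = c * p v) (pa : ∀ v w, p (v + w) ≤ p v + p w)
    (K : Set (V × ℝ)) (h0 : (0 : V × ℝ) ∈ K) (hadd : ∀ z ∈ K, ∀ z' ∈ K, z + z' ∈ K)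
    (hsm : ∀ c : ℝ, 0 < c → ∀ z ∈ K, c • z ∈ K) (hK : ∀ z ∈ K, z.2 ≤ p z.1) :
    ∃ μ : V →ₗ[ℝ] ℝ, (∀ v, μ v ≤ p v) ∧ ∀ z ∈ K, z.2 ≤ μ z.1 := by
  have : Nonempty K := ⟨⟨0, h0⟩⟩
  have p0 : p 0 = 0 := by
    have := ph 2 (by norm_num) 0
    rw [smul_zero] at this; linarith
  let N : V → ℝ := fun v => ⨅ z : K, (p (v + z.1.1) - z.1.2)
  have lb : ∀ v (z : K), -p (-v) ≤ p (v + z.1.1) - z.1.2 := by
    intro v z
    have h1 := pa (v + z.1.1) (-v)
    have h2 := hK z.1 z.2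
    rw [add_neg_cancel_comm] at h1
    linarith
  have Nle : ∀ v (z : V × ℝ), z ∈ K → N v ≤ p (v + z.1) - z.2 := fun v z hz =>
    ciInf_le (f := fun z : K => p (v + z.1.1) - z.1.2) ⟨-p (-v), by
      rintro _ ⟨z, rfl⟩; exact lb v z⟩ ⟨z, hz⟩
  have leN : ∀ v (t : ℝ), (∀ z ∈ K, t ≤ p (v + z.1) - z.2) → t ≤ N v := fun v t h =>
    le_ciInf fun z => h z.1 z.2
  have hom1 : ∀ c : ℝ, 0 < c → ∀ v, N (c • v) ≤ c * N v := by
    intro c hc v
    rw [← div_le_iff₀' hc]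
    refine leN v _ fun z hz => ?_
    rw [div_le_iff₀' hc]
    have := Nle (c • v) (c • z) (hsm c hc z hz)
    simp only [Prod.smul_fst, Prod.smul_snd, smul_eq_mul] at this
    rw [← smul_add, ph c hc] at this
    linarith
  have hom : ∀ c : ℝ, 0 < c → ∀ v, N (c • v) = c * N v := by
    intro c hc v
    refine le_antisymm (hom1 c hc v) ?_
    have := hom1 c⁻¹ (inv_pos.2 hc) (c • v)
    rw [smul_smul, inv_mul_cancel₀ hc.ne', one_smul] at this
    have h2 := mul_le_mul_of_nonneg_left this hc.le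
    rwa [← mul_assoc, mul_inv_cancel₀ hc.ne', one_mul] at h2
  have add : ∀ v w, N (v + w) ≤ N v + N w := by
    intro v w
    have h1 : ∀ z' ∈ K, N (v + w) - (p (w + z'.1) - z'.2) ≤ N v := by
      intro z' hz'
      refine leN v _ fun z hz => ?_
      have := Nle (v + w) (z + z') (hadd z hz z' hz')
      simp only [Prod.fst_add, Prod.snd_add] at this
      have h2 := pa (v + z.1) (w + z'.1)
      have e : v + z.1 + (w + z'.1) = v + w + (z.1 + z'.1) := by abel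
      rw [e] at h2
      linarith
    have h2 : N (v + w) - N v ≤ N w := leN w _ fun z' hz' => by linarith [h1 z' hz']
    linarith
  obtain ⟨g, -, hg⟩ := exists_extension_of_le_sublinear (⟨⊥, 0⟩ : V →ₗ.[ℝ] ℝ) N hom add (by
    rintro ⟨x, hx⟩
    have hx0 : x = 0 := (Submodule.mem_bot ℝ).1 hx
    subst hx0
    show (0 : ℝ) ≤ N 0
    refine leN 0 0 fun z hz => ?_
    rw [zero_add]; linarith [hK z hz])
  refine ⟨g, fun v => ?_, fun z hz => ?_⟩
  · have := Nle v 0 h0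
    simp only [Prod.fst_zero, Prod.snd_zero, add_zero, sub_zero] at this
    exact (hg v).trans this
  · have h1 := Nle (-z.1) z hz
    have h2 := hg (-z.1)
    rw [neg_add_cancel, p0] at h1
    rw [map_neg] at h2
    linarith

/-- Scaled form of the 2-summing inequality. -/
theorem twoS_scale {X : Type} [NormedAddCommGroup X] [NormedSpace ℝ X] (R : X →L[ℝ] X) (D : ℝ)
    (hR : TwoS R D) {n : ℕ} (x : Fin n → X) (M : ℝ)
    (hM : ∀ φ : X →L[ℝ] ℝ, ‖φ‖ ≤ 1 → ∑ i, φ (x i) ^ 2 ≤ M) :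
    ∑ i, ‖R (x i)‖ ^ 2 ≤ D ^ 2 * M := by
  have M0 : 0 ≤ M := by simpa using hM 0 (by simp)
  have h1 : ∀ ε : ℝ, 0 < ε → ∑ i, ‖R (x i)‖ ^ 2 ≤ D ^ 2 * (M + ε) := by
    intro ε hε
    set s := √(M + ε) with hs
    have s0 : 0 < s := Real.sqrt_pos.2 (by linarith)
    have s2 : s ^ 2 = M + ε := Real.sq_sqrt (by linarith)
    have hw : WL (fun i => s⁻¹ • x i) 1 := by
      intro a
      obtain ⟨φ, hφ, hv⟩ := exists_dual_vector'' ℝ (∑ i, a i • s⁻¹ • x i)
      have hv' : ‖∑ i, a i • s⁻¹ • x i‖ = s⁻¹ * ∑ i, a i * φ (x i) := by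
        have : φ (∑ i, a i • s⁻¹ • x i) = ‖∑ i, a i • s⁻¹ • x i‖ := by simpa using hv
        rw [← this, map_sum, mul_sum]
        refine sum_congr rfl fun i _ => ?_
        simp only [map_smul, smul_eq_mul]; ring
      rw [hv', one_mul]
      have h2 := cs a (fun i => φ (x i))
      have h3 : n2 (fun i => φ (x i)) ≤ s := Real.sqrt_le_sqrt (by linarith [hM φ hφ])
      have h4 := mul_le_mul_of_nonneg_left h3 (n2_nonneg a)
      rw [inv_mul_le_iff₀ s0]
      linarith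
    have h5 := hR n _ hw
    have e : ∑ i, ‖R (s⁻¹ • x i)‖ ^ 2 = (s ^ 2)⁻¹ * ∑ i, ‖R (x i)‖ ^ 2 := by
      rw [mul_sum]
      refine sum_congr rfl fun i _ => ?_
      rw [map_smul, norm_smul, mul_pow, Real.norm_eq_abs, sq_abs, inv_pow]
    rw [e, inv_mul_le_iff₀ (by positivity), s2] at h5
    linarith
  refine le_of_forall_pos_le_add fun ε hε => ?_
  have h2 := h1 (ε / (D ^ 2 + 1)) (by positivity)
  have h3 : D ^ 2 * (ε / (D ^ 2 + 1)) ≤ ε := by
    rw [← mul_div_assoc, div_le_iff₀ (by positivity)]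
    nlinarith [sq_nonneg D]
  linarith

/-- Evaluation of a tensor at the square of a functional. -/
noncomputable def ev {X : Type} [NormedAddCommGroup X] [NormedSpace ℝ X] (φ : X →L[ℝ] ℝ) :
    TensorProduct ℝ X X →ₗ[ℝ] ℝ :=
  TensorProduct.lift (LinearMap.mk₂ ℝ (fun x x' => φ x * φ x')
    (fun a b c => by rw [map_add]; ring) (fun c a b => by rw [map_smul]; simp only [smul_eq_mul]; ring)
    (fun a b c => by rw [map_add]; ring) (fun c a b => by rw [map_smul]; simp only [smul_eq_mul]; ring))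

theorem ev_tmul {X : Type} [NormedAddCommGroup X] [NormedSpace ℝ X] (φ : X →L[ℝ] ℝ) (x x' : X) :
    ev φ (x ⊗ₜ[ℝ] x') = φ x * φ x' := by
  simp [ev]

theorem ev_tmul_le {X : Type} [NormedAddCommGroup X] [NormedSpace ℝ X] (φ : X →L[ℝ] ℝ)
    (hφ : ‖φ‖ ≤ 1) (x x' : X) : ev φ (x ⊗ₜ[ℝ] x') ≤ ‖x‖ * ‖x'‖ := by
  rw [ev_tmul]
  have b : ∀ y, |φ y| ≤ ‖y‖ := fun y => by
    have := φ.le_opNorm y
    rw [Real.norm_eq_abs] at this
    nlinarith [norm_nonneg y]
  refine (le_abs_self _).trans ?_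
  rw [abs_mul]
  exact mul_le_mul (b x) (b x') (abs_nonneg _) (norm_nonneg _)

theorem ev_bdd {X : Type} [NormedAddCommGroup X] [NormedSpace ℝ X] (v : TensorProduct ℝ X X) :
    ∃ B : ℝ, ∀ φ : X →L[ℝ] ℝ, ‖φ‖ ≤ 1 → ev φ v ≤ B := by
  induction v using TensorProduct.induction_on with
  | zero => exact ⟨0, fun φ _ => by simp⟩
  | tmul x x' => exact ⟨_, fun φ hφ => ev_tmul_le φ hφ x x'⟩
  | add v w hv hw =>
    obtain ⟨B, hB⟩ := hv
    obtain ⟨B', hB'⟩ := hw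
    exact ⟨B + B', fun φ hφ => by rw [map_add]; exact add_le_add (hB φ hφ) (hB' φ hφ)⟩

end End1A

open End1A

theorem twoSum : S_TwoSum := by
  intro X Y _ _ _ _ β C hG S
  let P : Set (ℝ × ℝ) := {z | ∃ (n : ℕ) (y : Fin n → Y) (x : Fin n → X), WL y 1 ∧ WL x 1 ∧
    z = (∑ i, β (y i) (x i), ∑ i, β (y i) (S (x i)))}
  obtain ⟨l, hl⟩ := helly P (C * ‖S‖) (by
      rintro _ ⟨n, y, x, hy, hx, rfl⟩
      refine ⟨n, fun i => -y i, x, fun a => ?_, hx, ?_⟩
      · have := hy a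
        simpa only [smul_neg, sum_neg_distrib, norm_neg] using this
      · simp)
    (by
      rintro _ ⟨n, y, x, hy, hx, rfl⟩ _ ⟨m, y', x', hy', hx', rfl⟩ θ h0 h1
      have s1 : √θ ^ 2 = θ := Real.sq_sqrt h0
      have s2 : √(1 - θ) ^ 2 = 1 - θ := Real.sq_sqrt (by linarith)
      have hs : √θ ^ 2 + √(1 - θ) ^ 2 ≤ 1 := by rw [s1, s2]; linarith
      refine ⟨n + m, _, _, wl_append y y' hy hy' _ _ hs, wl_append x x' hx hx' _ _ hs, ?_⟩
      simp only [Fin.sum_univ_add, Fin.append_left, Fin.append_right, map_smul,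
        smul_apply, smul_eq_mul, ← mul_assoc, ← pow_two, s1, s2,
        Prod.smul_mk, Prod.mk_add_mk, mul_sum])
    (by
      rintro _ ⟨n, y, x, hy, hx, rfl⟩ h
      exact hG.tr0 n y x hy hx h S)
  refine ⟨l, fun n x hx => ?_⟩
  set R := S - l • ContinuousLinearMap.id ℝ X with hR
  have C0 : 0 ≤ C * ‖S‖ := mul_nonneg (by linarith [hG.one_le]) (norm_nonneg _)
  set N := n2 (fun i => ‖R (x i)‖) with hN
  have N2 : N ^ 2 = ∑ i, ‖R (x i)‖ ^ 2 := n2_sq _
  have N0 : 0 ≤ N := n2_nonneg _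
  rw [← N2]
  refine pow_le_pow_left₀ N0 ?_ 2
  rcases N0.eq_or_lt with h | h
  · rw [← h]; exact C0
  let a : Fin n → ℝ := fun i => ‖R (x i)‖ / N
  have a0 : ∀ i, 0 ≤ a i := fun i => by positivity
  have a2 : n2 a = 1 := by
    have : ∑ i, a i ^ 2 = 1 := by
      simp only [a, div_pow]
      rw [← sum_div, ← N2, div_self (by positivity)]
    simp only [n2, this, Real.sqrt_one]
  have aN : ∑ i, a i * ‖R (x i)‖ = N := by
    have : ∀ i, a i * ‖R (x i)‖ = ‖R (x i)‖ ^ 2 / N := fun i => by simp only [a]; ring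
    simp only [this]
    rw [← sum_div, ← N2]; field_simp
  have A0 : 0 ≤ ∑ i, a i := sum_nonneg fun i _ => a0 i
  have main : ∀ δ : ℝ, 0 < δ → N ≤ C * ‖S‖ + δ * ∑ i, a i := by
    intro δ hδ
    choose y' hy' hy'' using fun i => hG.norming (R (x i)) δ hδ
    have hy : WL (fun i => a i • y' i) 1 := by
      intro c
      have h1 : ‖∑ i, c i • a i • y' i‖ ≤ ∑ i, |c i| * a i := by
        refine (norm_sum_le _ _).trans (sum_le_sum fun i _ => ?_)
        rw [norm_smul, norm_smul, Real.norm_eq_abs, Real.norm_eq_abs, abs_of_nonneg (a0 i)]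
        exact mul_le_mul_of_nonneg_left (by nlinarith [hy' i, a0 i]) (abs_nonneg _)
      have h2 := cs (fun i => |c i|) a
      have h3 : n2 (fun i => |c i|) = n2 c := by simp only [n2, sq_abs]
      rw [h3, a2] at h2
      linarith
    have h1 := hl _ ⟨n, _, x, hy, hx, rfl⟩
    have h2 := (abs_le.1 h1).2
    have h3 : ∑ i, β (a i • y' i) (S (x i)) - l * ∑ i, β (a i • y' i) (x i) =
        ∑ i, a i * β (y' i) (R (x i)) := by
      rw [mul_sum, ← sum_sub_distrib]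
      refine sum_congr rfl fun i _ => ?_
      simp only [hR, map_smul, smul_apply, smul_eq_mul,
        sub_apply, ContinuousLinearMap.id_apply, map_sub]
      ring
    have h4 : ∑ i, a i * (‖R (x i)‖ - δ) ≤ ∑ i, a i * β (y' i) (R (x i)) :=
      sum_le_sum fun i _ => mul_le_mul_of_nonneg_left (hy'' i) (a0 i)
    have h5 : ∑ i, a i * (‖R (x i)‖ - δ) = N - δ * ∑ i, a i := by
      rw [← aN, mul_sum, ← sum_sub_distrib]
      exact sum_congr rfl fun i _ => by ring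
    simp only at h2
    linarith
  refine le_of_forall_pos_le_add fun ε hε => ?_
  have h2 := main (ε / (∑ i, a i + 1)) (by positivity)
  have h3 : ε / (∑ i, a i + 1) * ∑ i, a i ≤ ε := by
    rw [div_mul_eq_mul_div, div_le_iff₀ (by positivity)]
    nlinarith
  linarith

theorem piet : S_Piet := by
  intro X _ _ R D hR
  let Bl := {φ : X →L[ℝ] ℝ // ‖φ‖ ≤ 1}
  have : Nonempty Bl := ⟨⟨0, by simp⟩⟩
  let p : TensorProduct ℝ X X → ℝ := fun v => ⨆ φ : Bl, ev φ.1 v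
  have lep : ∀ v (φ : X →L[ℝ] ℝ), ‖φ‖ ≤ 1 → ev φ v ≤ p v := fun v φ hφ => by
    obtain ⟨B, hB⟩ := ev_bdd v
    exact le_ciSup (f := fun φ : Bl => ev φ.1 v) ⟨B, by rintro _ ⟨φ, rfl⟩; exact hB _ φ.2⟩ ⟨φ, hφ⟩
  have ple : ∀ v (t : ℝ), (∀ φ : X →L[ℝ] ℝ, ‖φ‖ ≤ 1 → ev φ v ≤ t) → p v ≤ t := fun v t h =>
    ciSup_le fun φ => h φ.1 φ.2
  have hom1 : ∀ c : ℝ, 0 < c → ∀ v, p (c • v) ≤ c * p v := fun c hc v =>
    ple _ _ fun φ hφ => by
      rw [map_smul, smul_eq_mul]; exact mul_le_mul_of_nonneg_left (lep v φ hφ) hc.le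
  have hom : ∀ c : ℝ, 0 < c → ∀ v, p (c • v) = c * p v := by
    intro c hc v
    refine le_antisymm (hom1 c hc v) ?_
    have := hom1 c⁻¹ (inv_pos.2 hc) (c • v)
    rw [smul_smul, inv_mul_cancel₀ hc.ne', one_smul] at this
    have h2 := mul_le_mul_of_nonneg_left this hc.le
    rwa [← mul_assoc, mul_inv_cancel₀ hc.ne', one_mul] at h2
  have add : ∀ v w, p (v + w) ≤ p v + p w := fun v w =>
    ple _ _ fun φ hφ => by rw [map_add]; exact add_le_add (lep v φ hφ) (lep w φ hφ)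
  let K : Set (TensorProduct ℝ X X × ℝ) :=
    {z | ∃ L : List X, z = (L.map fun x => (x ⊗ₜ[ℝ] x, ‖R x‖ ^ 2)).sum}
  obtain ⟨μ, hμ, hμ'⟩ := sandwich (fun v => D ^ 2 * p v)
    (fun c hc v => by simp only [hom c hc v]; ring)
    (fun v w => by
      have := mul_le_mul_of_nonneg_left (add v w) (sq_nonneg D)
      show D ^ 2 * p (v + w) ≤ D ^ 2 * p v + D ^ 2 * p w
      linarith)
    K ⟨[], by simp⟩
    (by
      rintro _ ⟨L, rfl⟩ _ ⟨L', rfl⟩
      exact ⟨L ++ L', by rw [List.map_append, List.sum_append]⟩)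
    (by
      rintro c hc _ ⟨L, rfl⟩
      refine ⟨L.map fun x => √c • x, ?_⟩
      have s1 : √c * √c = c := Real.mul_self_sqrt hc.le
      rw [List.smul_sum, List.map_map, List.map_map]
      congr 1
      refine List.map_congr_left fun x _ => ?_
      simp only [Function.comp, Prod.smul_mk, smul_eq_mul, TensorProduct.smul_tmul_smul, s1,
        map_smul, norm_smul, mul_pow, Real.norm_eq_abs, sq_abs, Real.sq_sqrt hc.le])
    (by
      rintro _ ⟨L, rfl⟩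
      rw [← List.ofFn_get (l := L), List.map_ofFn, List.sum_ofFn, Prod.snd_sum, Prod.fst_sum]
      refine twoS_scale R D hR L.get _ fun φ hφ => ?_
      refine le_trans (le_of_eq ?_) (lep _ φ hφ)
      rw [map_sum]
      refine sum_congr rfl fun i _ => ?_
      simp only [Function.comp, ev_tmul]; ring)
  let q0 : X →ₗ[ℝ] X →ₗ[ℝ] ℝ := (TensorProduct.mk ℝ X X).compr₂ μ
  refine ⟨(1 / 2 : ℝ) • (q0 + q0.flip), fun x x' => ?_, fun x => ?_⟩
  · simp only [LinearMap.smul_apply, LinearMap.add_apply, LinearMap.flip_apply, smul_eq_mul]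
    ring
  · have e : ((1 / 2 : ℝ) • (q0 + q0.flip)) x x = μ (x ⊗ₜ[ℝ] x) := by
      simp only [LinearMap.smul_apply, LinearMap.add_apply, LinearMap.flip_apply, smul_eq_mul,
        q0, LinearMap.compr₂_apply, TensorProduct.mk_apply]
      ring
    rw [e]
    constructor
    · have := hμ' (x ⊗ₜ[ℝ] x, ‖R x‖ ^ 2) ⟨[x], by simp⟩
      exact this
    · refine (hμ _).trans (mul_le_mul_of_nonneg_left ?_ (sq_nonneg D))
      exact ple _ _ fun φ hφ => by rw [pow_two]; exact ev_tmul_le φ hφ x x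

end Pool.Agent.P.MP_1bacd4_an
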