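import Pool.Agent.P.MP_1bacd4_an.Defs

/-! An operator dominated by a Hilbertian seminorm is nuclear. -/

set_option autoImplicit false

namespace Pool.Agent.P.MP_1bacd4_an

open Finset

namespace End2A

variable {X : Type} [NormedAddCommGroup X] [NormedSpace ℝ X]

/-- Orthonormal family for `q`. -/
def ON {n : ℕ} (q : X →ₗ[ℝ] X →ₗ[ℝ] ℝ) (e : Fin n → X) : Prop :=
  ∀ i j, q (e i) (e j) = if i = j then 1 else 0

theorem ON.left {n : ℕ} {q : X →ₗ[ℝ] X →ₗ[ℝ] ℝ} {e : Fin n → X} (h : ON q e) (a : Fin n → ℝ)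
    (j : Fin n) : q (∑ i, a i • e i) (e j) = a j := by
  simp [map_sum, LinearMap.sum_apply, h _ j]

theorem ON.sq {n : ℕ} {q : X →ₗ[ℝ] X →ₗ[ℝ] ℝ} {e : Fin n → X} (h : ON q e) (a : Fin n → ℝ) :
    q (∑ i, a i • e i) (∑ i, a i • e i) = ∑ i, a i ^ 2 := by
  rw [map_sum]
  refine Finset.sum_congr rfl fun j _ => ?_
  rw [map_smul, h.left, smul_eq_mul, pow_two]

theorem ON.wl {n : ℕ} {q : X →ₗ[ℝ] X →ₗ[ℝ] ℝ} {e : Fin n → X} (h : ON q e) {T : X →L[ℝ] X}
    (hT : ∀ x, ‖T x‖ ≤ √(q x x)) {t : ℝ} (ht : 0 ≤ t) : WL (fun i => t • T (e i)) t := by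
  intro a
  have h1 : ∑ i, a i • t • T (e i) = t • T (∑ i, a i • e i) := by
    rw [map_sum, Finset.smul_sum]
    exact Finset.sum_congr rfl fun i _ => by rw [map_smul, smul_comm]
  rw [h1, norm_smul, Real.norm_of_nonneg ht]
  refine mul_le_mul_of_nonneg_left ?_ ht
  have h2 := hT (∑ i, a i • e i)
  rwa [h.sq] at h2

theorem tail (hX : NoL2 X) {q : X →ₗ[ℝ] X →ₗ[ℝ] ℝ} (hs : ∀ x x', q x x' = q x' x)
    {T : X →L[ℝ] X} (hT : ∀ x, ‖T x‖ ≤ √(q x x)) :
    ∃ (n : ℕ) (e : Fin n → X), ON q e ∧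
      ∀ y, (∀ i, q y (e i) = 0) → ‖T y‖ ≤ 1 / 2 * √(q y y) := by
  classical
  by_contra hc
  push Not at hc
  have key : ∀ s : Finset X, ∃ y, (∀ x ∈ s, ∀ x' ∈ s, q x x' = if x = x' then 1 else 0) →
      q y y = 1 ∧ 1 / 2 ≤ ‖T y‖ ∧ ∀ x ∈ s, q y x = 0 := by
    intro s
    by_cases h : ∀ x ∈ s, ∀ x' ∈ s, q x x' = if x = x' then 1 else 0
    · obtain ⟨y, h1, h2⟩ := hc s.card (fun i => (s.equivFin.symm i : X)) fun i j => by
        rw [h _ (s.equivFin.symm i).2 _ (s.equivFin.symm j).2]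
        simp only [Subtype.val_inj, EmbeddingLike.apply_eq_iff_eq]
      have h3 : 0 < √(q y y) := by
        have := hT y
        have := Real.sqrt_nonneg (q y y)
        linarith
      have h4 : 0 < q y y := Real.sqrt_pos.1 h3
      refine ⟨(√(q y y))⁻¹ • y, fun _ => ⟨?_, ?_, fun x hx => ?_⟩⟩
      · simp only [map_smul, LinearMap.smul_apply, smul_eq_mul]
        rw [← mul_assoc, ← mul_inv, Real.mul_self_sqrt h4.le, inv_mul_cancel₀ h4.ne']
      · rw [map_smul, norm_smul, Real.norm_of_nonneg (inv_nonneg.2 h3.le), le_inv_mul_iff₀ h3]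
        linarith
      · have h5 := h1 (s.equivFin ⟨x, hx⟩)
        simp only [Equiv.symm_apply_apply] at h5
        simp [h5]
    · exact ⟨0, fun h' => absurd h' h⟩
  choose g hg using key
  let S : ℕ → Finset X := fun n => Nat.rec ∅ (fun _ s => insert (g s) s) n
  have hS : ∀ n, S (n + 1) = insert (g (S n)) (S n) := fun _ => rfl
  have hon : ∀ n, ∀ x ∈ S n, ∀ x' ∈ S n, q x x' = if x = x' then 1 else 0 := by
    intro n
    induction n with
    | zero => intro x hx; exact absurd hx (Finset.notMem_empty x)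
    | succ n ih =>
      obtain ⟨h1, -, h3⟩ := hg _ ih
      have h4 : ∀ x ∈ S n, g (S n) ≠ x := fun x hx e => by
        have := h3 x hx
        rw [← e, h1] at this
        exact one_ne_zero this
      intro x hx x' hx'
      rw [hS, Finset.mem_insert] at hx hx'
      rcases hx with rfl | hx <;> rcases hx' with rfl | hx'
      · rw [if_pos rfl, h1]
      · rw [if_neg (h4 _ hx'), h3 _ hx']
      · rw [if_neg (h4 _ hx).symm, hs, h3 _ hx]
      · exact ih x hx x' hx'
  have hmono : Monotone S := monotone_nat_of_le_succ fun n => by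
    rw [hS]; exact Finset.subset_insert _ _
  have hlt : ∀ m n, m < n → q (g (S n)) (g (S m)) = 0 := fun m n h =>
    (hg _ (hon n)).2.2 _ (hmono (Nat.succ_le_of_lt h) (by
      rw [hS]; exact Finset.mem_insert_self _ _))
  refine hX (fun k => T (g (S k))) (1 / 2) (by norm_num) (fun k => (hg _ (hon k)).2.1) fun N => ?_
  have hN : ON q fun i : Fin N => g (S i) := fun i j => by
    rcases lt_trichotomy i j with h | rfl | h
    · rw [if_neg h.ne, hs, hlt _ _ h]
    · rw [if_pos rfl, (hg _ (hon i)).1]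
    · rw [if_neg h.ne', hlt _ _ h]
  simpa using hN.wl hT zero_le_one

theorem step {C2 D : ℝ} (hF : FinNuc X C2) (hX : NoL2 X) {q : X →ₗ[ℝ] X →ₗ[ℝ] ℝ}
    (hs : ∀ x x', q x x' = q x' x) (h0 : ∀ x, 0 ≤ q x x) (hD : ∀ x, √(q x x) ≤ |D| * ‖x‖)
    (T : X →L[ℝ] X) : ∃ T' : X →L[ℝ] X, (∀ x, ‖T x‖ ≤ √(q x x)) →
      (∀ x, ‖T' x‖ ≤ √(q x x)) ∧ ∀ t : ℝ, 0 ≤ t →
        NucC (fun x => t • T x - (t * (1 / 2)) • T' x) (C2 * |D| * t) := by
  by_cases hT : ∀ x, ‖T x‖ ≤ √(q x x)
  swap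
  · exact ⟨T, fun h => absurd h hT⟩
  obtain ⟨n, e, he, htail⟩ := tail hX hs hT
  have hcs : ∀ x y, |q x y| ≤ |D| * √(q y y) * ‖x‖ := fun x y => by
    have h1 : q x y ^ 2 ≤ q x x * q y y :=
      LinearMap.BilinForm.apply_sq_le_of_symm q h0 ⟨fun a b => hs a b⟩ x y
    have h2 := Real.abs_le_sqrt h1
    rw [Real.sqrt_mul (h0 x)] at h2
    have h3 := mul_le_mul_of_nonneg_right (hD x) (Real.sqrt_nonneg (q y y))
    linarith
  let φ : X → X →L[ℝ] ℝ := fun y => (q.flip y).mkContinuous _ fun x => hcs x y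
  have hφ : ∀ y x, φ y x = q x y := fun _ _ => rfl
  have hwl : WL (fun i => φ (e i)) |D| := fun a => by
    refine ContinuousLinearMap.opNorm_le_bound _ (mul_nonneg (abs_nonneg _) (Real.sqrt_nonneg _))
      fun x => ?_
    have h1 := hcs x (∑ i, a i • e i)
    rw [he.sq] at h1
    have h2 : (∑ i, a i • φ (e i)) x = q x (∑ i, a i • e i) := by
      simp [hφ]
    rw [h2]
    exact h1
  let P : X →L[ℝ] X := ∑ i, (φ (e i)).smulRight (e i)
  have hP : ∀ x, P x = ∑ i, q x (e i) • e i := fun x => by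
    simp [P, hφ]
  refine ⟨(2 : ℝ) • (T - T ∘L P), fun _ => ⟨fun x => ?_, fun t ht => ?_⟩⟩
  · have h1 : ∀ i, q (x - P x) (e i) = 0 := fun i => by
      rw [map_sub, LinearMap.sub_apply, hP, he.left, sub_self]
    have h2 : q (x - P x) (P x) = 0 := by
      rw [congrArg (q (x - P x)) (hP x), map_sum]
      exact Finset.sum_eq_zero fun i _ => by rw [map_smul, h1, smul_zero]
    have h3 : q (x - P x) (x - P x) ≤ q x x := by
      have h4 : q x x = q (x - P x + P x) (x - P x + P x) := by rw [sub_add_cancel]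
      rw [h4, map_add, map_add, LinearMap.add_apply, LinearMap.add_apply, hs (P x) (x - P x), h2]
      linarith [h0 (P x)]
    have h5 := htail _ h1
    have h6 := Real.sqrt_le_sqrt h3
    have h7 : ((2 : ℝ) • (T - T ∘L P)) x = (2 : ℝ) • T (x - P x) := by simp
    rw [h7, norm_smul, Real.norm_of_nonneg zero_le_two]
    linarith
  · have h1 := hF n _ _ _ _ (abs_nonneg D) ht hwl (he.wl hT ht)
    have h2 : (fun x => t • T x - (t * (1 / 2)) • ((2 : ℝ) • (T - T ∘L P)) x) =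
        fun x => ∑ i, φ (e i) x • t • T (e i) := by
      funext x
      have h7 : ((2 : ℝ) • (T - T ∘L P)) x = (2 : ℝ) • (T x - T (P x)) := by simp
      rw [h7, smul_smul, show t * (1 / 2) * 2 = t by ring, smul_sub, sub_sub_cancel, hP, map_sum,
        Finset.smul_sum]
      exact Finset.sum_congr rfl fun i _ => by rw [map_smul, smul_comm, hφ]
    rw [h2]
    exact h1

end End2A

theorem hilb (hN : S_NucSer) : S_Hilb := by
  intro X _ _ _ C2 _ hF hX R D q hs hq
  have h0 : ∀ x, 0 ≤ q x x := fun x => (sq_nonneg _).trans (hq x).1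
  have hD : ∀ x, √(q x x) ≤ |D| * ‖x‖ := fun x =>
    Real.sqrt_le_iff.2 ⟨by positivity, by rw [mul_pow, sq_abs]; exact (hq x).2⟩
  choose F hFs using End2A.step hF hX hs h0 hD
  have hT : ∀ j, ∀ x, ‖F^[j] R x‖ ≤ √(q x x) := by
    intro j
    induction j with
    | zero => exact fun x => Real.le_sqrt_of_sq_le (hq x).1
    | succ j ih => rw [Function.iterate_succ_apply']; exact (hFs _ ih).1
  refine ⟨_, hN X R (fun j x => (1 / 2 : ℝ) ^ j • F^[j] R x - (1 / 2 : ℝ) ^ (j + 1) • F^[j + 1] R x)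
    (fun j => C2 * |D| * (1 / 2) ^ j) (fun j => ?_) (summable_geometric_two.mul_left _) fun x => ?_⟩
  · rw [Function.iterate_succ_apply', pow_succ]
    exact (hFs _ (hT j)).2 _ (by positivity)
  · simp only [Finset.sum_range_sub' fun j => (1 / 2 : ℝ) ^ j • F^[j] R x]
    have h1 : Filter.Tendsto (fun J => (1 / 2 : ℝ) ^ J • F^[J] R x) Filter.atTop (nhds 0) := by
      refine squeeze_zero_norm (a := fun J => (1 / 2 : ℝ) ^ J * √(q x x)) (fun J => ?_) ?_
      · rw [norm_smul, Real.norm_of_nonneg (by positivity)]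
        exact mul_le_mul_of_nonneg_left (hT J x) (by positivity)
      · simpa using (tendsto_pow_atTop_nhds_zero_of_lt_one (r := (1 / 2 : ℝ)) (by norm_num)
          (by norm_num)).mul_const (√(q x x))
    simpa using (tendsto_const_nhds (x := R x)).sub h1

end Pool.Agent.P.MP_1bacd4_an
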