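import Pool.Agent.P.MP_1bacd4_an.Defs

/-! Sums of nuclear maps and the nuclear bound for finite rank operators. -/

set_option autoImplicit false

namespace Pool.Agent.P.MP_1bacd4_an

open Finset

theorem nucSer : S_NucSer := by
  intro X _ _ _ T N c hN hc hT
  choose I hI f y hs hle hsum using hN
  have hnn : ∀ p : (Σ j, I j), 0 ≤ ‖f p.1 p.2‖ * ‖y p.1 p.2‖ := fun p => by positivity
  have h2 : Summable fun j => ∑' i, ‖f j i‖ * ‖y j i‖ :=
    Summable.of_nonneg_of_le (fun j => tsum_nonneg fun i => by positivity) hle hc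
  have hS : Summable fun p : (Σ j, I j) => ‖f p.1 p.2‖ * ‖y p.1 p.2‖ :=
    (summable_sigma_of_nonneg hnn).2 ⟨hs, h2⟩
  refine ⟨Σ j, I j, inferInstance, fun p => f p.1 p.2, fun p => y p.1 p.2, hS, ?_, fun x => ?_⟩
  · rw [hS.tsum_sigma' hs]
    exact h2.tsum_le_tsum hle hc
  · have hg : Summable fun p : (Σ j, I j) => f p.1 p.2 x • y p.1 p.2 := by
      refine Summable.of_norm_bounded (hS.mul_left ‖x‖) fun p => ?_
      rw [norm_smul]
      have := (f p.1 p.2).le_opNorm x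
      calc ‖f p.1 p.2 x‖ * ‖y p.1 p.2‖ ≤ (‖f p.1 p.2‖ * ‖x‖) * ‖y p.1 p.2‖ := by gcongr
        _ = _ := by ring
    have h3 : HasSum (fun j => N j x) (∑' p : (Σ j, I j), f p.1 p.2 x • y p.1 p.2) :=
      hg.hasSum.sigma fun j => hsum j x
    have h4 := tendsto_nhds_unique h3.tendsto_sum_nat (hT x)
    rw [← h4]
    exact hg.hasSum

namespace End3A

variable {X : Type} [NormedAddCommGroup X] [NormedSpace ℝ X]

theorem n2_nonneg {I : Type} [Fintype I] (a : I → ℝ) : 0 ≤ n2 a := Real.sqrt_nonneg _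

theorem n2_mul_le {I : Type} [Fintype I] (a m : I → ℝ) (r : ℝ) (hr : 0 ≤ r)
    (hm : ∀ i, |m i| ≤ r) : n2 (fun i => a i * m i) ≤ r * n2 a := by
  unfold n2
  rw [← Real.sqrt_sq hr, ← Real.sqrt_mul (sq_nonneg r), mul_sum]
  refine Real.sqrt_le_sqrt (sum_le_sum fun i _ => ?_)
  have h1 : m i ^ 2 ≤ r ^ 2 := by
    rw [← sq_abs (m i)]
    exact pow_le_pow_left₀ (abs_nonneg _) (hm i) 2
  nlinarith [sq_nonneg (a i)]

theorem wl_mul {I E : Type} [Fintype I] [NormedAddCommGroup E] [NormedSpace ℝ E] (x : I → E)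
    (s r : ℝ) (m : I → ℝ) (hs : 0 ≤ s) (hr : 0 ≤ r) (hx : WL x s) (hm : ∀ i, |m i| ≤ r)
    (h1 : s * r ≤ 1) : WL (fun i => m i • x i) 1 := by
  intro a
  have h := hx fun i => a i * m i
  simp only [smul_smul]
  have h2 := n2_mul_le a m r hr hm
  have h3 := n2_nonneg a
  calc _ ≤ s * n2 (fun i => a i * m i) := h
    _ ≤ s * (r * n2 a) := by gcongr
    _ = (s * r) * n2 a := by ring
    _ ≤ 1 * n2 a := by gcongr

theorem wl_equiv {I J E : Type} [Fintype I] [Fintype J] [NormedAddCommGroup E] [NormedSpace ℝ E]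
    (e : J ≃ I) (x : I → E) (s : ℝ) (hx : WL x s) : WL (fun j => x (e j)) s := by
  intro a
  have h := hx fun i => a (e.symm i)
  have h1 : ∑ i, a (e.symm i) • x i = ∑ j, a j • x (e j) := by
    rw [← e.sum_comp]; simp
  have h2 : n2 (fun i => a (e.symm i)) = n2 a := by
    unfold n2
    rw [← e.sum_comp]; simp
  rwa [h1, h2] at h

theorem op_le {I : Type} [Fintype I] (φ : I → X →L[ℝ] ℝ) (z : I → X) (hφ : WL φ 1) (hz : WL z 1)
    (x : X) : ‖∑ i, φ i x • z i‖ ≤ ‖x‖ := by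
  have h1 := hz fun i => φ i x
  have h2 := hφ fun i => φ i x
  set r := n2 fun i => φ i x with hr
  have h0 : 0 ≤ r := n2_nonneg _
  have h3 : r ^ 2 = (∑ i, φ i x • φ i) x := by
    rw [hr, n2, Real.sq_sqrt (sum_nonneg fun i _ => sq_nonneg _)]
    simp [_root_.sq]
  have h4 : (∑ i, φ i x • φ i) x ≤ r * ‖x‖ := by
    have := (∑ i, φ i x • φ i).le_opNorm x
    have h5 := le_abs_self ((∑ i, φ i x • φ i) x)
    rw [Real.norm_eq_abs] at this
    calc _ ≤ _ := h5
      _ ≤ _ := this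
      _ ≤ r * ‖x‖ := by rw [one_mul] at h2; gcongr
  have h6 : r ≤ ‖x‖ := by
    by_contra hc
    push Not at hc
    have := norm_nonneg x
    nlinarith
  linarith

theorem nuc_smul (T : X → X) (C r : ℝ) (hr : 0 ≤ r) (h : NucC T C) :
    NucC (fun x => r • T x) (r * C) := by
  obtain ⟨I, hI, f, y, hs, hle, hsum⟩ := h
  have he : ∀ i, ‖r • f i‖ * ‖y i‖ = r * (‖f i‖ * ‖y i‖) := fun i => by
    rw [norm_smul, Real.norm_eq_abs, abs_of_nonneg hr]; ring
  refine ⟨I, hI, fun i => r • f i, y, ?_, ?_, fun x => ?_⟩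
  · simp only [he]; exact hs.mul_left r
  · simp only [he]; rw [tsum_mul_left]; gcongr
  · have := (hsum x).const_smul r
    simpa [smul_smul] using this

theorem nuc_zero : NucC (fun _ : X => (0 : X)) 0 :=
  ⟨Empty, inferInstance, fun _ => 0, fun _ => 0, by simp, by simp, fun x => by simp⟩

theorem nuc_fin {I : Type} [Fintype I] (f : I → X →L[ℝ] ℝ) (y : I → X) (C : ℝ)
    (h : ∑ i, ‖f i‖ * ‖y i‖ ≤ C) : NucC (fun x => ∑ i, f i x • y i) C :=
  ⟨I, inferInstance, f, y, Summable.of_finite, by rwa [tsum_fintype],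
    fun x => hasSum_fintype _⟩

theorem sum_card_one {ι V : Type} [Fintype ι] [DecidableEq ι] [AddCommGroup V]
    (g : Finset ι → V) : ∑ A : Finset ι, (if A.card = 1 then g A else 0) = ∑ i, g {i} := by
  rw [← sum_filter]
  symm
  refine sum_bij (fun i _ => ({i} : Finset ι)) (fun i _ => by simp) (fun i _ j _ h => ?_)
    (fun A hA => ?_) (fun _ _ => rfl)
  · simpa using h
  · obtain ⟨i, rfl⟩ := card_eq_one.1 (mem_filter.1 hA).2
    exact ⟨i, mem_univ _, rfl⟩

theorem od_le {ι : Type} (t : ℝ) (h0 : 0 ≤ t) (h1 : t ≤ 1) (A : Finset ι) (hA : A.card ≠ 1) :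
    |od t A| ≤ t ^ 3 := by
  unfold od
  split_ifs with h
  · rw [abs_of_nonneg (by positivity)]
    obtain ⟨k, hk⟩ := h
    exact pow_le_pow_of_le_one h0 h1 (by omega)
  · simp; positivity

theorem step (hC : S_Cube) {ι : Type} [Fintype ι] [DecidableEq ι] (C : ℝ) (hC1 : 1 ≤ C)
    (Φ : (ι → Bool) → X →L[ℝ] ℝ) (Ψ : (ι → Bool) → X) (hΦ : ∀ ε, ‖Φ ε‖ ≤ C) (hΨ : ∀ ε, ‖Ψ ε‖ ≤ C) :
    ∃ (N : X → X) (φ' : Finset ι → X →L[ℝ] ℝ) (z' : Finset ι → X), NucC N (2 * C ^ 3) ∧
      WL φ' 1 ∧ WL z' 1 ∧ ∀ x, ∑ i, co Φ {i} x • co Ψ {i} =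
        N x + (1 / 2 : ℝ) • ∑ A, φ' A x • z' A := by
  have hCp : 0 < C := by linarith
  set t : ℝ := 1 / (2 * C) with ht
  have ht0 : 0 < t := by positivity
  have ht1 : t ≤ 1 := by rw [ht, div_le_one (by positivity)]; linarith
  set L : ℝ := (Fintype.card (ι → Bool) : ℝ) with hL
  have hL0 : 0 < L := by rw [hL]; exact_mod_cast Fintype.card_pos
  let f : (ι → Bool) × (ι → Bool) → X →L[ℝ] ℝ :=
    fun p => (t⁻¹ * L⁻¹ * L⁻¹ * ker t p.1 p.2) • Φ p.1
  let m : Finset ι → ℝ := fun A => if A.card = 1 then 0 else -(2 * C * od t A / t)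
  refine ⟨fun x => ∑ p, f p x • Ψ p.2, fun A => m A • co Φ A, fun A => C⁻¹ • co Ψ A, ?_, ?_, ?_,
    fun x => ?_⟩
  · refine nuc_fin f (fun p => Ψ p.2) _ ?_
    have h1 : ∀ p : (ι → Bool) × (ι → Bool),
        ‖f p‖ * ‖Ψ p.2‖ ≤ (t⁻¹ * C ^ 2 * L⁻¹) * (L⁻¹ * |ker t p.1 p.2|) := fun p => by
      have h2 : ‖f p‖ = t⁻¹ * L⁻¹ * L⁻¹ * |ker t p.1 p.2| * ‖Φ p.1‖ := by
        simp only [f]
        rw [norm_smul, Real.norm_eq_abs, abs_mul, abs_of_pos (by positivity : 0 < t⁻¹ * L⁻¹ * L⁻¹)]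
      rw [h2]
      have h3 := hΦ p.1
      have h4 := hΨ p.2
      calc t⁻¹ * L⁻¹ * L⁻¹ * |ker t p.1 p.2| * ‖Φ p.1‖ * ‖Ψ p.2‖
          ≤ t⁻¹ * L⁻¹ * L⁻¹ * |ker t p.1 p.2| * C * C := by gcongr
        _ = _ := by ring
    refine (sum_le_sum fun p _ => h1 p).trans ?_
    rw [← mul_sum, Fintype.sum_prod_type]
    have h5 : ∑ ε : ι → Bool, ∑ ε' : ι → Bool, L⁻¹ * |ker t ε ε'| ≤ L := by
      have h6 : ∀ ε : ι → Bool, ∑ ε' : ι → Bool, L⁻¹ * |ker t ε ε'| ≤ 1 := fun ε => by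
        have := hC.ker_l1 ι t ht0.le ht1 ε
        rw [av, smul_eq_mul, mul_sum] at this
        exact this
      refine (sum_le_sum fun ε _ => h6 ε).trans ?_
      simp [hL]
    calc t⁻¹ * C ^ 2 * L⁻¹ * ∑ ε : ι → Bool, ∑ ε' : ι → Bool, L⁻¹ * |ker t ε ε'|
        ≤ t⁻¹ * C ^ 2 * L⁻¹ * L := by gcongr
      _ = 2 * C ^ 3 := by rw [ht]; field_simp
  · refine wl_mul (co Φ) C (2 * C * t ^ 2) m hCp.le (by positivity) (hC.wl_co ι _ Φ C hΦ)
      (fun A => ?_) ?_
    · simp only [m]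
      split_ifs with h
      · simp; positivity
      · have := od_le t ht0.le ht1 A h
        rw [abs_neg, abs_div, abs_mul, abs_of_pos ht0, abs_of_pos (by positivity : 0 < 2 * C),
          div_le_iff₀ ht0]
        calc 2 * C * |od t A| ≤ 2 * C * t ^ 3 := by gcongr
          _ = _ := by ring
    · have : C * (2 * C * t ^ 2) = 1 / 2 := by rw [ht]; field_simp
      linarith
  · refine wl_mul (co Ψ) C C⁻¹ (fun _ => C⁻¹) hCp.le (by positivity) (hC.wl_co ι _ Ψ C hΨ)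
      (fun A => by rw [abs_of_pos (by positivity)]) ?_
    rw [mul_inv_cancel₀ hCp.ne']
  · have h1 : ∑ p, f p x • Ψ p.2 = ∑ A : Finset ι, (t⁻¹ * od t A * co Φ A x) • co Ψ A := by
      rw [Fintype.sum_prod_type]
      have h2 : ∀ ε : ι → Bool, ∑ ε' : ι → Bool, f (ε, ε') x • Ψ ε' =
          ∑ A : Finset ι, (t⁻¹ * od t A * (L⁻¹ * (wal A ε * Φ ε x))) • co Ψ A := fun ε => by
        have h3 := hC.ker_apply ι X t Ψ ε
        have h4 : ∑ ε' : ι → Bool, f (ε, ε') x • Ψ ε' =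
            (t⁻¹ * L⁻¹ * Φ ε x) • av fun ε' => ker t ε ε' • Ψ ε' := by
          rw [av, smul_smul, smul_sum]
          refine sum_congr rfl fun ε' _ => ?_
          simp only [f, smul_apply, smul_eq_mul, smul_smul]
          congr 1
          rw [← hL]; ring
        rw [h4, h3, smul_sum]
        refine sum_congr rfl fun A _ => ?_
        simp only [smul_smul]
        congr 1
        ring
      simp only [h2]
      rw [sum_comm]
      refine sum_congr rfl fun A _ => ?_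
      rw [← sum_smul, ← mul_sum, ← mul_sum]
      congr 2
      simp [co, av, hL]
    beta_reduce
    rw [h1, smul_sum, ← sum_add_distrib, ← sum_card_one fun A => co Φ A x • co Ψ A]
    refine sum_congr rfl fun A _ => ?_
    simp only [m, smul_apply, smul_eq_mul, smul_smul]
    split_ifs with h
    · have : od t A = t := by simp [od, h]
      rw [this, inv_mul_cancel₀ ht0.ne']
      simp
    · rw [← add_smul]
      have : t⁻¹ * od t A * co Φ A x + 1 / 2 * (-(2 * C * od t A / t) * co Φ A x * C⁻¹) = 0 := by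
        field_simp
        ring
      rw [this, zero_smul]

/-- Finite families with weak norms at most one. -/
structure Fam (X : Type) [NormedAddCommGroup X] [NormedSpace ℝ X] where
  n : ℕ
  φ : Fin n → X →L[ℝ] ℝ
  z : Fin n → X
  hφ : WL φ 1
  hz : WL z 1

/-- The operator of a family. -/
def Fam.op (F : Fam X) (x : X) : X := ∑ i, F.φ i x • F.z i

theorem step2 (hC : S_Cube) (hE : S_Ext) {Y : Type} [NormedAddCommGroup Y] [NormedSpace ℝ Y]
    (β : Y →L[ℝ] X →L[ℝ] ℝ) (C : ℝ) (hG : Good X Y β C) (F : Fam X) :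
    ∃ (N : X → X) (F' : Fam X), NucC N (2 * C ^ 3) ∧
      ∀ x, F.op x = N x + (1 / 2 : ℝ) • F'.op x := by
  have h1 := hG.one_le
  obtain ⟨Φ, hΦ, hΦ'⟩ := hE C X (by linarith) hG.ct (Fin F.n) F.φ 1 zero_le_one F.hφ
  obtain ⟨Ψ, hΨ, hΨ'⟩ := hG.radx F.n F.z F.hz
  obtain ⟨N, φ', z', hN, h2, h3, h4⟩ := step hC C h1 Φ Ψ (fun ε => by simpa using hΦ ε) hΨ
  let e := (Fintype.equivFin (Finset (Fin F.n))).symm
  refine ⟨N, ⟨_, fun j => φ' (e j), fun j => z' (e j), wl_equiv e _ _ h2, wl_equiv e _ _ h3⟩, hN,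
    fun x => ?_⟩
  have h5 := h4 x
  simp only [hΦ', hΨ'] at h5
  simp only [Fam.op]
  rw [h5, e.sum_comp fun A => φ' A x • z' A]

theorem fam_nuc [CompleteSpace X] (hN : S_NucSer) (K : ℝ)
    (hs : ∀ F : Fam X, ∃ (N : X → X) (F' : Fam X), NucC N K ∧
      ∀ x, F.op x = N x + (1 / 2 : ℝ) • F'.op x) (F : Fam X) : NucC F.op (2 * K) := by
  choose N nx hN1 hN2 using hs
  have h1 : ∀ (J : ℕ) (x : X), F.op x = ∑ j ∈ range J, (1 / 2 : ℝ) ^ j • N (nx^[j] F) x +
      (1 / 2 : ℝ) ^ J • (nx^[J] F).op x := fun J x => by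
    induction J with
    | zero => simp
    | succ J ih =>
      rw [sum_range_succ, Function.iterate_succ_apply', add_assoc, pow_succ, mul_smul, ← smul_add,
        ← hN2]
      exact ih
  have h2 := hN X F.op (fun j x => (1 / 2 : ℝ) ^ j • N (nx^[j] F) x) (fun j => (1 / 2 : ℝ) ^ j * K)
    (fun j => nuc_smul _ _ _ (by positivity) (hN1 _)) (summable_geometric_two.mul_right K)
    (fun x => by
      have h3 : Filter.Tendsto (fun J : ℕ => (1 / 2 : ℝ) ^ J • (nx^[J] F).op x) Filter.atTop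
          (nhds 0) := by
        refine squeeze_zero_norm (a := fun J : ℕ => (1 / 2 : ℝ) ^ J * ‖x‖) (fun J => ?_) ?_
        · rw [norm_smul, Real.norm_eq_abs, abs_of_nonneg (by positivity)]
          have := op_le _ _ (nx^[J] F).hφ (nx^[J] F).hz x
          gcongr
          exact this
        · have := (tendsto_pow_atTop_nhds_zero_of_lt_one (r := (1 / 2 : ℝ)) (by norm_num)
            (by norm_num)).mul_const ‖x‖
          simpa using this
      have h4 := (tendsto_const_nhds (x := F.op x)).sub h3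
      rw [sub_zero] at h4
      refine h4.congr fun J => ?_
      rw [h1 J x]
      simp)
  rwa [tsum_mul_right, tsum_geometric_two] at h2

theorem wl_zero {I E : Type} [Fintype I] [DecidableEq I] [NormedAddCommGroup E] [NormedSpace ℝ E]
    (x : I → E) (hx : WL x 0) (i : I) : x i = 0 := by
  have := hx (Pi.single i 1)
  rw [zero_mul] at this
  have h1 : ∑ j, (Pi.single i (1 : ℝ) : I → ℝ) j • x j = x i := by
    rw [sum_eq_single i] <;> simp +contextual
  rw [h1] at this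
  exact norm_le_zero_iff.1 this

end End3A

open End3A in
theorem nucFin (hC : S_Cube) (hE : S_Ext) (hN : S_NucSer) : S_NucFin := by
  intro X Y _ _ _ _ _ β C hG
  have h1 := hG.one_le
  refine ⟨2 * (2 * C ^ 3), by positivity, fun n φ z a b ha hb hφ hz => ?_⟩
  rcases ha.eq_or_lt with rfl | ha
  · have := wl_zero φ hφ
    simpa [this] using nuc_zero (X := X)
  rcases hb.eq_or_lt with rfl | hb
  · have := wl_zero z hz
    simpa [this] using nuc_zero (X := X)
  let F : Fam X := ⟨n, fun i => a⁻¹ • φ i, fun i => b⁻¹ • z i,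
    wl_mul φ a a⁻¹ (fun _ => a⁻¹) ha.le (by positivity) hφ
      (fun _ => by rw [abs_of_pos (by positivity)]) (by rw [mul_inv_cancel₀ ha.ne']),
    wl_mul z b b⁻¹ (fun _ => b⁻¹) hb.le (by positivity) hz
      (fun _ => by rw [abs_of_pos (by positivity)]) (by rw [mul_inv_cancel₀ hb.ne'])⟩
  have h2 := nuc_smul _ _ (a * b) (by positivity)
    (fam_nuc hN (2 * C ^ 3) (step2 hC hE β C hG) F)
  have h3 : (fun x => (a * b) • F.op x) = fun x => ∑ i, φ i x • z i := by
    funext x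
    simp only [Fam.op, F, smul_sum, smul_smul, smul_apply, smul_eq_mul]
    refine sum_congr rfl fun i _ => ?_
    congr 1
    field_simp
  rw [h3] at h2
  have h4 : a * b * (2 * (2 * C ^ 3)) = 2 * (2 * C ^ 3) * a * b := by ring
  rwa [h4] at h2

end Pool.Agent.P.MP_1bacd4_an
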