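import Pool.Agent.P.MP_1bacd4_an.Basic

/-! A Gaussian matrix is a near isometry on a subspace. -/

set_option autoImplicit false

namespace Pool.Agent.P.MP_1bacd4_an

open Finset Module MeasureTheory ProbabilityTheory Matrix

namespace IsoA

theorem tail (hc : S_Conc) (hm : S_Mom) {P K : Type} [Fintype P] [Fintype K] (u : K → P → ℝ)
    (hu : ∀ k, ∑ p, u k p ^ 2 = 1) (f : GS P → ℝ)
    (hf : ∀ G, f G = n2 fun k => ∑ p, u k p * G p) (hL : LipschitzWith 1 f) :
    (gm P).real {G | ¬ (607 / 1000 * sq K ≤ f G ∧ f G ≤ 1515 / 1000 * sq K)} ≤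
      14 * Real.exp (-(Fintype.card K : ℝ) / 500) := by
  set N : ℝ := (Fintype.card K : ℝ) with hN
  rcases eq_or_lt_of_le (show (0 : ℝ) ≤ N from Nat.cast_nonneg _) with h0 | hpos
  · rw [← h0]
    have : (gm P).real {G | ¬ (607 / 1000 * sq K ≤ f G ∧ f G ≤ 1515 / 1000 * sq K)} ≤ 1 :=
      measureReal_le_one
    simp only [neg_zero, zero_div, Real.exp_zero]
    linarith
  have hr : 0 ≤ sq K := sq_nonneg'
  have hr2 : sq K ^ 2 = N := sq_sq
  have hf0 : ∀ G, 0 ≤ f G := fun G => by rw [hf]; exact n2_nonneg _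
  have hf2 : ∀ G, f G ^ 2 = ∑ k, (∑ p, u k p * G p) ^ 2 := fun G => by rw [hf, n2_sq]
  have hi2 : Integrable (fun G : GS P => f G ^ 2) (gm P) := by
    simp only [hf2]
    exact integrable_finsetSum _ fun k _ => hm.int P (u k) 2
  have he2 : ∫ G, f G ^ 2 ∂(gm P) = N := by
    simp only [hf2]
    rw [integral_finsetSum _ fun k _ => hm.int P (u k) 2]
    have : ∀ k, ∫ G : GS P, (∑ p, u k p * G p) ^ 2 ∂(gm P) = 1 := by
      intro k
      simp only [pow_two]
      rw [hm.two P (u k) (u k), ← hu k]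
      simp only [pow_two]
    simp [this, hN]
  have hi4 : Integrable (fun G : GS P => ∑ k, (∑ p, u k p * G p) ^ 4) (gm P) :=
    integrable_finsetSum _ fun k _ => hm.int P (u k) 4
  have he4 : ∫ G : GS P, ∑ k, (∑ p, u k p * G p) ^ 4 ∂(gm P) = 3 * N := by
    rw [integral_finsetSum _ fun k _ => hm.int P (u k) 4]
    simp [hm.four, hu, hN, mul_comm]
  have hcont : Continuous f := hL.continuous
  have ht : -(sq K / 10) ^ 2 / 5 = -N / 500 := by rw [div_pow, hr2]; ring
  -- upper tail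
  have hup : (gm P).real {G | 1515 / 1000 * sq K ≤ f G} ≤ 2 * Real.exp (-N / 500) := by
    have h1 := mul_meas_ge_le_integral_of_nonneg (μ := gm P) (f := fun G => f G ^ 2)
      (Filter.Eventually.of_forall fun G => sq_nonneg _) hi2 (2 * N)
    rw [he2] at h1
    have h2 : (gm P).real {G | 2 * N ≤ f G ^ 2} ≤ 1 / 2 := by nlinarith
    have hms : MeasurableSet {G : GS P | 2 * N ≤ f G ^ 2} :=
      (isClosed_le continuous_const (hcont.pow 2)).measurableSet
    have h3 : 1 / 2 ≤ (gm P).real {G | f G ≤ 1415 / 1000 * sq K} := by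
      have h4 := probReal_compl_eq_one_sub (μ := gm P) hms
      have h5 : (gm P).real {G : GS P | 2 * N ≤ f G ^ 2}ᶜ ≤
          (gm P).real {G | f G ≤ 1415 / 1000 * sq K} := by
        refine measureReal_mono fun G hG => ?_
        simp only [Set.mem_compl_iff, Set.mem_ofPred_eq, not_le] at hG ⊢
        refine le_of_sq_le_sq' (by positivity) ?_
        rw [mul_pow, hr2]
        nlinarith
      linarith
    have h6 := hc P f hL (1415 / 1000 * sq K) (sq K / 10) (by positivity)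
    rw [ht, show 1415 / 1000 * sq K + sq K / 10 = 1515 / 1000 * sq K by ring] at h6
    have h7 : 0 ≤ (gm P).real {G | 1515 / 1000 * sq K ≤ f G} := measureReal_nonneg
    nlinarith
  -- lower tail
  have hlo : (gm P).real {G | f G ≤ 607 / 1000 * sq K} ≤ 12 * Real.exp (-N / 500) := by
    set A : Set (GS P) := {G | 707 / 1000 * sq K ≤ f G} with hA
    have hms : MeasurableSet A := (isClosed_le continuous_const hcont).measurableSet
    have hpt : ∀ G, f G ^ 2 ≤ N / 2 + (∑ k, (∑ p, u k p * G p) ^ 4) / 12 +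
        A.indicator (fun _ => 3 * N) G := by
      intro G
      have h4 : 0 ≤ ∑ k, (∑ p, u k p * G p) ^ 4 := sum_nonneg fun k _ => by positivity
      by_cases hG : G ∈ A
      · rw [Set.indicator_of_mem hG]
        have h1 : (f G ^ 2) ^ 2 ≤ N * ∑ k, (∑ p, u k p * G p) ^ 4 := by
          rw [hf2]
          have := sq_sum_le_card_mul_sum_sq (s := (univ : Finset K))
            (f := fun k => (∑ p, u k p * G p) ^ 2)
          simpa only [card_univ, ← pow_mul] using this
        have h2 : N * f G ^ 2 ≤ N * ((∑ k, (∑ p, u k p * G p) ^ 4) / 12 + 3 * N) := by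
          nlinarith [sq_nonneg (f G ^ 2 - 6 * N)]
        have h3 := le_of_mul_le_mul_left h2 hpos
        linarith
      · rw [Set.indicator_of_notMem hG]
        simp only [hA, Set.mem_ofPred_eq, not_le] at hG
        have h1 : f G ^ 2 ≤ (707 / 1000 * sq K) ^ 2 := pow_le_pow_left₀ (hf0 G) hG.le 2
        rw [mul_pow, hr2] at h1
        nlinarith
    have hiI : Integrable (A.indicator fun _ : GS P => 3 * N) (gm P) :=
      (integrable_const _).indicator hms
    have hia : Integrable (fun G : GS P => N / 2 + (∑ k, (∑ p, u k p * G p) ^ 4) / 12) (gm P) :=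
      (integrable_const (N / 2)).add (hi4.div_const 12)
    have h1 := integral_mono hi2 (hia.add hiI) hpt
    rw [he2] at h1
    have h2 : ∫ G : GS P, (N / 2 + (∑ k, (∑ p, u k p * G p) ^ 4) / 12 +
        A.indicator (fun _ => 3 * N) G) ∂(gm P) = N / 2 + 3 * N / 12 + (gm P).real A * (3 * N) := by
      rw [integral_add hia hiI,
        integral_add (integrable_const (N / 2)) (hi4.div_const 12), integral_div,
        integral_div, he4,
        integral_indicator hms]
      simp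
    have h3 : N ≤ N / 2 + 3 * N / 12 + (gm P).real A * (3 * N) := h2 ▸ h1
    have h4 : 1 / 12 ≤ (gm P).real A := by nlinarith
    have h6 := hc P f hL (607 / 1000 * sq K) (sq K / 10) (by positivity)
    rw [ht, show 607 / 1000 * sq K + sq K / 10 = 707 / 1000 * sq K by ring] at h6
    have h7 : 0 ≤ (gm P).real {G | f G ≤ 607 / 1000 * sq K} := measureReal_nonneg
    nlinarith
  have hsub : {G | ¬ (607 / 1000 * sq K ≤ f G ∧ f G ≤ 1515 / 1000 * sq K)} ⊆
      {G | f G ≤ 607 / 1000 * sq K} ∪ {G | 1515 / 1000 * sq K ≤ f G} := by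
    intro G hG
    simp only [Set.mem_ofPred_eq, not_and_or, not_le, Set.mem_union] at hG ⊢
    exact hG.imp le_of_lt le_of_lt
  have := (measureReal_mono (μ := gm P) hsub).trans (measureReal_union_le _ _)
  linarith

theorem net {V W : Type} [NormedAddCommGroup V] [NormedSpace ℝ V] [NormedAddCommGroup W]
    [NormedSpace ℝ W] (L : V →L[ℝ] W) (N : Finset V)
    (hN : ∀ x : V, ‖x‖ ≤ 1 → ∃ n ∈ N, ‖x - n‖ ≤ 1 / 2 ^ 3) {r : ℝ} (hr : 0 ≤ r)
    (h : ∀ n ∈ N, 607 / 1000 * r * ‖n‖ ≤ ‖L n‖ ∧ ‖L n‖ ≤ 1515 / 1000 * r * ‖n‖) (x : V) :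
    r / 4 * ‖x‖ ≤ ‖L x‖ ∧ ‖L x‖ ≤ 2 * r * ‖x‖ := by
  have key : ∀ y : V, ‖y‖ = 1 → 607 / 1000 * r * (7 / 8) - ‖L‖ / 8 ≤ ‖L y‖ ∧
      ‖L y‖ ≤ 1515 / 1000 * r * (9 / 8) + ‖L‖ / 8 := by
    intro y hy
    obtain ⟨n, hn, hyn⟩ := hN y hy.le
    obtain ⟨h1, h2⟩ := h n hn
    have h3 : ‖L y - L n‖ ≤ ‖L‖ / 8 := by
      rw [← map_sub]
      refine (L.le_opNorm _).trans ?_
      have := mul_le_mul_of_nonneg_left hyn (norm_nonneg L)
      linarith
    have h4 := abs_le.1 ((abs_norm_sub_norm_le (L y) (L n)).trans h3)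
    have h5 := abs_le.1 ((abs_norm_sub_norm_le y n).trans hyn)
    rw [hy] at h5
    constructor
    · have : 607 / 1000 * r * (7 / 8) ≤ 607 / 1000 * r * ‖n‖ :=
        mul_le_mul_of_nonneg_left (by linarith [h5.2]) (by positivity)
      linarith [h4.1]
    · have : 1515 / 1000 * r * ‖n‖ ≤ 1515 / 1000 * r * (9 / 8) :=
        mul_le_mul_of_nonneg_left (by linarith [h5.1]) (by positivity)
      linarith [h4.2]
  have hs : ‖L‖ ≤ 1515 / 1000 * r * (9 / 8) + ‖L‖ / 8 :=
    L.opNorm_le_of_unit_norm (by positivity) fun y hy => (key y hy).2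
  have hs2 : ‖L‖ ≤ 2 * r := by linarith
  refine ⟨?_, (L.le_opNorm x).trans (mul_le_mul_of_nonneg_right hs2 (norm_nonneg _))⟩
  by_cases hx : x = 0
  · simp [hx]
  have hx' : 0 < ‖x‖ := norm_pos_iff.2 hx
  have h1 := (key (‖x‖⁻¹ • x) (by rw [norm_smul, norm_inv, norm_norm, inv_mul_cancel₀ hx'.ne'])).1
  rw [map_smul, norm_smul, norm_inv, norm_norm] at h1
  have h2 : r / 4 ≤ ‖x‖⁻¹ * ‖L x‖ := by linarith
  rw [inv_mul_eq_div, le_div_iff₀ hx'] at h2
  exact h2

theorem gen (hc : S_Conc) (hm : S_Mom) (hn : S_Net) {P K J : Type} [Fintype P] [Fintype K]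
    [Fintype J] (M : GS P → Matrix K J ℝ) (hsub : ∀ G G', fro (M G - M G') = ‖G - G'‖)
    (hu : ∀ x : J → ℝ, n2 x = 1 → ∃ u : K → P → ℝ, (∀ k, ∑ p, u k p ^ 2 = 1) ∧
      ∀ G, M G *ᵥ x = fun k => ∑ p, u k p * G p) (T : Submodule ℝ (J → ℝ)) :
    (gm P).real {G | ¬ IsoOn (M G) (sq K) T} ≤
      14 * 125 ^ finrank ℝ T * Real.exp (-(Fintype.card K : ℝ) / 500) := by
  obtain ⟨N, hcard, hN⟩ := hn (euc T) 3
  rw [finrank_euc] at hcard
  let B : euc T → Set (GS P) := fun n =>
    {G | ¬ (607 / 1000 * sq K * ‖n‖ ≤ n2 (M G *ᵥ fun j => (n : EuclideanSpace ℝ J) j) ∧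
      n2 (M G *ᵥ fun j => (n : EuclideanSpace ℝ J) j) ≤ 1515 / 1000 * sq K * ‖n‖)}
  have hB : ∀ n, (gm P).real (B n) ≤ 14 * Real.exp (-(Fintype.card K : ℝ) / 500) := by
    intro n
    set w : J → ℝ := fun j => (n : EuclideanSpace ℝ J) j with hw
    have hnw : ‖n‖ = n2 w := norm_eq_n2 (n : EuclideanSpace ℝ J)
    rcases eq_or_lt_of_le (n2_nonneg w) with h0 | hpos
    · have : B n = ∅ := by
        ext G
        simp only [B, Set.mem_ofPred_eq, Set.mem_empty_iff_false, iff_false, not_not, ← hw, hnw]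
        rw [← h0, n2_eq_zero h0.symm, mulVec_zero, n2_zero]
        simp
      rw [this, measureReal_empty]
      positivity
    have hx : n2 ((n2 w)⁻¹ • w) = 1 := by
      rw [n2_smul, abs_of_pos (inv_pos.2 hpos), inv_mul_cancel₀ hpos.ne']
    obtain ⟨u, hu1, hu2⟩ := hu _ hx
    have hL : LipschitzWith 1 fun G => n2 (M G *ᵥ ((n2 w)⁻¹ • w)) := by
      refine LipschitzWith.of_le_add fun G G' => ?_
      have h1 := n2_add_le (M G' *ᵥ ((n2 w)⁻¹ • w)) ((M G - M G') *ᵥ ((n2 w)⁻¹ • w))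
      rw [← add_mulVec, add_sub_cancel] at h1
      have h2 := n2_mulVec_le (M G - M G') ((n2 w)⁻¹ • w)
      rw [hx, hsub, mul_one, ← dist_eq_norm] at h2
      linarith
    refine le_trans (measureReal_mono fun G hG => ?_)
      (tail hc hm u hu1 _ (fun G => by rw [hu2]) hL)
    simp only [B, Set.mem_ofPred_eq, ← hw, hnw] at hG ⊢
    intro h
    apply hG
    rw [mulVec_smul, n2_smul, abs_of_pos (inv_pos.2 hpos), inv_mul_eq_div, le_div_iff₀ hpos,
      div_le_iff₀ hpos] at h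
    exact h
  have hsubset : {G | ¬ IsoOn (M G) (sq K) T} ⊆ ⋃ n ∈ N, B n := by
    intro G hG
    by_contra hh
    apply hG
    simp only [Set.mem_iUnion, not_exists, B, Set.mem_ofPred_eq, not_not] at hh
    let L0 : euc T →ₗ[ℝ] EuclideanSpace ℝ K :=
      (WithLp.linearEquiv 2 ℝ (K → ℝ)).symm.toLinearMap ∘ₗ (M G).mulVecLin ∘ₗ
        (WithLp.linearEquiv 2 ℝ (J → ℝ)).toLinearMap ∘ₗ (euc T).subtype
    have hL0 : ∀ n : euc T, ‖L0.toContinuousLinearMap n‖ =
        n2 (M G *ᵥ fun j => (n : EuclideanSpace ℝ J) j) := fun n => norm_eq_n2 _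
    intro x hx
    have h1 := net L0.toContinuousLinearMap N hN (sq_nonneg' (I := K))
      (fun n hn => by rw [hL0]; exact hh n hn) ⟨WithLp.toLp 2 x, hx⟩
    rw [hL0] at h1
    have h2 : ‖(⟨WithLp.toLp 2 x, hx⟩ : euc T)‖ = n2 x := (n2_eq_norm x).symm
    rw [h2] at h1
    exact h1
  refine (measureReal_mono hsubset (measure_ne_top _ _)).trans ((measureReal_biUnion_finset_le _ _).trans ?_)
  refine (sum_le_sum fun n _ => hB n).trans ?_
  rw [sum_const, nsmul_eq_mul]
  have h1 : (N.card : ℝ) ≤ 125 ^ finrank ℝ T := by exact_mod_cast hcard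
  have h2 : 0 ≤ Real.exp (-(Fintype.card K : ℝ) / 500) := (Real.exp_pos _).le
  nlinarith

end IsoA

theorem iso (hc : S_Conc) (hm : S_Mom) (hn : S_Net) : S_Iso := by
  classical
  intro I J _ _
  refine ⟨IsoA.gen hc hm hn (fun G => mat G) (fun G G' => fro_mat (G - G')) fun x hx => ?_,
    IsoA.gen hc hm hn (fun G => (mat G)ᵀ) (fun G G' => ?_) fun x hx => ?_⟩
  · refine ⟨fun k p => if p.1 = k then x p.2 else 0, fun k => ?_, fun G => ?_⟩
    · have := n2_sq x
      rw [hx] at this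
      simp [Fintype.sum_prod_type, ← this]
    · funext k
      simp [Fintype.sum_prod_type, mulVec, dotProduct, mat, mul_comm]
  · rw [← transpose_sub, fro_transpose]
    exact fro_mat (G - G')
  · refine ⟨fun k p => if p.2 = k then x p.1 else 0, fun k => ?_, fun G => ?_⟩
    · have := n2_sq x
      rw [hx] at this
      simp [Fintype.sum_prod_type, ← this]
    · funext k
      simp [Fintype.sum_prod_type, mulVec, dotProduct, mat, mul_comm]

end Pool.Agent.P.MP_1bacd4_an
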