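import Pool.Agent.P.MP_1bacd4_an.Defs

/-! Bounded extension of Rademacher series of functionals, and the lifting lemma for `L1 / S`. -/

set_option autoImplicit false

namespace Pool.Agent.P.MP_1bacd4_an

open Finset

noncomputable section

namespace LiftA

section Av

variable {D D' V W : Type} [Fintype D] [Fintype D'] [AddCommGroup V] [Module ℝ V]
  [AddCommGroup W] [Module ℝ W]

lemma av_eq (f : D → ℝ) : av f = (Fintype.card D : ℝ)⁻¹ * ∑ e, f e := rfl

lemma av_mono {f g : D → ℝ} (h : ∀ e, f e ≤ g e) : av f ≤ av g := by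
  rw [av_eq, av_eq]
  exact mul_le_mul_of_nonneg_left (sum_le_sum fun e _ => h e) (by positivity)

lemma av_nonneg {f : D → ℝ} (h : ∀ e, 0 ≤ f e) : 0 ≤ av f := by
  rw [av_eq]
  exact mul_nonneg (by positivity) (sum_nonneg fun e _ => h e)

lemma av_add (f g : D → V) : (av fun e => f e + g e) = av f + av g := by
  simp only [av, sum_add_distrib, smul_add]

lemma av_sub (f g : D → V) : (av fun e => f e - g e) = av f - av g := by
  simp only [av, sum_sub_distrib, smul_sub]

lemma av_smul (c : ℝ) (f : D → V) : (av fun e => c • f e) = c • av f := by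
  simp only [av, ← smul_sum]
  rw [smul_comm]

lemma av_mul (c : ℝ) (f : D → ℝ) : (av fun e => c * f e) = c * av f := av_smul c f

lemma av_const [Nonempty D] (v : V) : (av fun _ : D => v) = v := by
  have h : (Fintype.card D : ℝ) ≠ 0 := by positivity
  simp only [av, sum_const, card_univ, ← Nat.cast_smul_eq_nsmul ℝ, smul_smul]
  rw [inv_mul_cancel₀ h, one_smul]

lemma av_sum {J : Type} (s : Finset J) (f : J → D → V) :
    (av fun e => ∑ j ∈ s, f j e) = ∑ j ∈ s, av (f j) := by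
  simp only [av]
  rw [sum_comm, smul_sum]

lemma av_comm (f : D → D' → ℝ) :
    (av fun e => av (f e)) = av fun e' => av fun e => f e e' := by
  simp only [av_eq, ← mul_sum]
  rw [sum_comm]
  ring

lemma av_map (L : V →ₗ[ℝ] W) (f : D → V) : L (av f) = av fun e => L (f e) := by
  simp only [av, map_smul, map_sum]

lemma av_apply {Ω : Type} (f : D → Ω → ℝ) (ω : Ω) : av f ω = av fun e => f e ω :=
  av_map (LinearMap.proj ω : (Ω → ℝ) →ₗ[ℝ] ℝ) f

lemma av_mem (S : Submodule ℝ V) {f : D → V} (h : ∀ e, f e ∈ S) : av f ∈ S :=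
  S.smul_mem _ (S.sum_mem fun e _ => h e)

lemma sem_av (p : Seminorm ℝ V) (f : D → V) : p (av f) ≤ av fun e => p (f e) := by
  rw [av_eq, av, map_smul_eq_mul, Real.norm_of_nonneg (by positivity)]
  exact mul_le_mul_of_nonneg_left (le_sum_of_subadditive p (map_zero p).le (map_add_le_add p) _ _)
    (by positivity)

lemma av_cs (a b : D → ℝ) :
    (av fun e => a e * b e) ^ 2 ≤ (av fun e => a e ^ 2) * av fun e => b e ^ 2 := by
  simp only [av_eq]
  have h := sum_mul_sq_le_sq_mul_sq univ a b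
  have h0 : (0 : ℝ) ≤ ((Fintype.card D : ℝ)⁻¹) ^ 2 := by positivity
  calc _ = ((Fintype.card D : ℝ)⁻¹) ^ 2 * (∑ e, a e * b e) ^ 2 := by ring
    _ ≤ ((Fintype.card D : ℝ)⁻¹) ^ 2 * ((∑ e, a e ^ 2) * ∑ e, b e ^ 2) :=
      mul_le_mul_of_nonneg_left h h0
    _ = _ := by ring

/-- The L2 norm for the uniform average. -/
def M (a : D → ℝ) : ℝ := √(av fun e => a e ^ 2)

lemma M_nonneg (a : D → ℝ) : 0 ≤ M a := Real.sqrt_nonneg _

lemma M_sq (a : D → ℝ) : M a ^ 2 = av fun e => a e ^ 2 :=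
  Real.sq_sqrt (av_nonneg fun _ => sq_nonneg _)

lemma M_le {a : D → ℝ} {c : ℝ} (hc : 0 ≤ c) (h : (av fun e => a e ^ 2) ≤ c ^ 2) : M a ≤ c :=
  Real.sqrt_le_iff.2 ⟨hc, h⟩

lemma av_mul_le (a b : D → ℝ) : (av fun e => a e * b e) ≤ M a * M b := by
  refine (abs_le_of_sq_le_sq' ?_ (mul_nonneg (M_nonneg a) (M_nonneg b))).2
  rw [mul_pow, M_sq, M_sq]
  exact av_cs a b

lemma M_tri {a b c : D → ℝ} (h0 : ∀ e, 0 ≤ c e) (h : ∀ e, c e ≤ a e + b e) :
    M c ≤ M a + M b := by
  refine M_le (add_nonneg (M_nonneg a) (M_nonneg b)) ?_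
  calc _ ≤ av fun e => a e ^ 2 + (2 * (a e * b e) + b e ^ 2) :=
        av_mono fun e => by nlinarith [h0 e, h e]
    _ = M a ^ 2 + (2 * (av fun e => a e * b e) + M b ^ 2) := by
        rw [av_add, av_add, av_mul, M_sq, M_sq]
    _ ≤ _ := by nlinarith [av_mul_le a b]

lemma av_le_M [Nonempty D] (a : D → ℝ) : av a ≤ M a := by
  have h := av_mul_le a fun _ => 1
  have h1 : M (fun _ : D => (1 : ℝ)) = 1 := by
    simp only [M, one_pow, av_const, Real.sqrt_one]
  simpa only [mul_one, h1] using h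

lemma M_mul {c : ℝ} (hc : 0 ≤ c) (a : D → ℝ) : (M fun e => c * a e) = c * M a := by
  simp only [M, mul_pow, av_mul]
  rw [Real.sqrt_mul (sq_nonneg c), Real.sqrt_sq hc]

end Av

section Co

variable {ι V : Type} [Fintype ι] [DecidableEq ι] [AddCommGroup V] [Module ℝ V]

lemma co_add (f g : (ι → Bool) → V) (A : Finset ι) : co (f + g) A = co f A + co g A := by
  simp only [co, Pi.add_apply, smul_add, av_add]

lemma co_sub (f g : (ι → Bool) → V) (A : Finset ι) :
    co (fun e => f e - g e) A = co f A - co g A := by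
  simp only [co, smul_sub, av_sub]

lemma co_smul (c : ℝ) (f : (ι → Bool) → V) (A : Finset ι) : co (c • f) A = c • co f A := by
  simp only [co, Pi.smul_apply, ← av_smul]
  congr 1
  funext e
  rw [smul_comm]

lemma co_apply {Ω : Type} (f : (ι → Bool) → Ω → ℝ) (A : Finset ι) (ω : Ω) :
    co f A ω = co (fun e => f e ω) A := by
  simp only [co, av_apply, Pi.smul_apply]

lemma co_mem (S : Submodule ℝ V) {f : (ι → Bool) → V} (h : ∀ e, f e ∈ S) (A : Finset ι) :
    co f A ∈ S :=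
  av_mem S fun e => S.smul_mem _ (h e)

omit [DecidableEq ι] in
lemma rad_apply {Ω : Type} (g : ι → Ω → ℝ) (e : ι → Bool) (ω : Ω) :
    rad g e ω = rad (fun i => g i ω) e := by
  simp only [rad, Finset.sum_apply, Pi.smul_apply]

end Co

section L1

variable {Ω : Type} [Fintype Ω]

/-- `l1` as a seminorm. -/
def l1S (Ω : Type) [Fintype Ω] : Seminorm ℝ (Ω → ℝ) :=
  Seminorm.of l1
    (fun x y => by
      simp only [l1, ← sum_add_distrib]
      exact sum_le_sum fun i _ => abs_add_le _ _)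
    (fun a x => by simp only [l1, Pi.smul_apply, smul_eq_mul, abs_mul, mul_sum, Real.norm_eq_abs])

lemma l1S_apply (x : Ω → ℝ) : l1S Ω x = l1 x := rfl

lemma l1_nonneg (x : Ω → ℝ) : 0 ≤ l1 x := sum_nonneg fun _ _ => abs_nonneg _

lemma l1_sub_le (x y : Ω → ℝ) : l1 (x - y) ≤ l1 x + l1 y := map_sub_le_add (l1S Ω) x y

lemma l1_smul (c : ℝ) (x : Ω → ℝ) : l1 (c • x) = |c| * l1 x := map_smul_eq_mul (l1S Ω) c x

lemma l1_sq_le (x : Ω → ℝ) : l1 x ^ 2 ≤ Fintype.card Ω * ∑ ω, x ω ^ 2 := by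
  have h := sum_mul_sq_le_sq_mul_sq univ (fun _ : Ω => (1 : ℝ)) fun ω => |x ω|
  simpa [l1, sq_abs] using h

lemma euc_sq {κ : ℝ} {S : Submodule ℝ (Ω → ℝ)} (h : Euc κ S) {s : Ω → ℝ} (hs : s ∈ S) :
    Fintype.card Ω * ∑ ω, s ω ^ 2 ≤ κ ^ 2 * l1 s ^ 2 := by
  have h1 := h s hs
  have h2 : 0 ≤ sq Ω * n2 s := mul_nonneg (Real.sqrt_nonneg _) (Real.sqrt_nonneg _)
  have h3 := pow_le_pow_left₀ h2 h1 2
  rw [mul_pow, mul_pow, sq, n2, Real.sq_sqrt (by positivity),
    Real.sq_sqrt (sum_nonneg fun _ _ => sq_nonneg _)] at h3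
  exact h3

/-- The quotient seminorm of `l1` modulo `S`, with optimal representatives. -/
lemma exists_q (S : Submodule ℝ (Ω → ℝ)) : ∃ q : Seminorm ℝ (Ω → ℝ),
    (∀ f h, h - f ∈ S → q f ≤ l1 h) ∧ ∀ f, ∃ h, h - f ∈ S ∧ l1 h = q f := by
  let e := (WithLp.linearEquiv 1 ℝ (Ω → ℝ)).symm
  let P := PiLp 1 fun _ : Ω => ℝ
  let S' : Submodule ℝ P := S.comap (WithLp.linearEquiv 1 ℝ (Ω → ℝ)).toLinearMap
  have hn : ∀ x : P, ‖x‖ = l1 x.ofLp := fun x => by
    rw [PiLp.norm_eq_of_L1]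
    rfl
  let q : Seminorm ℝ (Ω → ℝ) := (normSeminorm ℝ (P ⧸ S')).comp (S'.mkQ ∘ₗ e.toLinearMap)
  have hq : ∀ f, q f = Metric.infDist (WithLp.toLp 1 f : P) (S' : Set P) := fun f =>
    QuotientAddGroup.norm_mk (S := S'.toAddSubgroup) (WithLp.toLp 1 f : P)
  refine ⟨q, fun f h hh => ?_, fun f => ?_⟩
  · have hm : (WithLp.toLp 1 (f - h) : P) ∈ (S' : Set P) := by
      have := S.neg_mem hh
      rw [neg_sub] at this
      exact this
    rw [hq]
    refine (Metric.infDist_le_dist_of_mem hm).trans_eq ?_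
    rw [dist_eq_norm, hn]
    simp
  · have hc : IsClosed (S' : Set P) := S'.closed_of_finiteDimensional
    obtain ⟨y, hy, hd⟩ := hc.exists_infDist_eq_dist ⟨0, S'.zero_mem⟩ (WithLp.toLp 1 f : P)
    refine ⟨f - y.ofLp, ?_, ?_⟩
    · rw [sub_sub_cancel_left]
      exact S.neg_mem hy
    · rw [hq, hd, dist_eq_norm, hn]
      rfl

end L1

section Main

variable {ι Ω : Type} [Fintype ι] [DecidableEq ι] [Fintype Ω]

lemma pars2 (hC : S_Cube) (F : (ι → Bool) → Ω → ℝ) :
    (av fun e => ∑ ω, F e ω ^ 2) = ∑ ω, ∑ A : Finset ι, co F A ω ^ 2 := by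
  rw [av_sum univ fun ω e => F e ω ^ 2]
  refine sum_congr rfl fun ω _ => ?_
  simp only [co_apply, pow_two]
  exact hC.pars ι (fun e => F e ω) fun e => F e ω

lemma ker_contr (hC : S_Cube) {t : ℝ} (h0 : 0 ≤ t) (h1 : t ≤ 1) (F : (ι → Bool) → Ω → ℝ) :
    (M fun e => l1 (av fun e' => ker t e e' • F e')) ≤ M fun e => l1 (F e) := by
  refine M_le (M_nonneg _) ?_
  rw [M_sq]
  have hp : ∀ e, l1 (av fun e' => ker t e e' • F e') ^ 2 ≤
      av fun e' => l1 (F e') ^ 2 * |ker t e e'| := fun e => by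
    have a1 : l1 (av fun e' => ker t e e' • F e') ≤
        av fun e' => √|ker t e e'| * (√|ker t e e'| * l1 (F e')) := by
      refine (sem_av (l1S Ω) _).trans_eq ?_
      congr 1
      funext e'
      rw [l1S_apply, l1_smul, ← mul_assoc, Real.mul_self_sqrt (abs_nonneg _)]
    have a2 := av_cs (fun e' => √|ker t e e'|) fun e' => √|ker t e e'| * l1 (F e')
    simp only [mul_pow, Real.sq_sqrt (abs_nonneg _)] at a2
    have a3 := hC.ker_l1 ι t h0 h1 e
    have a4 : 0 ≤ av fun e' => |ker t e e'| * l1 (F e') ^ 2 :=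
      av_nonneg fun e' => by positivity
    calc _ ≤ _ := pow_le_pow_left₀ (l1_nonneg _) a1 2
      _ ≤ _ := a2
      _ ≤ 1 * av fun e' => |ker t e e'| * l1 (F e') ^ 2 := mul_le_mul_of_nonneg_right a3 a4
      _ = _ := by simp only [one_mul, mul_comm]
  refine (av_mono hp).trans ?_
  rw [av_comm fun e e' => l1 (F e') ^ 2 * |ker t e e'|]
  refine av_mono fun e' => ?_
  rw [av_mul]
  refine mul_le_of_le_one_right (sq_nonneg _) ?_
  simp only [hC.ker_symm ι t _ e']
  exact hC.ker_l1 ι t h0 h1 e'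

lemma khin (hC : S_Cube) (a : ι → ℝ) : n2 a ≤ √2 * av fun e => |rad a e| := by
  have h := hC.kahane ι ℝ (normSeminorm ℝ ℝ) a
  simp only [coe_normSeminorm, Real.norm_eq_abs, sq_abs] at h
  rw [hC.rad2] at h
  have h0 : 0 ≤ av fun e => |rad a e| := av_nonneg fun _ => abs_nonneg _
  refine Real.sqrt_le_iff.2 ⟨by positivity, ?_⟩
  rw [mul_pow, Real.sq_sqrt (by norm_num)]
  exact h

omit [Fintype ι] [DecidableEq ι] in
lemma od_sq_le {t : ℝ} (h0 : 0 ≤ t) (h1 : t ≤ 1) {A : Finset ι} (hA : A.card ≠ 1) :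
    od t A ^ 2 ≤ (t ^ 3) ^ 2 := by
  unfold od
  split_ifs with h
  · refine pow_le_pow_left₀ (by positivity) (pow_le_pow_of_le_one h0 h1 ?_) 2
    obtain ⟨k, hk⟩ := h
    omega
  · simp only [ne_eq, OfNat.ofNat_ne_zero, not_false_eq_true, zero_pow]
    positivity

/-- The Rademacher projection is bounded on functions whose other part lies in `S`. -/
lemma rad_bound (hC : S_Cube) {κ t : ℝ} (hκ : 0 ≤ κ) (h0 : 0 < t) (h1 : t ≤ 1)
    (ht : 2 * κ * t ^ 2 = 1) {S : Submodule ℝ (Ω → ℝ)} (hS : Euc κ S)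
    (F : (ι → Bool) → Ω → ℝ) (hF : ∀ e, F e - rad (fun i => co F {i}) e ∈ S) :
    t * (M fun e => l1 (rad (fun i => co F {i}) e)) ≤ 3 * M fun e => l1 (F e) := by
  set g : ι → Ω → ℝ := fun i => co F {i} with hg
  set G := M fun e => l1 (rad g e) with hG
  set H := M fun e => l1 (F e) with hH
  let c : Finset ι → Ω → ℝ := fun A => if A.card = 1 then 0 else od t A • co F A
  let r : (ι → Bool) → Ω → ℝ := fun e => ∑ A : Finset ι, wal A e • c A
  let s : (ι → Bool) → Ω → ℝ := fun e => F e - rad g e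
  have hT : ∀ e, t • rad g e = (av fun e' => ker t e e' • F e') - r e := fun e => by
    rw [hC.ker_apply, hg, hC.rad_eq ι _ (co F) e, smul_sum, ← sum_sub_distrib]
    refine sum_congr rfl fun A _ => ?_
    by_cases hA : A.card = 1
    · simp only [c, hA, if_true, smul_zero, sub_zero, od, odd_one, pow_one]
      rw [smul_comm]
    · simp only [c, hA, if_false, smul_zero, sub_self]
  have b1 : t * G ≤ (M fun e => l1 (av fun e' => ker t e e' • F e')) + M fun e => l1 (r e) := by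
    rw [hG, ← M_mul h0.le]
    refine M_tri (fun e => mul_nonneg h0.le (l1_nonneg _)) fun e => ?_
    have := l1_sub_le (av fun e' => ker t e e' • F e') (r e)
    rwa [← hT, l1_smul, abs_of_pos h0] at this
  have b2 := ker_contr hC h0.le h1 F
  have b3 : (M fun e => l1 (s e)) ≤ H + G :=
    M_tri (fun e => l1_nonneg _) fun e => l1_sub_le _ _
  have b4 : (M fun e => l1 (r e)) ≤ t ^ 3 * κ * M fun e => l1 (s e) := by
    refine M_le (mul_nonneg (by positivity) (M_nonneg _)) ?_
    have c1 : ∀ A ω, co r A ω ^ 2 ≤ (t ^ 3) ^ 2 * co s A ω ^ 2 := fun A ω => by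
      rw [hC.co_sum ι _ c A]
      by_cases hA : A.card = 1
      · simp only [c, hA, if_true, Pi.zero_apply]
        rw [zero_pow two_ne_zero]
        positivity
      · simp only [c, hA, if_false, s]
        rw [co_sub, hC.co_rad_ne ι _ g A hA, sub_zero, Pi.smul_apply, smul_eq_mul, mul_pow]
        exact mul_le_mul_of_nonneg_right (od_sq_le h0.le h1 hA) (sq_nonneg _)
    calc _ ≤ av fun e => (Fintype.card Ω : ℝ) * ∑ ω, r e ω ^ 2 := av_mono fun e => l1_sq_le _
      _ = Fintype.card Ω * ∑ ω, ∑ A : Finset ι, co r A ω ^ 2 := by rw [av_mul, pars2 hC]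
      _ ≤ Fintype.card Ω * ∑ ω, ∑ A : Finset ι, (t ^ 3) ^ 2 * co s A ω ^ 2 := by
          gcongr with ω _ A _
          exact c1 A ω
      _ = (t ^ 3) ^ 2 * av fun e => (Fintype.card Ω : ℝ) * ∑ ω, s e ω ^ 2 := by
          rw [av_mul, pars2 hC]
          simp only [← mul_sum]
          ring
      _ ≤ (t ^ 3) ^ 2 * av fun e => κ ^ 2 * l1 (s e) ^ 2 :=
          mul_le_mul_of_nonneg_left (av_mono fun e => euc_sq hS (hF e)) (by positivity)
      _ = _ := by rw [av_mul, ← M_sq]; ring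
  have b5 : t ^ 3 * κ = t / 2 := by
    calc t ^ 3 * κ = t / 2 * (2 * κ * t ^ 2) := by ring
      _ = _ := by rw [ht, mul_one]
  rw [b5] at b4
  have b6 : t / 2 * (M fun e => l1 (s e)) ≤ t / 2 * (H + G) :=
    mul_le_mul_of_nonneg_left b3 (by positivity)
  have b7 : 0 ≤ H := M_nonneg _
  have b8 : t * H ≤ H := mul_le_of_le_one_left b7 h1
  linarith

end Main

end LiftA

open LiftA

theorem ext (hC : S_Cube) : S_Ext := by
  intro K E _ _ hK hE ι _ _ φ s hs hφ
  have key : ∀ x : ι → E, ∑ i, φ i (x i) ≤ K * s * av fun ε : ι → Bool => ‖rad x ε‖ := by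
    intro x
    rcases hs.eq_or_lt with h | h
    · subst h
      have : ∀ i, φ i = 0 := fun i => by
        have h1 := hφ (Pi.single i 1)
        rw [zero_mul, sum_eq_single i (fun j _ hj => by simp [hj]) (by simp)] at h1
        simpa using h1
      simp [this]
    · have h1 : WL (fun i => s⁻¹ • φ i) 1 := fun a => by
        have h2 : ∑ i, a i • s⁻¹ • φ i = s⁻¹ • ∑ i, a i • φ i := by
          rw [smul_sum]
          exact sum_congr rfl fun i _ => smul_comm _ _ _
        rw [h2, norm_smul, Real.norm_of_nonneg (by positivity), one_mul,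
          inv_mul_le_iff₀ h]
        exact hφ a
      have h2 := hE ι _ x h1
      simp only [ContinuousLinearMap.smul_apply, smul_eq_mul, ← mul_sum] at h2
      rw [inv_mul_le_iff₀ h] at h2
      linarith
  let g0 : ((ι → Bool) → E) →ₗ[ℝ] ℝ :=
    { toFun := fun f => ∑ i, φ i (co f {i})
      map_add' := fun f g => by simp only [co_add, map_add, sum_add_distrib]
      map_smul' := fun c f => by
        simp only [co_smul, map_smul, smul_eq_mul, RingHom.id_apply, mul_sum] }
  have hg0 : ∀ x : ι → E, g0 (rad x) = ∑ i, φ i (x i) := fun x =>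
    sum_congr rfl fun i _ => by rw [hC.co_rad]
  let r : (ι → E) →ₗ[ℝ] (ι → Bool) → E :=
    { toFun := rad
      map_add' := fun x y => by
        funext e
        simp only [rad, Pi.add_apply, smul_add, sum_add_distrib]
      map_smul' := fun c x => by
        funext e
        simp only [rad, Pi.smul_apply, RingHom.id_apply, smul_sum]
        exact sum_congr rfl fun i _ => smul_comm _ _ _ }
  have hKs : 0 ≤ K * s := mul_nonneg hK hs
  obtain ⟨g, hg, hle⟩ := exists_extension_of_le_sublinear (g0.toPMap (LinearMap.range r))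
    (fun f => K * s * av fun e => ‖f e‖)
    (fun c hc f => by
      simp only [Pi.smul_apply, norm_smul, Real.norm_of_nonneg hc.le, av_mul]
      ring)
    (fun f f' => by
      rw [← mul_add, ← av_add]
      exact mul_le_mul_of_nonneg_left (av_mono fun e => norm_add_le _ _) hKs)
    (by
      rintro ⟨_, x, rfl⟩
      exact (hg0 x).trans_le (key x))
  have hg' : ∀ x : ι → E, g (rad x) = ∑ i, φ i (x i) := fun x =>
    (hg ⟨r x, x, rfl⟩).trans (hg0 x)
  have hN : (0 : ℝ) < Fintype.card (ι → Bool) := by positivity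
  let Φ0 : (ι → Bool) → E →ₗ[ℝ] ℝ := fun e =>
    (Fintype.card (ι → Bool) : ℝ) • (g ∘ₗ LinearMap.single ℝ (fun _ => E) e)
  have hΦ0 : ∀ e x, Φ0 e x = (Fintype.card (ι → Bool) : ℝ) * g (Pi.single e x) := fun e x => rfl
  have hb : ∀ e x, Φ0 e x ≤ K * s * ‖x‖ := fun e x => by
    have h1 := hle (Pi.single e x)
    rw [av_eq, sum_eq_single e (fun j _ hj => by simp [hj]) (by simp), Pi.single_eq_same] at h1
    rw [hΦ0]
    calc _ ≤ (Fintype.card (ι → Bool) : ℝ) * (K * s * ((Fintype.card (ι → Bool) : ℝ)⁻¹ * ‖x‖)) :=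
          mul_le_mul_of_nonneg_left h1 hN.le
      _ = _ := by field_simp
  have hb' : ∀ e x, ‖Φ0 e x‖ ≤ K * s * ‖x‖ := fun e x => by
    rw [Real.norm_eq_abs, abs_le]
    have h1 := hb e (-x)
    rw [map_neg, norm_neg] at h1
    exact ⟨by linarith, hb e x⟩
  refine ⟨fun e => (Φ0 e).mkContinuous (K * s) (hb' e),
    fun e => LinearMap.mkContinuous_norm_le _ hKs _, fun i => ?_⟩
  ext x
  have h1 : φ i x = g (rad (Pi.single i x)) := by
    rw [hg', sum_eq_single i (fun j _ hj => by simp [hj]) (by simp), Pi.single_eq_same]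
  have h2 : rad (Pi.single i x : ι → E) = ∑ e : ι → Bool, sg (e i) • Pi.single e x := by
    funext e
    rw [rad, sum_eq_single i (fun j _ hj => by simp [hj]) (by simp), Finset.sum_apply,
      sum_eq_single e (fun j _ hj => by simp [hj.symm]) (by simp)]
    simp
  rw [h1, h2, map_sum]
  simp only [co, av, wal, prod_singleton, ContinuousLinearMap.smul_apply,
    ContinuousLinearMap.sum_apply, LinearMap.mkContinuous_apply, hΦ0, map_smul, smul_eq_mul,
    mul_sum]
  exact sum_congr rfl fun e _ => by field_simp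

theorem lift (hC : S_Cube) : S_Lift := by
  intro κ hκ Ω _ S hS ι _ _ f h hh
  obtain ⟨q, hq1, hq2⟩ := exists_q S
  choose h' hm hl using fun e : ι → Bool => hq2 (rad f e)
  set al := av fun e => l1 (h e) with hal
  have hal0 : 0 ≤ al := av_nonneg fun _ => l1_nonneg _
  have hH : (M fun e => l1 (h' e)) ≤ √2 * al := by
    refine M_le (by positivity) ?_
    rw [mul_pow, Real.sq_sqrt (by norm_num)]
    simp only [hl]
    refine (hC.kahane ι _ q f).trans (mul_le_mul_of_nonneg_left ?_ (by norm_num))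
    exact pow_le_pow_left₀ (av_nonneg fun _ => apply_nonneg _ _)
      (av_mono fun e => hq1 _ _ (hh e)) 2
  set g : ι → Ω → ℝ := fun i => co h' {i} with hg
  have hs : ∀ i, g i - f i ∈ S := fun i => by
    have := co_mem S hm {i}
    rwa [co_sub, hC.co_rad] at this
  have hF : ∀ e, h' e - rad g e ∈ S := fun e => by
    have h1 : h' e - rad g e = (h' e - rad f e) - ∑ i, sg (e i) • (g i - f i) := by
      simp only [rad, smul_sub, sum_sub_distrib]
      abel
    rw [h1]
    exact S.sub_mem (hm e) (S.sum_mem fun i _ => S.smul_mem _ (hs i))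
  have hk : 0 < √(2 * κ) := Real.sqrt_pos.2 (by linarith)
  have hk2 : √(2 * κ) ^ 2 = 2 * κ := Real.sq_sqrt (by linarith)
  have hk1 : 1 ≤ √(2 * κ) := Real.one_le_sqrt.2 (by linarith)
  have hG := rad_bound hC (κ := κ) (t := (√(2 * κ))⁻¹) (by linarith) (by positivity)
    (inv_le_one_of_one_le₀ hk1) (by rw [inv_pow, hk2]; field_simp) hS h' hF
  rw [inv_mul_le_iff₀ hk, ← hg] at hG
  refine ⟨fun i => g i - f i, hs, ?_⟩
  have h2 : 0 ≤ √(2 : ℝ) := Real.sqrt_nonneg _
  have h22 : √(2 : ℝ) * √2 = 2 := Real.mul_self_sqrt (by norm_num)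
  have hk3 : √(2 * κ) ≤ 3 / 2 * κ := Real.sqrt_le_iff.2 ⟨by linarith, by nlinarith⟩
  calc _ = ∑ ω, n2 fun i => g i ω := by simp only [Pi.sub_apply, add_sub_cancel]
    _ ≤ ∑ ω, √2 * av fun e => |rad (fun i => g i ω) e| := sum_le_sum fun ω _ => khin hC _
    _ = √2 * av fun e => l1 (rad g e) := by
        rw [← mul_sum, ← av_sum univ fun ω e => |rad (fun i => g i ω) e|]
        simp only [l1, rad_apply]
    _ ≤ √2 * (√(2 * κ) * (3 * (√2 * al))) := by
        refine mul_le_mul_of_nonneg_left ((av_le_M _).trans (hG.trans ?_)) h2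
        gcongr
    _ = 6 * (√(2 * κ) * al) := by linear_combination (3 * (√(2 * κ) * al)) * h22
    _ ≤ 6 * (3 / 2 * κ * al) := by gcongr
    _ = _ := by ring

end

end Pool.Agent.P.MP_1bacd4_an
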