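import Pool.Agent.P.MP_1bacd4_an.Defs

/-! Inductive limit of isometric towers. -/

set_option autoImplicit false

namespace Pool.Agent.P.MP_1bacd4_an

open Filter Topology

noncomputable section

namespace LimA

theorem tendsto_of_stab (a : ℕ → ℝ) (N : ℕ) (h : ∀ m, N ≤ m → a (m + 1) = a m) :
    Tendsto a atTop (𝓝 (a N)) := by
  have h1 : ∀ m, N ≤ m → a m = a N := by
    intro m hm
    induction m, hm using Nat.le_induction with
    | base => rfl
    | succ m hm ih => rw [h m hm, ih]
  exact tendsto_atTop_of_eventually_const h1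

variable {E : ℕ → Type} [∀ n, NormedAddCommGroup (E n)] [∀ n, NormedSpace ℝ (E n)]

/-- The algebraic direct sum, to be equipped with the limit seminorm. -/
def L (_j : ∀ n, E n →ₗᵢ[ℝ] E (n + 1)) : Type := Π₀ n, E n

variable (j : ∀ n, E n →ₗᵢ[ℝ] E (n + 1))

instance : AddCommGroup (L j) := inferInstanceAs (AddCommGroup (Π₀ n, E n))

instance : Module ℝ (L j) := inferInstanceAs (Module ℝ (Π₀ n, E n))

/-- coordinate -/
def cd (n : ℕ) : L j →ₗ[ℝ] E n := DFinsupp.lapply n

/-- inclusion of a summand -/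
def sgl (n : ℕ) : E n →ₗ[ℝ] L j := DFinsupp.lsingle n

theorem cd_sgl (n : ℕ) (x : E n) : cd j n (sgl j n x) = x := DFinsupp.single_eq_same

theorem cd_sgl_ne {n m : ℕ} (h : m ≠ n) (x : E n) : cd j m (sgl j n x) = 0 :=
  DFinsupp.single_eq_of_ne h

theorem exists_bound (v : L j) : ∃ N, ∀ m, N < m → cd j m v = 0 := by
  classical
  let w : Π₀ n, E n := v
  refine ⟨w.support.sup id, fun m hm => ?_⟩
  by_contra h
  have h1 : m ∈ w.support := DFinsupp.mem_support_iff.2 h
  exact absurd (Finset.le_sup (f := id) h1) (not_le.2 hm)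

/-- partial sums pushed to level `m` -/
def S : ∀ m, L j →ₗ[ℝ] E m
  | 0 => cd j 0
  | m + 1 => (j m).toLinearMap ∘ₗ S m + cd j (m + 1)

theorem S_succ (m : ℕ) (v : L j) : S j (m + 1) v = j m (S j m v) + cd j (m + 1) v := rfl

theorem S_stab {v : L j} {N : ℕ} (h : ∀ m, N < m → cd j m v = 0) (m : ℕ) (hm : N ≤ m) :
    S j (m + 1) v = j m (S j m v) := by
  rw [S_succ, h (m + 1) (by omega), add_zero]

theorem S_eq_zero {v : L j} (m : ℕ) (h : ∀ k, k ≤ m → cd j k v = 0) : S j m v = 0 := by
  induction m with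
  | zero => exact h 0 le_rfl
  | succ m ih => rw [S_succ, ih fun k hk => h k (by omega), h _ le_rfl, map_zero, add_zero]

theorem S_sgl (n : ℕ) (x : E n) : S j n (sgl j n x) = x := by
  cases n with
  | zero => exact cd_sgl j 0 x
  | succ n =>
    rw [S_succ, S_eq_zero j n fun k hk => cd_sgl_ne j (by omega) x, map_zero, zero_add, cd_sgl]

theorem tendsto_norm_S {v : L j} {N : ℕ} (h : ∀ m, N < m → cd j m v = 0) :
    Tendsto (fun m => ‖S j m v‖) atTop (𝓝 ‖S j N v‖) :=
  tendsto_of_stab (fun m => ‖S j m v‖) N fun m hm => by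
    rw [S_stab j h m hm, LinearIsometry.norm_map]

/-- the limit norm -/
def pn (v : L j) : ℝ := limUnder atTop fun m => ‖S j m v‖

theorem pn_eq {v : L j} {N : ℕ} (h : ∀ m, N < m → cd j m v = 0) : pn j v = ‖S j N v‖ :=
  (tendsto_norm_S j h).limUnder_eq

theorem tendsto_pn (v : L j) : Tendsto (fun m => ‖S j m v‖) atTop (𝓝 (pn j v)) := by
  obtain ⟨N, h⟩ := exists_bound j v
  rw [pn_eq j h]
  exact tendsto_norm_S j h

/-- the limit seminorm -/
def sn : Seminorm ℝ (L j) :=
  Seminorm.of (pn j)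
    (fun v w => le_of_tendsto_of_tendsto' (tendsto_pn j (v + w))
      ((tendsto_pn j v).add (tendsto_pn j w)) fun m => by
        rw [map_add]; exact norm_add_le _ _)
    (fun a v => tendsto_nhds_unique (tendsto_pn j (a • v))
      (((tendsto_pn j v).const_mul ‖a‖).congr fun m => by rw [map_smul, norm_smul]))

instance : SeminormedAddCommGroup (L j) := (sn j).toAddGroupSeminorm.toSeminormedAddCommGroup

theorem norm_def (v : L j) : ‖v‖ = pn j v := rfl

instance : NormedSpace ℝ (L j) where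
  norm_smul_le a v := (map_smul_eq_mul (sn j) a v).le

/-- the limit space -/
abbrev X : Type := UniformSpace.Completion (L j)

/-- inclusion of a summand as an isometry -/
def sgli (n : ℕ) : E n →ₗᵢ[ℝ] L j where
  toLinearMap := sgl j n
  norm_map' x := by
    rw [norm_def, pn_eq j (N := n) fun m hm => cd_sgl_ne j (by omega) x, S_sgl]

/-- the embeddings -/
def emb (n : ℕ) : E n →ₗᵢ[ℝ] X j := UniformSpace.Completion.toComplₗᵢ.comp (sgli j n)

theorem emb_apply (n : ℕ) (x : E n) : emb j n x = ((sgl j n x : L j) : X j) := rfl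

theorem coe_eq_of_norm {v w : L j} (h : ‖v - w‖ = 0) : (v : X j) = (w : X j) := by
  rw [← sub_eq_zero, ← UniformSpace.Completion.coe_sub, ← norm_eq_zero,
    UniformSpace.Completion.norm_coe, h]

theorem emb_comp (n : ℕ) (x : E n) : emb j (n + 1) (j n x) = emb j n x := by
  rw [emb_apply, emb_apply]
  apply coe_eq_of_norm
  rw [norm_def, pn_eq j (N := n + 1), map_sub, S_sgl,
    S_stab j (N := n) (fun m hm => cd_sgl_ne j (by omega) x) n le_rfl, S_sgl, sub_self, norm_zero]
  intro m hm
  rw [map_sub, cd_sgl_ne j (by omega), cd_sgl_ne j (by omega), sub_self]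

theorem emb_dense (x : X j) (δ : ℝ) (hδ : 0 < δ) : ∃ n e, ‖x - emb j n e‖ < δ := by
  obtain ⟨v, hv⟩ := Metric.denseRange_iff.1
    (UniformSpace.Completion.denseRange_coe (α := L j)) x δ hδ
  obtain ⟨N, h⟩ := exists_bound j v
  refine ⟨N, S j N v, ?_⟩
  have h1 : (v : X j) = emb j N (S j N v) := by
    rw [emb_apply]
    apply coe_eq_of_norm
    rw [norm_def, pn_eq j (N := N), map_sub, S_sgl, sub_self, norm_zero]
    intro m hm
    rw [map_sub, h m hm, cd_sgl_ne j (by omega), sub_self]
  rw [← h1, ← dist_eq_norm]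
  exact hv

variable {F : ℕ → Type} [∀ n, NormedAddCommGroup (F n)] [∀ n, NormedSpace ℝ (F n)]
  (k : ∀ n, F n →ₗᵢ[ℝ] F (n + 1)) (b : ∀ n, F n →L[ℝ] E n →L[ℝ] ℝ)

/-- the limit of the bilinear forms -/
def bl (w : L k) (v : L j) : ℝ := limUnder atTop fun m => b m (S k m w) (S j m v)

variable {j k b}

theorem tendsto_b (hc : ∀ n y x, b (n + 1) (k n y) (j n x) = b n y x) {w : L k} {v : L j} {N : ℕ}
    (hw : ∀ m, N < m → cd k m w = 0) (hv : ∀ m, N < m → cd j m v = 0) :
    Tendsto (fun m => b m (S k m w) (S j m v)) atTop (𝓝 (b N (S k N w) (S j N v))) :=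
  tendsto_of_stab (fun m => b m (S k m w) (S j m v)) N fun m hm => by
    rw [S_stab k hw m hm, S_stab j hv m hm, hc]

theorem tendsto_bl (hc : ∀ n y x, b (n + 1) (k n y) (j n x) = b n y x) (w : L k) (v : L j) :
    Tendsto (fun m => b m (S k m w) (S j m v)) atTop (𝓝 (bl j k b w v)) := by
  obtain ⟨N, h⟩ := exists_bound j v
  obtain ⟨N', h'⟩ := exists_bound k w
  have h1 := tendsto_b hc (w := w) (v := v) (N := max N N')
    (fun m hm => h' m (lt_of_le_of_lt (le_max_right _ _) hm))
    (fun m hm => h m (lt_of_le_of_lt (le_max_left _ _) hm))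
  rw [bl, h1.limUnder_eq]
  exact h1

/-- the limit form as a bilinear map -/
def bll (hc : ∀ n y x, b (n + 1) (k n y) (j n x) = b n y x) : L k →ₗ[ℝ] L j →ₗ[ℝ] ℝ :=
  LinearMap.mk₂ ℝ (bl j k b)
    (fun w w' v => tendsto_nhds_unique (tendsto_bl hc (w + w') v)
      (((tendsto_bl hc w v).add (tendsto_bl hc w' v)).congr fun m => by simp))
    (fun c w v => tendsto_nhds_unique (tendsto_bl hc (c • w) v)
      (((tendsto_bl hc w v).const_mul c).congr fun m => by simp))
    (fun w v v' => tendsto_nhds_unique (tendsto_bl hc w (v + v'))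
      (((tendsto_bl hc w v).add (tendsto_bl hc w v')).congr fun m => by simp))
    (fun c w v => tendsto_nhds_unique (tendsto_bl hc w (c • v))
      (((tendsto_bl hc w v).const_mul c).congr fun m => by simp))

theorem abs_bl_le (hc : ∀ n y x, b (n + 1) (k n y) (j n x) = b n y x) (hb : ∀ n, Bd (b n))
    (w : L k) (v : L j) : |bl j k b w v| ≤ ‖w‖ * ‖v‖ :=
  le_of_tendsto_of_tendsto' (tendsto_bl hc w v).abs
    ((tendsto_pn k w).mul (tendsto_pn j v)) fun m => hb m _ _

theorem exists_form (hc : ∀ n y x, b (n + 1) (k n y) (j n x) = b n y x) (hb : ∀ n, Bd (b n)) :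
    ∃ β : X k →L[ℝ] X j →L[ℝ] ℝ, Bd β ∧ ∀ n y x, β (emb k n y) (emb j n x) = b n y x := by
  let B0 : L k →L[ℝ] L j →L[ℝ] ℝ := (bll hc).mkContinuous₂ 1 fun w v => by
    rw [one_mul]; exact abs_bl_le hc hb w v
  let B1 : X j →L[ℝ] L k →L[ℝ] ℝ := B0.flip.extend UniformSpace.Completion.toComplL
  let B2 : X k →L[ℝ] X j →L[ℝ] ℝ := B1.flip.extend UniformSpace.Completion.toComplL
  have h1 : ∀ v : L j, B1 (v : X j) = B0.flip v := fun v =>
    ContinuousLinearMap.extend_eq B0.flip (e := UniformSpace.Completion.toComplL)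
      UniformSpace.Completion.denseRange_coe
      (UniformSpace.Completion.isUniformInducing_coe _) v
  have h2 : ∀ w : L k, B2 (w : X k) = B1.flip w := fun w =>
    ContinuousLinearMap.extend_eq B1.flip (e := UniformSpace.Completion.toComplL)
      UniformSpace.Completion.denseRange_coe
      (UniformSpace.Completion.isUniformInducing_coe _) w
  have h3 : ∀ (w : L k) (v : L j), B2 (w : X k) (v : X j) = bl j k b w v := by
    intro w v
    rw [h2, ContinuousLinearMap.flip_apply, h1, ContinuousLinearMap.flip_apply]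
    rfl
  refine ⟨B2, ?_, ?_⟩
  · intro y x
    refine UniformSpace.Completion.induction_on₂ y x ?_ ?_
    · exact isClosed_le (B2.continuous₂.abs) (by fun_prop)
    · intro w v
      rw [h3, UniformSpace.Completion.norm_coe, UniformSpace.Completion.norm_coe]
      exact abs_bl_le hc hb w v
  · intro n y x
    rw [emb_apply, emb_apply, h3, bl,
      (tendsto_b hc (N := n) (fun m hm => cd_sgl_ne k (by omega) y)
        (fun m hm => cd_sgl_ne j (by omega) x)).limUnder_eq, S_sgl, S_sgl]

end LimA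

theorem lim : S_Lim := by
  intro K s h
  obtain ⟨β, hβ, hβ'⟩ := LimA.exists_form (j := fun n => (h n).jE) (k := fun n => (h n).jF)
    (b := fun n => (s n).β) (fun n => (h n).comp) (fun n => (s n).bd)
  exact ⟨LimA.X fun n => (h n).jE, LimA.X fun n => (h n).jF, inferInstance, inferInstance,
    inferInstance, inferInstance, inferInstance, LimA.emb _, LimA.emb _, β,
    LimA.emb_comp _, LimA.emb_comp _, LimA.emb_dense _, LimA.emb_dense _, hβ, hβ'⟩

end

end Pool.Agent.P.MP_1bacd4_an
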