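import Pool.Agent.P.MP_1bacd4_an.Basic

/-! The main step of the construction. -/

set_option autoImplicit false

namespace Pool.Agent.P.MP_1bacd4_an

open Finset Module Matrix

noncomputable section

namespace MainA

section Gen

variable {ι Ω E F : Type} [Fintype ι] [DecidableEq ι] [Fintype Ω]
  [NormedAddCommGroup E] [NormedSpace ℝ E] [NormedAddCommGroup F] [NormedSpace ℝ F]

/-- Orthogonal family of square norm `card Ω`. -/
def Ort (lam : ι → Ω → ℝ) : Prop :=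
  ∀ i j, lam i ⬝ᵥ lam j = if i = j then (Fintype.card Ω : ℝ) else 0

/-- Pointwise combination. -/
def cmb (lam : ι → Ω → ℝ) (x : ι → E) (ω : Ω) : E := ∑ i, lam i ω • x i

/-- The gluing map. -/
def uu (c : ℝ) (lam : ι → Ω → ℝ) (x : ι → E) : (Ω → ℝ) →ₗ[ℝ] E :=
  c • Fintype.linearCombination ℝ (cmb lam x)

omit [DecidableEq ι] in
theorem uu_apply (c : ℝ) (lam : ι → Ω → ℝ) (x : ι → E) (g : Ω → ℝ) :
    uu c lam x g = c • ∑ ω, g ω • cmb lam x ω := by
  simp [uu, Fintype.linearCombination_apply]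

omit [DecidableEq ι] in
theorem uu_eq (c : ℝ) (lam : ι → Ω → ℝ) (x : ι → E) (g : Ω → ℝ) :
    uu c lam x g = c • ∑ i, (lam i ⬝ᵥ g) • x i := by
  rw [uu_apply]
  congr 1
  simp only [cmb, smul_sum, dotProduct, sum_smul, smul_smul]
  rw [sum_comm]
  simp only [mul_comm]

theorem n2_comb {lam : ι → Ω → ℝ} (hl : Ort lam) (a : ι → ℝ) :
    n2 (∑ i, a i • lam i) ^ 2 = Fintype.card Ω * ∑ i, a i ^ 2 := by
  rw [n2_sq_dot, sum_dotProduct, mul_sum]
  refine sum_congr rfl fun i _ => ?_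
  rw [dotProduct_sum]
  simp only [smul_dotProduct, dotProduct_smul, hl i, smul_eq_mul, mul_ite, mul_zero,
    sum_ite_eq, mem_univ, if_true]
  ring

theorem bessel {lam : ι → Ω → ℝ} (hl : Ort lam) (g : Ω → ℝ) :
    n2 (fun i => lam i ⬝ᵥ g) ≤ sq Ω * n2 g := by
  set a : ι → ℝ := fun i => lam i ⬝ᵥ g with ha
  have h1 : n2 (∑ i, a i • lam i) ≤ sq Ω * n2 a := by
    refine le_of_sq_le_sq' (mul_nonneg sq_nonneg' (n2_nonneg _)) (le_of_eq ?_)
    rw [n2_comb hl, mul_pow, sq_sq, n2_sq]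
  have h2 : n2 a ^ 2 = (∑ i, a i • lam i) ⬝ᵥ g := by
    rw [n2_sq, sum_dotProduct]
    simp only [smul_dotProduct, smul_eq_mul, pow_two, ha]
  refine le_of_sq_le_mul (n2_nonneg _) (mul_nonneg sq_nonneg' (n2_nonneg _)) ?_
  rw [h2]
  refine (dot_le _ _).trans ?_
  have := mul_le_mul_of_nonneg_right h1 (n2_nonneg g)
  linarith

theorem uu_norm {lam : ι → Ω → ℝ} (hl : Ort lam) {c : ℝ} (hc : 0 ≤ c) {x : ι → E} (hx : WL x 1)
    (g : Ω → ℝ) : ‖uu c lam x g‖ ≤ c * (sq Ω * n2 g) := by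
  rw [uu_eq, norm_smul, Real.norm_eq_abs, abs_of_nonneg hc]
  refine mul_le_mul_of_nonneg_left ((hx _).trans ?_) hc
  rw [one_mul]
  exact bessel hl g

theorem uu_lam {lam : ι → Ω → ℝ} (hl : Ort lam) (c : ℝ) (x : ι → E) (i : ι) :
    uu c lam x (lam i) = (c * Fintype.card Ω) • x i := by
  rw [uu_eq, mul_smul]
  congr 1
  simp only [hl _ i, ite_smul, zero_smul, sum_ite_eq', mem_univ, if_true]

omit [DecidableEq ι] in
theorem uu_perp {lam : ι → Ω → ℝ} (c : ℝ) (x : ι → E) {g : Ω → ℝ} (h : ∀ i, lam i ⬝ᵥ g = 0) :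
    uu c lam x g = 0 := by
  simp [uu_eq, h]

omit [DecidableEq ι] in
theorem sum_cmb (lam : ι → Ω → ℝ) (y : ι → F) (W : Ω → F →L[ℝ] ℝ) :
    ∑ ω, W ω (cmb lam y ω) = ∑ i, ∑ ω, lam i ω * W ω (y i) := by
  simp only [cmb, map_sum, map_smul, smul_eq_mul]
  exact sum_comm

theorem bil_sum {lam : ι → Ω → ℝ} (hl : Ort lam) (b : F →L[ℝ] E →L[ℝ] ℝ) (y : ι → F)
    (x : ι → E) :
    ∑ ω, b (cmb lam y ω) (cmb lam x ω) = Fintype.card Ω * ∑ i, b (y i) (x i) := by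
  have h := sum_cmb lam y fun ω => b.flip (cmb lam x ω)
  simp only [ContinuousLinearMap.flip_apply] at h
  rw [h, mul_sum]
  refine sum_congr rfl fun i _ => ?_
  have h2 := congrArg (b (y i)) ((uu_apply 1 lam x (lam i)).symm.trans (uu_lam hl 1 x i))
  simpa using h2

omit [DecidableEq ι] in
theorem wl_left {b : F →L[ℝ] E →L[ℝ] ℝ} (hb : Bd b) {y : ι → F} (hy : WL y 1) :
    WL (fun i => b (y i)) 1 := by
  intro a
  have : ∑ i, a i • b (y i) = b (∑ i, a i • y i) := by simp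
  rw [this]
  refine le_trans (ContinuousLinearMap.opNorm_le_bound _ (norm_nonneg _) fun z => ?_) (hy a)
  exact hb _ z

theorem bd_flip {b : F →L[ℝ] E →L[ℝ] ℝ} (hb : Bd b) : Bd b.flip := by
  intro x y
  rw [ContinuousLinearMap.flip_apply, mul_comm]
  exact hb y x

variable [DecidableEq Ω]

theorem l1_single (ω : Ω) : l1 (Pi.single ω (1 : ℝ) : Ω → ℝ) = 1 := by
  simp only [l1, Pi.single_apply]
  rw [sum_eq_single ω] <;> simp +contextual

/-- Hahn-Banach on matrices. -/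
theorem hb (N : Submodule ℝ (Matrix Ω Ω ℝ)) (Φ0 : Matrix Ω Ω ℝ)
    (h : ∀ ν ∈ N, ip ν Φ0 ≤ ∑ ω, l1 (ν ω)) :
    ∃ Φ : Matrix Ω Ω ℝ, (∀ a b, |Φ a b| ≤ 1) ∧ ∀ ν ∈ N, ip ν Φ = ip ν Φ0 := by
  let f : Matrix Ω Ω ℝ →ₗ[ℝ] ℝ :=
    { toFun := fun ν => ip ν Φ0
      map_add' := fun a b => ip_add_left a b Φ0
      map_smul' := fun c a => ip_smul_left c a Φ0 }
  obtain ⟨g, hg, hle⟩ := exists_extension_of_le_sublinear
    (⟨N, f.domRestrict N⟩ : Matrix Ω Ω ℝ →ₗ.[ℝ] ℝ) (fun ν => ∑ ω, l1 (ν ω))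
    (fun c hc ν => by
      rw [mul_sum]
      refine sum_congr rfl fun ω _ => ?_
      have := l1_smul c (ν ω)
      rwa [abs_of_pos hc] at this)
    (fun a b => by
      rw [← sum_add_distrib]
      exact sum_le_sum fun ω _ => l1_add_le (a ω) (b ω))
    (fun ν => h ν.1 ν.2)
  have hs : ∀ a b : Ω, ∑ ω, l1 (Matrix.single a b (1 : ℝ) ω) = 1 := by
    intro a b
    rw [sum_eq_single a]
    · have : Matrix.single a b (1 : ℝ) a = Pi.single b 1 := by
        funext k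
        simp [Matrix.single, Pi.single_apply, eq_comm]
      rw [this, l1_single]
    · intro a' _ ha
      have : Matrix.single a b (1 : ℝ) a' = 0 := by
        funext k
        simp [Matrix.single, ha.symm]
      rw [this, l1_zero]
    · simp
  refine ⟨Matrix.of fun a b => g (Matrix.single a b 1), fun a b => ?_, fun ν hν => ?_⟩
  · have h1 := hle (Matrix.single a b 1)
    have h2 := hle (-Matrix.single a b 1)
    have h3 : ∑ ω, l1 ((-Matrix.single a b (1 : ℝ)) ω) = 1 :=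
      (sum_congr rfl fun ω _ => l1_neg (Matrix.single a b (1 : ℝ) ω)).trans (hs a b)
    rw [hs] at h1
    rw [h3, map_neg] at h2
    exact abs_le.2 ⟨by simp only [of_apply]; linarith, h1⟩
  · have h1 : g ν = ip ν Φ0 := hg ⟨ν, hν⟩
    rw [← h1]
    conv_rhs => rw [Matrix.matrix_eq_sum_single ν]
    simp only [ip, map_sum, of_apply]
    refine sum_congr rfl fun a _ => sum_congr rfl fun b _ => ?_
    rw [← smul_eq_mul, ← map_smul, Matrix.smul_single, smul_eq_mul, mul_one]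

theorem symm_sum (q : (Ω → ℝ) →ₗ[ℝ] (Ω → ℝ) →ₗ[ℝ] ℝ) (P : Matrix Ω Ω ℝ) (hP : Pᵀ = P) :
    ∑ ω, q (P *ᵥ Pi.single ω 1) (Pi.single ω 1) = ∑ ω, q (Pi.single ω 1) (P *ᵥ Pi.single ω 1) := by
  have e : ∀ ω, P *ᵥ (Pi.single ω 1 : Ω → ℝ) = ∑ a, P a ω • (Pi.single a 1 : Ω → ℝ) := by
    intro ω
    funext k
    simp [Pi.single_apply]
  simp only [e, map_sum, map_smul, LinearMap.sum_apply, LinearMap.smul_apply]
  rw [sum_comm]
  refine sum_congr rfl fun a _ => sum_congr rfl fun b _ => ?_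
  rw [show P a b = P b a from (congrFun (congrFun hP a) b).symm]

theorem sum_single {V : Type} [AddCommGroup V] [Module ℝ V] (T : (Ω → ℝ) →ₗ[ℝ] V) (g : Ω → ℝ) :
    ∑ ω, g ω • T (Pi.single ω 1) = T g := by
  simp only [← map_smul, ← map_sum]
  congr 1
  funext k
  simp [Pi.single_apply]

/-- The matrices annihilated by `B0 ⊗ perp B`. -/
def NN (B0 B : Submodule ℝ (Ω → ℝ)) : Submodule ℝ (Matrix Ω Ω ℝ) where
  carrier := {ν | ∀ b ∈ B0, ∀ b' ∈ perp B, b ⬝ᵥ ν *ᵥ b' = 0}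
  add_mem' := fun hx hy b hb b' hb' => by
    rw [add_mulVec, dotProduct_add, hx b hb b' hb', hy b hb b' hb', add_zero]
  zero_mem' := fun b _ b' _ => by simp
  smul_mem' := fun c x hx b hb b' hb' => by
    rw [smul_mulVec, dotProduct_smul, hx b hb b' hb', smul_zero]

/-- The bounded kernel. -/
theorem kernel {lam : ι → Ω → ℝ} (hl : Ort lam) {c K1 : ℝ} (hc : 0 ≤ c) (hc1 : c ≤ 1)
    (hcK : c * K1 ≤ 1) (β : F →L[ℝ] E →L[ℝ] ℝ) {y : ι → F} {x : ι → E} (hy : WL y 1)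
    (hx : WL x 1) (htr : |∑ i, β (y i) (x i)| ≤ 1) (hΩ : 0 < Fintype.card Ω)
    (Z : Ω → E →L[ℝ] ℝ) (Y : Ω → F →L[ℝ] ℝ) (B0 B : Submodule ℝ (Ω → ℝ))
    (hZ : ∀ i x, ∑ ω, lam i ω * Z ω x = 0) (hY : ∀ i y, ∑ ω, lam i ω * Y ω y = 0)
    (hZB : ∀ s ∈ perp B0, ∀ x, ∑ ω, s ω * Z ω x = 0) (hYB : ∀ s ∈ B, ∀ y, ∑ ω, s ω * Y ω y = 0)
    (hT : TFlat K1 B0 B)
    (h1 : ∀ ω, ‖c • (β.flip (cmb lam x ω) + Y ω)‖ ≤ 1)
    (h2 : ∀ ω, ‖c • (β (cmb lam y ω) + Z ω)‖ ≤ 1) :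
    ∃ Φ : Ω → Ω → ℝ, (∀ a b, |Φ a b| ≤ 1) ∧
      (∀ s ∈ perp B0, ∀ ω, ∑ ω', s ω' * Φ ω' ω =
        (c • (β.flip (cmb lam x ω) + Y ω)) (uu c lam y s)) ∧
      ∀ s ∈ B, ∀ ω', ∑ ω, s ω * Φ ω' ω = (c • (β (cmb lam y ω') + Z ω')) (uu c lam x s) := by
  let Φ0 : Matrix Ω Ω ℝ := Matrix.of fun ω' ω => c ^ 2 * (β (cmb lam y ω') (cmb lam x ω) +
    Y ω (cmb lam y ω') + Z ω' (cmb lam x ω))
  have k1 : ∀ s ∈ perp B0, ∀ ω, ∑ ω', s ω' * Φ0 ω' ω =
      (c • (β.flip (cmb lam x ω) + Y ω)) (uu c lam y s) := by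
    intro s hs ω
    have h := hZB s hs (cmb lam x ω)
    have e : ∀ ω', s ω' * Φ0 ω' ω = c * (c * (s ω' * ((β.flip (cmb lam x ω) + Y ω)
        (cmb lam y ω')))) + c ^ 2 * (s ω' * Z ω' (cmb lam x ω)) := by
      intro ω'
      simp only [Φ0, of_apply, _root_.add_apply, ContinuousLinearMap.flip_apply]
      ring
    simp only [e, sum_add_distrib, ← mul_sum, h, mul_zero, add_zero]
    rw [uu_apply, _root_.smul_apply]
    simp only [map_smul, map_sum, smul_eq_mul]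
  have k2 : ∀ s ∈ B, ∀ ω', ∑ ω, s ω * Φ0 ω' ω =
      (c • (β (cmb lam y ω') + Z ω')) (uu c lam x s) := by
    intro s hs ω'
    have h := hYB s hs (cmb lam y ω')
    have e : ∀ ω, s ω * Φ0 ω' ω = c * (c * (s ω * ((β (cmb lam y ω') + Z ω')
        (cmb lam x ω)))) + c ^ 2 * (s ω * Y ω (cmb lam y ω')) := by
      intro ω
      simp only [Φ0, of_apply, _root_.add_apply]
      ring
    simp only [e, sum_add_distrib, ← mul_sum, h, mul_zero, add_zero]
    rw [uu_apply, _root_.smul_apply]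
    simp only [map_smul, map_sum, smul_eq_mul]
  have k0 : ip 1 Φ0 = c ^ 2 * (Fintype.card Ω * ∑ i, β (y i) (x i)) := by
    have : ip 1 Φ0 = ∑ ω, Φ0 ω ω := by
      simp [ip, Matrix.one_apply]
    rw [this]
    simp only [Φ0, of_apply, ← mul_sum, sum_add_distrib]
    rw [bil_sum hl, sum_cmb lam y Y, sum_cmb lam x Z]
    simp [hZ, hY]
  have hL : (0 : ℝ) < Fintype.card Ω := by exact_mod_cast hΩ
  obtain ⟨Φ, hΦ, hN⟩ := hb (NN B0 B) Φ0 fun ν hν => by
    obtain ⟨l, p, z, e, hp, hz, hle⟩ := hT ν hν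
    have e1 : ip ((l / Fintype.card Ω) • (1 : Matrix Ω Ω ℝ)) Φ0 ≤ c * |l| := by
      rw [ip_smul_left, k0]
      have : l / Fintype.card Ω * (c ^ 2 * (Fintype.card Ω * ∑ i, β (y i) (x i)))
          = c * (c * (l * ∑ i, β (y i) (x i))) := by
        field_simp
      rw [this]
      refine mul_le_mul_of_nonneg_left ?_ hc
      have h3 : |l * ∑ i, β (y i) (x i)| ≤ |l| := by
        rw [abs_mul]
        exact mul_le_of_le_one_right (abs_nonneg _) htr
      have h4 := le_abs_self (l * ∑ i, β (y i) (x i))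
      have h5 := mul_le_mul_of_nonneg_left (h4.trans h3) hc
      have h6 := mul_le_of_le_one_left (abs_nonneg l) hc1
      linarith
    have e2 : ip p Φ0 ≤ c * (sq Ω * ∑ ω', n2 fun ω => p ω ω') := by
      rw [ip, sum_comm, mul_sum, mul_sum]
      refine sum_le_sum fun ω _ => ?_
      rw [k1 _ (hp ω) ω]
      refine (Real.le_norm_self _).trans ((ContinuousLinearMap.le_opNorm _ _).trans ?_)
      exact (mul_le_of_le_one_left (norm_nonneg _) (h1 ω)).trans (uu_norm hl hc hy _)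
    have e3 : ip z Φ0 ≤ c * (sq Ω * ∑ ω, n2 (z ω)) := by
      rw [ip, mul_sum, mul_sum]
      refine sum_le_sum fun ω _ => ?_
      rw [k2 _ (hz ω) ω]
      refine (Real.le_norm_self _).trans ((ContinuousLinearMap.le_opNorm _ _).trans ?_)
      exact (mul_le_of_le_one_left (norm_nonneg _) (h2 ω)).trans (uu_norm hl hc hx _)
    have e4 : ip ν Φ0 = ip ((l / Fintype.card Ω) • (1 : Matrix Ω Ω ℝ)) Φ0 + ip p Φ0 + ip z Φ0 := by
      rw [← ip_add_left, ← ip_add_left, ← e]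
    have e5 := mul_le_mul_of_nonneg_left hle hc
    have e6 := mul_le_of_le_one_left
      (sum_nonneg fun ω (_ : ω ∈ univ) => l1_nonneg (ν ω)) hcK
    linarith
  refine ⟨Φ, hΦ, fun s hs ω => ?_, fun s hs ω' => ?_⟩
  · have h := hN (vecMulVec s (Pi.single ω 1)) fun b hb b' _ => by
      rw [vecMulVec_mulVec, dotProduct_smul, hs b hb]
      simp
    have e : ∀ M : Matrix Ω Ω ℝ, ip (vecMulVec s (Pi.single ω 1)) M = ∑ ω', s ω' * M ω' ω := by
      intro M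
      simp [ip, vecMulVec_apply, Pi.single_apply]
    rw [e, e] at h
    rw [h, k1 s hs]
  · have h := hN (vecMulVec (Pi.single ω' 1) s) fun b _ b' hb' => by
      rw [vecMulVec_mulVec, dotProduct_smul, hb' s hs]
      simp
    have e : ∀ M : Matrix Ω Ω ℝ, ip (vecMulVec (Pi.single ω' 1) s) M = ∑ ω, s ω * M ω' ω := by
      intro M
      simp [ip, vecMulVec_apply, Pi.single_apply]
    rw [e, e] at h
    rw [h, k2 s hs]

/-- The trace estimate in the new stage. -/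
theorem trace_bound {E1 F1 : Type} [NormedAddCommGroup E1] [NormedSpace ℝ E1]
    [NormedAddCommGroup F1] [NormedSpace ℝ F1] {lam : ι → Ω → ℝ} (hl : Ort lam) {c : ℝ}
    {y : ι → F} {x : ι → E} (hΩ : 0 < Fintype.card Ω) {B0 B : Submodule ℝ (Ω → ℝ)}
    (hB : B0 ≤ B) (hlB : ∀ i, lam i ∈ B) (hl0 : ∀ i, ∀ g ∈ B0, lam i ⬝ᵥ g = 0)
    {j : E →ₗᵢ[ℝ] E1} {ut : (Ω → ℝ) →ₗ[ℝ] E1} {j' : F →ₗᵢ[ℝ] F1} {vt : (Ω → ℝ) →ₗ[ℝ] F1}
    (hu : IsPush B (uu c lam x) j ut) (hv : IsPush (perp B0) (uu c lam y) j' vt)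
    (b : F1 →L[ℝ] E1 →L[ℝ] ℝ) (hb : Bd b) :
    c ^ 2 * |∑ i, b (j' (y i)) (j (x i))| ≤ 1 := by
  let q : (Ω → ℝ) →ₗ[ℝ] (Ω → ℝ) →ₗ[ℝ] ℝ := LinearMap.mk₂ ℝ (fun g h => b (vt g) (ut h))
    (by simp) (by simp) (by simp) (by simp)
  have h0 := symm_sum q (proj B0) (proj_transpose B0)
  have h1 : ∀ g, ut (proj B0 *ᵥ g) = 0 := fun g => by
    rw [hu.ext _ (hB (proj_mem B0 g)), uu_perp c x fun i => hl0 i _ (proj_mem B0 g), map_zero]
  have h2 : ∀ ω, vt (Pi.single ω 1) = vt (proj B0 *ᵥ Pi.single ω 1) + j' (c • cmb lam y ω) := by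
    intro ω
    have h3 := hv.ext _ (sub_proj_mem B0 (Pi.single ω 1))
    rw [map_sub, map_sub, uu_perp c y fun i => hl0 i _ (proj_mem B0 _), sub_zero,
      uu_apply] at h3
    have h4 : ∑ ω', (Pi.single ω 1 : Ω → ℝ) ω' • cmb lam y ω' = cmb lam y ω := by
      simp [Pi.single_apply]
    rw [h4] at h3
    rw [← h3]
    abel
  simp only [q, LinearMap.mk₂_apply, h1, map_zero, sum_const_zero] at h0
  have h5 : ∑ ω, b (vt (Pi.single ω 1)) (ut (Pi.single ω 1))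
      = c ^ 2 * (Fintype.card Ω * ∑ i, b (j' (y i)) (j (x i))) := by
    simp only [h2, map_add, _root_.add_apply, sum_add_distrib, h0, zero_add]
    have h6 := sum_cmb lam y fun ω =>
      c • ((b.flip (ut (Pi.single ω 1))).comp j'.toContinuousLinearMap)
    simp only [_root_.smul_apply, ContinuousLinearMap.comp_apply,
      ContinuousLinearMap.flip_apply, LinearIsometry.coe_toContinuousLinearMap,
      smul_eq_mul] at h6
    simp only [map_smul, _root_.smul_apply, smul_eq_mul]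
    rw [h6, mul_sum, mul_sum]
    refine sum_congr rfl fun i _ => ?_
    have h7 := congrArg (b (j' (y i))) ((sum_single ut (lam i)).trans
      ((hu.ext _ (hlB i)).trans (congrArg j (uu_lam hl c x i))))
    simp only [map_sum, map_smul, smul_eq_mul] at h7
    have h8 : ∀ ω, lam i ω * (c * b (j' (y i)) (ut (Pi.single ω 1)))
        = c * (lam i ω * b (j' (y i)) (ut (Pi.single ω 1))) := fun ω => by ring
    simp only [h8, ← mul_sum, h7]
    ring
  have h9 : |∑ ω, b (vt (Pi.single ω 1)) (ut (Pi.single ω 1))| ≤ Fintype.card Ω := by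
    refine (abs_sum_le_sum_abs _ _).trans ?_
    have : ∀ ω ∈ (univ : Finset Ω), |b (vt (Pi.single ω 1)) (ut (Pi.single ω 1))| ≤ 1 := by
      intro ω _
      have a1 := hu.le (Pi.single ω 1)
      have a2 := hv.le (Pi.single ω 1)
      rw [l1_single] at a1 a2
      exact (hb _ _).trans (mul_le_one₀ a2 (norm_nonneg _) a1)
    simpa using sum_le_card_nsmul _ _ _ this
  have hL : (0 : ℝ) < Fintype.card Ω := by exact_mod_cast hΩ
  rw [h5, abs_mul, abs_mul, abs_of_pos hL, abs_of_nonneg (sq_nonneg c)] at h9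
  refine le_of_mul_le_mul_left ?_ hL
  linarith

end Gen

section Cube

variable {ι Ω' : Type} [Fintype ι] [DecidableEq ι] [Fintype Ω']

/-- The coordinate signs. -/
def lm (ι Ω' : Type) (i : ι) (ω : (ι → Bool) × Ω') : ℝ := sg (ω.1 i)

theorem sum_fst (f : (ι → Bool) → ℝ) :
    ∑ ω : (ι → Bool) × Ω', f ω.1 = Fintype.card ((ι → Bool) × Ω') * av f := by
  have : (Fintype.card (ι → Bool) : ℝ) ≠ 0 := by exact_mod_cast Fintype.card_ne_zero
  rw [Fintype.sum_prod_type, Fintype.card_prod, av]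
  simp only [sum_const, card_univ, nsmul_eq_mul, ← mul_sum, smul_eq_mul]
  push_cast
  field_simp

theorem lm_ort (hC : S_Cube) : Ort (lm ι Ω') := by
  intro i j
  have h := sum_fst (Ω' := Ω') fun ε : ι → Bool => wal {i} ε * wal {j} ε
  rw [hC.orth] at h
  simp only [wal, prod_singleton, singleton_inj, mul_ite, mul_one, mul_zero] at h
  exact h

theorem lm_spr (hC : S_Cube) {ε : ℝ} (hε : 0 < ε) :
    ∀ f ∈ Submodule.span ℝ (Set.range (lm ι Ω')), Spr ε f := by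
  intro f hf
  obtain ⟨a, rfl⟩ := (Submodule.mem_span_range_iff_exists_fun ℝ).1 hf
  refine ⟨_, by rw [sub_self, n2_zero]; exact mul_nonneg hε.le (n2_nonneg _), ?_⟩
  have h1 := n2_comb (lm_ort (ι := ι) (Ω' := Ω') hC) a
  have h2 : ∀ ω : (ι → Bool) × Ω', (∑ i, a i • lm ι Ω' i) ω = rad a ω.1 := by
    intro ω
    simp [rad, lm, mul_comm]
  have h3 := sum_fst (Ω' := Ω') fun ε : ι → Bool => rad a ε ^ 4
  have h4 := hC.rad4 ι a
  simp only [h2]
  rw [h3, show (4 : ℕ) = 2 * 2 from rfl, pow_mul (n2 _), h1]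
  have hL : (0 : ℝ) ≤ Fintype.card ((ι → Bool) × Ω') := Nat.cast_nonneg _
  have h5 := mul_le_mul_of_nonneg_left h4 (mul_nonneg hL hL)
  have h6 : 0 ≤ ((Fintype.card ((ι → Bool) × Ω') : ℝ) * ∑ i, a i ^ 2) ^ 2 := sq_nonneg _
  nlinarith

theorem av_out {V : Type} [NormedAddCommGroup V] [NormedSpace ℝ V] [DecidableEq Ω']
    (hΩ : 0 < Fintype.card Ω') (ut : ((ι → Bool) × Ω' → ℝ) →ₗ[ℝ] V) (hu : ∀ f, ‖ut f‖ ≤ l1 f) :
    ∃ Ψ : (ι → Bool) → V, (∀ ε, ‖Ψ ε‖ ≤ 1) ∧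
      ∀ i, co Ψ {i} = (Fintype.card ((ι → Bool) × Ω') : ℝ)⁻¹ • ut (lm ι Ω' i) := by
  have hL : (0 : ℝ) < Fintype.card Ω' := by exact_mod_cast hΩ
  refine ⟨fun ε => av fun ω' => ut (Pi.single (ε, ω') 1), fun ε => ?_, fun i => ?_⟩
  · simp only [av]
    rw [norm_smul, norm_inv, Real.norm_natCast, inv_mul_le_iff₀ hL, mul_one]
    refine (norm_sum_le _ _).trans ?_
    have : ∀ ω' ∈ (univ : Finset Ω'), ‖ut (Pi.single (ε, ω') 1)‖ ≤ 1 := fun ω' _ =>
      (hu _).trans (l1_single _).le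
    simpa using sum_le_card_nsmul _ _ _ this
  · rw [← sum_single ut, Fintype.sum_prod_type, Fintype.card_prod]
    simp only [co, av, wal, prod_singleton, lm, smul_sum, smul_smul]
    refine sum_congr rfl fun ε _ => sum_congr rfl fun ω' _ => ?_
    congr 1
    push_cast
    rw [mul_inv]
    ring

end Cube

end MainA

open MainA in
theorem stepB (hC : S_Cube) (hL : S_Lift) (hP : S_Push) (hPC : S_PushCT) (hB : S_PushBil)
    (hS : S_Seed) (hR : S_Rand) : S_StepB := by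
  obtain ⟨ε, κ, K1, hε, hκ, hK1, hR⟩ := hR
  obtain ⟨C1, hC1, hS⟩ := hS (2 * (9 * κ)) ε (by linarith) hε
  set c : ℝ := min (1 / (2 * (1 + 9 * κ) * κ)) (min (1 / C1) (1 / K1)) with hcdef
  have hc0 : 0 < c := by positivity
  have hc1 : c * (2 * (1 + 9 * κ) * κ) ≤ 1 :=
    (le_div_iff₀ (by positivity)).1 (min_le_left _ _)
  have hc2 : c * C1 ≤ 1 :=
    (le_div_iff₀ (by positivity)).1 ((min_le_right _ _).trans (min_le_left _ _))
  have hc3 : c * K1 ≤ 1 :=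
    (le_div_iff₀ (by positivity)).1 ((min_le_right _ _).trans (min_le_right _ _))
  have hc4 : c ≤ 1 := by nlinarith
  refine ⟨9 * κ, c, by linarith, hc0, hc4, fun s n y x hy hx htr => ?_⟩
  obtain ⟨L0, hR⟩ := hR (n + finrank ℝ s.E + finrank ℝ s.F)
  obtain ⟨Ω', _, _, Z, Y, hcard, hZn, hYn, hZl, hYl, hZY, hZs, hYs⟩ :=
    hS s.E s.F s.cE s.cF (Fin n) (fun i => s.β (y i)) (fun i => s.β.flip (x i))
      (wl_left s.bd hy) (wl_left (bd_flip s.bd) hx) L0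
  have hΩ' : 0 < Fintype.card Ω' := by omega
  have hΩL : Fintype.card Ω' ≤ Fintype.card ((Fin n → Bool) × Ω') := by
    rw [Fintype.card_prod]
    exact Nat.le_mul_of_pos_left _ Fintype.card_pos
  have hl := lm_ort (ι := Fin n) (Ω' := Ω') hC
  set lam := lm (Fin n) Ω' with hlam
  let ZL : s.E →ₗ[ℝ] ((Fin n → Bool) × Ω' → ℝ) := LinearMap.pi fun ω => (Z ω : s.E →ₗ[ℝ] ℝ)
  let YL : s.F →ₗ[ℝ] ((Fin n → Bool) × Ω' → ℝ) := LinearMap.pi fun ω => (Y ω : s.F →ₗ[ℝ] ℝ)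
  have hsp : ∀ T : Submodule ℝ ((Fin n → Bool) × Ω' → ℝ), (∀ i, ∀ g ∈ T, lam i ⬝ᵥ g = 0) →
      Perp (Submodule.span ℝ (Set.range lam)) T := by
    intro T hT a ha b hb
    obtain ⟨a, rfl⟩ := (Submodule.mem_span_range_iff_exists_fun ℝ).1 ha
    simp [sum_dotProduct, hT _ b hb]
  have p1 : Perp (Submodule.span ℝ (Set.range lam)) (LinearMap.range ZL) :=
    hsp _ fun i g ⟨z, hz⟩ => hz ▸ hZl i z
  have p2 : Perp (Submodule.span ℝ (Set.range lam)) (LinearMap.range YL) :=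
    hsp _ fun i g ⟨z, hz⟩ => hz ▸ hYl i z
  obtain ⟨B0, hZB, hLB, hYB, hE1, hE2, hT⟩ := hR ((Fin n → Bool) × Ω') (by omega)
    (Submodule.span ℝ (Set.range lam)) (LinearMap.range ZL) (LinearMap.range YL) p1 p2
    (fun a ⟨z, hz⟩ b ⟨w, hw⟩ => hz ▸ hw ▸ hZY z w)
    (by
      have := finrank_range_le_card (R := ℝ) lam
      rw [Fintype.card_fin, Set.finrank] at this
      omega)
    (by have := LinearMap.finrank_range_le ZL; omega)
    (by have := LinearMap.finrank_range_le YL; omega)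
    (lm_spr hC hε) (fun f ⟨z, hz⟩ => hz ▸ hZs z) (fun f ⟨z, hz⟩ => hz ▸ hYs z)
  set B := Submodule.span ℝ (Set.range lam) ⊔ B0 with hBdef
  have key : ∀ (V : Type) [NormedAddCommGroup V] [NormedSpace ℝ V] (v : Fin n → V), WL v 1 →
      ∀ S : Submodule ℝ ((Fin n → Bool) × Ω' → ℝ), Euc κ S →
        (∀ g ∈ S, 2 * (1 + 9 * κ) * ‖uu c lam v g‖ ≤ l1 g) ∧ ∀ g ∈ S, ‖uu c lam v g‖ ≤ l1 g := by
    intro V _ _ v hv S hS
    have h : ∀ g ∈ S, 2 * (1 + 9 * κ) * ‖uu c lam v g‖ ≤ l1 g := by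
      intro g hg
      have h1 := (uu_norm hl hc0.le hv g).trans (mul_le_mul_of_nonneg_left (hS g hg) hc0.le)
      have h2 := mul_le_mul_of_nonneg_left h1 (show 0 ≤ 2 * (1 + 9 * κ) by positivity)
      have h3 := mul_le_of_le_one_left (l1_nonneg g) hc1
      linarith
    refine ⟨h, fun g hg => ?_⟩
    have h1 := h g hg
    have h2 := norm_nonneg (uu c lam v g)
    nlinarith
  obtain ⟨E1, _, _, _, j, ut, hu⟩ := hP _ s.E B (uu c lam x) (key _ x hx B hE1).2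
  obtain ⟨F1, _, _, _, j', vt, hv⟩ := hP _ s.F (perp B0) (uu c lam y) (key _ y hy _ hE2).2
  obtain ⟨hadm, hct⟩ := hPC _ _ _ B _ j ut (9 * κ) (by linarith) hu (key _ x hx B hE1).1
  obtain ⟨-, hct'⟩ := hPC _ _ _ _ _ j' vt (9 * κ) (by linarith) hv (key _ y hy _ hE2).1
  have hZB' : ∀ g ∈ perp B0, ∀ z, ∑ ω, g ω * Z ω z = 0 := fun g hg z => by
    have := hg _ (hZB ⟨z, rfl⟩)
    rw [dotProduct_comm] at this
    exact this
  have hYB' : ∀ g ∈ B, ∀ z, ∑ ω, g ω * Y ω z = 0 := fun g hg z =>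
    (p2.sup_left hYB.symm) g hg _ ⟨z, rfl⟩
  have n1 : ∀ ω, ‖c • (s.β.flip (cmb lam x ω) + Y ω)‖ ≤ 1 := by
    intro ω
    have : s.β.flip (cmb lam x ω) = rad (fun i => s.β.flip (x i)) ω.1 := by
      simp [cmb, rad, hlam, lm]
    rw [this, norm_smul, Real.norm_eq_abs, abs_of_pos hc0]
    exact (mul_le_mul_of_nonneg_left (hYn ω) hc0.le).trans hc2
  have n2' : ∀ ω, ‖c • (s.β (cmb lam y ω) + Z ω)‖ ≤ 1 := by
    intro ω
    have : s.β (cmb lam y ω) = rad (fun i => s.β (y i)) ω.1 := by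
      simp [cmb, rad, hlam, lm]
    rw [this, norm_smul, Real.norm_eq_abs, abs_of_pos hc0]
    exact (mul_le_mul_of_nonneg_left (hZn ω) hc0.le).trans hc2
  obtain ⟨Φ, hΦ, k1, k2⟩ := kernel hl hc0.le hc4 hc3 s.β hy hx htr (by omega) Z Y B0 B hZl hYl
    hZB' hYB' hT n1 n2'
  obtain ⟨β1, hb1, hcomp, -⟩ := hB _ _ _ _ _ _ B _ j ut (perp B0) _ j' vt hu hv s.β _ _ Φ s.bd
    n1 n2' hΦ
    (fun g hg w => by
      have h := hYB' g hg w
      have e : ∀ ω, g ω * (c • (s.β.flip (cmb lam x ω) + Y ω)) w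
          = c * (g ω * s.β w (cmb lam x ω)) + c * (g ω * Y ω w) := by
        intro ω
        simp only [_root_.smul_apply, _root_.add_apply,
          ContinuousLinearMap.flip_apply, smul_eq_mul]
        ring
      simp only [e, sum_add_distrib, ← mul_sum, h, mul_zero, add_zero]
      rw [uu_apply]
      simp only [map_smul, map_sum, smul_eq_mul])
    (fun g hg w => by
      have h := hZB' g hg w
      have e : ∀ ω, g ω * (c • (s.β (cmb lam y ω) + Z ω)) w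
          = c * (g ω * s.β (cmb lam y ω) w) + c * (g ω * Z ω w) := by
        intro ω
        simp only [_root_.smul_apply, _root_.add_apply, smul_eq_mul]
        ring
      simp only [e, sum_add_distrib, ← mul_sum, h, mul_zero, add_zero]
      rw [uu_apply]
      simp only [map_smul, map_sum, _root_.smul_apply,
        _root_.sum_apply, smul_eq_mul])
    k1 k2
  have hlB : ∀ i, lam i ∈ B := fun i =>
    Submodule.mem_sup_left (Submodule.subset_span ⟨i, rfl⟩)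
  refine ⟨⟨E1, F1, β1, hb1, hct (hL κ hκ _ _ hE1) s.cE, hct' (hL κ hκ _ _ hE2) s.cF⟩,
    ⟨j, j', hcomp, hadm⟩, fun b hb => ?_, ?_⟩
  · exact trace_bound hl (by omega) le_sup_right hlB
      (fun i g hg => hLB _ (Submodule.subset_span ⟨i, rfl⟩) g hg) hu hv b hb
  · obtain ⟨Ψ, h1, h2⟩ := av_out hΩ' ut hu.le
    refine ⟨Ψ, h1, fun i => ?_⟩
    have hL' : (Fintype.card ((Fin n → Bool) × Ω') : ℝ) ≠ 0 := by
      exact_mod_cast (show Fintype.card ((Fin n → Bool) × Ω') ≠ 0 by omega)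
    rw [h2, ← hlam, hu.ext _ (hlB i), uu_lam hl, map_smul, smul_smul]
    congr 1
    field_simp

end

end Pool.Agent.P.MP_1bacd4_an
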