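import Pool.Agent.P.MP_1bacd4_an.Defs

/-! Admissible pairs and pushouts of normed spaces. -/

set_option autoImplicit false

namespace Pool.Agent.P.MP_1bacd4_an

open Finset

namespace PushA

lemma l1_add {I : Type} [Fintype I] (f g : I → ℝ) : l1 (f + g) ≤ l1 f + l1 g := by
  unfold l1
  rw [← Finset.sum_add_distrib]
  exact Finset.sum_le_sum fun i _ => abs_add_le _ _

lemma l1_neg {I : Type} [Fintype I] (f : I → ℝ) : l1 (-f) = l1 f := by
  simp [l1]

lemma l1_sub {I : Type} [Fintype I] (f g : I → ℝ) : l1 (f - g) ≤ l1 f + l1 g := by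
  rw [sub_eq_add_neg]
  exact (l1_add _ _).trans (by rw [l1_neg])

lemma l1_nonneg {I : Type} [Fintype I] (f : I → ℝ) : 0 ≤ l1 f :=
  Finset.sum_nonneg fun _ _ => abs_nonneg _

lemma l1_single {I : Type} [Fintype I] [DecidableEq I] (i : I) :
    l1 (Pi.single i (1 : ℝ) : I → ℝ) = 1 := by
  unfold l1
  rw [Finset.sum_eq_single i]
  · simp
  · intro b _ hb
    simp [Pi.single_eq_of_ne hb]
  · simp

lemma av_real {Ω : Type} [Fintype Ω] (f : Ω → ℝ) :
    av f = (Fintype.card Ω : ℝ)⁻¹ * ∑ ω, f ω := rfl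

lemma av_mono {Ω : Type} [Fintype Ω] {f g : Ω → ℝ} (h : ∀ ω, f ω ≤ g ω) : av f ≤ av g := by
  rw [av_real, av_real]
  exact mul_le_mul_of_nonneg_left (Finset.sum_le_sum fun ω _ => h ω) (by positivity)

lemma av_add {Ω : Type} [Fintype Ω] (f g : Ω → ℝ) :
    (av fun ω => f ω + g ω) = av f + av g := by
  simp only [av_real, Finset.sum_add_distrib, mul_add]

lemma av_mul {Ω : Type} [Fintype Ω] (c : ℝ) (f : Ω → ℝ) :
    (av fun ω => c * f ω) = c * av f := by
  simp only [av_real, ← Finset.mul_sum]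
  ring

lemma av_const {Ω : Type} [Fintype Ω] [Nonempty Ω] (c : ℝ) : (av fun _ : Ω => c) = c := by
  have : (Fintype.card Ω : ℝ) ≠ 0 := by exact_mod_cast Fintype.card_ne_zero
  rw [av_real, Finset.sum_const, Finset.card_univ, nsmul_eq_mul, ← mul_assoc, inv_mul_cancel₀ this,
    one_mul]

lemma av_sum {Ω I : Type} [Fintype Ω] [Fintype I] (f : I → Ω → ℝ) :
    (av fun ω => ∑ i, f i ω) = ∑ i, av (f i) := by
  simp only [av_real]
  rw [Finset.sum_comm, Finset.mul_sum]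

lemma av_abs_le {Ω : Type} [Fintype Ω] [Nonempty Ω] (f : Ω → ℝ) :
    (av fun ω => |f ω|) ≤ √(av fun ω => f ω ^ 2) := by
  have hc : (0 : ℝ) < Fintype.card Ω := by exact_mod_cast Fintype.card_pos
  refine Real.le_sqrt_of_sq_le ?_
  have h := sq_sum_le_card_mul_sum_sq (s := (univ : Finset Ω)) (f := fun ω => |f ω|)
  simp only [sq_abs, Finset.card_univ] at h
  rw [av_real, av_real, mul_pow]
  calc _ ≤ (Fintype.card Ω : ℝ)⁻¹ ^ 2 * (Fintype.card Ω * ∑ ω, f ω ^ 2) := by gcongr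
    _ = _ := by field_simp

lemma map_rad {ι V V' : Type} [Fintype ι] [AddCommGroup V] [Module ℝ V] [AddCommGroup V']
    [Module ℝ V'] (T : V →ₗ[ℝ] V') (x : ι → V) (ε : ι → Bool) :
    T (rad x ε) = rad (fun i => T (x i)) ε := by
  simp [rad, map_sum]

lemma rad_add {ι V : Type} [Fintype ι] [AddCommGroup V] [Module ℝ V] (x y : ι → V)
    (ε : ι → Bool) : rad (fun i => x i + y i) ε = rad x ε + rad y ε := by
  simp [rad, Finset.sum_add_distrib]

lemma rad_apply {ι Ω : Type} [Fintype ι] (F : ι → Ω → ℝ) (ε : ι → Bool) (ω : Ω) :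
    rad F ε ω = rad (fun i => F i ω) ε := by
  simp [rad, Finset.sum_apply]

lemma exists_sum (Ω E : Type) [Fintype Ω] [NormedAddCommGroup E] [NormedSpace ℝ E]
    [FiniteDimensional ℝ E] :
    ∃ (W : Type) (_ : NormedAddCommGroup W) (_ : NormedSpace ℝ W) (_ : FiniteDimensional ℝ W)
      (a : E →ₗ[ℝ] W) (b : (Ω → ℝ) →ₗ[ℝ] W),
      (∀ e f, ‖a e + b f‖ = ‖e‖ + l1 f) ∧ ∀ w, ∃ e f, w = a e + b f := by
  let T := (WithLp.linearEquiv 1 ℝ (E × PiLp 1 fun _ : Ω => ℝ)).symm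
  let U := (WithLp.linearEquiv 1 ℝ (Ω → ℝ)).symm
  refine ⟨WithLp 1 (E × PiLp 1 fun _ : Ω => ℝ), inferInstance, inferInstance, inferInstance,
    T.toLinearMap ∘ₗ LinearMap.inl ℝ _ _, T.toLinearMap ∘ₗ LinearMap.inr ℝ _ _ ∘ₗ U.toLinearMap,
    fun e f => ?_, fun w => ⟨w.fst, w.snd.ofLp, ?_⟩⟩
  · rw [WithLp.prod_norm_eq_of_L1, PiLp.norm_eq_of_L1]
    simp [T, U, l1]
  · apply T.symm.injective
    ext <;> simp [T, U]

end PushA

open PushA

theorem adm : S_Adm where
  refl W _ _ A := by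
    refine ⟨le_rfl, fun z b => z = 0 ∧ 0 ≤ b, ?_, ?_, ?_, ?_, ?_⟩
    · rintro z b ⟨rfl, hb⟩
      exact ⟨A.zero_mem, by simpa using hb⟩
    · rintro z b z' b' ⟨rfl, hb⟩ ⟨rfl, hb'⟩
      exact ⟨add_zero _, add_nonneg hb hb'⟩
    · rintro z b ⟨rfl, hb⟩
      exact ⟨neg_zero, hb⟩
    · intro z hz δ hδ
      exact ⟨z, hz, 0, ⟨sub_self z, le_rfl⟩, by linarith⟩
    · rintro e _ b ⟨rfl, hb⟩
      rw [norm_zero]
      linarith
  trans W _ _ A B C := by
    rintro ⟨hAB, C1, a1, a2, a3, a4, a5⟩ ⟨hBC, C2, b1, b2, b3, b4, b5⟩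
    refine ⟨hAB.trans hBC, fun z b => ∃ z1 s t, C1 z1 s ∧ C2 (z - z1) t ∧ b = s + t,
      ?_, ?_, ?_, ?_, ?_⟩
    · rintro z b ⟨z1, s, t, h1, h2, rfl⟩
      have e : z = z1 + (z - z1) := by abel
      obtain ⟨p1, p2⟩ := a1 _ _ h1
      obtain ⟨q1, q2⟩ := b1 _ _ h2
      refine ⟨e ▸ C.add_mem (hBC p1) q1, ?_⟩
      calc ‖z‖ = ‖z1 + (z - z1)‖ := by rw [← e]
        _ ≤ ‖z1‖ + ‖z - z1‖ := norm_add_le _ _
        _ ≤ _ := add_le_add p2 q2
    · rintro z b z' b' ⟨z1, s, t, h1, h2, rfl⟩ ⟨z1', s', t', h1', h2', rfl⟩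
      refine ⟨z1 + z1', s + s', t + t', a2 _ _ _ _ h1 h1', ?_, by ring⟩
      have e : z + z' - (z1 + z1') = z - z1 + (z' - z1') := by abel
      rw [e]
      exact b2 _ _ _ _ h2 h2'
    · rintro z b ⟨z1, s, t, h1, h2, rfl⟩
      refine ⟨-z1, s, t, a3 _ _ h1, ?_, rfl⟩
      have e : -z - -z1 = -(z - z1) := by abel
      rw [e]
      exact b3 _ _ h2
    · intro z hz δ hδ
      obtain ⟨e', he', t, h2, h3⟩ := b4 z hz (δ / 2) (by linarith)
      obtain ⟨e, he, s, h1, h4⟩ := a4 e' he' (δ / 2) (by linarith)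
      refine ⟨e, he, s + t, ⟨e' - e, s, t, h1, ?_, rfl⟩, by linarith⟩
      have q : z - e - (e' - e) = z - e' := by abel
      rw [q]
      exact h2
    · rintro e he b ⟨z1, s, t, h1, h2, rfl⟩
      have hB : e - z1 ∈ B := B.sub_mem (hAB he) (a1 _ _ h1).1
      have h3 := b5 _ hB _ h2
      refine le_of_forall_pos_le_add fun δ hδ => ?_
      obtain ⟨e', he', r, h4, h5⟩ := a4 _ hB δ hδ
      have h6 := a2 _ _ _ _ h1 h4
      have q : z1 + (e - z1 - e') = e - e' := by abel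
      rw [q] at h6
      have h7 := a5 _ (A.sub_mem he he') _ h6
      have h8 : 0 ≤ r := (norm_nonneg _).trans (a1 _ _ h4).2
      have h9 : ‖e‖ ≤ ‖e - e'‖ + ‖e'‖ := by simpa using norm_add_le (e - e') e'
      linarith
  map W W' _ _ _ _ j A B := by
    rintro ⟨hAB, C1, a1, a2, a3, a4, a5⟩
    refine ⟨Submodule.map_mono hAB, fun z b => ∃ z0, z = j z0 ∧ C1 z0 b, ?_, ?_, ?_, ?_, ?_⟩
    · rintro z b ⟨z0, rfl, h⟩
      exact ⟨⟨z0, (a1 _ _ h).1, rfl⟩, by rw [j.norm_map]; exact (a1 _ _ h).2⟩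
    · rintro z b z' b' ⟨z0, rfl, h⟩ ⟨z0', rfl, h'⟩
      exact ⟨z0 + z0', (map_add j _ _).symm, a2 _ _ _ _ h h'⟩
    · rintro z b ⟨z0, rfl, h⟩
      exact ⟨-z0, (map_neg j _).symm, a3 _ _ h⟩
    · rintro z ⟨z0, hz, rfl⟩ δ hδ
      obtain ⟨e, he, b, h1, h2⟩ := a4 z0 hz δ hδ
      refine ⟨j e, ⟨e, he, rfl⟩, b, ⟨z0 - e, (map_sub j _ _).symm, h1⟩, ?_⟩
      simpa using h2
    · rintro e ⟨e0, he, rfl⟩ b ⟨z0, h1, h2⟩
      have : e0 = z0 := j.injective h1
      subst this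
      simpa using a5 _ he _ h2
  sign W _ _ A B := by
    rintro ⟨hAB, C1, a1, a2, a3, a4, a5⟩ x hx z hz d hd
    refine le_of_forall_pos_le_add fun δ hδ => ?_
    obtain ⟨e, he, b, h1, h2⟩ := a4 _ (B.add_mem (hAB hx) hz) (δ / 2) (by linarith)
    obtain ⟨e', he', b', h1', h2'⟩ := a4 _ (B.sub_mem (hAB hx) hz) (δ / 2) (by linarith)
    have h3 := a2 _ _ _ _ h1 h1'
    have q : x + z - e + (x - z - e') = x + x - e - e' := by abel
    rw [q] at h3
    have h4 := a5 _ (A.sub_mem (A.sub_mem (A.add_mem hx hx) he) he') _ h3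
    have h5 : d ≤ b := by
      have := hd _ (A.sub_mem he hx)
      have q : z - (e - x) = x + z - e := by abel
      rw [q] at this
      exact this.trans (a1 _ _ h1).2
    have h6 : d ≤ b' := by
      have := hd _ (A.sub_mem hx he')
      have q : z - (x - e') = -(x - z - e') := by abel
      rw [q, norm_neg] at this
      exact this.trans (a1 _ _ h1').2
    have h7 : 2 * ‖x‖ ≤ ‖x + x - e - e'‖ + ‖e‖ + ‖e'‖ := by
      have q : (2 : ℝ) • x = x + x - e - e' + e + e' := by rw [two_smul]; abel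
      have q2 : ‖(2 : ℝ) • x‖ = 2 * ‖x‖ := by rw [norm_smul]; simp
      rw [← q2, q]
      exact norm_add₃_le
    linarith

theorem push : S_Push := by
  intro Ω E _ _ _ _ S u hu
  obtain ⟨W, _, _, _, a, b, hn, hs⟩ := exists_sum Ω E
  let N : Submodule ℝ W := S.map (b - a ∘ₗ u)
  have : IsClosed (N : Set W) := N.closed_of_finiteDimensional
  have hinj : ∀ e f, a e + b f = 0 → e = 0 ∧ f = 0 := by
    intro e f h
    have h1 := hn e f
    rw [h, norm_zero] at h1
    have h2 := l1_nonneg f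
    have h3 := norm_nonneg e
    refine ⟨norm_eq_zero.mp (by linarith), funext fun i => ?_⟩
    have h4 : l1 f = 0 := by linarith
    exact abs_eq_zero.mp
      ((Finset.sum_eq_zero_iff_of_nonneg fun _ _ => abs_nonneg _).mp h4 i (mem_univ i))
  have hj : ∀ e, ‖(N.mkQ ∘ₗ a) e‖ = ‖e‖ := by
    intro e
    refine le_antisymm ?_ (le_of_forall_pos_le_add fun δ hδ => ?_)
    · refine (Submodule.Quotient.norm_mk_le N (a e)).trans ?_
      have := hn e 0
      simp only [map_zero, add_zero, l1, Pi.zero_apply, abs_zero, sum_const_zero] at this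
      exact this.le
    · obtain ⟨w, hw, hlt⟩ := Submodule.Quotient.norm_mk_lt ((N.mkQ ∘ₗ a) e) hδ
      obtain ⟨s, hsS, hw'⟩ := (Submodule.Quotient.eq N).mp hw
      have q : w = a (e - u s) + b s := by
        simp only [LinearMap.sub_apply, LinearMap.comp_apply] at hw'
        rw [map_sub, ← sub_add_cancel w (a e), ← hw']
        abel
      rw [q, hn] at hlt
      have h1 : ‖e‖ ≤ ‖e - u s‖ + ‖u s‖ := by simpa using norm_add_le (e - u s) (u s)
      linarith [hu s hsS]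
  refine ⟨W ⧸ N, inferInstance, inferInstance, inferInstance, ⟨N.mkQ ∘ₗ a, hj⟩, N.mkQ ∘ₗ b,
    fun f => ?_, fun s hsS => ?_, fun z δ hδ => ?_, fun e f h => ?_⟩
  · refine (Submodule.Quotient.norm_mk_le N (b f)).trans ?_
    have := hn 0 f
    simp only [map_zero, zero_add, norm_zero] at this
    exact this.le
  · exact (Submodule.Quotient.eq N).mpr ⟨s, hsS, rfl⟩
  · obtain ⟨w, hw, hlt⟩ := Submodule.Quotient.norm_mk_lt z hδ
    obtain ⟨e, f, rfl⟩ := hs w
    exact ⟨e, f, hw.symm, by rw [← hn]; exact hlt.le⟩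
  · have h1 : N.mkQ (a e + b f) = 0 := by rw [map_add]; exact h
    obtain ⟨s, hsS, h2⟩ := (Submodule.Quotient.mk_eq_zero N).mp h1
    have h3 : a (e + u s) + b (f - s) = 0 := by
      simp only [LinearMap.sub_apply, LinearMap.comp_apply] at h2
      rw [map_add, map_sub, ← sub_eq_zero.mpr h2.symm]
      abel
    have h4 := sub_eq_zero.mp (hinj _ _ h3).2
    rwa [h4]

theorem pushCT (hC : S_Cube) : S_PushCT := by
  intro Ω E E1 _ _ _ _ _ S u j ut K0 hK hP hu
  classical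
  refine ⟨⟨le_top, fun z b => ∃ f, z = ut f ∧ l1 f ≤ b, ?_, ?_, ?_, ?_, ?_⟩, ?_⟩
  · rintro z b ⟨f, rfl, h⟩
    exact ⟨trivial, (hP.le f).trans h⟩
  · rintro z b z' b' ⟨f, rfl, h⟩ ⟨f', rfl, h'⟩
    exact ⟨f + f', (map_add ut _ _).symm, (l1_add f f').trans (add_le_add h h')⟩
  · rintro z b ⟨f, rfl, h⟩
    exact ⟨-f, (map_neg ut _).symm, by rwa [l1_neg]⟩
  · intro z _ δ hδ
    obtain ⟨e, f, rfl, h⟩ := hP.dec z δ hδ
    refine ⟨j e, ⟨e, rfl⟩, l1 f, ⟨f, by abel, le_rfl⟩, ?_⟩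
    rw [j.norm_map]
    linarith
  · rintro e' ⟨e, rfl⟩ b ⟨f, h1, h2⟩
    have hf : f ∈ S := hP.ker (-e) f (by rw [map_neg, ← h1]; exact neg_add_cancel _)
    rw [h1, hP.ext f hf, j.norm_map]
    have := hu f hf
    nlinarith [norm_nonneg (u f)]
  intro hL hE ι _ _ φ x hφ
  have key : ∀ δ : ℝ, 0 < δ →
      ∑ i, φ i (x i) ≤ 2 * K0 * ((av fun ε : ι → Bool => ‖rad x ε‖) + δ) := by
    intro δ hδ
    choose e f hx _ using fun i => hP.dec (x i) 1 one_pos
    choose ee h hr hb using fun ε => hP.dec (rad x ε) δ hδ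
    have hrad : ∀ (e' : ι → E) (f' : ι → Ω → ℝ), (∀ i, x i = j (e' i) + ut (f' i)) → ∀ ε,
        j (ee ε - rad e' ε) + ut (h ε - rad f' ε) = 0 := by
      intro e' f' hx' ε
      have q1 : rad x ε = j (rad e' ε) + ut (rad f' ε) := by
        have := map_rad j.toLinearMap e' ε
        simp only [LinearIsometry.coe_toLinearMap] at this
        rw [this, map_rad, ← rad_add]
        exact congrArg (fun y => rad y ε) (funext hx')
      rw [map_sub, map_sub, ← sub_eq_zero.mpr ((hr ε).symm.trans q1)]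
      abel
    obtain ⟨s, hs, hF⟩ := hL ι f h fun ε => hP.ker _ _ (hrad e f hx ε)
    set F : ι → Ω → ℝ := fun i => f i + s i with hFdef
    set a : ι → E := fun i => e i - u (s i) with ha
    have hx' : ∀ i, x i = j (a i) + ut (F i) := by
      intro i
      simp only [ha, hFdef, map_sub, map_add, hP.ext _ (hs i)]
      rw [hx i]
      abel
    have hF' : ∑ ω, n2 (fun i => F i ω) ≤ K0 * av fun ε => l1 (h ε) := hF
    have t2 : ∑ i, φ i (ut (F i)) ≤ ∑ ω, n2 (fun i => F i ω) := by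
      have q : ∑ i, φ i (ut (F i)) = ∑ ω, (∑ i, F i ω • φ i) (ut (Pi.single ω 1)) := by
        simp only [_root_.sum_apply, _root_.smul_apply]
        rw [Finset.sum_comm]
        refine Finset.sum_congr rfl fun i _ => ?_
        conv_lhs => rw [pi_eq_sum_univ' (F i)]
        simp only [map_sum, map_smul]
      rw [q]
      refine Finset.sum_le_sum fun ω _ => ?_
      have b1 := hφ fun i => F i ω
      have b2 := (hP.le (Pi.single ω 1)).trans (l1_single ω).le
      calc _ ≤ ‖(∑ i, F i ω • φ i) (ut (Pi.single ω 1))‖ := le_abs_self _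
        _ ≤ ‖∑ i, F i ω • φ i‖ * ‖ut (Pi.single ω 1)‖ := ContinuousLinearMap.le_opNorm _ _
        _ ≤ (1 * n2 fun i => F i ω) * 1 :=
          mul_le_mul b1 b2 (norm_nonneg _) ((norm_nonneg _).trans b1)
        _ = _ := by ring
    have t1 : ∑ i, φ i (j (a i)) ≤ 2 * K0 * av fun ε : ι → Bool => ‖rad a ε‖ := by
      refine hE ι (fun i => (φ i).comp j.toContinuousLinearMap) a fun c => ?_
      refine le_trans (ContinuousLinearMap.opNorm_le_bound _ (norm_nonneg _) fun y => ?_) (hφ c)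
      have := (∑ i, c i • φ i).le_opNorm (j y)
      rw [j.norm_map] at this
      simpa using this
    have t3 : ∀ ε, 2 * (1 + K0) * ‖rad a ε‖ ≤
        2 * (1 + K0) * ‖ee ε‖ + (l1 (h ε) + l1 (rad F ε)) := by
      intro ε
      have q1 := hrad a F hx' ε
      have q2 := hP.ker _ _ q1
      rw [hP.ext _ q2, ← map_add, map_eq_zero_iff j j.injective] at q1
      have q3 : rad a ε = ee ε + u (h ε - rad F ε) := by
        rw [← sub_eq_zero, ← neg_eq_zero, ← q1]
        abel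
      have q4 := (hu _ q2).trans (l1_sub _ _)
      have q5 := norm_add_le (ee ε) (u (h ε - rad F ε))
      rw [← q3] at q5
      nlinarith
    have t4 : (av fun ε => l1 (rad F ε)) ≤ ∑ ω, n2 (fun i => F i ω) := by
      unfold l1
      rw [av_sum fun ω ε => |rad F ε ω|]
      refine Finset.sum_le_sum fun ω _ => ?_
      simp only [rad_apply]
      refine (av_abs_le _).trans ?_
      rw [hC.rad2]
      rfl
    have t5 := av_mono t3
    rw [av_add, av_add, av_mul, av_mul] at t5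
    have t6 := av_mono hb
    rw [av_add, av_add, av_const] at t6
    have t7 : 2 * (1 + K0) * (av fun ε : ι → Bool => ‖rad a ε‖) ≤
        2 * (1 + K0) * ((av fun ε => ‖ee ε‖) + (av fun ε => l1 (h ε)) / 2) := by linarith
    have t8 := le_of_mul_le_mul_left t7 (by linarith)
    have t9 : ∑ i, φ i (x i) = ∑ i, φ i (j (a i)) + ∑ i, φ i (ut (F i)) := by
      rw [← Finset.sum_add_distrib]
      exact Finset.sum_congr rfl fun i _ => by rw [hx' i, map_add]
    have t10 := mul_le_mul_of_nonneg_left t8 (show 0 ≤ 2 * K0 by linarith)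
    have t11 := mul_le_mul_of_nonneg_left t6 (show 0 ≤ 2 * K0 by linarith)
    linarith
  refine le_of_forall_pos_le_add fun δ hδ => ?_
  have := key (δ / (2 * K0)) (by positivity)
  rwa [mul_add, mul_div_cancel₀ _ (by positivity)] at this

end Pool.Agent.P.MP_1bacd4_an
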