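import Pool.Agent.P.MP_1bacd4_an.Defs

/-! Extension of the bilinear form to a pair of pushouts, and the norming step. -/

set_option autoImplicit false

namespace Pool.Agent.P.MP_1bacd4_an

open Finset

namespace PushBilA

/-- Universal property of the pushout. -/
theorem univ_prop {Ω E E1 V : Type} [Fintype Ω] [NormedAddCommGroup E] [NormedSpace ℝ E]
    [NormedAddCommGroup E1] [NormedSpace ℝ E1] [NormedAddCommGroup V] [NormedSpace ℝ V]
    {S : Submodule ℝ (Ω → ℝ)} {u : (Ω → ℝ) →ₗ[ℝ] E} {j : E →ₗᵢ[ℝ] E1} {ut : (Ω → ℝ) →ₗ[ℝ] E1}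
    (h : IsPush S u j ut) (a : E →L[ℝ] V) (ψ : Ω → V) (ha : ∀ e, ‖a e‖ ≤ ‖e‖)
    (hψ : ∀ ω, ‖ψ ω‖ ≤ 1) (hS : ∀ s ∈ S, ∑ ω, s ω • ψ ω = a (u s)) :
    ∃ T : E1 →L[ℝ] V, (∀ z, ‖T z‖ ≤ ‖z‖) ∧ ∀ e f, T (j e + ut f) = a e + ∑ ω, f ω • ψ ω := by
  let π : E × (Ω → ℝ) →ₗ[ℝ] E1 := LinearMap.coprod j.toLinearMap ut
  let A : E × (Ω → ℝ) →ₗ[ℝ] V := LinearMap.coprod a.toLinearMap (Fintype.linearCombination ℝ ψ)
  have hπ : ∀ e f, π (e, f) = j e + ut f := fun e f => rfl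
  have hA : ∀ e f, A (e, f) = a e + ∑ ω, f ω • ψ ω := fun e f => by
    simp only [A, LinearMap.coprod_apply, Fintype.linearCombination_apply,
      ContinuousLinearMap.coe_coe]
  have hsurj : LinearMap.range π = ⊤ := by
    refine LinearMap.range_eq_top.2 fun z => ?_
    obtain ⟨e, f, hz, -⟩ := h.dec z 1 one_pos
    exact ⟨(e, f), hz.symm⟩
  obtain ⟨σ, hσ⟩ := π.exists_rightInverse_of_surjective hsurj
  have hker : ∀ w, π w = 0 → A w = 0 := by
    rintro ⟨e, f⟩ hw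
    rw [hπ] at hw
    have hf := h.ker e f hw
    rw [h.ext f hf, ← map_add, map_eq_zero_iff _ j.injective] at hw
    rw [hA, hS f hf, ← map_add, hw, map_zero]
  have hT : ∀ e f, (A ∘ₗ σ) (j e + ut f) = a e + ∑ ω, f ω • ψ ω := by
    intro e f
    have h1 := hker (σ (π (e, f)) - (e, f)) (by
      rw [map_sub, ← LinearMap.comp_apply, hσ, LinearMap.id_apply, sub_self])
    rw [map_sub, sub_eq_zero, hA, hπ] at h1
    exact h1
  have hb : ∀ z, ‖(A ∘ₗ σ) z‖ ≤ 1 * ‖z‖ := by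
    intro z
    rw [one_mul]
    refine le_of_forall_pos_le_add fun δ hδ => ?_
    obtain ⟨e, f, hz, hn⟩ := h.dec z δ hδ
    refine le_trans ?_ hn
    rw [hz, hT]
    refine (norm_add_le _ _).trans (add_le_add (ha e) ((norm_sum_le _ _).trans ?_))
    refine sum_le_sum fun ω _ => ?_
    rw [norm_smul, Real.norm_eq_abs]
    exact mul_le_of_le_one_right (abs_nonneg _) (hψ ω)
  exact ⟨(A ∘ₗ σ).mkContinuous 1 hb, fun z => by simpa using hb z, hT⟩

theorem liftP_mono {Ω : Type} [Fintype Ω] {K K' : ℝ} {S : Submodule ℝ (Ω → ℝ)} (hK : K ≤ K')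
    (h : LiftP K S) : LiftP K' S := by
  intro ι _ _ f g hg
  obtain ⟨s, hs, hb⟩ := h ι f g hg
  refine ⟨s, hs, hb.trans (mul_le_mul_of_nonneg_right hK ?_)⟩
  unfold av l1
  rw [smul_eq_mul]
  positivity

end PushBilA

open PushBilA

theorem pushBil : S_PushBil := by
  intro Ω Ω' E E1 F F1 _ _ _ _ _ _ _ _ _ _ _ _ S u j ut S' v j' vt h h' β Ψ Ψ' Φ hβ hΨ hΨ' hΦ
    h1 h2 h3 h4
  obtain ⟨T, hT, hTe⟩ := univ_prop h β.flip Ψ
    (fun e => ContinuousLinearMap.opNorm_le_bound _ (norm_nonneg _) fun y => by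
      rw [mul_comm]; exact hβ y e) hΨ
    (fun s hs => by
      ext y
      simpa [_root_.sum_apply] using h1 s hs y)
  have hP : ∀ ω', ∃ P : E1 →L[ℝ] ℝ, (∀ z, ‖P z‖ ≤ ‖z‖) ∧
      ∀ e f, P (j e + ut f) = Ψ' ω' e + ∑ ω, f ω • Φ ω' ω := fun ω' =>
    univ_prop h (Ψ' ω') (Φ ω')
      (fun e => ((Ψ' ω').le_opNorm e).trans (mul_le_of_le_one_left (norm_nonneg _) (hΨ' ω')))
      (hΦ ω') (fun s hs => h4 s hs ω')
  choose P hP hPe using hP
  obtain ⟨B, hB, hBe⟩ := univ_prop h' T.flip P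
    (fun y => ContinuousLinearMap.opNorm_le_bound _ (norm_nonneg _) fun z => by
      rw [mul_comm]
      exact ((T z).le_opNorm y).trans (mul_le_mul_of_nonneg_right (hT z) (norm_nonneg _)))
    (fun ω' => ContinuousLinearMap.opNorm_le_bound _ zero_le_one fun z => by
      rw [one_mul]; exact hP ω' z)
    (fun s hs => by
      ext z
      obtain ⟨e, f, rfl, -⟩ := h.dec z 1 one_pos
      rw [ContinuousLinearMap.flip_apply, hTe]
      simp only [_root_.sum_apply, _root_.smul_apply, hPe, smul_eq_mul,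
        _root_.add_apply, ContinuousLinearMap.flip_apply, mul_add, sum_add_distrib,
        h2 s hs, ← h3 s hs, mul_sum]
      rw [sum_comm]
      congr 1
      exact sum_congr rfl fun ω _ => sum_congr rfl fun ω' _ => by ring)
  refine ⟨B, fun y x => ?_, fun y x => ?_, fun ω' x => ?_⟩
  · exact ((B y).le_opNorm x).trans (mul_le_mul_of_nonneg_right (hB y) (norm_nonneg _))
  · have e1 := hBe y 0
    have e2 := hTe x 0
    simp only [map_zero, add_zero, Pi.zero_apply, zero_smul, sum_const_zero] at e1 e2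
    rw [e1, ContinuousLinearMap.flip_apply, e2, ContinuousLinearMap.flip_apply]
  · have e1 := hBe 0 (Pi.single ω' 1)
    have e2 := hPe ω' x 0
    simp only [map_zero, add_zero, zero_add, Pi.zero_apply, zero_smul, sum_const_zero,
      Pi.single_apply, ite_smul, one_smul, sum_ite_eq', mem_univ, if_true] at e1 e2
    rw [e1, e2]

theorem stepA (hL : S_Lift) (hP : S_Push) (hPC : S_PushCT) (hB : S_PushBil) : S_StepA := by
  intro K0 hK s x
  have hl : LiftP K0 (⊥ : Submodule ℝ (Unit → ℝ)) :=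
    liftP_mono (by linarith) (hL 1 le_rfl Unit ⊥ fun f hf => by
      rw [(Submodule.mem_bot ℝ).1 hf]; simp [n2, l1])
  have h0 : ∀ f ∈ (⊥ : Submodule ℝ (Unit → ℝ)), (0 : ℝ) ≤ l1 f := fun f _ => by
    unfold l1; positivity
  obtain ⟨E1, _, _, _, j, ut, hE⟩ := hP Unit s.E ⊥ 0 fun f hf => by simpa using h0 f hf
  obtain ⟨F1, _, _, _, j', vt, hF⟩ := hP Unit s.F ⊥ 0 fun f hf => by simpa using h0 f hf
  obtain ⟨a1, c1⟩ := hPC Unit s.E E1 ⊥ 0 j ut K0 (by linarith) hE fun f hf => by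
    simpa using h0 f hf
  obtain ⟨-, c2⟩ := hPC Unit s.F F1 ⊥ 0 j' vt K0 (by linarith) hF fun f hf => by
    simpa using h0 f hf
  obtain ⟨g, hg, hgx⟩ := exists_dual_vector'' ℝ x
  obtain ⟨β1, b1, b2, b3⟩ := hB Unit Unit s.E E1 s.F F1 ⊥ 0 j ut ⊥ 0 j' vt hE hF s.β
    (fun _ => 0) (fun _ => g) (fun _ _ => 0) s.bd (fun _ => by simp) (fun _ => hg)
    (fun _ _ => by simp) (fun f _ y => by simp)
    (fun f hf y => by rw [(Submodule.mem_bot ℝ).1 hf]; simp) (fun f _ y => by simp)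
    (fun f _ y => by simp)
  refine ⟨{ E := E1, F := F1, β := β1, bd := b1, cE := c1 hl s.cE, cF := c2 hl s.cF },
    { jE := j, jF := j', comp := b2, adm := a1 }, fun hs => ?_, vt (Pi.single () 1), ?_, ?_⟩
  · obtain ⟨e, he⟩ := hs (ut (Pi.single () 1))
    have h1 := hE.ker (-e) (Pi.single () 1) (by rw [map_neg]; exact neg_add_eq_zero.2 he)
    have h2 := congrFun ((Submodule.mem_bot ℝ).1 h1) ()
    simp at h2
  · refine (hF.le _).trans ?_
    simp [l1]
  · exact (b3 () x).trans hgx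

end Pool.Agent.P.MP_1bacd4_an
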