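import Mathlib

/-! Definitions and interface statements for the scalar-plus-nuclear construction. -/

set_option autoImplicit false

namespace Pool.Agent.P.MP_1bacd4_an

open Finset Module MeasureTheory ProbabilityTheory Matrix

noncomputable section

/-! ### Averages, cubes, norms -/

/-- Uniform average over a finite type. -/
def av {Ω V : Type} [Fintype Ω] [AddCommGroup V] [Module ℝ V] (f : Ω → V) : V :=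
  (Fintype.card Ω : ℝ)⁻¹ • ∑ ω, f ω

/-- Sign of a bit. -/
def sg (b : Bool) : ℝ := if b then 1 else -1

/-- Walsh function. -/
def wal {ι : Type} (A : Finset ι) (ε : ι → Bool) : ℝ := ∏ i ∈ A, sg (ε i)

/-- Walsh coefficient of a vector valued function on the cube. -/
def co {ι V : Type} [Fintype ι] [DecidableEq ι] [AddCommGroup V] [Module ℝ V]
    (f : (ι → Bool) → V) (A : Finset ι) : V :=
  av fun ε => wal A ε • f ε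

/-- Rademacher sum. -/
def rad {ι V : Type} [Fintype ι] [AddCommGroup V] [Module ℝ V] (x : ι → V) (ε : ι → Bool) : V :=
  ∑ i, sg (ε i) • x i

/-- Odd part of the Riesz product kernel. -/
def ker {ι : Type} [Fintype ι] (t : ℝ) (ε ε' : ι → Bool) : ℝ :=
  ((∏ i, (1 + t * sg (ε i) * sg (ε' i))) - ∏ i, (1 - t * sg (ε i) * sg (ε' i))) / 2

/-- Multiplier of the kernel `ker t`. -/
def od {ι : Type} (t : ℝ) (A : Finset ι) : ℝ := if Odd A.card then t ^ A.card else 0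

def l1 {I : Type} [Fintype I] (x : I → ℝ) : ℝ := ∑ i, |x i|

def n2 {I : Type} [Fintype I] (x : I → ℝ) : ℝ := √(∑ i, x i ^ 2)

def fro {I J : Type} [Fintype I] [Fintype J] (M : Matrix I J ℝ) : ℝ := √(∑ i, ∑ j, M i j ^ 2)

/-- `sq Ω` is the square root of the cardinality. -/
def sq (Ω : Type) [Fintype Ω] : ℝ := √(Fintype.card Ω : ℝ)

/-- Weak l2 norm of the family `x` is at most `s`. -/
def WL {ι E : Type} [Fintype ι] [NormedAddCommGroup E] [NormedSpace ℝ E] (x : ι → E) (s : ℝ) :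
    Prop :=
  ∀ a : ι → ℝ, ‖∑ i, a i • x i‖ ≤ s * n2 a

/-- Grothendieck theorem plus cotype 2 with constant `K`, in dual form. -/
def CT (K : ℝ) (E : Type) [NormedAddCommGroup E] [NormedSpace ℝ E] : Prop :=
  ∀ (ι : Type) [Fintype ι] [DecidableEq ι] (φ : ι → E →L[ℝ] ℝ) (x : ι → E), WL φ 1 →
    ∑ i, φ i (x i) ≤ K * av fun ε : ι → Bool => ‖rad x ε‖

/-- Contractive bilinear form. -/
def Bd {E F : Type} [NormedAddCommGroup E] [NormedSpace ℝ E] [NormedAddCommGroup F]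
    [NormedSpace ℝ F] (β : F →L[ℝ] E →L[ℝ] ℝ) : Prop :=
  ∀ y x, |β y x| ≤ ‖y‖ * ‖x‖

/-- Euclidean section of L1. -/
def Euc {Ω : Type} [Fintype Ω] (κ : ℝ) (S : Submodule ℝ (Ω → ℝ)) : Prop :=
  ∀ s ∈ S, sq Ω * n2 s ≤ κ * l1 s

def Perp {Ω : Type} [Fintype Ω] (A B : Submodule ℝ (Ω → ℝ)) : Prop :=
  ∀ a ∈ A, ∀ b ∈ B, a ⬝ᵥ b = 0

/-- Orthogonal complement for the dot product. -/
def perp {Ω : Type} [Fintype Ω] (A : Submodule ℝ (Ω → ℝ)) : Submodule ℝ (Ω → ℝ) where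
  carrier := {x | ∀ a ∈ A, a ⬝ᵥ x = 0}
  add_mem' := fun hx hy a ha => by rw [dotProduct_add, hx a ha, hy a ha, add_zero]
  zero_mem' := fun a _ => dotProduct_zero a
  smul_mem' := fun c x hx a ha => by rw [dotProduct_smul, hx a ha, smul_zero]

/-- The subspace of `EuclideanSpace` with the same vectors. -/
def euc {Ω : Type} [Fintype Ω] (A : Submodule ℝ (Ω → ℝ)) : Submodule ℝ (EuclideanSpace ℝ Ω) :=
  A.comap (WithLp.linearEquiv 2 ℝ (Ω → ℝ)).toLinearMap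

/-- Matrix of the orthogonal projection onto `A`. -/
def proj {Ω : Type} [Fintype Ω] [DecidableEq Ω] (A : Submodule ℝ (Ω → ℝ)) : Matrix Ω Ω ℝ :=
  Matrix.of fun i j => (euc A).starProjection (EuclideanSpace.single j 1) i

/-- Size of the support. -/
def supp {I : Type} [Fintype I] (x : I → ℝ) : ℕ := (univ.filter fun i => x i ≠ 0).card

/-- Every row and every column has at most `r` nonzero entries. -/
def Sparse {Ω : Type} [Fintype Ω] (r : ℕ) (g : Matrix Ω Ω ℝ) : Prop :=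
  (∀ ω, supp (g ω) ≤ r) ∧ ∀ ω', supp (fun ω => g ω ω') ≤ r

/-- `f` is, up to a relative L2 error `ε`, bounded in L4 by its L2 norm. -/
def Spr {Ω : Type} [Fintype Ω] (ε : ℝ) (f : Ω → ℝ) : Prop :=
  ∃ f1 : Ω → ℝ, n2 (f - f1) ≤ ε * n2 f ∧ (Fintype.card Ω : ℝ) * ∑ ω, f1 ω ^ 4 ≤ 48 * n2 f ^ 4

/-- The decomposition property of matrices annihilated by `B0 ⊗ perp B`. -/
def TFlat {Ω : Type} [Fintype Ω] [DecidableEq Ω] (K1 : ℝ) (B0 B : Submodule ℝ (Ω → ℝ)) : Prop :=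
  ∀ ν : Matrix Ω Ω ℝ, (∀ b ∈ B0, ∀ b' ∈ perp B, b ⬝ᵥ ν *ᵥ b' = 0) →
    ∃ (l : ℝ) (y z : Matrix Ω Ω ℝ), ν = (l / Fintype.card Ω) • (1 : Matrix Ω Ω ℝ) + y + z ∧
      (∀ ω', (fun ω => y ω ω') ∈ perp B0) ∧ (∀ ω, z ω ∈ B) ∧
      |l| + sq Ω * ∑ ω', n2 (fun ω => y ω ω') + sq Ω * ∑ ω, n2 (z ω) ≤ K1 * ∑ ω, l1 (ν ω)

/-! ### Cube facts -/

structure S_Cube : Prop where
  inv : ∀ (ι V : Type) [Fintype ι] [DecidableEq ι] [AddCommGroup V] [Module ℝ V]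
    (f : (ι → Bool) → V) (ε : ι → Bool), f ε = ∑ A : Finset ι, wal A ε • co f A
  orth : ∀ (ι : Type) [Fintype ι] [DecidableEq ι] (A B : Finset ι),
    (av fun ε : ι → Bool => wal A ε * wal B ε) = if A = B then 1 else 0
  pars : ∀ (ι : Type) [Fintype ι] [DecidableEq ι] (f g : (ι → Bool) → ℝ),
    (av fun ε => f ε * g ε) = ∑ A : Finset ι, co f A * co g A
  co_sum : ∀ (ι V : Type) [Fintype ι] [DecidableEq ι] [AddCommGroup V] [Module ℝ V]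
    (c : Finset ι → V) (B : Finset ι), co (fun ε => ∑ A : Finset ι, wal A ε • c A) B = c B
  co_rad : ∀ (ι V : Type) [Fintype ι] [DecidableEq ι] [AddCommGroup V] [Module ℝ V]
    (x : ι → V) (i : ι), co (rad x) {i} = x i
  co_rad_ne : ∀ (ι V : Type) [Fintype ι] [DecidableEq ι] [AddCommGroup V] [Module ℝ V]
    (x : ι → V) (A : Finset ι), A.card ≠ 1 → co (rad x) A = 0
  rad_eq : ∀ (ι V : Type) [Fintype ι] [DecidableEq ι] [AddCommGroup V] [Module ℝ V]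
    (c : Finset ι → V) (ε : ι → Bool),
    rad (fun i => c {i}) ε = ∑ A : Finset ι, wal A ε • (if A.card = 1 then c A else 0)
  ker_symm : ∀ (ι : Type) [Fintype ι] (t : ℝ) (ε ε' : ι → Bool), ker t ε ε' = ker t ε' ε
  ker_l1 : ∀ (ι : Type) [Fintype ι] [DecidableEq ι] (t : ℝ), 0 ≤ t → t ≤ 1 → ∀ ε : ι → Bool,
    (av fun ε' => |ker t ε ε'|) ≤ 1
  ker_apply : ∀ (ι V : Type) [Fintype ι] [DecidableEq ι] [AddCommGroup V] [Module ℝ V] (t : ℝ)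
    (f : (ι → Bool) → V) (ε : ι → Bool),
    (av fun ε' => ker t ε ε' • f ε') = ∑ A : Finset ι, wal A ε • (od t A • co f A)
  kahane : ∀ (ι V : Type) [Fintype ι] [DecidableEq ι] [AddCommGroup V] [Module ℝ V]
    (q : Seminorm ℝ V) (x : ι → V),
    (av fun ε => q (rad x ε) ^ 2) ≤ 2 * (av fun ε => q (rad x ε)) ^ 2
  rad2 : ∀ (ι : Type) [Fintype ι] [DecidableEq ι] (a : ι → ℝ),
    (av fun ε => rad a ε ^ 2) = ∑ i, a i ^ 2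
  rad4 : ∀ (ι : Type) [Fintype ι] [DecidableEq ι] (a : ι → ℝ),
    (av fun ε => rad a ε ^ 4) ≤ 3 * (∑ i, a i ^ 2) ^ 2
  rad_odd : ∀ (ι : Type) [Fintype ι] [DecidableEq ι] (a : ι → ℝ) (k : ℕ), Odd k →
    (av fun ε => rad a ε ^ k) = 0
  wl_co : ∀ (ι V : Type) [Fintype ι] [DecidableEq ι] [NormedAddCommGroup V] [NormedSpace ℝ V]
    (f : (ι → Bool) → V) (C : ℝ), (∀ ε, ‖f ε‖ ≤ C) → WL (co f) C

/-- Dual form of `CT`: bounded extension of a Rademacher series of functionals. -/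
def S_Ext : Prop :=
  ∀ (K : ℝ) (E : Type) [NormedAddCommGroup E] [NormedSpace ℝ E], 0 ≤ K → CT K E →
    ∀ (ι : Type) [Fintype ι] [DecidableEq ι] (φ : ι → E →L[ℝ] ℝ) (s : ℝ), 0 ≤ s → WL φ s →
      ∃ Φ : (ι → Bool) → E →L[ℝ] ℝ, (∀ ε, ‖Φ ε‖ ≤ K * s) ∧ ∀ i, co Φ {i} = φ i

/-- Lifting property of the quotient of L1 by `S`. -/
def LiftP {Ω : Type} [Fintype Ω] (K0 : ℝ) (S : Submodule ℝ (Ω → ℝ)) : Prop :=
  ∀ (ι : Type) [Fintype ι] [DecidableEq ι] (f : ι → Ω → ℝ) (h : (ι → Bool) → Ω → ℝ),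
    (∀ ε, h ε - rad f ε ∈ S) → ∃ s : ι → Ω → ℝ, (∀ i, s i ∈ S) ∧
      ∑ ω, n2 (fun i => f i ω + s i ω) ≤ K0 * av fun ε => l1 (h ε)

def S_Lift : Prop :=
  ∀ κ : ℝ, 1 ≤ κ → ∀ (Ω : Type) [Fintype Ω] (S : Submodule ℝ (Ω → ℝ)), Euc κ S →
    LiftP (9 * κ) S

/-! ### Pushouts -/

/-- Admissible pair of subspaces in the sense of Bourgain and Pisier, with constant 1/2. -/
def AdmS {W : Type} [NormedAddCommGroup W] [NormedSpace ℝ W] (A A' : Submodule ℝ W) : Prop :=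
  A ≤ A' ∧ ∃ C : W → ℝ → Prop,
    (∀ z b, C z b → z ∈ A' ∧ ‖z‖ ≤ b) ∧
    (∀ z b z' b', C z b → C z' b' → C (z + z') (b + b')) ∧
    (∀ z b, C z b → C (-z) b) ∧
    (∀ z ∈ A', ∀ δ : ℝ, 0 < δ → ∃ e ∈ A, ∃ b, C (z - e) b ∧ b + ‖e‖ ≤ ‖z‖ + δ) ∧
    (∀ e ∈ A, ∀ b, C e b → ‖e‖ ≤ b / 2)

structure S_Adm : Prop where
  refl : ∀ (W : Type) [NormedAddCommGroup W] [NormedSpace ℝ W] (A : Submodule ℝ W), AdmS A A
  trans : ∀ (W : Type) [NormedAddCommGroup W] [NormedSpace ℝ W] (A B C : Submodule ℝ W),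
    AdmS A B → AdmS B C → AdmS A C
  map : ∀ (W W' : Type) [NormedAddCommGroup W] [NormedSpace ℝ W] [NormedAddCommGroup W']
    [NormedSpace ℝ W'] (j : W →ₗᵢ[ℝ] W') (A B : Submodule ℝ W), AdmS A B →
    AdmS (A.map j.toLinearMap) (B.map j.toLinearMap)
  sign : ∀ (W : Type) [NormedAddCommGroup W] [NormedSpace ℝ W] (A B : Submodule ℝ W),
    AdmS A B → ∀ x ∈ A, ∀ z ∈ B, ∀ d : ℝ, (∀ e ∈ A, d ≤ ‖z - e‖) →
      2 * ‖x‖ + d ≤ ‖x + z‖ + ‖x - z‖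

/-- `E1` is the pushout of `E` and `l1(Ω)` along `u` restricted to `S`. -/
structure IsPush {Ω E E1 : Type} [Fintype Ω] [NormedAddCommGroup E] [NormedSpace ℝ E]
    [NormedAddCommGroup E1] [NormedSpace ℝ E1] (S : Submodule ℝ (Ω → ℝ))
    (u : (Ω → ℝ) →ₗ[ℝ] E) (j : E →ₗᵢ[ℝ] E1) (ut : (Ω → ℝ) →ₗ[ℝ] E1) : Prop where
  le : ∀ f, ‖ut f‖ ≤ l1 f
  ext : ∀ s ∈ S, ut s = j (u s)
  dec : ∀ (z : E1) (δ : ℝ), 0 < δ → ∃ e f, z = j e + ut f ∧ ‖e‖ + l1 f ≤ ‖z‖ + δ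
  ker : ∀ e f, j e + ut f = 0 → f ∈ S

def S_Push : Prop :=
  ∀ (Ω E : Type) [Fintype Ω] [NormedAddCommGroup E] [NormedSpace ℝ E] [FiniteDimensional ℝ E]
    (S : Submodule ℝ (Ω → ℝ)) (u : (Ω → ℝ) →ₗ[ℝ] E), (∀ s ∈ S, ‖u s‖ ≤ l1 s) →
    ∃ (E1 : Type) (_ : NormedAddCommGroup E1) (_ : NormedSpace ℝ E1) (_ : FiniteDimensional ℝ E1)
      (j : E →ₗᵢ[ℝ] E1) (ut : (Ω → ℝ) →ₗ[ℝ] E1), IsPush S u j ut

def S_PushCT : Prop :=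
  ∀ (Ω E E1 : Type) [Fintype Ω] [NormedAddCommGroup E] [NormedSpace ℝ E]
    [NormedAddCommGroup E1] [NormedSpace ℝ E1] (S : Submodule ℝ (Ω → ℝ))
    (u : (Ω → ℝ) →ₗ[ℝ] E) (j : E →ₗᵢ[ℝ] E1) (ut : (Ω → ℝ) →ₗ[ℝ] E1) (K0 : ℝ), 1 ≤ K0 →
    IsPush S u j ut → (∀ s ∈ S, 2 * (1 + K0) * ‖u s‖ ≤ l1 s) →
    AdmS (LinearMap.range j.toLinearMap) ⊤ ∧ (LiftP K0 S → CT (2 * K0) E → CT (2 * K0) E1)

def S_PushBil : Prop :=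
  ∀ (Ω Ω' E E1 F F1 : Type) [Fintype Ω] [DecidableEq Ω] [Fintype Ω'] [DecidableEq Ω']
    [NormedAddCommGroup E] [NormedSpace ℝ E] [NormedAddCommGroup E1] [NormedSpace ℝ E1]
    [NormedAddCommGroup F] [NormedSpace ℝ F] [NormedAddCommGroup F1] [NormedSpace ℝ F1]
    (S : Submodule ℝ (Ω → ℝ)) (u : (Ω → ℝ) →ₗ[ℝ] E) (j : E →ₗᵢ[ℝ] E1) (ut : (Ω → ℝ) →ₗ[ℝ] E1)
    (S' : Submodule ℝ (Ω' → ℝ)) (v : (Ω' → ℝ) →ₗ[ℝ] F) (j' : F →ₗᵢ[ℝ] F1)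
    (vt : (Ω' → ℝ) →ₗ[ℝ] F1), IsPush S u j ut → IsPush S' v j' vt →
    ∀ (β : F →L[ℝ] E →L[ℝ] ℝ) (Ψ : Ω → F →L[ℝ] ℝ) (Ψ' : Ω' → E →L[ℝ] ℝ) (Φ : Ω' → Ω → ℝ),
      Bd β → (∀ ω, ‖Ψ ω‖ ≤ 1) → (∀ ω', ‖Ψ' ω'‖ ≤ 1) → (∀ ω' ω, |Φ ω' ω| ≤ 1) →
      (∀ s ∈ S, ∀ y, ∑ ω, s ω * Ψ ω y = β y (u s)) →
      (∀ s ∈ S', ∀ x, ∑ ω', s ω' * Ψ' ω' x = β (v s) x) →
      (∀ s ∈ S', ∀ ω, ∑ ω', s ω' * Φ ω' ω = Ψ ω (v s)) →
      (∀ s ∈ S, ∀ ω', ∑ ω, s ω * Φ ω' ω = Ψ' ω' (u s)) →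
      ∃ β1 : F1 →L[ℝ] E1 →L[ℝ] ℝ, Bd β1 ∧ (∀ y x, β1 (j' y) (j x) = β y x) ∧
        ∀ ω' x, β1 (vt (Pi.single ω' 1)) (j x) = Ψ' ω' x

/-! ### The seed and the random subspace -/

def S_Seed : Prop :=
  ∀ K ε : ℝ, 1 ≤ K → 0 < ε → ∃ C1 : ℝ, 1 ≤ C1 ∧
    ∀ (E F : Type) [NormedAddCommGroup E] [NormedSpace ℝ E] [FiniteDimensional ℝ E]
      [NormedAddCommGroup F] [NormedSpace ℝ F] [FiniteDimensional ℝ F], CT K E → CT K F →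
      ∀ (ι : Type) [Fintype ι] [DecidableEq ι] (α : ι → E →L[ℝ] ℝ) (β : ι → F →L[ℝ] ℝ),
        WL α 1 → WL β 1 → ∀ L0 : ℕ,
        ∃ (Ω' : Type) (_ : Fintype Ω') (_ : DecidableEq Ω')
          (Z : (ι → Bool) × Ω' → E →L[ℝ] ℝ) (Y : (ι → Bool) × Ω' → F →L[ℝ] ℝ),
          L0 < Fintype.card Ω' ∧
          (∀ ω, ‖rad α ω.1 + Z ω‖ ≤ C1) ∧ (∀ ω, ‖rad β ω.1 + Y ω‖ ≤ C1) ∧
          (∀ i x, ∑ ω, sg (ω.1 i) * Z ω x = 0) ∧ (∀ i y, ∑ ω, sg (ω.1 i) * Y ω y = 0) ∧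
          (∀ x y, ∑ ω, Z ω x * Y ω y = 0) ∧
          (∀ x, Spr ε fun ω => Z ω x) ∧ ∀ y, Spr ε fun ω => Y ω y

def S_Rand : Prop :=
  ∃ ε κ K1 : ℝ, 0 < ε ∧ 1 ≤ κ ∧ 1 ≤ K1 ∧ ∀ m : ℕ, ∃ L0 : ℕ,
    ∀ (Ω : Type) [Fintype Ω] [DecidableEq Ω], L0 ≤ Fintype.card Ω →
      ∀ Λ Z Y : Submodule ℝ (Ω → ℝ), Perp Λ Z → Perp Λ Y → Perp Z Y →
        finrank ℝ Λ ≤ m → finrank ℝ Z ≤ m → finrank ℝ Y ≤ m →
        (∀ f ∈ Λ, Spr ε f) → (∀ f ∈ Z, Spr ε f) → (∀ f ∈ Y, Spr ε f) →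
        ∃ B0 : Submodule ℝ (Ω → ℝ), Z ≤ B0 ∧ Perp Λ B0 ∧ Perp Y B0 ∧ Euc κ (Λ ⊔ B0) ∧
          Euc κ (perp B0) ∧ TFlat K1 B0 (Λ ⊔ B0)

/-! ### Stages -/

structure Stg (K : ℝ) where
  E : Type
  F : Type
  [nE : NormedAddCommGroup E]
  [sE : NormedSpace ℝ E]
  [fE : FiniteDimensional ℝ E]
  [nF : NormedAddCommGroup F]
  [sF : NormedSpace ℝ F]
  [fF : FiniteDimensional ℝ F]
  β : F →L[ℝ] E →L[ℝ] ℝ
  bd : Bd β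
  cE : CT K E
  cF : CT K F

attribute [instance] Stg.nE Stg.sE Stg.fE Stg.nF Stg.sF Stg.fF

structure Hom {K : ℝ} (s s' : Stg K) where
  jE : s.E →ₗᵢ[ℝ] s'.E
  jF : s.F →ₗᵢ[ℝ] s'.F
  comp : ∀ y x, s'.β (jF y) (jE x) = s.β y x
  adm : AdmS (LinearMap.range jE.toLinearMap) ⊤

/-- Norming step, which also adds a new dimension. -/
def StepA (K : ℝ) : Prop :=
  ∀ (s : Stg K) (x : s.E), ∃ (s' : Stg K) (h : Hom s s'), ¬ Function.Surjective h.jE ∧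
    ∃ y : s'.F, ‖y‖ ≤ 1 ∧ s'.β y (h.jE x) = ‖x‖

/-- Main step. -/
def StepB (K c : ℝ) : Prop :=
  ∀ (s : Stg K) (n : ℕ) (y : Fin n → s.F) (x : Fin n → s.E), WL y 1 → WL x 1 →
    |∑ i, s.β (y i) (x i)| ≤ 1 → ∃ (s' : Stg K) (h : Hom s s'),
      (∀ b : s'.F →L[ℝ] s'.E →L[ℝ] ℝ, Bd b →
        c ^ 2 * |∑ i, b (h.jF (y i)) (h.jE (x i))| ≤ 1) ∧
      ∃ Ψ : (Fin n → Bool) → s'.E, (∀ ε, ‖Ψ ε‖ ≤ 1) ∧ ∀ i, co Ψ {i} = c • h.jE (x i)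

def S_StepA : Prop := ∀ K0 : ℝ, 9 ≤ K0 → StepA (2 * K0)

def S_StepB : Prop := ∃ K0 c : ℝ, 9 ≤ K0 ∧ 0 < c ∧ c ≤ 1 ∧ StepB (2 * K0) c

def S_Lim : Prop :=
  ∀ (K : ℝ) (s : ℕ → Stg K) (h : ∀ n, Hom (s n) (s (n + 1))),
    ∃ (X Y : Type) (_ : NormedAddCommGroup X) (_ : NormedSpace ℝ X) (_ : CompleteSpace X)
      (_ : NormedAddCommGroup Y) (_ : NormedSpace ℝ Y)
      (i : ∀ n, (s n).E →ₗᵢ[ℝ] X) (k : ∀ n, (s n).F →ₗᵢ[ℝ] Y) (β : Y →L[ℝ] X →L[ℝ] ℝ),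
      (∀ n x, i (n + 1) ((h n).jE x) = i n x) ∧ (∀ n y, k (n + 1) ((h n).jF y) = k n y) ∧
      (∀ x : X, ∀ δ : ℝ, 0 < δ → ∃ n e, ‖x - i n e‖ < δ) ∧
      (∀ y : Y, ∀ δ : ℝ, 0 < δ → ∃ n e, ‖y - k n e‖ < δ) ∧
      Bd β ∧ ∀ n y x, β (k n y) (i n x) = (s n).β y x

/-- An increasing admissible chain of finite dimensional subspaces with dense union. -/
def Chain (X : Type) [NormedAddCommGroup X] [NormedSpace ℝ X] : Prop :=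
  ∃ A : ℕ → Submodule ℝ X, (∀ m, FiniteDimensional ℝ (A m)) ∧ (∀ m, AdmS (A m) (A (m + 1))) ∧
    (∀ m, A m ≠ A (m + 1)) ∧ ∀ x : X, ∀ δ : ℝ, 0 < δ → ∃ m, ∃ e ∈ A m, ‖x - e‖ < δ

/-- The properties of the limit space that the end of the proof uses. -/
structure Good (X Y : Type) [NormedAddCommGroup X] [NormedSpace ℝ X] [NormedAddCommGroup Y]
    [NormedSpace ℝ Y] (β : Y →L[ℝ] X →L[ℝ] ℝ) (C : ℝ) : Prop where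
  one_le : 1 ≤ C
  ct : CT C X
  norming : ∀ x : X, ∀ δ : ℝ, 0 < δ → ∃ y : Y, ‖y‖ ≤ 1 ∧ ‖x‖ - δ ≤ β y x
  tr0 : ∀ (n : ℕ) (y : Fin n → Y) (x : Fin n → X), WL y 1 → WL x 1 → ∑ i, β (y i) (x i) = 0 →
    ∀ S : X →L[ℝ] X, |∑ i, β (y i) (S (x i))| ≤ C * ‖S‖
  radx : ∀ (n : ℕ) (x : Fin n → X), WL x 1 →
    ∃ Ψ : (Fin n → Bool) → X, (∀ ε, ‖Ψ ε‖ ≤ C) ∧ ∀ i, co Ψ {i} = x i
  chain : Chain X

def S_Rec : Prop :=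
  ∃ (X Y : Type) (_ : NormedAddCommGroup X) (_ : NormedSpace ℝ X) (_ : CompleteSpace X)
    (_ : NormedAddCommGroup Y) (_ : NormedSpace ℝ Y) (β : Y →L[ℝ] X →L[ℝ] ℝ) (C : ℝ),
    Good X Y β C

/-! ### End of the proof -/

/-- No weakly square summable sequence is bounded below. -/
def NoL2 (X : Type) [NormedAddCommGroup X] [NormedSpace ℝ X] : Prop :=
  ∀ (z : ℕ → X) (δ : ℝ), 0 < δ → (∀ k, δ ≤ ‖z k‖) → ¬ ∀ N : ℕ, WL (fun i : Fin N => z i) 1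

def S_Schur : Prop :=
  ∀ (X : Type) [NormedAddCommGroup X] [NormedSpace ℝ X], Chain X →
    NoL2 X ∧ ¬ FiniteDimensional ℝ X

/-- 2-summing with constant `D`. -/
def TwoS {X : Type} [NormedAddCommGroup X] [NormedSpace ℝ X] (R : X →L[ℝ] X) (D : ℝ) : Prop :=
  ∀ (n : ℕ) (x : Fin n → X), WL x 1 → ∑ i, ‖R (x i)‖ ^ 2 ≤ D ^ 2

def S_TwoSum : Prop :=
  ∀ (X Y : Type) [NormedAddCommGroup X] [NormedSpace ℝ X] [NormedAddCommGroup Y]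
    [NormedSpace ℝ Y] (β : Y →L[ℝ] X →L[ℝ] ℝ) (C : ℝ), Good X Y β C →
    ∀ S : X →L[ℝ] X, ∃ l : ℝ, TwoS (S - l • ContinuousLinearMap.id ℝ X) (C * ‖S‖)

def S_Piet : Prop :=
  ∀ (X : Type) [NormedAddCommGroup X] [NormedSpace ℝ X] (R : X →L[ℝ] X) (D : ℝ), TwoS R D →
    ∃ q : X →ₗ[ℝ] X →ₗ[ℝ] ℝ, (∀ x x', q x x' = q x' x) ∧
      ∀ x, ‖R x‖ ^ 2 ≤ q x x ∧ q x x ≤ D ^ 2 * ‖x‖ ^ 2

/-- Nuclear with cost at most `C`, over a countable index type. -/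
def NucC {X : Type} [NormedAddCommGroup X] [NormedSpace ℝ X] (T : X → X) (C : ℝ) : Prop :=
  ∃ (I : Type) (_ : Countable I) (f : I → X →L[ℝ] ℝ) (y : I → X),
    Summable (fun i => ‖f i‖ * ‖y i‖) ∧ ∑' i, ‖f i‖ * ‖y i‖ ≤ C ∧
      ∀ x, HasSum (fun i => f i x • y i) (T x)

def S_NucSer : Prop :=
  ∀ (X : Type) [NormedAddCommGroup X] [NormedSpace ℝ X] [CompleteSpace X] (T : X → X)
    (N : ℕ → X → X) (c : ℕ → ℝ), (∀ j, NucC (N j) (c j)) → Summable c →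
    (∀ x, Filter.Tendsto (fun J => ∑ j ∈ range J, N j x) Filter.atTop (nhds (T x))) →
    NucC T (∑' j, c j)

/-- Finite rank operators that factor through Hilbert space have bounded nuclear norm. -/
def FinNuc (X : Type) [NormedAddCommGroup X] [NormedSpace ℝ X] (C2 : ℝ) : Prop :=
  ∀ (n : ℕ) (φ : Fin n → X →L[ℝ] ℝ) (z : Fin n → X) (a b : ℝ), 0 ≤ a → 0 ≤ b → WL φ a → WL z b →
    NucC (fun x => ∑ i, φ i x • z i) (C2 * a * b)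

def S_NucFin : Prop :=
  ∀ (X Y : Type) [NormedAddCommGroup X] [NormedSpace ℝ X] [CompleteSpace X]
    [NormedAddCommGroup Y] [NormedSpace ℝ Y] (β : Y →L[ℝ] X →L[ℝ] ℝ) (C : ℝ), Good X Y β C →
    ∃ C2 : ℝ, 0 ≤ C2 ∧ FinNuc X C2

def S_Hilb : Prop :=
  ∀ (X : Type) [NormedAddCommGroup X] [NormedSpace ℝ X] [CompleteSpace X] (C2 : ℝ), 0 ≤ C2 →
    FinNuc X C2 → NoL2 X → ∀ (R : X →L[ℝ] X) (D : ℝ) (q : X →ₗ[ℝ] X →ₗ[ℝ] ℝ),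
      (∀ x x', q x x' = q x' x) → (∀ x, ‖R x‖ ^ 2 ≤ q x x ∧ q x x ≤ D ^ 2 * ‖x‖ ^ 2) →
      ∃ C, NucC R C

/-- The real scalar-plus-nuclear property. -/
def RealSol (X : Type) [NormedAddCommGroup X] [NormedSpace ℝ X] : Prop :=
  ¬ FiniteDimensional ℝ X ∧ ∀ S : X →L[ℝ] X, ∃ l C : ℝ, NucC (fun x => S x - l • x) C

def S_Cx : Prop :=
  ∀ (X : Type) [NormedAddCommGroup X] [NormedSpace ℝ X] [CompleteSpace X], RealSol X →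
    ∃ (X : Type) (_ : NormedAddCommGroup X) (_ : NormedSpace ℂ X) (_ : CompleteSpace X),
      ¬ FiniteDimensional ℂ X ∧
      ∀ T : X →L[ℂ] X, ∃ c : ℂ, ∃ f : ℕ → (X →L[ℂ] ℂ), ∃ y : ℕ → X,
        Summable (fun n => ‖f n‖ * ‖y n‖) ∧
        ∀ x : X, HasSum (fun n => f n x • y n) (T x - c • x)

/-! ### Gaussian matrices -/

abbrev GS (I : Type) [Fintype I] : Type := EuclideanSpace ℝ I

/-- Standard Gaussian measure. -/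
abbrev gm (I : Type) [Fintype I] : Measure (GS I) := stdGaussian (GS I)

/-- A point of `GS (I × J)` read as a matrix. -/
def mat {I J : Type} [Fintype I] [Fintype J] (G : GS (I × J)) : Matrix I J ℝ :=
  Matrix.of fun i j => G (i, j)

def S_Conc : Prop :=
  ∀ (I : Type) [Fintype I] (f : GS I → ℝ), LipschitzWith 1 f → ∀ a t : ℝ, 0 ≤ t →
    (gm I).real {x | f x ≤ a} * (gm I).real {x | a + t ≤ f x} ≤ Real.exp (-t ^ 2 / 5)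

structure S_Mom : Prop where
  int : ∀ (I : Type) [Fintype I] (u : I → ℝ) (k : ℕ),
    Integrable (fun x : GS I => (∑ i, u i * x i) ^ k) (gm I)
  int2 : ∀ (I : Type) [Fintype I] (u v : I → ℝ) (k m : ℕ),
    Integrable (fun x : GS I => (∑ i, u i * x i) ^ k * (∑ i, v i * x i) ^ m) (gm I)
  one : ∀ (I : Type) [Fintype I] (u : I → ℝ), ∫ x : GS I, (∑ i, u i * x i) ∂(gm I) = 0
  two : ∀ (I : Type) [Fintype I] (u v : I → ℝ),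
    ∫ x : GS I, (∑ i, u i * x i) * (∑ i, v i * x i) ∂(gm I) = ∑ i, u i * v i
  three : ∀ (I : Type) [Fintype I] (u : I → ℝ), ∫ x : GS I, (∑ i, u i * x i) ^ 3 ∂(gm I) = 0
  four : ∀ (I : Type) [Fintype I] (u : I → ℝ),
    ∫ x : GS I, (∑ i, u i * x i) ^ 4 ∂(gm I) = 3 * (∑ i, u i ^ 2) ^ 2
  norm_int : ∀ (I : Type) [Fintype I] (k : ℕ), Integrable (fun x : GS I => ‖x‖ ^ k) (gm I)
  norm4 : ∀ (I : Type) [Fintype I],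
    ∫ x : GS I, ‖x‖ ^ 4 ∂(gm I) ≤ 3 * (Fintype.card I : ℝ) ^ 2
  mix : ∀ (I : Type) [Fintype I] (p : GS I →L[ℝ] GS I),
    (∀ x y, inner ℝ (p x) y = inner ℝ x (p y)) → (∀ x, p (p x) = p x) →
    MeasurePreserving (fun z : GS I × GS I => p z.1 + (z.2 - p z.2)) ((gm I).prod (gm I)) (gm I)
  rot : ∀ (I : Type) [Fintype I],
    MeasurePreserving
      (fun z : GS I × GS I => ((√2)⁻¹ • (z.1 + z.2), (√2)⁻¹ • (z.1 - z.2)))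
      ((gm I).prod (gm I)) ((gm I).prod (gm I))

def S_Net : Prop :=
  ∀ (V : Type) [NormedAddCommGroup V] [NormedSpace ℝ V] [FiniteDimensional ℝ V] (j : ℕ),
    ∃ N : Finset V, N.card ≤ (5 ^ j) ^ finrank ℝ V ∧
      ∀ x : V, ‖x‖ ≤ 1 → ∃ n ∈ N, ‖x - n‖ ≤ 1 / 2 ^ j

/-- `M` acts on `T` almost like `r` times an isometry. -/
def IsoOn {I J : Type} [Fintype I] [Fintype J] (M : Matrix I J ℝ) (r : ℝ) (T : Set (J → ℝ)) :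
    Prop :=
  ∀ x ∈ T, r / 4 * n2 x ≤ n2 (M *ᵥ x) ∧ n2 (M *ᵥ x) ≤ 2 * r * n2 x

def S_Iso : Prop :=
  ∀ (I J : Type) [Fintype I] [Fintype J],
    (∀ T : Submodule ℝ (J → ℝ), (gm (I × J)).real {G | ¬ IsoOn (mat G) (sq I) T} ≤
      14 * 125 ^ finrank ℝ T * Real.exp (-(Fintype.card I : ℝ) / 500)) ∧
    ∀ T : Submodule ℝ (I → ℝ), (gm (I × J)).real {G | ¬ IsoOn (mat G)ᵀ (sq J) T} ≤
      14 * 125 ^ finrank ℝ T * Real.exp (-(Fintype.card J : ℝ) / 500)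

/-- Square of the mixed l2(l4) norm. -/
def pot {Ω : Type} [Fintype Ω] (Y : Matrix Ω Ω ℝ) : ℝ := ∑ ω, √(∑ ω', Y ω ω' ^ 4)

/-- After moving the Gaussian matrix by at most `t j` in the j-th block, the sum of the first `k`
blocks has small potential. -/
def Ok {Ω J : Type} [Fintype Ω] [Fintype J] (A : ℕ → Matrix Ω J ℝ) (t : ℕ → ℝ) (η : ℝ) (k : ℕ) :
    Set (GS (Ω × J)) :=
  {G | ∃ Δ : ℕ → Matrix Ω J ℝ, (∀ j < k, fro (Δ j) < t j) ∧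
    pot (∑ j ∈ range k, A j * (mat G - Δ j)ᵀ) <
      (1 + η) ^ k * (1 + 3 * sq Ω * ∑ j ∈ range k, fro (A j) ^ 2)}

def S_Chain : Prop :=
  ∀ (Ω J : Type) [Fintype Ω] [Fintype J] [DecidableEq J] (A : ℕ → Matrix Ω J ℝ) (t : ℕ → ℝ)
    (η : ℝ) (k : ℕ), 0 < η → 0 ≤ t k → (∀ j < k, A k * (A j)ᵀ = 0) →
    (gm (Ω × J)).real (Ok A t η k \ Ok A t η (k + 1)) ≤ (1 + 1 / η) * Real.exp (-t k ^ 2 / 5)

/-- The bound of the decoupled chaos. -/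
def dB (C : ℝ) (L d r R : ℕ) : ℝ :=
  C * (√((d : ℝ) * L / R) + √(√((r : ℝ) * L ^ 3)) + √(R : ℝ) * d)

def S_Dec : Prop :=
  ∃ C : ℝ, 1 ≤ C ∧ ∀ (Ω : Type) [Fintype Ω] [DecidableEq Ω] (d r R : ℕ), 1 ≤ d → 1 ≤ r → 2 ≤ R →
    ∀ Γ1 : Matrix Ω (Fin d) ℝ, (∀ v, n2 (Γ1 *ᵥ v) ≤ 2 * sq Ω * n2 v) →
      (∀ x, supp x ≤ r → n2 (Γ1ᵀ *ᵥ x) ≤ 2 * √(d : ℝ) * n2 x) →
      (gm (Ω × Fin d)).real {G | (∀ v, n2 (mat G *ᵥ v) ≤ 2 * sq Ω * n2 v) ∧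
        ¬ ∀ g : Matrix Ω Ω ℝ, Sparse r g →
          fro (Γ1ᵀ * g * mat G) ≤ dB C (Fintype.card Ω) d r R * fro g} ≤ Real.exp (-(d : ℝ))

def S_Decoup : Prop :=
  ∀ (Ω J : Type) [Fintype Ω] [Fintype J] (r : ℕ) (B p : ℝ), 0 ≤ B → 0 < p → p ≤ 1 →
    ((gm (Ω × J)).prod (gm (Ω × J))).real {z | ¬ ∀ g : Matrix Ω Ω ℝ, Sparse r g →
      fro ((mat z.1)ᵀ * g * mat z.2) ≤ B * fro g} ≤ p ^ 4 →
    (gm (Ω × J)).real {G | fro (mat G) ^ 2 ≤ 4 * Fintype.card (Ω × J) ∧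
      ¬ ∀ g : Matrix Ω Ω ℝ, Sparse r g → g.trace = 0 →
        fro ((mat G)ᵀ * g * mat G) ≤ (2 * B + 6 * Fintype.card (Ω × J) * p) * fro g} ≤ p ^ 2

/-- The good event for the random matrix. -/
structure RG {Ω : Type} [Fintype Ω] {d : ℕ} (Γ : Matrix Ω (Fin d) ℝ) (Ξ : Submodule ℝ (Ω → ℝ))
    (s : ℕ) : Prop where
  r1 : IsoOn Γ (sq Ω) Set.univ
  r3 : IsoOn Γᵀ (√(d : ℝ)) {w | ∃ x ξ, supp x ≤ s ∧ ξ ∈ Ξ ∧ w = x + ξ}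
  r4 : ∀ g : Matrix Ω Ω ℝ, Sparse s g → g.trace = 0 →
    fro (Γᵀ * g * Γ) ≤ √(d : ℝ) * sq Ω / 12000 * fro g

def S_Exist : Prop :=
  ∃ (D : ℕ) (σ : ℝ), 2048 ≤ D ∧ 0 < σ ∧ σ ≤ 1 ∧ ∀ m : ℕ, ∃ L0 : ℕ,
    ∀ (Ω : Type) [Fintype Ω] [DecidableEq Ω], L0 ≤ Fintype.card Ω →
      ∀ Ξ : Submodule ℝ (Ω → ℝ), finrank ℝ Ξ ≤ m →
        ∃ (d s : ℕ) (Γ : Matrix Ω (Fin d) ℝ), D * d ≤ Fintype.card Ω ∧
          Fintype.card Ω ≤ 2 * D * d ∧ σ * Fintype.card Ω ≤ s ∧ RG Γ Ξ s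

/-- The hypotheses of the deterministic decomposition theorem. -/
structure TFH {Ω : Type} [Fintype Ω] [DecidableEq Ω] (B0 B : Submodule ℝ (Ω → ℝ)) (c0 κ : ℝ)
    (s : ℕ) : Prop where
  le : B0 ≤ B
  eB : Euc κ B
  e0 : Euc κ (perp B0)
  lo : ∀ x, supp x ≤ s → c0 * n2 x ≤ n2 (proj B0 *ᵥ x)
  up : ∀ x, supp x ≤ s → n2 (proj B *ᵥ x) ≤ n2 x / 2
  r4 : ∀ g : Matrix Ω Ω ℝ, Sparse s g → g.trace = 0 →
    fro (proj B0 * g * proj B) ≤ c0 / 4 * fro g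

def S_Det : Prop :=
  ∀ (D : ℕ) (σ : ℝ), 2048 ≤ D → 0 < σ → σ ≤ 1 → ∃ ε κ c0 σ' : ℝ, 0 < ε ∧ 1 ≤ κ ∧ 0 < c0 ∧
    c0 ≤ 1 ∧ 0 < σ' ∧ σ' ≤ 1 ∧ ∃ L0 : ℕ,
    ∀ (Ω : Type) [Fintype Ω] [DecidableEq Ω], L0 ≤ Fintype.card Ω →
      ∀ Λ Z Y : Submodule ℝ (Ω → ℝ), Perp Λ Z → Perp Λ Y → Perp Z Y →
        (∀ f ∈ Λ, Spr ε f) → (∀ f ∈ Z, Spr ε f) → (∀ f ∈ Y, Spr ε f) →
        ∀ (d s : ℕ) (Γ : Matrix Ω (Fin d) ℝ), D * d ≤ Fintype.card Ω →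
          Fintype.card Ω ≤ 2 * D * d → σ * Fintype.card Ω ≤ s → RG Γ (Λ ⊔ Z ⊔ Y) s →
          ∃ (B0 : Submodule ℝ (Ω → ℝ)) (s' : ℕ), Z ≤ B0 ∧ Perp Λ B0 ∧ Perp Y B0 ∧
            σ' * Fintype.card Ω ≤ s' ∧ TFH B0 (Λ ⊔ B0) c0 κ s'

def S_TF : Prop :=
  ∀ c0 κ σ : ℝ, 0 < c0 → c0 ≤ 1 → 1 ≤ κ → 0 < σ → σ ≤ 1 → ∃ (K1 : ℝ) (L0 : ℕ), 1 ≤ K1 ∧
    ∀ (Ω : Type) [Fintype Ω] [DecidableEq Ω], L0 ≤ Fintype.card Ω →
      ∀ (B0 B : Submodule ℝ (Ω → ℝ)) (s : ℕ), σ * Fintype.card Ω ≤ s → TFH B0 B c0 κ s →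
        TFlat K1 B0 B

end

end Pool.Agent.P.MP_1bacd4_an
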