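import Mathlib
import Pool.Agent.P.MP_1bacd4_an.Defs

/-! A space with an admissible chain contains no weakly square summable sequence bounded below. -/

set_option autoImplicit false

namespace Pool.Agent.P.MP_1bacd4_an

open Finset Module Filter Topology

namespace SchurA

variable {X : Type} [NormedAddCommGroup X] [NormedSpace ℝ X]

/-- The weak l2 bound for arbitrary finite sets of indices. -/
theorem sum_le (z : ℕ → X) (hz : ∀ N : ℕ, WL (fun i : Fin N => z i) 1) (F : Finset ℕ)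
    (c : ℕ → ℝ) (hc : ∀ k ∈ F, c k ^ 2 = 1) : ‖∑ k ∈ F, c k • z k‖ ≤ √(F.card : ℝ) := by
  classical
  obtain ⟨N, hN⟩ : ∃ N, F ⊆ range N := F.exists_nat_subset_range
  have h := hz N (fun i => if (i : ℕ) ∈ F then c i else 0)
  have e1 : ∑ i : Fin N, (if (i : ℕ) ∈ F then c i else 0) • z i = ∑ k ∈ F, c k • z k := by
    rw [Fin.sum_univ_eq_sum_range (fun k => (if k ∈ F then c k else 0) • z k) N]
    rw [← Finset.sum_subset hN (fun k _ hk => by simp [hk])]
    exact Finset.sum_congr rfl fun k hk => by simp [hk]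
  have e2 : ∑ i : Fin N, (if (i : ℕ) ∈ F then c i else 0) ^ 2 = (F.card : ℝ) := by
    rw [Fin.sum_univ_eq_sum_range (fun k => (if k ∈ F then c k else 0) ^ 2) N]
    rw [← Finset.sum_subset hN (fun k _ hk => by simp [hk])]
    rw [Finset.sum_congr rfl (g := fun _ => (1 : ℝ)) fun k hk => by simp [hk, hc k hk]]
    simp
  simp only [n2, one_mul] at h
  rw [e1, e2] at h
  exact h

theorem not_le_sqrt (c : ℝ) (hc : 0 < c) (h : ∀ N : ℕ, (N : ℝ) * c ≤ √(N : ℝ)) : False := by
  obtain ⟨N, hN⟩ := exists_nat_gt (1 / c ^ 2)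
  have hc2 : 0 < c ^ 2 := by positivity
  have hN0 : (0 : ℝ) < N := lt_trans (by positivity) hN
  have h1 := h N
  have h2 : ((N : ℝ) * c) ^ 2 ≤ N := by
    calc ((N : ℝ) * c) ^ 2 ≤ (√(N : ℝ)) ^ 2 := pow_le_pow_left₀ (by positivity) h1 2
      _ = N := Real.sq_sqrt hN0.le
  have h3 : 1 < (N : ℝ) * c ^ 2 := by
    rw [div_lt_iff₀ hc2] at hN
    exact hN
  nlinarith

/-- Far away terms of the sequence stay away from a finite dimensional subspace. -/
theorem far (z : ℕ → X) (δ : ℝ) (hδ : 0 < δ) (hlow : ∀ k, δ ≤ ‖z k‖)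
    (hz : ∀ N : ℕ, WL (fun i : Fin N => z i) 1) (A : Submodule ℝ X) [FiniteDimensional ℝ A]
    (k0 : ℕ) : ∃ k, k0 ≤ k ∧ ∀ e ∈ A, δ / 4 ≤ ‖z k - e‖ := by
  classical
  by_contra hcon
  push Not at hcon
  have hex : ∀ n : ℕ, ∃ e : A, ‖z (k0 + n) - (e : X)‖ < δ / 4 := fun n => by
    obtain ⟨e, he, h⟩ := hcon (k0 + n) (Nat.le_add_right _ _)
    exact ⟨⟨e, he⟩, h⟩
  choose e he using hex
  have hz1 : ∀ k, ‖z k‖ ≤ 1 := fun k => by
    have := sum_le z hz {k} (fun _ => 1) (fun _ _ => by norm_num)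
    simpa using this
  have hbd : ∀ n, e n ∈ Metric.closedBall (0 : A) (1 + δ / 4) := fun n => by
    rw [Metric.mem_closedBall, dist_zero_right]
    have h1 : ‖e n‖ = ‖(e n : X)‖ := rfl
    have h2 : ‖(e n : X)‖ ≤ ‖z (k0 + n)‖ + ‖z (k0 + n) - (e n : X)‖ := by
      have := norm_sub_le (z (k0 + n)) (z (k0 + n) - (e n : X))
      simpa using this
    have := he n
    have := hz1 (k0 + n)
    rw [h1]
    linarith
  have : ProperSpace A := FiniteDimensional.proper ℝ A
  obtain ⟨a, -, φ, hφ, hlim⟩ := tendsto_subseq_of_bounded Metric.isBounded_closedBall hbd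
  obtain ⟨n0, hn0⟩ := (Metric.tendsto_atTop.1 hlim) (δ / 8) (by positivity)
  have hclose : ∀ n, ‖z (k0 + φ (n0 + n)) - (a : X)‖ ≤ 3 * δ / 8 := fun n => by
    have h1 := hn0 (n0 + n) (Nat.le_add_right _ _)
    rw [dist_eq_norm] at h1
    have h2 : ‖(e (φ (n0 + n)) : X) - (a : X)‖ < δ / 8 := h1
    have h3 := he (φ (n0 + n))
    have h4 := norm_add_le (z (k0 + φ (n0 + n)) - (e (φ (n0 + n)) : X))
      ((e (φ (n0 + n)) : X) - (a : X))
    rw [sub_add_sub_cancel] at h4
    linarith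
  have ha : 5 * δ / 8 ≤ ‖(a : X)‖ := by
    have h1 := hclose 0
    have h2 := hlow (k0 + φ (n0 + 0))
    have h3 := norm_add_le (z (k0 + φ (n0 + 0)) - (a : X)) (a : X)
    rw [sub_add_cancel] at h3
    linarith
  refine not_le_sqrt (δ / 4) (by positivity) fun N => ?_
  have hinj : Function.Injective fun n => k0 + φ (n0 + n) := fun n n' h => by
    have h1 : φ (n0 + n) = φ (n0 + n') := Nat.add_left_cancel h
    exact Nat.add_left_cancel (hφ.injective h1)
  have h1 := sum_le z hz ((range N).map ⟨_, hinj⟩) (fun _ => 1) (fun _ _ => by norm_num)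
  simp only [one_smul, Finset.sum_map, Function.Embedding.coeFn_mk, card_map, card_range] at h1
  have h2 : ‖∑ n ∈ range N, (z (k0 + φ (n0 + n)) - (a : X))‖ ≤ N * (3 * δ / 8) := by
    refine (norm_sum_le _ _).trans ?_
    refine (Finset.sum_le_sum fun n _ => hclose n).trans ?_
    simp
  rw [Finset.sum_sub_distrib, Finset.sum_const, card_range] at h2
  have h3 : ‖(N : ℕ) • (a : X)‖ = N * ‖(a : X)‖ := by
    rw [← Nat.cast_smul_eq_nsmul ℝ, norm_smul]
    simp
  have h4 := norm_sub_le (∑ n ∈ range N, z (k0 + φ (n0 + n)))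
    (∑ n ∈ range N, z (k0 + φ (n0 + n)) - (N : ℕ) • (a : X))
  rw [sub_sub_cancel, h3] at h4
  have h5 : (N : ℝ) * (5 * δ / 8) ≤ N * ‖(a : X)‖ :=
    mul_le_mul_of_nonneg_left ha (Nat.cast_nonneg N)
  linarith

theorem adm_le (hA : S_Adm) (A : ℕ → Submodule ℝ X) (h : ∀ m, AdmS (A m) (A (m + 1)))
    (m m' : ℕ) (hm : m ≤ m') : AdmS (A m) (A m') := by
  induction m', hm using Nat.le_induction with
  | base => exact hA.refl X _
  | succ n _ ih => exact hA.trans X _ _ _ ih (h n)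

/-- Signed sums that grow linearly. -/
theorem grow (hA : S_Adm) (A : ℕ → Submodule ℝ X) (hfin : ∀ m, FiniteDimensional ℝ (A m))
    (h : ∀ m, AdmS (A m) (A (m + 1)))
    (hd : ∀ x : X, ∀ δ : ℝ, 0 < δ → ∃ m, ∃ e ∈ A m, ‖x - e‖ < δ)
    (z : ℕ → X) (δ : ℝ) (hδ : 0 < δ) (hlow : ∀ k, δ ≤ ‖z k‖)
    (hz : ∀ N : ℕ, WL (fun i : Fin N => z i) 1) (N : ℕ) :
    ∃ (m : ℕ) (F : Finset ℕ) (c : ℕ → ℝ) (x : X), x ∈ A m ∧ F.card = N ∧
      (∀ k ∈ F, c k ^ 2 = 1) ∧ ‖x - ∑ k ∈ F, c k • z k‖ ≤ N * (δ / 16) ∧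
      N * (3 * δ / 32) ≤ ‖x‖ := by
  classical
  induction N with
  | zero => exact ⟨0, ∅, fun _ => 1, 0, (A 0).zero_mem, rfl, by simp, by simp, by simp⟩
  | succ N ih =>
    obtain ⟨m, F, c, x, hx, hF, hc, h1, h2⟩ := ih
    obtain ⟨k0, hk0⟩ : ∃ N, F ⊆ range N := F.exists_nat_subset_range
    have := hfin m
    obtain ⟨k, hk, hfar⟩ := far z δ hδ hlow hz (A m) k0
    have hkF : k ∉ F := fun hkF => by
      have := mem_range.1 (hk0 hkF)
      omega
    obtain ⟨m1, z', hz', hzz⟩ := hd (z k) (δ / 16) (by positivity)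
    have hm : AdmS (A m) (A (max m m1)) := adm_le hA A h _ _ (le_max_left _ _)
    have hm1 : AdmS (A m1) (A (max m m1)) := adm_le hA A h _ _ (le_max_right _ _)
    have hz'' : z' ∈ A (max m m1) := hm1.1 hz'
    have hs := hA.sign X _ _ hm x hx z' hz'' (3 * δ / 16) (fun e he => by
      have h3 := hfar e he
      have h4 := norm_add_le (z k - z') (z' - e)
      rw [sub_add_sub_cancel] at h4
      linarith)
    obtain ⟨σ, hσ, hσx⟩ : ∃ σ : ℝ, σ ^ 2 = 1 ∧ ‖x‖ + 3 * δ / 32 ≤ ‖x + σ • z'‖ := by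
      by_cases hp : ‖x‖ + 3 * δ / 32 ≤ ‖x + z'‖
      · exact ⟨1, by norm_num, by simpa using hp⟩
      · refine ⟨-1, by norm_num, ?_⟩
        rw [neg_one_smul, ← sub_eq_add_neg]
        push Not at hp
        linarith
    have hσ1 : |σ| = 1 := by
      have h5 : |σ| ^ 2 = 1 := by rw [sq_abs]; exact hσ
      have h6 := abs_nonneg σ
      nlinarith
    refine ⟨max m m1, insert k F, Function.update c k σ, x + σ • z',
      (A _).add_mem (hm.1 hx) ((A _).smul_mem σ hz''), by rw [card_insert_of_notMem hkF, hF],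
      ?_, ?_, ?_⟩
    · intro j hj
      rcases mem_insert.1 hj with rfl | hj
      · simpa using hσ
      · rw [Function.update_of_ne (fun hjk : j = k => hkF (hjk ▸ hj))]
        exact hc j hj
    · rw [Finset.sum_insert hkF, Function.update_self]
      have e1 : ∑ j ∈ F, Function.update c k σ j • z j = ∑ j ∈ F, c j • z j :=
        Finset.sum_congr rfl fun j hj => by
          rw [Function.update_of_ne (fun hjk : j = k => hkF (hjk ▸ hj))]
      rw [e1]
      have e2 : x + σ • z' - (σ • z k + ∑ j ∈ F, c j • z j)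
          = (x - ∑ j ∈ F, c j • z j) - σ • (z k - z') := by
        rw [smul_sub]
        abel
      rw [e2]
      have h4 := norm_sub_le (x - ∑ j ∈ F, c j • z j) (σ • (z k - z'))
      rw [norm_smul, Real.norm_eq_abs, hσ1, one_mul] at h4
      push_cast
      linarith
    · push_cast
      linarith

end SchurA

open SchurA in
theorem schur (hA : S_Adm) : S_Schur := by
  intro X _ _ hX
  obtain ⟨A, hfin, hadm, hne, hd⟩ := hX
  refine ⟨?_, ?_⟩
  · intro z δ hδ hlow hz
    refine not_le_sqrt (δ / 32) (by positivity) fun N => ?_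
    obtain ⟨m, F, c, x, -, hF, hc, h1, h2⟩ := grow hA A hfin hadm hd z δ hδ hlow hz N
    have h3 := sum_le z hz F c hc
    rw [hF] at h3
    have h4 := norm_add_le (x - ∑ k ∈ F, c k • z k) (∑ k ∈ F, c k • z k)
    rw [sub_add_cancel] at h4
    linarith
  · intro hX
    have h1 : ∀ m, m ≤ finrank ℝ (A m) := fun m => by
      induction m with
      | zero => exact Nat.zero_le _
      | succ m ih =>
        have hlt : A m < A (m + 1) := lt_of_le_of_ne (hadm m).1 (hne m)
        have := Submodule.finrank_lt_finrank_of_lt hlt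
        omega
    have h2 := h1 (finrank ℝ X + 1)
    have h3 := Submodule.finrank_le (A (finrank ℝ X + 1))
    omega

end Pool.Agent.P.MP_1bacd4_an
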