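import Pool.Agent.P.MP_1bacd4_an.Basic

/-! The deterministic decomposition of matrices annihilated by `B0 ⊗ perp B`. -/

set_option autoImplicit false

namespace Pool.Agent.P.MP_1bacd4_an

open Finset Module Matrix

namespace TFA

variable {Ω : Type} [Fintype Ω] [DecidableEq Ω]

/-- Total l1 norm of a matrix. -/
noncomputable def L1 (M : Matrix Ω Ω ℝ) : ℝ := ∑ i, l1 (M i)

omit [DecidableEq Ω] in
theorem L1_nonneg (M : Matrix Ω Ω ℝ) : 0 ≤ L1 M := sum_nonneg fun _ _ => l1_nonneg _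

omit [DecidableEq Ω] in
theorem L1_add_le (M N : Matrix Ω Ω ℝ) : L1 (M + N) ≤ L1 M + L1 N := by
  unfold L1; rw [← sum_add_distrib]; exact sum_le_sum fun i _ => l1_add_le (M i) (N i)

omit [DecidableEq Ω] in
theorem L1_sub_le (M N : Matrix Ω Ω ℝ) : L1 (M - N) ≤ L1 M + L1 N := by
  unfold L1; rw [← sum_add_distrib]; exact sum_le_sum fun i _ => l1_sub_le (M i) (N i)

omit [DecidableEq Ω] in
theorem L1_le_fro (M : Matrix Ω Ω ℝ) : L1 M ≤ Fintype.card Ω * fro M := by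
  have := sum_l1_le M
  rwa [sq_mul_sq] at this

omit [DecidableEq Ω] in
theorem L1_mono {M N : Matrix Ω Ω ℝ} (h : ∀ i k, |M i k| ≤ |N i k|) : L1 M ≤ L1 N :=
  sum_le_sum fun i _ => l1_mono (h i)

theorem perp_inf_coord (A : Submodule ℝ (Ω → ℝ)) (J : Finset Ω) :
    perp (A ⊓ coordS Jᶜ) = perp A ⊔ coordS J := by
  rw [perp_inf, perp_coordS, compl_compl]

theorem decomp (A : Submodule ℝ (Ω → ℝ)) (J : Finset Ω) (x : Ω → ℝ) :
    ∃ y ∈ perp A, ∃ t ∈ coordS J, x - proj (A ⊓ coordS Jᶜ) *ᵥ x = y + t := by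
  have h := sub_proj_mem (A ⊓ coordS Jᶜ) x
  rw [perp_inf_coord] at h
  obtain ⟨y, hy, t, ht, e⟩ := Submodule.mem_sup.1 h
  exact ⟨y, hy, t, ht, e.symm⟩

theorem coord_le_perp (A : Submodule ℝ (Ω → ℝ)) (J : Finset Ω) :
    coordS J ≤ perp (A ⊓ coordS Jᶜ) := by
  rw [perp_inf_coord]; exact le_sup_right

theorem lowJ {A : Submodule ℝ (Ω → ℝ)} {J : Finset Ω} {c : ℝ} {s : ℕ} (hc : 0 ≤ c)
    (lo : ∀ x, supp x ≤ s → c * n2 x ≤ n2 (proj A *ᵥ x)) {x : Ω → ℝ} (hx : ∀ i ∈ J, x i = 0)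
    (hs : supp x + J.card ≤ s) : c * n2 x ≤ n2 (proj (A ⊓ coordS Jᶜ) *ᵥ x) := by
  obtain ⟨y, hy, t, ht, e⟩ := decomp A J x
  have h1 : x - t = proj (A ⊓ coordS Jᶜ) *ᵥ x + y := by
    calc x - t = (x - proj (A ⊓ coordS Jᶜ) *ᵥ x) + proj (A ⊓ coordS Jᶜ) *ᵥ x - t := by abel
      _ = _ := by rw [e]; abel
  have h2 : proj A *ᵥ (x - t) = proj (A ⊓ coordS Jᶜ) *ᵥ x := by
    rw [h1, mulVec_add, proj_of_perp hy, add_zero, proj_of_mem (proj_mem (A ⊓ coordS Jᶜ) x).1]
  have h3 : supp (x - t) ≤ s := by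
    rw [sub_eq_add_neg]
    refine (supp_add_le _ _).trans (le_trans ?_ hs)
    rw [supp_neg]
    exact Nat.add_le_add_left (supp_le_card ht) _
  have h4 : n2 x ≤ n2 (x - t) := n2_mono fun i => by
    by_cases hi : i ∈ J
    · rw [hx i hi, abs_zero]; exact abs_nonneg _
    · rw [Pi.sub_apply, ht i hi, sub_zero]
  rw [← h2]
  exact (mul_le_mul_of_nonneg_left h4 hc).trans (lo _ h3)

theorem onJ {B : Submodule ℝ (Ω → ℝ)} {J : Finset Ω} {s : ℕ}
    (up : ∀ x, supp x ≤ s → n2 (proj B *ᵥ x) ≤ n2 x / 2) (hJ : J.card ≤ s) {b t : Ω → ℝ}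
    (hb : b ∈ B) (ht : t ∈ coordS J) : n2 b ≤ 2 * n2 (b + t) := by
  set bJ : Ω → ℝ := fun i => if i ∈ J then b i else 0 with hbJ
  have hJm : bJ ∈ coordS J := fun i hi => by simp [hbJ, hi]
  have h6 : n2 bJ ≤ n2 b / 2 := by
    refine le_of_sq_le_mul (n2_nonneg _) (by linarith [n2_nonneg b]) ?_
    have e1 : n2 bJ ^ 2 = b ⬝ᵥ bJ := by
      rw [n2_sq_dot]
      exact sum_congr rfl fun i _ => by by_cases hi : i ∈ J <;> simp [hbJ, hi]
    rw [e1, ← dot_proj hb]
    refine (dot_le _ _).trans ?_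
    have := mul_le_mul_of_nonneg_left (up bJ ((supp_le_card hJm).trans hJ)) (n2_nonneg b)
    linarith
  have h7 : n2 (b - bJ) ≤ n2 (b + t) := n2_mono fun i => by
    by_cases hi : i ∈ J
    · simp [hbJ, hi]
    · simp [hbJ, hi, ht i hi]
  have h8 := n2_add_le (b - bJ) bJ
  rw [sub_add_cancel] at h8
  linarith

theorem upJ {B : Submodule ℝ (Ω → ℝ)} {J : Finset Ω} {s : ℕ}
    (up : ∀ x, supp x ≤ s → n2 (proj B *ᵥ x) ≤ n2 x / 2) (hJ : J.card ≤ s) {x : Ω → ℝ}
    (hx : ∀ i ∈ J, x i = 0) :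
    n2 (x - proj (perp B ⊓ coordS Jᶜ) *ᵥ x) ≤ 2 * n2 (proj B *ᵥ x) := by
  obtain ⟨b, hb, t, ht, e⟩ := decomp (perp B) J x
  rw [perp_perp] at hb
  refine le_of_sq_le_mul (n2_nonneg _) (by linarith [n2_nonneg (proj B *ᵥ x)]) ?_
  have h0 := sub_proj_mem (perp B ⊓ coordS Jᶜ) x _ (proj_mem (perp B ⊓ coordS Jᶜ) x)
  have h1 : n2 (x - proj (perp B ⊓ coordS Jᶜ) *ᵥ x) ^ 2 = x ⬝ᵥ (b + t) := by
    rw [n2_sq_dot, sub_dotProduct, h0, sub_zero, e]
  have h2 : x ⬝ᵥ t = 0 := sum_eq_zero fun i _ => by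
    by_cases hi : i ∈ J
    · rw [hx i hi, zero_mul]
    · rw [ht i hi, mul_zero]
  rw [h1, dotProduct_add, h2, add_zero, dotProduct_comm, ← dot_proj hb, e]
  refine (dot_le _ _).trans ?_
  have := mul_le_mul_of_nonneg_right (onJ up hJ hb ht) (n2_nonneg (proj B *ᵥ x))
  linarith

theorem lowQ {B : Submodule ℝ (Ω → ℝ)} {s : ℕ}
    (up : ∀ x, supp x ≤ s → n2 (proj B *ᵥ x) ≤ n2 x / 2) {x : Ω → ℝ} (hx : supp x ≤ s) :
    1 / 2 * n2 x ≤ n2 (proj (perp B) *ᵥ x) := by
  have h1 := up x hx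
  have h2 := n2_add_le (proj (perp B) *ᵥ x) (proj B *ᵥ x)
  rw [← add_mulVec, proj_perp, sub_add_cancel, one_mulVec, ← proj_perp] at h2
  linarith

omit [DecidableEq Ω] in
theorem offJ {S : Submodule ℝ (Ω → ℝ)} {κ : ℝ} (hκ : 0 ≤ κ) (hS : Euc κ S) {J : Finset Ω}
    (hJ : κ * √(J.card : ℝ) ≤ sq Ω / 2) {y u : Ω → ℝ} (hy : y ∈ S) (hu : ∀ i, i ∉ J → y i = u i) :
    sq Ω * n2 y ≤ 2 * κ * l1 u := by
  classical
  have h1 := hS y hy
  have h2 : l1 y ≤ ∑ i ∈ J, |y i| + l1 u := by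
    unfold l1
    rw [← sum_add_sum_compl J]
    refine add_le_add le_rfl ?_
    rw [sum_congr rfl fun i hi => by rw [hu i (mem_compl.1 hi)]]
    exact sum_le_sum_of_subset_of_nonneg (subset_univ _) fun _ _ _ => abs_nonneg _
  have h3 := sum_abs_le_sqrt_card J y
  have h4 := mul_le_mul_of_nonneg_left (h2.trans (add_le_add h3 le_rfl)) hκ
  have h5 := mul_le_mul_of_nonneg_right hJ (n2_nonneg y)
  nlinarith

theorem PQ {B0 B : Submodule ℝ (Ω → ℝ)} (h : B0 ≤ B) : proj B0 * proj (perp B) = 0 :=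
  proj_mul_of_perp fun a ha _ hb => hb a (h ha)

theorem PnQ {B0 B : Submodule ℝ (Ω → ℝ)} {ν : Matrix Ω Ω ℝ}
    (h : ∀ b ∈ B0, ∀ b' ∈ perp B, b ⬝ᵥ ν *ᵥ b' = 0) : proj B0 * ν * proj (perp B) = 0 :=
  ext_mulVec fun x => by
    rw [← mulVec_mulVec, ← mulVec_mulVec, zero_mulVec]
    exact proj_of_perp fun b hb => h b hb _ (proj_mem _ x)

theorem rowsJ_zero (A : Submodule ℝ (Ω → ℝ)) {J : Finset Ω} {M : Matrix Ω Ω ℝ}
    (h : ∀ i k, i ∉ J → M i k = 0) : proj (A ⊓ coordS Jᶜ) * M = 0 :=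
  proj_mul_eq_zero fun k => coord_le_perp A J fun i hi => h i k hi

theorem colsJ_zero (A : Submodule ℝ (Ω → ℝ)) {J : Finset Ω} {M : Matrix Ω Ω ℝ}
    (h : ∀ i k, k ∉ J → M i k = 0) : M * proj (A ⊓ coordS Jᶜ) = 0 :=
  mul_proj_eq_zero fun i => coord_le_perp A J fun k hk => h i k hk

/-- The sparse traceless part is controlled by the small part. -/
theorem g0_le {B0 B : Submodule ℝ (Ω → ℝ)} {c0 κ : ℝ} {s r : ℕ} (H : TFH B0 B c0 κ s)
    (hc : 0 ≤ c0) {J : Finset Ω} (hs : r + J.card ≤ s) {lam : ℝ} {φr φc g0 fs : Matrix Ω Ω ℝ}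
    (hν : proj B0 * (lam • (1 : Matrix Ω Ω ℝ) + φr + φc + (fs + g0)) * proj (perp B) = 0)
    (hr : ∀ i k, i ∉ J → φr i k = 0) (hcc : ∀ i k, k ∉ J → φc i k = 0)
    (g1 : ∀ i k, i ∈ J → g0 i k = 0) (g2 : ∀ i k, k ∈ J → g0 i k = 0)
    (gs : Sparse r g0) (gt : g0.trace = 0) : c0 * fro g0 ≤ 2 * fro fs := by
  set PJ := proj (B0 ⊓ coordS Jᶜ) with hPJ
  set QJ := proj (perp B ⊓ coordS Jᶜ) with hQJ
  have e1 : PJ * proj B0 = PJ := proj_mul_of_le' inf_le_left
  have e2 : proj (perp B) * QJ = QJ := proj_mul_of_le inf_le_left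
  have e3 : PJ * QJ = 0 := by
    rw [← e1, ← e2, Matrix.mul_assoc, ← Matrix.mul_assoc (proj B0), PQ H.le, Matrix.zero_mul,
      Matrix.mul_zero]
  have e4 : PJ * (lam • (1 : Matrix Ω Ω ℝ) + φr + φc + (fs + g0)) * QJ = 0 := by
    have := congrArg (fun M => PJ * M * QJ) hν
    simp only [Matrix.mul_zero, Matrix.zero_mul] at this
    rw [← this]
    simp only [← Matrix.mul_assoc, e1]
    rw [Matrix.mul_assoc _ (proj (perp B)), e2]
  have e5 : PJ * φr = 0 := rowsJ_zero B0 hr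
  have e6 : φc * QJ = 0 := colsJ_zero (perp B) hcc
  have e7 : PJ * g0 * QJ = -(PJ * fs * QJ) := by
    simp only [Matrix.mul_add, Matrix.add_mul, Matrix.mul_smul, Matrix.smul_mul, Matrix.mul_one,
      e3, e5, Matrix.mul_assoc PJ φc, e6, smul_zero, Matrix.zero_mul, Matrix.mul_zero,
      zero_add] at e4
    exact eq_neg_of_add_eq_zero_right e4
  have a1 : c0 * fro g0 ≤ fro (PJ * g0) := le_fro_mul_left hc g0 fun k =>
    lowJ hc H.lo (fun i hi => g1 i k hi) ((Nat.add_le_add_right (gs.2 k) _).trans hs)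
  have a2 : fro (PJ * g0 * QJ) ≤ fro fs := by
    rw [e7, fro_neg]
    exact (fro_mul_proj_le _ _).trans (fro_proj_mul_le _ _)
  have a3 : 1 * fro (PJ * g0 - PJ * g0 * QJ) ≤ 2 * fro (PJ * g0 * proj B) := by
    refine fro_le_rows zero_le_one zero_le_two fun i => ?_
    have := upJ H.up ((Nat.le_add_left _ _).trans hs) (x := (PJ * g0) i) (J := J) fun k hk => by
      simp [mul_apply, g2 _ k hk]
    rw [one_mul, row_mul (PJ * g0) (proj B), proj_transpose]
    refine le_trans (le_of_eq ?_) this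
    congr 1
    rw [← proj_transpose (perp B ⊓ coordS Jᶜ), ← row_mul]; rfl
  have a4 : fro (PJ * g0 * proj B) ≤ c0 / 4 * fro g0 := by
    have hsp : Sparse s g0 := ⟨fun i => (gs.1 i).trans ((Nat.le_add_right _ _).trans hs),
      fun i => (gs.2 i).trans ((Nat.le_add_right _ _).trans hs)⟩
    refine le_trans ?_ (H.r4 g0 hsp gt)
    rw [← e1, Matrix.mul_assoc PJ, Matrix.mul_assoc PJ]
    exact fro_proj_mul_le _ _
  have a5 := fro_add_le (PJ * g0 - PJ * g0 * QJ) (PJ * g0 * QJ)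
  rw [sub_add_cancel] at a5
  linarith

omit [DecidableEq Ω] in
theorem sq_aux {A B f : ℝ} (h : A ≤ B + sq Ω * f) :
    sq Ω * A ≤ sq Ω * B + (Fintype.card Ω : ℝ) * f := by
  have h2 := mul_le_mul_of_nonneg_left h (sq_nonneg' (I := Ω))
  rwa [mul_add, ← mul_assoc, sq_mul_sq] at h2

/-- The decomposition once the matrix is split into rows, columns and a small remainder. -/
theorem split {B0 B : Submodule ℝ (Ω → ℝ)} {c0 κ : ℝ} {s : ℕ} (H : TFH B0 B c0 κ s)
    (hc : 0 < c0) (hc1 : c0 ≤ 1) (hκ : 0 ≤ κ) {J : Finset Ω} (hs : J.card ≤ s)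
    (hJ : κ * √(J.card : ℝ) ≤ sq Ω / 2) {lam : ℝ} {φr φc e : Matrix Ω Ω ℝ}
    (hν : proj B0 * (lam • (1 : Matrix Ω Ω ℝ) + φr + φc + e) * proj (perp B) = 0)
    (hr : ∀ i k, i ∉ J → φr i k = 0) (hcc : ∀ i k, k ∉ J → φc i k = 0) {N M : ℝ}
    (n1 : L1 φr ≤ 2 * N) (n2' : L1 φc ≤ N) (n3 : Fintype.card Ω * fro e ≤ c0 * M) :
    ∃ y z : Matrix Ω Ω ℝ, lam • (1 : Matrix Ω Ω ℝ) + φr + φc + e = lam • 1 + y + z ∧
      (∀ ω', (fun ω => y ω ω') ∈ perp B0) ∧ (∀ ω, z ω ∈ B) ∧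
      sq Ω * ∑ ω', n2 (fun ω => y ω ω') ≤ 2 * κ * (N + 2 * M) + 6 * M ∧
      sq Ω * ∑ ω, n2 (z ω) ≤ κ * (3 * N + 5 * M + 2 * κ * (N + 2 * M)) + 6 * M := by
  set PJ := proj (B0 ⊓ coordS Jᶜ) with hPJ
  set P := proj B0 with hP
  set Q := proj (perp B) with hQ
  set L : ℝ := (Fintype.card Ω : ℝ) with hL
  have hL0 : 0 ≤ L := Nat.cast_nonneg _
  have hM : 0 ≤ M := by
    have := (mul_nonneg hL0 (fro_nonneg e)).trans n3
    exact le_of_mul_le_mul_left (by rwa [mul_zero]) hc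
  have n3' : L * fro e ≤ M := n3.trans (by nlinarith)
  have e0 : P * Q = 0 := PQ H.le
  have e1 : PJ * P = PJ := proj_mul_of_le' inf_le_left
  have e3 : PJ * Q = 0 := by rw [← e1, Matrix.mul_assoc, e0, Matrix.mul_zero]
  have e4 : PJ * (lam • (1 : Matrix Ω Ω ℝ) + φr + φc + e) * Q = 0 := by
    have := congrArg (fun M => PJ * M) hν
    simp only [Matrix.mul_zero, ← Matrix.mul_assoc, e1] at this
    exact this
  have e5 : PJ * φr = 0 := rowsJ_zero B0 hr
  have e7 : PJ * φc * Q = -(PJ * e * Q) := by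
    simp only [Matrix.mul_add, Matrix.add_mul, Matrix.mul_smul, Matrix.smul_mul, Matrix.mul_one,
      e3, e5, smul_zero, Matrix.zero_mul, zero_add] at e4
    exact eq_neg_of_add_eq_zero_left e4
  set e2 := PJ * φc with he2
  have a1 : 1 / 2 * fro e2 ≤ fro (e2 * Q) := le_fro_mul_right (by norm_num) e2 fun i => by
    rw [hQ, proj_transpose]
    refine lowQ H.up (le_trans (supp_le_card fun k hk => ?_) hs)
    simp [he2, mul_apply, hcc _ k hk]
  have a2 : fro e2 ≤ 2 * fro e := by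
    rw [e7, fro_neg] at a1
    have := (fro_mul_proj_le (perp B) (PJ * e)).trans (fro_proj_mul_le _ e)
    linarith
  choose y' hy' w hw hdec using fun k => decomp B0 J fun i => φc i k
  set Y : Matrix Ω Ω ℝ := Matrix.of fun i k => y' k i with hY
  set W : Matrix Ω Ω ℝ := Matrix.of fun i k => w k i with hW
  have d1 : φc - e2 = Y + W := by
    ext i k
    exact congrFun (hdec k) i
  have b0 : L1 (φc - e2) ≤ N + 2 * M := by
    refine (L1_sub_le _ _).trans (add_le_add n2' ((L1_le_fro _).trans ?_))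
    have := mul_le_mul_of_nonneg_left a2 hL0
    linarith
  have b1 : sq Ω * ∑ k, n2 (fun i => Y i k) ≤ 2 * κ * (N + 2 * M) := by
    refine le_trans ?_ (mul_le_mul_of_nonneg_left b0 (by linarith))
    rw [L1, ← sum_l1_cols, mul_sum, mul_sum]
    refine sum_le_sum fun k _ => offJ hκ H.e0 hJ (hy' k) fun i hi => ?_
    rw [d1]
    simp [hW, hw k i hi]
  have b2 : L1 Y ≤ 2 * κ * (N + 2 * M) := by
    refine le_trans ?_ b1
    rw [L1, ← sum_l1_cols, mul_sum]
    exact sum_le_sum fun k _ => l1_le _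
  have b3 : L1 W ≤ N + 2 * M + 2 * κ * (N + 2 * M) := by
    have : W = φc - e2 - Y := by rw [d1]; abel
    rw [this]
    exact (L1_sub_le _ _).trans (add_le_add b0 b2)
  have pY : P * Y = 0 := proj_mul_eq_zero fun k => hy' k
  set ψ := φr + W with hψ
  have d2 : φc = Y + W + e2 := by rw [← d1]; abel
  have e8 : P * (ψ * Q) = -(P * (e + e2) * Q) := by
    rw [d2] at hν
    simp only [Matrix.mul_add, Matrix.add_mul, Matrix.mul_smul, Matrix.smul_mul, Matrix.mul_one,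
      e0, pY, smul_zero, zero_add] at hν
    simp only [hψ, Matrix.mul_add, Matrix.add_mul, ← Matrix.mul_assoc]
    rw [eq_neg_iff_add_eq_zero, ← hν]; abel
  set e1' := ψ * Q with he1
  have a3 : c0 * fro e1' ≤ 3 * fro e := by
    have h1 : c0 * fro e1' ≤ fro (P * e1') := le_fro_mul_left hc.le e1' fun k => by
      refine H.lo _ (le_trans (supp_le_card fun i hi => ?_) hs)
      simp [he1, hψ, hW, mul_apply, hr i _ hi, hw _ i hi]
    rw [e8, fro_neg] at h1
    have h2 := (fro_mul_proj_le (perp B) (P * (e + e2))).trans (fro_proj_mul_le _ (e + e2))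
    have h3 := fro_add_le e e2
    linarith
  have a4 : L * fro e1' ≤ 3 * M := by
    have h1 := mul_le_mul_of_nonneg_left a3 hL0
    have h2 : c0 * (L * fro e1') ≤ c0 * (3 * M) := by linarith
    exact le_of_mul_le_mul_left h2 hc
  set Z := ψ * proj B with hZ
  have d3 : ψ = Z + e1' := by
    rw [hZ, he1, ← Matrix.mul_add, hQ, proj_perp, add_sub_cancel, Matrix.mul_one]
  have hZm : ∀ i, Z i ∈ B := fun i => by
    rw [hZ, row_mul, proj_transpose]; exact proj_mem _ _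
  have zQ : Z * Q = 0 := by rw [hZ, Matrix.mul_assoc, PQ le_rfl, Matrix.mul_zero]
  have b4 : sq Ω * ∑ i, n2 (Z i) ≤ κ * (3 * N + 5 * M + 2 * κ * (N + 2 * M)) := by
    have h1 : L1 Z ≤ 3 * N + 5 * M + 2 * κ * (N + 2 * M) := by
      have : Z = ψ - e1' := by rw [d3]; abel
      rw [this]
      have h2 := L1_sub_le ψ e1'
      have h3 := L1_add_le φr W
      have h4 := L1_le_fro e1'
      linarith
    refine le_trans ?_ (mul_le_mul_of_nonneg_left h1 hκ)
    rw [L1, mul_sum, mul_sum]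
    exact sum_le_sum fun i _ => H.eB _ (hZm i)
  set e3' := e + e1' + e2 with he3
  have d4 : lam • (1 : Matrix Ω Ω ℝ) + φr + φc + e = lam • 1 + Y + Z + e3' := by
    have : φr = Z + e1' - W := by rw [← d3, hψ]; abel
    rw [this, d2, he3]; abel
  have e9 : P * e3' * Q = 0 := by
    rw [d4] at hν
    simpa only [Matrix.mul_add, Matrix.add_mul, Matrix.mul_smul, Matrix.smul_mul, Matrix.mul_one,
      e0, pY, smul_zero, Matrix.zero_mul, zero_add, Matrix.mul_assoc P Z, zQ, Matrix.mul_zero]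
      using hν
  have a5 : L * fro e3' ≤ 6 * M := by
    have h1 := (fro_add_le (e + e1') e2).trans (add_le_add (fro_add_le e e1') a2)
    have h2 := mul_le_mul_of_nonneg_left h1 hL0
    linarith
  have d5 : e3' = proj (perp B0) * e3' + P * e3' * proj B := by
    have h1 : P * e3' * proj B = P * e3' := by
      rw [hQ, proj_perp, Matrix.mul_sub, Matrix.mul_one, sub_eq_zero] at e9
      exact e9.symm
    rw [h1, proj_perp, ← Matrix.add_mul, sub_add_cancel, Matrix.one_mul]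
  refine ⟨Y + proj (perp B0) * e3', Z + P * e3' * proj B, ?_, fun k => ?_, fun i => ?_, ?_, ?_⟩
  · rw [d4]
    conv_lhs => rw [d5]
    abel
  · exact (perp B0).add_mem (hy' k) (proj_mem (perp B0) fun i => e3' i k)
  · refine B.add_mem (hZm i) ?_
    rw [row_mul, proj_transpose]; exact proj_mem _ _
  · have h1 : ∑ k, n2 (fun i => (Y + proj (perp B0) * e3') i k) ≤
        ∑ k, n2 (fun i => Y i k) + sq Ω * fro e3' := by
      refine le_trans ?_ (add_le_add le_rfl ((sum_cols_le (proj (perp B0) * e3')).trans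
        (mul_le_mul_of_nonneg_left (fro_proj_mul_le _ _) sq_nonneg')))
      rw [← sum_add_distrib]
      exact sum_le_sum fun k _ => n2_add_le (fun i => Y i k) _
    have h2 := sq_aux h1
    linarith
  · have h1 : ∑ i, n2 ((Z + P * e3' * proj B) i) ≤ ∑ i, n2 (Z i) + sq Ω * fro e3' := by
      refine le_trans ?_ (add_le_add le_rfl ((sum_rows_le (P * e3' * proj B)).trans
        (mul_le_mul_of_nonneg_left ((fro_mul_proj_le _ _).trans (fro_proj_mul_le _ _))
          sq_nonneg')))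
      rw [← sum_add_distrib]
      exact sum_le_sum fun i _ => n2_add_le (Z i) _
    have h2 := sq_aux h1
    linarith

omit [DecidableEq Ω] in
/-- Few rows have many big entries. -/
theorem rows_card (ν : Matrix Ω Ω ℝ) {j : ℕ} (hj : 1 ≤ j) :
    (univ.filter fun i => j < (univ.filter fun k => L1 ν / (j : ℝ) ^ 2 < |ν i k|).card).card
      ≤ j := by
  set τ := L1 ν / (j : ℝ) ^ 2 with hτ
  set R := univ.filter fun i => j < (univ.filter fun k => τ < |ν i k|).card with hR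
  have hj0 : (0 : ℝ) < j := by exact_mod_cast hj
  have hτ0 : 0 ≤ τ := div_nonneg (L1_nonneg ν) (sq_nonneg _)
  have h1 : ∀ i ∈ R, (j : ℝ) * τ < l1 (ν i) := fun i hi => by
    have hi' := (mem_filter.1 hi).2
    have hne : (univ.filter fun k => τ < |ν i k|).Nonempty := card_pos.1 (by omega)
    have h2 := sum_lt_sum_of_nonempty hne (f := fun _ => τ) (g := fun k => |ν i k|)
      fun k hk => (mem_filter.1 hk).2
    have h3 : ∑ k ∈ univ.filter fun k => τ < |ν i k|, |ν i k| ≤ l1 (ν i) :=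
      sum_le_sum_of_subset_of_nonneg (subset_univ _) fun _ _ _ => abs_nonneg _
    rw [sum_const, nsmul_eq_mul] at h2
    have h4 : (j : ℝ) ≤ (univ.filter fun k => τ < |ν i k|).card := by exact_mod_cast hi'.le
    nlinarith
  by_contra hh
  push Not at hh
  have hne : R.Nonempty := card_pos.1 (by omega)
  have h2 := sum_lt_sum_of_nonempty hne (f := fun _ => (j : ℝ) * τ) h1
  have h3 : ∑ i ∈ R, l1 (ν i) ≤ L1 ν :=
    sum_le_sum_of_subset_of_nonneg (subset_univ _) fun _ _ _ => l1_nonneg _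
  rw [sum_const, nsmul_eq_mul] at h2
  have h4 : (j : ℝ) ≤ R.card := by exact_mod_cast hh.le
  have h5 : (j : ℝ) * (j * τ) = L1 ν := by rw [hτ]; field_simp
  have h6 := mul_le_mul_of_nonneg_right h4 (mul_nonneg hj0.le hτ0)
  linarith

theorem comb (ν : Matrix Ω Ω ℝ) {j : ℕ} (hj : 1 ≤ j) (hL : 4 * j ≤ Fintype.card Ω) :
    ∃ (J : Finset Ω) (lam : ℝ) (φr φc g0 fs : Matrix Ω Ω ℝ), J.card ≤ 2 * j ∧
      ν = lam • (1 : Matrix Ω Ω ℝ) + φr + φc + (fs + g0) ∧
      (∀ i k, i ∉ J → φr i k = 0) ∧ (∀ i k, k ∉ J → φc i k = 0) ∧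
      (∀ i k, i ∈ J → g0 i k = 0) ∧ (∀ i k, k ∈ J → g0 i k = 0) ∧
      Sparse (j + 1) g0 ∧ g0.trace = 0 ∧ L1 φr ≤ 2 * L1 ν ∧ L1 φc ≤ L1 ν ∧
      j * fro fs ≤ L1 ν ∧ |lam| * Fintype.card Ω ≤ 2 * L1 ν := by
  have hT : L1 νᵀ = L1 ν := sum_l1_cols ν
  have hR := rows_card ν hj
  have hC := rows_card νᵀ hj
  rw [hT] at hC
  set τ := L1 ν / (j : ℝ) ^ 2 with hτ
  set R := univ.filter fun i => j < (univ.filter fun k => τ < |ν i k|).card with hRd
  set C := univ.filter fun i => j < (univ.filter fun k => τ < |νᵀ i k|).card with hCd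
  have hj0 : (0 : ℝ) < j := by exact_mod_cast hj
  have hτ0 : 0 ≤ τ := div_nonneg (L1_nonneg ν) (sq_nonneg _)
  have hN := L1_nonneg ν
  set J := R ∪ C with hJ
  have hJc : J.card ≤ 2 * j := (card_union_le _ _).trans (by omega)
  set fb : Matrix Ω Ω ℝ := Matrix.of fun i k => if τ < |ν i k| then ν i k else 0 with hfb
  set fs : Matrix Ω Ω ℝ := Matrix.of fun i k => if τ < |ν i k| then 0 else ν i k with hfs
  have fb_le : ∀ i k, |fb i k| ≤ |ν i k| := fun i k => by
    simp only [hfb, of_apply]; split_ifs <;> simp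
  set lam : ℝ := (∑ i ∈ Jᶜ, fb i i) / (Jᶜ).card with hlam
  have hcc : (Fintype.card Ω : ℝ) ≤ 2 * (Jᶜ).card := by
    have : Fintype.card Ω ≤ 2 * (Jᶜ).card := by rw [card_compl]; omega
    exact_mod_cast this
  have hcJ : 2 * (J.card : ℝ) ≤ Fintype.card Ω := by
    have : 2 * J.card ≤ Fintype.card Ω := by omega
    exact_mod_cast this
  have hc0 : (0 : ℝ) < (Jᶜ).card := by
    have : 0 < (Jᶜ).card := by rw [card_compl]; omega
    exact_mod_cast this
  have hl1 : |lam| * (Jᶜ).card ≤ L1 ν := by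
    rw [hlam, abs_div, abs_of_pos hc0, div_mul_cancel₀ _ hc0.ne']
    refine (abs_sum_le_sum_abs _ _).trans ?_
    refine (sum_le_sum_of_subset_of_nonneg (subset_univ _) fun _ _ _ => abs_nonneg _).trans ?_
    exact sum_le_sum fun i _ => (fb_le i i).trans
      (single_le_sum (f := fun k => |ν i k|) (fun _ _ => abs_nonneg _) (mem_univ i))
  have hl2 : |lam| * Fintype.card Ω ≤ 2 * L1 ν := by
    have := mul_le_mul_of_nonneg_left hcc (abs_nonneg lam)
    linarith
  refine ⟨J, lam, Matrix.of fun i k => if i ∈ J then fb i k - (if i = k then lam else 0) else 0,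
    Matrix.of fun i k => if i ∉ J ∧ k ∈ J then fb i k else 0,
    Matrix.of fun i k => if i ∉ J ∧ k ∉ J then fb i k - (if i = k then lam else 0) else 0, fs,
    hJc, ?_, ?_, ?_, ?_, ?_, ⟨fun i => ?_, fun k => ?_⟩, ?_, ?_, ?_, ?_, hl2⟩
  · ext i k
    have h1 : ν i k = fb i k + fs i k := by
      simp only [hfb, hfs, of_apply]; split_ifs <;> simp
    simp only [Matrix.add_apply, Matrix.smul_apply, one_apply, of_apply, smul_eq_mul, h1]
    by_cases hik : i = k
    · subst hik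
      by_cases hi : i ∈ J <;> simp [hi] <;> ring
    · by_cases hi : i ∈ J <;> by_cases hk : k ∈ J <;> simp [hi, hk, hik] <;> ring
  · intro i k hi; simp [hi]
  · intro i k hk; simp [hk]
  · intro i k hi; simp [hi]
  · intro i k hk; simp [hk]
  · by_cases hi : i ∈ J
    · exact (supp_le_card (S := ∅) fun k _ => by simp [hi]).trans (by simp)
    · have h1 : (univ.filter fun k => τ < |ν i k|).card ≤ j := by
        by_contra hh
        exact hi (mem_union_left _ (mem_filter.2 ⟨mem_univ _, not_le.1 hh⟩))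
      refine (supp_le_card (S := insert i (univ.filter fun k => τ < |ν i k|)) fun k hk => ?_).trans
        ((card_insert_le _ _).trans (by omega))
      simp only [mem_insert, mem_filter, mem_univ, true_and, not_or] at hk
      simp [hfb, hk.2, Ne.symm hk.1]
  · by_cases hk : k ∈ J
    · exact (supp_le_card (S := ∅) fun i _ => by simp [hk]).trans (by simp)
    · have h1 : (univ.filter fun i => τ < |νᵀ k i|).card ≤ j := by
        by_contra hh
        exact hk (mem_union_right _ (mem_filter.2 ⟨mem_univ _, not_le.1 hh⟩))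
      refine (supp_le_card (S := insert k (univ.filter fun i => τ < |νᵀ k i|)) fun i hi => ?_).trans
        ((card_insert_le _ _).trans (by omega))
      simp only [mem_insert, mem_filter, mem_univ, true_and, not_or, transpose_apply] at hi
      simp [hfb, hi.2, hi.1]
  · have h1 : ∀ i, (if i ∉ J ∧ i ∉ J then fb i i - (if i = i then lam else 0) else 0) =
        if i ∈ Jᶜ then fb i i - lam else 0 := fun i => by simp
    refine (sum_congr rfl fun i _ => h1 i).trans ?_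
    rw [← sum_filter, filter_univ_mem, sum_sub_distrib, sum_const, nsmul_eq_mul, hlam]
    field_simp
    ring
  · have h1 : ∀ i, l1 ((Matrix.of fun i k => if i ∈ J then fb i k - (if i = k then lam else 0)
        else 0 : Matrix Ω Ω ℝ) i) ≤ l1 (ν i) + if i ∈ J then |lam| else 0 := fun i => by
      by_cases hi : i ∈ J
      · have h2 : ∑ k, |if i = k then lam else 0| = |lam| := by
          rw [sum_eq_single i (fun k _ hk => by simp [Ne.symm hk]) (by simp)]; simp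
        simp only [l1, of_apply, hi, if_true]
        rw [← h2, ← sum_add_distrib]
        exact sum_le_sum fun k _ => (abs_sub _ _).trans (add_le_add (fb_le i k) le_rfl)
      · simp only [l1, of_apply, hi, if_false, abs_zero, sum_const_zero, add_zero]
        exact l1_nonneg _
    refine (sum_le_sum fun i _ => h1 i).trans ?_
    rw [sum_add_distrib, ← sum_filter, filter_univ_mem, sum_const, nsmul_eq_mul]
    have := mul_le_mul_of_nonneg_left hcJ (abs_nonneg lam)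
    change L1 ν + _ ≤ _
    linarith
  · refine L1_mono fun i k => ?_
    simp only [of_apply]
    split_ifs
    · exact fb_le i k
    · simp
  · have h1 : fro fs ^ 2 ≤ τ * L1 ν := by
      rw [fro_sq_rows, L1, mul_sum]
      refine sum_le_sum fun i _ => (n2_sq_le_sup_mul (τ := τ) fun k => ?_).trans
        (mul_le_mul_of_nonneg_left (l1_mono fun k => ?_) hτ0)
      · simp only [hfs, of_apply]
        split_ifs with h
        · simpa using hτ0
        · exact not_lt.1 h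
      · simp only [hfs, of_apply]
        split_ifs <;> simp
    refine le_of_sq_le_sq' hN ?_
    have h2 : L1 ν ^ 2 = (j : ℝ) ^ 2 * (τ * L1 ν) := by rw [hτ]; field_simp
    rw [mul_pow, h2]
    exact mul_le_mul_of_nonneg_left h1 (sq_nonneg _)

end TFA

open TFA in
theorem tf : S_TF := by
  intro c0 κ σ hc hc1 hκ hσ hσ1
  set a : ℝ := min (σ / 8) (1 / (8 * κ ^ 2)) with ha
  have hκ0 : 0 < κ := by linarith
  have ha0 : 0 < a := lt_min (by linarith) (by positivity)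
  have ha1 : a ≤ σ / 8 := min_le_left _ _
  have ha2 : a ≤ 1 / (8 * κ ^ 2) := min_le_right _ _
  set m : ℝ := 6 / (a * c0 ^ 2) with hm
  have hm0 : 0 < m := by positivity
  refine ⟨2 + (2 * κ * (1 + 2 * m) + 6 * m) + (κ * (3 + 5 * m + 2 * κ * (1 + 2 * m)) + 6 * m),
    ⌈1 / a⌉₊, by
      have : 0 ≤ 2 * κ * (1 + 2 * m) + 6 * m := by positivity
      have : 0 ≤ κ * (3 + 5 * m + 2 * κ * (1 + 2 * m)) + 6 * m := by positivity
      linarith, ?_⟩
  intro Ω _ _ hL B0 B s hs H ν hν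
  set L : ℝ := (Fintype.card Ω : ℝ) with hLd
  have hL1 : 1 ≤ a * L := by
    have h1 : 1 / a ≤ L := (Nat.le_ceil _).trans (by rw [hLd]; exact_mod_cast hL)
    rw [div_le_iff₀ ha0] at h1
    linarith
  have hL0 : 0 < L := by
    by_contra hh
    nlinarith [not_lt.1 hh]
  set j := ⌊a * L⌋₊ with hj
  have hj1 : 1 ≤ j := Nat.le_floor (by simpa using hL1)
  have hj1' : (1 : ℝ) ≤ j := by exact_mod_cast hj1
  have hj2 : (j : ℝ) ≤ a * L := Nat.floor_le (by linarith)
  have hj3 : a * L ≤ 2 * j := by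
    have := Nat.lt_floor_add_one (a * L)
    linarith
  have hj4 : 8 * (j : ℝ) ≤ σ * L := by nlinarith
  have hj5 : 8 * j ≤ s := by
    have : 8 * (j : ℝ) ≤ s := hj4.trans hs
    exact_mod_cast this
  have hj6 : 4 * j ≤ Fintype.card Ω := by
    have : 4 * (j : ℝ) ≤ L := by nlinarith
    rw [hLd] at this
    exact_mod_cast this
  obtain ⟨J, lam, φr, φc, g0, fs, hJ, hdec, hr, hcc, g1, g2, gs, gt, n1, n2', n3, n4⟩ :=
    comb ν hj1 hj6
  have hPQ := PnQ hν
  rw [hdec] at hPQ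
  have h1 := g0_le H hc.le (r := j + 1) (by omega) hPQ hr hcc g1 g2 gs gt
  have hJ2 : κ * √(J.card : ℝ) ≤ sq Ω / 2 := by
    refine le_of_sq_le_sq' (by linarith [sq_nonneg' (I := Ω)]) ?_
    rw [mul_pow, div_pow, sq_sq, Real.sq_sqrt (Nat.cast_nonneg _), ← hLd]
    have h2 : (J.card : ℝ) ≤ 2 * j := by exact_mod_cast hJ
    have h3 : a * (8 * κ ^ 2) ≤ 1 := by rwa [le_div_iff₀ (by positivity)] at ha2
    have h4 : κ ^ 2 * J.card ≤ κ ^ 2 * (2 * (a * L)) :=
      mul_le_mul_of_nonneg_left (by linarith) (sq_nonneg _)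
    nlinarith
  have hN := L1_nonneg ν
  have h2 : L * fro (fs + g0) ≤ c0 * (m * L1 ν) := by
    have h3 : c0 * fro (fs + g0) ≤ 3 * fro fs := by
      have := mul_le_mul_of_nonneg_left (fro_add_le fs g0) hc.le
      nlinarith [fro_nonneg fs]
    have h4 : a * L * fro fs ≤ 2 * L1 ν := by nlinarith [fro_nonneg fs]
    have h5 : c0 * (m * L1 ν) = 6 * L1 ν / (a * c0) := by rw [hm]; field_simp
    rw [h5, le_div_iff₀ (by positivity)]
    have h6 := mul_le_mul_of_nonneg_left h3 (mul_pos ha0 hL0).le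
    nlinarith
  obtain ⟨y, z, e, hy, hz, b1, b2⟩ :=
    split H hc hc1 hκ0.le (hJ.trans (by omega)) hJ2 hPQ hr hcc n1 n2' h2
  refine ⟨lam * L, y, z, ?_, hy, hz, ?_⟩
  · rw [mul_div_cancel_right₀ _ hL0.ne', ← e]; exact hdec
  · rw [abs_mul, abs_of_pos hL0]
    change _ ≤ _ * L1 ν
    nlinarith

end Pool.Agent.P.MP_1bacd4_an
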