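import Pool.Agent.P.MP_1bacd4_an.Cube
import Pool.Agent.P.MP_1bacd4_an.Lift
import Pool.Agent.P.MP_1bacd4_an.Push
import Pool.Agent.P.MP_1bacd4_an.PushBil
import Pool.Agent.P.MP_1bacd4_an.Lim
import Pool.Agent.P.MP_1bacd4_an.Schur
import Pool.Agent.P.MP_1bacd4_an.End1
import Pool.Agent.P.MP_1bacd4_an.End2
import Pool.Agent.P.MP_1bacd4_an.End3
import Pool.Agent.P.MP_1bacd4_an.Cx
import Pool.Agent.P.MP_1bacd4_an.Conc
import Pool.Agent.P.MP_1bacd4_an.Mom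
import Pool.Agent.P.MP_1bacd4_an.Iso
import Pool.Agent.P.MP_1bacd4_an.Chain
import Pool.Agent.P.MP_1bacd4_an.Dec
import Pool.Agent.P.MP_1bacd4_an.Decoup
import Pool.Agent.P.MP_1bacd4_an.Det
import Pool.Agent.P.MP_1bacd4_an.TF
import Pool.Agent.P.MP_1bacd4_an.Main

/-! Assembly of the pieces. -/

set_option autoImplicit false

namespace Pool.Agent.P.MP_1bacd4_an

open Module

theorem rand (hE : S_Exist) : S_Rand := by
  obtain ⟨D, σ, hD, hσ, hσ1, hE⟩ := hE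
  obtain ⟨ε, κ, c0, σ', hε, hκ, hc, hc1, hσ', hσ1', L1, hdet⟩ := det D σ hD hσ hσ1
  obtain ⟨K1, L2, hK, htf⟩ := tf c0 κ σ' hc hc1 hκ hσ' hσ1'
  refine ⟨ε, κ, K1, hε, hκ, hK, fun m => ?_⟩
  obtain ⟨L0, hE⟩ := hE (m + m + m)
  refine ⟨max L0 (max L1 L2), fun Ω _ _ hL Λ Z Y h1 h2 h3 r1 r2 r3 s1 s2 s3 => ?_⟩
  obtain ⟨d, s, Γ, e1, e2, e3, e4⟩ := hE Ω (le_of_max_le_left hL) (Λ ⊔ Z ⊔ Y)
    ((Submodule.finrank_add_le_finrank_add_finrank _ _).trans (add_le_add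
      ((Submodule.finrank_add_le_finrank_add_finrank _ _).trans (add_le_add r1 r2)) r3))
  obtain ⟨B0, s', b1, b2, b3, b4, b5⟩ := hdet Ω (le_of_max_le_left (le_of_max_le_right hL))
    Λ Z Y h1 h2 h3 s1 s2 s3 d s Γ e1 e2 e3 e4
  exact ⟨B0, b1, b2, b3, b5.eB, b5.e0,
    htf Ω (le_of_max_le_right (le_of_max_le_right hL)) B0 _ s' b4 b5⟩

theorem realSol {X Y : Type} [NormedAddCommGroup X] [NormedSpace ℝ X] [CompleteSpace X]
    [NormedAddCommGroup Y] [NormedSpace ℝ Y] {β : Y →L[ℝ] X →L[ℝ] ℝ} {C : ℝ}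
    (h : Good X Y β C) : RealSol X := by
  obtain ⟨hno, hinf⟩ := schur adm X h.chain
  refine ⟨hinf, fun S => ?_⟩
  obtain ⟨l, hl⟩ := twoSum X Y β C h S
  obtain ⟨q, hq1, hq2⟩ := piet X _ _ hl
  obtain ⟨C2, hC2, hf⟩ := nucFin cube (ext cube) nucSer X Y β C h
  obtain ⟨C3, h3⟩ := hilb nucSer X C2 hC2 hf hno _ _ q hq1 hq2
  exact ⟨l, C3, h3⟩

end Pool.Agent.P.MP_1bacd4_an
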