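import Mathlib
import Pool.Agent.P.MP_1bacd4_an.Schur

/-! A space with an admissible chain has the Schur property and is separable. -/

set_option autoImplicit false

namespace Pool.Agent.P.MP_1bacd4_an

open Finset Module Filter Topology

namespace SchurB

variable {X : Type} [NormedAddCommGroup X] [NormedSpace ℝ X]

/-- A contraction on `A` extends with any admissible value at `y`. -/
theorem ext_val (A : Submodule ℝ X) (y : X) (hy : y ∉ A) (f : X →L[ℝ] ℝ) (hf : ‖f‖ ≤ 1) (c : ℝ)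
    (hU : ∀ e ∈ A, c ≤ ‖e + y‖ - f e) (hL : ∀ e ∈ A, f e - ‖e - y‖ ≤ c) :
    ∃ g : X →L[ℝ] ℝ, ‖g‖ ≤ 1 ∧ (∀ e ∈ A, g e = f e) ∧ g y = c := by
  let f0 : X →ₗ.[ℝ] ℝ := (f : X →ₗ[ℝ] ℝ).toPMap A
  have hy0 : y ∉ f0.domain := hy
  have hfe : ∀ e, f e ≤ ‖e‖ := fun e => by
    have h1 := f.le_opNorm e
    have h2 := le_abs_self (f e)
    have h3 := mul_le_mul_of_nonneg_right hf (norm_nonneg e)
    rw [Real.norm_eq_abs] at h1
    linarith
  have key : ∀ e ∈ A, ∀ t : ℝ, f e + t * c ≤ ‖e + t • y‖ := by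
    intro e he t
    rcases lt_trichotomy t 0 with ht | rfl | ht
    · have h1 := hL ((-t)⁻¹ • e) (A.smul_mem _ he)
      have ht' : 0 < -t := by linarith
      have e1 : e + t • y = (-t) • ((-t)⁻¹ • e - y) := by
        rw [smul_sub, smul_smul, mul_inv_cancel₀ ht'.ne', one_smul, neg_smul, sub_neg_eq_add]
      rw [e1, norm_smul, Real.norm_eq_abs, abs_of_pos ht']
      rw [map_smul, smul_eq_mul] at h1
      have h2 := mul_le_mul_of_nonneg_left h1 ht'.le
      rw [mul_sub, ← mul_assoc, mul_inv_cancel₀ ht'.ne', one_mul] at h2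
      linarith
    · simpa using hfe e
    · have h1 := hU (t⁻¹ • e) (A.smul_mem _ he)
      have e1 : e + t • y = t • (t⁻¹ • e + y) := by
        rw [smul_add, smul_smul, mul_inv_cancel₀ ht.ne', one_smul]
      rw [e1, norm_smul, Real.norm_eq_abs, abs_of_pos ht]
      rw [map_smul, smul_eq_mul] at h1
      have h2 := mul_le_mul_of_nonneg_left h1 ht.le
      rw [mul_sub, ← mul_assoc, mul_inv_cancel₀ ht.ne', one_mul] at h2
      linarith
  have happ : ∀ (e : X) (he : e ∈ A) (t : ℝ) (h : e + t • y ∈ (f0.supSpanSingleton y c hy0).domain),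
      f0.supSpanSingleton y c hy0 ⟨e + t • y, h⟩ = f e + t * c := fun e he t h =>
    LinearPMap.supSpanSingleton_apply_mk f0 y c hy0 e he t
  obtain ⟨g, hg1, hg2⟩ := exists_extension_of_le_sublinear (f0.supSpanSingleton y c hy0)
    (fun x => ‖x‖) (fun t ht x => by rw [norm_smul, Real.norm_eq_abs, abs_of_pos ht])
    (fun x x' => norm_add_le x x') (by
      rintro ⟨x, hx⟩
      obtain ⟨e, he, w, hw, rfl⟩ := Submodule.mem_sup.1 hx
      obtain ⟨t, rfl⟩ := Submodule.mem_span_singleton.1 hw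
      rw [happ e he t hx]
      exact key e he t)
  have hg3 : ∀ x, ‖g x‖ ≤ 1 * ‖x‖ := fun x => by
    have h1 := hg2 x
    have h2 := hg2 (-x)
    simp only [map_neg, norm_neg] at h2
    rw [Real.norm_eq_abs, one_mul, abs_le]
    constructor <;> linarith
  have hg4 : ∀ e ∈ A, ∀ t : ℝ, g (e + t • y) = f e + t * c := fun e he t => by
    have hm : e + t • y ∈ (f0.supSpanSingleton y c hy0).domain :=
      Submodule.mem_sup.2 ⟨e, he, _, Submodule.mem_span_singleton.2 ⟨t, rfl⟩, rfl⟩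
    exact (hg1 ⟨_, hm⟩).trans (happ e he t hm)
  refine ⟨g.mkContinuous 1 hg3, LinearMap.mkContinuous_norm_le _ zero_le_one _, fun e he => ?_, ?_⟩
  · simpa using hg4 e he 0
  · simpa using hg4 0 A.zero_mem 1

/-- Along an admissible inclusion a contraction can be changed off `A` so that it is large at
a vector far from `A`. -/
theorem ext_big (hA : S_Adm) (A B : Submodule ℝ X) (h : AdmS A B) (y : X) (hy : y ∈ B) (d : ℝ)
    (hd : 0 < d) (hfar : ∀ e ∈ A, d ≤ ‖y - e‖) (f : X →L[ℝ] ℝ) (hf : ‖f‖ ≤ 1) :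
    ∃ g : X →L[ℝ] ℝ, ‖g‖ ≤ 1 ∧ (∀ e ∈ A, g e = f e) ∧ d / 2 ≤ |g y| := by
  have hyA : y ∉ A := fun hyA => by
    have := hfar y hyA
    rw [sub_self, norm_zero] at this
    linarith
  have hfe : ∀ e, f e ≤ ‖e‖ := fun e => by
    have h1 := f.le_opNorm e
    have h2 := le_abs_self (f e)
    have h3 := mul_le_mul_of_nonneg_right hf (norm_nonneg e)
    rw [Real.norm_eq_abs] at h1
    linarith
  have gap : ∀ e ∈ A, ∀ e' ∈ A, f e' - ‖e' - y‖ + d ≤ ‖e + y‖ - f e := by
    intro e he e' he'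
    have hx : (1 / 2 : ℝ) • (e + e') ∈ A := A.smul_mem _ (A.add_mem he he')
    have hu : (1 / 2 : ℝ) • (e - e') ∈ A := A.smul_mem _ (A.sub_mem he he')
    have hs := hA.sign X A B h _ hx (y + (1 / 2 : ℝ) • (e - e')) (B.add_mem hy (h.1 hu)) d
      (fun a ha => by
        have := hfar (a - (1 / 2 : ℝ) • (e - e')) (A.sub_mem ha hu)
        have e1 : y - (a - (1 / 2 : ℝ) • (e - e')) = y + (1 / 2 : ℝ) • (e - e') - a := by abel
        rwa [e1] at this)
    have e1 : (1 / 2 : ℝ) • (e + e') + (y + (1 / 2 : ℝ) • (e - e')) = e + y := by module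
    have e2 : (1 / 2 : ℝ) • (e + e') - (y + (1 / 2 : ℝ) • (e - e')) = e' - y := by module
    rw [e1, e2, norm_smul] at hs
    have h1 := hfe (e + e')
    rw [map_add] at h1
    norm_num at hs
    linarith
  by_cases hU : ∀ e ∈ A, d / 2 ≤ ‖e + y‖ - f e
  · -- take the infimum of the upper bounds
    have hne : (Set.range fun e : A => ‖(e : X) + y‖ - f e).Nonempty := Set.range_nonempty _
    have hbd : BddBelow (Set.range fun e : A => ‖(e : X) + y‖ - f e) :=
      ⟨d / 2, by rintro _ ⟨e, rfl⟩; exact hU e e.2⟩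
    obtain ⟨g, g1, g2, g3⟩ := ext_val A y hyA f hf (sInf (Set.range fun e : A => ‖(e : X) + y‖ - f e))
      (fun e he => csInf_le hbd ⟨⟨e, he⟩, rfl⟩)
      (fun e he => le_csInf hne (by
        rintro _ ⟨e', rfl⟩
        have := gap e' e'.2 e he
        simp only
        linarith))
    refine ⟨g, g1, g2, le_trans ?_ (le_abs_self _)⟩
    rw [g3]
    exact le_csInf hne (by rintro _ ⟨e, rfl⟩; exact hU e e.2)
  · push Not at hU
    obtain ⟨e0, he0, h0⟩ := hU
    have hL : ∀ e ∈ A, f e - ‖e - y‖ ≤ -(d / 2) := fun e he => by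
      have := gap e0 he0 e he
      linarith
    have hne : (Set.range fun e : A => f e - ‖(e : X) - y‖).Nonempty := Set.range_nonempty _
    have hbd : BddAbove (Set.range fun e : A => f e - ‖(e : X) - y‖) :=
      ⟨-(d / 2), by rintro _ ⟨e, rfl⟩; exact hL e e.2⟩
    obtain ⟨g, g1, g2, g3⟩ := ext_val A y hyA f hf (sSup (Set.range fun e : A => f e - ‖(e : X) - y‖))
      (fun e he => csSup_le hne (by
        rintro _ ⟨e', rfl⟩
        have := gap e he e' e'.2
        simp only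
        linarith))
      (fun e he => le_csSup hbd ⟨⟨e, he⟩, rfl⟩)
    refine ⟨g, g1, g2, le_trans ?_ (neg_le_abs _)⟩
    rw [g3, le_neg]
    exact csSup_le hne (by rintro _ ⟨e, rfl⟩; exact hL e e.2)

/-- Late terms of a normalised weakly null sequence stay away from a finite dimensional
subspace. -/
theorem far (z : ℕ → X) (hz1 : ∀ k, ‖z k‖ = 1)
    (hz : ∀ f : X →L[ℝ] ℝ, Tendsto (fun n => f (z n)) atTop (𝓝 0)) (A : Submodule ℝ X)
    [FiniteDimensional ℝ A] (k0 : ℕ) : ∃ k, k0 ≤ k ∧ ∀ e ∈ A, 1 / 4 ≤ ‖z k - e‖ := by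
  by_contra hcon
  push Not at hcon
  have hex : ∀ n : ℕ, ∃ e : A, ‖z (k0 + n) - (e : X)‖ < 1 / 4 := fun n => by
    obtain ⟨e, he, h⟩ := hcon (k0 + n) (Nat.le_add_right _ _)
    exact ⟨⟨e, he⟩, h⟩
  choose e he using hex
  have hbd : ∀ n, e n ∈ Metric.closedBall (0 : A) 2 := fun n => by
    rw [Metric.mem_closedBall, dist_zero_right]
    have h1 : ‖e n‖ = ‖(e n : X)‖ := rfl
    have h2 : ‖(e n : X)‖ ≤ ‖z (k0 + n)‖ + ‖z (k0 + n) - (e n : X)‖ := by
      have := norm_sub_le (z (k0 + n)) (z (k0 + n) - (e n : X))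
      simpa using this
    have := he n
    have := hz1 (k0 + n)
    rw [h1]
    linarith
  have : ProperSpace A := FiniteDimensional.proper ℝ A
  obtain ⟨a, -, φ, hφ, hlim⟩ := tendsto_subseq_of_bounded Metric.isBounded_closedBall hbd
  obtain ⟨n0, hn0⟩ := (Metric.tendsto_atTop.1 hlim) (1 / 8) (by positivity)
  have hclose : ∀ n, n0 ≤ n → ‖z (k0 + φ n) - (a : X)‖ ≤ 3 / 8 := fun n hn => by
    have h1 := hn0 n hn
    rw [dist_eq_norm] at h1
    have h2 : ‖(e (φ n) : X) - (a : X)‖ < 1 / 8 := h1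
    have h3 := he (φ n)
    have h4 := norm_add_le (z (k0 + φ n) - (e (φ n) : X)) ((e (φ n) : X) - (a : X))
    rw [sub_add_sub_cancel] at h4
    linarith
  have ha : 5 / 8 ≤ ‖(a : X)‖ := by
    have h1 := hclose n0 le_rfl
    have h2 := hz1 (k0 + φ n0)
    have h3 := norm_add_le (z (k0 + φ n0) - (a : X)) (a : X)
    rw [sub_add_cancel] at h3
    linarith
  obtain ⟨f, hf1, hf2⟩ := exists_dual_vector'' ℝ (a : X)
  have hf3 : f a = ‖(a : X)‖ := by simpa using hf2
  have ht : Tendsto (fun n => k0 + φ n) atTop atTop :=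
    tendsto_atTop_mono (fun n => Nat.le_add_left _ _) hφ.tendsto_atTop
  have h5 := ((hz f).comp ht).eventually (gt_mem_nhds (show (0 : ℝ) < 1 / 4 by norm_num))
  obtain ⟨n, h6, h7⟩ := (h5.and (eventually_ge_atTop n0)).exists
  have h8 := hclose n h7
  have h9 := f.le_opNorm (z (k0 + φ n) - (a : X))
  have h10 := mul_le_mul hf1 h8 (norm_nonneg _) zero_le_one
  rw [map_sub, Real.norm_eq_abs] at h9
  have h11 := neg_le_abs (f (z (k0 + φ n)) - f a)
  simp only [Function.comp_apply] at h6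
  linarith

/-- No normalised sequence is weakly null. -/
theorem not_null (hA : S_Adm) (hX : Chain X) (z : ℕ → X) (hz1 : ∀ k, ‖z k‖ = 1)
    (hz : ∀ f : X →L[ℝ] ℝ, Tendsto (fun n => f (z n)) atTop (𝓝 0)) : False := by
  obtain ⟨A, hfin, hadm, -, hd⟩ := hX
  have step : ∀ (j m : ℕ), ∃ (k m' : ℕ) (y : X), j ≤ k ∧ m ≤ m' ∧ y ∈ A m' ∧
      ‖z k - y‖ ≤ 1 / 16 ∧ ∀ e ∈ A m, 3 / 16 ≤ ‖y - e‖ := by
    intro j m
    have := hfin m
    obtain ⟨k, hk, hfar⟩ := far z hz1 hz (A m) j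
    obtain ⟨m1, y, hy, hzy⟩ := hd (z k) (1 / 16) (by positivity)
    refine ⟨k, max m m1, y, hk, le_max_left _ _,
      (SchurA.adm_le hA A hadm _ _ (le_max_right _ _)).1 hy, hzy.le, fun e he => ?_⟩
    have h3 := hfar e he
    have h4 := norm_add_le (z k - y) (y - e)
    rw [sub_add_sub_cancel] at h4
    linarith
  choose k m' y h1 h2 h3 h4 h5 using step
  let m : ℕ → ℕ := fun j => Nat.rec 0 (fun j mj => m' j mj) j
  have hm : ∀ j, m (j + 1) = m' j (m j) := fun j => rfl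
  have hmono : Monotone m := monotone_nat_of_le_succ fun j => by rw [hm]; exact h2 j (m j)
  have hfun : ∀ N : ℕ, ∃ f : X →L[ℝ] ℝ, ‖f‖ ≤ 1 ∧ ∀ j < N, 3 / 32 ≤ |f (y j (m j))| := by
    intro N
    induction N with
    | zero => exact ⟨0, by simp, by simp⟩
    | succ N ih =>
      obtain ⟨f, hf, hf'⟩ := ih
      obtain ⟨g, g1, g2, g3⟩ := ext_big hA (A (m N)) (A (m' N (m N)))
        (SchurA.adm_le hA A hadm _ _ (h2 N (m N))) (y N (m N)) (h3 N (m N)) (3 / 16)
        (by norm_num) (h5 N (m N)) f hf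
      refine ⟨g, g1, fun j hj => ?_⟩
      rcases Nat.lt_succ_iff_lt_or_eq.1 hj with hj | rfl
      · rw [g2 _ ((SchurA.adm_le hA A hadm _ _ (hmono (Nat.succ_le_of_lt hj))).1 (h3 j (m j)))]
        exact hf' j hj
      · linarith
  let K : ℕ → Set (WeakDual ℝ X) := fun N =>
    (WeakDual.toStrongDual ⁻¹' Metric.closedBall (0 : StrongDual ℝ X) 1) ∩
      ⋂ j : Fin N, {f | 3 / 32 ≤ |f (y j (m j))|}
  have hcl : ∀ N, IsClosed (⋂ j : Fin N, {f : WeakDual ℝ X | 3 / 32 ≤ |f (y j (m j))|}) :=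
    fun N => isClosed_iInter fun j =>
      isClosed_le continuous_const (WeakDual.eval_continuous _).abs
  obtain ⟨f, hf⟩ := IsCompact.nonempty_iInter_of_sequence_nonempty_isCompact_isClosed K
    (fun N f hf => ⟨hf.1, Set.mem_iInter.2 fun j =>
      Set.mem_iInter.1 hf.2 ⟨j, Nat.lt_succ_of_lt j.2⟩⟩)
    (fun N => by
      obtain ⟨f, hf, hf'⟩ := hfun N
      refine ⟨StrongDual.toWeakDual f, ?_, Set.mem_iInter.2 fun j => hf' j j.2⟩
      simpa using hf)
    ((WeakDual.isCompact_closedBall _ _).inter_right (hcl 0))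
    (fun N => (WeakDual.isClosed_closedBall _ _).inter (hcl N))
  have hf1 : ‖WeakDual.toStrongDual f‖ ≤ 1 := by
    simpa using (Set.mem_iInter.1 hf 0).1
  have hf2 : ∀ j, 3 / 32 ≤ |WeakDual.toStrongDual f (y j (m j))| := fun j =>
    Set.mem_iInter.1 (Set.mem_iInter.1 hf (j + 1)).2 ⟨j, Nat.lt_succ_self j⟩
  set g := WeakDual.toStrongDual f
  have ht : Tendsto (fun j => k j (m j)) atTop atTop :=
    tendsto_atTop_mono (fun j => h1 j (m j)) tendsto_id
  have h6 := (((hz g).comp ht).abs).eventually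
    (gt_mem_nhds (show |(0 : ℝ)| < 1 / 32 by norm_num))
  obtain ⟨j, hj⟩ := h6.exists
  simp only [Function.comp_apply] at hj
  have h7 := g.le_opNorm (z (k j (m j)) - y j (m j))
  have h8 := mul_le_mul hf1 (h4 j (m j)) (norm_nonneg _) zero_le_one
  rw [map_sub, Real.norm_eq_abs] at h7
  have h9 := hf2 j
  have h10 := abs_sub_abs_le_abs_sub (g (y j (m j))) (g (z (k j (m j))))
  rw [abs_sub_comm] at h10
  linarith

end SchurB

/-- The Schur property. -/
theorem schurP (hA : S_Adm) {X : Type} [NormedAddCommGroup X] [NormedSpace ℝ X] (hX : Chain X)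
    (x : ℕ → X) (hx : ∀ f : X →L[ℝ] ℝ, Tendsto (fun n => f (x n)) atTop (𝓝 0)) :
    Tendsto x atTop (𝓝 0) := by
  by_contra hcon
  rw [NormedAddGroup.tendsto_nhds_zero] at hcon
  push Not at hcon
  obtain ⟨δ, hδ, hfr⟩ := hcon
  obtain ⟨φ, hφ, hφ'⟩ := extraction_of_frequently_atTop hfr
  have hpos : ∀ n, 0 < ‖x (φ n)‖ := fun n => lt_of_lt_of_le hδ (hφ' n)
  refine SchurB.not_null hA hX (fun n => ‖x (φ n)‖⁻¹ • x (φ n)) (fun n => ?_) fun f => ?_
  · rw [norm_smul, norm_inv, norm_norm, inv_mul_cancel₀ (hpos n).ne']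
  · have h1 := (((hx f).comp hφ.tendsto_atTop).norm).const_mul δ⁻¹
    rw [norm_zero, mul_zero] at h1
    refine squeeze_zero_norm (fun n => ?_) h1
    rw [map_smul, norm_smul, norm_inv, norm_norm]
    exact mul_le_mul_of_nonneg_right (inv_anti₀ hδ (hφ' n)) (norm_nonneg _)

/-- Separability. -/
theorem sepP {X : Type} [NormedAddCommGroup X] [NormedSpace ℝ X] (hX : Chain X) :
    TopologicalSpace.SeparableSpace X := by
  obtain ⟨A, hfin, -, -, hd⟩ := hX
  have h1 : ∀ m, TopologicalSpace.IsSeparable (A m : Set X) := fun m => by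
    have := hfin m
    have : ProperSpace (A m) := FiniteDimensional.proper ℝ (A m)
    exact TopologicalSpace.IsSeparable.of_subtype _
  have h2 := (TopologicalSpace.isSeparable_iUnion.2 h1).closure
  refine TopologicalSpace.isSeparable_univ_iff.1 (h2.mono fun x _ => ?_)
  refine Metric.mem_closure_iff.2 fun δ hδ => ?_
  obtain ⟨m, e, he, h⟩ := hd x δ hδ
  exact ⟨e, Set.mem_iUnion.2 ⟨m, he⟩, by rwa [dist_eq_norm]⟩

end Pool.Agent.P.MP_1bacd4_an
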