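import Pool.Agent.P.MP_1bacd4_an.Defs

/-! The seed of the main step: a finite probability space with spread orthogonal corrections. -/

set_option autoImplicit false

namespace Pool.Agent.P.MP_1bacd4_an

open Finset Module

namespace SeedA

/-! ### Averages -/

section Av

variable {A B : Type} [Fintype A] [Fintype B]

lemma av_eq (f : A → ℝ) : av f = (Fintype.card A : ℝ)⁻¹ * ∑ a, f a := rfl

lemma av_add (f g : A → ℝ) : (av fun a => f a + g a) = av f + av g := by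
  simp only [av_eq, sum_add_distrib, mul_add]

lemma av_mul (c : ℝ) (f : A → ℝ) : (av fun a => c * f a) = c * av f := by
  simp only [av_eq, ← mul_sum]
  ring

lemma av_sum {I : Type} [Fintype I] (f : I → A → ℝ) :
    (av fun a => ∑ i, f i a) = ∑ i, av (f i) := by
  simp only [av_eq, ← mul_sum]
  rw [sum_comm]

lemma av_nonneg {f : A → ℝ} (h : ∀ a, 0 ≤ f a) : 0 ≤ av f :=
  mul_nonneg (by positivity) (sum_nonneg fun a _ => h a)

lemma sum_eq_av [Nonempty A] (f : A → ℝ) : ∑ a, f a = Fintype.card A * av f := by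
  have : (Fintype.card A : ℝ) ≠ 0 := by simp
  rw [av_eq, mul_inv_cancel_left₀ this]

lemma av_one [Nonempty A] : (av fun _ : A => (1 : ℝ)) = 1 := by
  simp [av_eq]

lemma av_prod (f : A → ℝ) (g : B → ℝ) : (av fun ω : A × B => f ω.1 * g ω.2) = av f * av g := by
  simp only [av_eq, Fintype.sum_prod_type, Fintype.card_prod, Nat.cast_mul, mul_inv,
    ← sum_mul_sum]
  ring

lemma av_fst [Nonempty B] (f : A → ℝ) : (av fun ω : A × B => f ω.1) = av f := by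
  simpa [av_one] using av_prod f (fun _ : B => (1 : ℝ))

lemma av_snd [Nonempty A] (g : B → ℝ) : (av fun ω : A × B => g ω.2) = av g := by
  simpa [av_one] using av_prod (fun _ : A => (1 : ℝ)) g

lemma av_mul_indep [Nonempty A] [Nonempty B] (f f' : A → ℝ) (g g' : B → ℝ) (hf : av f = 0)
    (hf' : av f' = 0) :
    (av fun ω : A × B => (f ω.1 + g ω.2) * (f' ω.1 + g' ω.2)) =
      (av fun a => f a * f' a) + av fun b => g b * g' b := by
  have h : (fun ω : A × B => (f ω.1 + g ω.2) * (f' ω.1 + g' ω.2)) =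
      fun ω => (f ω.1 * f' ω.1 + g ω.2 * g' ω.2) + (f ω.1 * g' ω.2 + f' ω.1 * g ω.2) := by
    funext ω
    ring
  rw [h, av_add, av_add, av_add, av_prod, av_prod, hf, hf', av_fst fun a => f a * f' a,
    av_snd fun b => g b * g' b]
  ring

lemma av_sq_indep [Nonempty A] [Nonempty B] (f : A → ℝ) (g : B → ℝ) (hf : av f = 0) :
    (av fun ω : A × B => (f ω.1 + g ω.2) ^ 2) = (av fun a => f a ^ 2) + av fun b => g b ^ 2 := by
  simpa only [← pow_two] using av_mul_indep f f g g hf hf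

lemma av_four_indep [Nonempty A] [Nonempty B] (f : A → ℝ) (g : B → ℝ) (hf : av f = 0)
    (hf3 : (av fun a => f a ^ 3) = 0) :
    (av fun ω : A × B => (f ω.1 + g ω.2) ^ 4) = (av fun a => f a ^ 4) +
      6 * ((av fun a => f a ^ 2) * av fun b => g b ^ 2) + av fun b => g b ^ 4 := by
  have h : (fun ω : A × B => (f ω.1 + g ω.2) ^ 4) =
      fun ω => (f ω.1 ^ 4 + g ω.2 ^ 4) + (6 * (f ω.1 ^ 2 * g ω.2 ^ 2) +
        (4 * (f ω.1 ^ 3 * g ω.2) + 4 * (f ω.1 * g ω.2 ^ 3))) := by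
    funext ω
    ring
  rw [h, av_add, av_add, av_add, av_add, av_mul, av_mul, av_mul,
    av_prod (fun a => f a ^ 2) fun b => g b ^ 2, av_prod (fun a => f a ^ 3) g,
    av_prod f fun b => g b ^ 3, hf, hf3, av_fst fun a => f a ^ 4, av_snd fun b => g b ^ 4]
  ring

end Av

/-! ### Scalar computations on cubes -/

section Cube

variable {ι : Type} [Fintype ι] [DecidableEq ι]

/-- Walsh series with coefficients `u`. -/
def hs (u : Finset ι → ℝ) (e : ι → Bool) : ℝ := ∑ A, wal A e * u A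

lemma av_wal_hs (hC : S_Cube) (u : Finset ι → ℝ) (B : Finset ι) :
    (av fun e => wal B e * hs u e) = u B := by
  have h : (fun e => wal B e * hs u e) = fun e => ∑ A, u A * (wal B e * wal A e) := by
    funext e
    rw [hs, mul_sum]
    exact sum_congr rfl fun A _ => by ring
  rw [h, av_sum]
  simp only [av_mul, hC.orth]
  simp

lemma av_hs (hC : S_Cube) (u : Finset ι → ℝ) : av (hs u) = u ∅ := by
  simpa [wal] using av_wal_hs hC u ∅

lemma av_sg_hs (hC : S_Cube) (u : Finset ι → ℝ) (i : ι) :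
    (av fun e => sg (e i) * hs u e) = u {i} := by
  simpa [wal] using av_wal_hs hC u {i}

lemma av_hs_hs (hC : S_Cube) (u v : Finset ι → ℝ) :
    (av fun e => hs u e * hs v e) = ∑ A, u A * v A := by
  have h : (fun e => hs u e * hs v e) = fun e => ∑ A, u A * (wal A e * hs v e) := by
    funext e
    rw [hs, sum_mul]
    exact sum_congr rfl fun A _ => by ring
  rw [h, av_sum]
  simp only [av_mul, av_wal_hs hC]

lemma av_sg (hC : S_Cube) (i : ι) : (av fun e : ι → Bool => sg (e i)) = 0 := by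
  simpa [wal] using hC.orth ι {i} ∅

lemma av_rad (hC : S_Cube) (p : ι → ℝ) : av (rad p) = 0 := by
  simpa using hC.rad_odd ι p 1 odd_one

omit [DecidableEq ι] in
lemma av_rad_mul {Ω : Type} [Fintype Ω] (p : ι → ℝ) (π : Ω → ι → Bool) (z : Ω → ℝ) :
    (av fun w => rad p (π w) * z w) = ∑ k, p k * av fun w => sg (π w k) * z w := by
  have h : (fun w => rad p (π w) * z w) = fun w => ∑ k, p k * (sg (π w k) * z w) := by
    funext w
    rw [rad, sum_mul]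
    exact sum_congr rfl fun k _ => by rw [smul_eq_mul]; ring
  rw [h, av_sum]
  simp only [av_mul]

lemma av_rad_rad (hC : S_Cube) (p q : ι → ℝ) :
    (av fun e => rad p e * rad q e) = ∑ k, p k * q k := by
  rw [av_rad_mul p (fun e => e) (rad q)]
  refine sum_congr rfl fun k _ => ?_
  have h := hC.co_rad ι ℝ q k
  simp only [co, wal, prod_singleton, smul_eq_mul] at h
  rw [h]

end Cube

/-- `f` is close to the function `f1` of the second variable, which has small fourth moment. -/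
def Q {D Ω : Type} [Fintype D] [Fintype Ω] (M : ℝ) (f : D × Ω → ℝ) (f1 : Ω → ℝ) : Prop :=
  M ^ 2 * (av fun ω : D × Ω => (f ω - f1 ω.2) ^ 2) ≤ (av fun w => f1 w ^ 2) ∧
    (av fun w => f1 w ^ 4) ≤ 3 * (av fun w => f1 w ^ 2) ^ 2

lemma Q.spr {D Ω : Type} [Fintype D] [Fintype Ω] [Nonempty D] [Nonempty Ω] {M ε : ℝ}
    {f : D × Ω → ℝ} {f1 : Ω → ℝ} (h : Q M f f1) (h2 : 2 ≤ M) (hε : 0 < ε) (hM : 2 ≤ M * ε) :
    Spr ε f := by
  obtain ⟨h1, h4⟩ := h
  rw [← av_snd (A := D) fun w => f1 w ^ 2] at h1 h4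
  rw [← av_snd (A := D) fun w => f1 w ^ 4] at h4
  have hN : (0 : ℝ) < Fintype.card (D × Ω) := by exact_mod_cast Fintype.card_pos
  have hS : 0 ≤ ∑ ω, f ω ^ 2 := sum_nonneg fun _ _ => sq_nonneg _
  have hG : 0 ≤ ∑ ω : D × Ω, (f ω - f1 ω.2) ^ 2 := sum_nonneg fun _ _ => sq_nonneg _
  have hS1 : 0 ≤ ∑ ω : D × Ω, f1 ω.2 ^ 2 := sum_nonneg fun _ _ => sq_nonneg _
  have a1 : M ^ 2 * ∑ ω : D × Ω, (f ω - f1 ω.2) ^ 2 ≤ ∑ ω : D × Ω, f1 ω.2 ^ 2 := by
    rw [sum_eq_av, sum_eq_av, mul_left_comm]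
    exact mul_le_mul_of_nonneg_left h1 hN.le
  have a2 : ∑ ω : D × Ω, f1 ω.2 ^ 2 ≤
      2 * ∑ ω, f ω ^ 2 + 2 * ∑ ω : D × Ω, (f ω - f1 ω.2) ^ 2 := by
    rw [mul_sum, mul_sum, ← sum_add_distrib]
    exact sum_le_sum fun ω _ => by nlinarith [sq_nonneg (2 * f ω - f1 ω.2)]
  have a3 : 4 * ∑ ω : D × Ω, (f ω - f1 ω.2) ^ 2 ≤ ∑ ω : D × Ω, f1 ω.2 ^ 2 :=
    (mul_le_mul_of_nonneg_right (by nlinarith) hG).trans a1
  have a4 : ∑ ω : D × Ω, f1 ω.2 ^ 2 ≤ 4 * ∑ ω, f ω ^ 2 := by linarith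
  refine ⟨fun ω => f1 ω.2, ?_, ?_⟩
  · rw [n2, n2, ← Real.sqrt_sq hε.le, ← Real.sqrt_mul (sq_nonneg ε)]
    refine Real.sqrt_le_sqrt (le_of_mul_le_mul_left ?_ (by positivity : 0 < M ^ 2))
    have a5 : 4 * ∑ ω, f ω ^ 2 ≤ (M * ε) ^ 2 * ∑ ω, f ω ^ 2 :=
      mul_le_mul_of_nonneg_right (by nlinarith) hS
    simp only [Pi.sub_apply]
    nlinarith
  · have e4 : n2 f ^ 4 = (∑ ω, f ω ^ 2) ^ 2 := by
      rw [n2, show (4 : ℕ) = 2 * 2 from rfl, pow_mul, Real.sq_sqrt hS]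
    have a6 : (Fintype.card (D × Ω) : ℝ) * ∑ ω : D × Ω, f1 ω.2 ^ 4 ≤
        3 * (∑ ω : D × Ω, f1 ω.2 ^ 2) ^ 2 := by
      rw [sum_eq_av, sum_eq_av, mul_pow]
      nlinarith [mul_le_mul_of_nonneg_left h4 (sq_nonneg (Fintype.card (D × Ω) : ℝ))]
    have a7 : (∑ ω : D × Ω, f1 ω.2 ^ 2) ^ 2 ≤ (4 * ∑ ω, f ω ^ 2) ^ 2 := pow_le_pow_left₀ hS1 a4 2
    rw [e4]
    nlinarith

section Step

variable {ι κ Ω : Type} [Fintype ι] [DecidableEq ι] [Fintype κ] [DecidableEq κ] [Fintype Ω]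
  [Nonempty Ω]

lemma step_sg (hC : S_Cube) {u : Finset ι → ℝ} (hu : ∀ A, A.card ≤ 1 → u A = 0) (g : Ω → ℝ)
    (i : ι) : (av fun ω : (ι → Bool) × Ω => sg (ω.1 i) * (hs u ω.1 + g ω.2)) = 0 := by
  simp only [mul_add]
  rw [av_add, av_fst fun e : ι → Bool => sg (e i) * hs u e,
    av_prod (fun e : ι → Bool => sg (e i)) g, av_sg hC, av_sg_hs hC, hu _ (by simp)]
  ring

lemma step_orth (hC : S_Cube) {u v : Finset ι → ℝ} (hu : ∀ A, A.card ≤ 1 → u A = 0)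
    (hv : ∀ A, A.card ≤ 1 → v A = 0) {p q : κ → ℝ} {z y : (κ → Bool) × Ω → ℝ}
    (hz : ∀ k, (av fun w : (κ → Bool) × Ω => sg (w.1 k) * z w) = 0)
    (hy : ∀ k, (av fun w : (κ → Bool) × Ω => sg (w.1 k) * y w) = 0)
    (hzy : (av fun w => z w * y w) = 0) (hpq : ∑ k, p k * q k = -∑ A, u A * v A) :
    (av fun ω : (ι → Bool) × (κ → Bool) × Ω => (hs u ω.1 + (rad p ω.2.1 + z ω.2)) *
      (hs v ω.1 + (rad q ω.2.1 + y ω.2))) = 0 := by
  rw [av_mul_indep (hs u) (hs v) (fun w : (κ → Bool) × Ω => rad p w.1 + z w)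
    (fun w => rad q w.1 + y w) ((av_hs hC u).trans (hu _ (by simp)))
    ((av_hs hC v).trans (hv _ (by simp))), av_hs_hs hC]
  have h : (fun w : (κ → Bool) × Ω => (rad p w.1 + z w) * (rad q w.1 + y w)) =
      fun w => (rad p w.1 * rad q w.1 + z w * y w) + (rad p w.1 * y w + rad q w.1 * z w) := by
    funext w
    ring
  rw [h, av_add, av_add, av_add, av_fst fun e => rad p e * rad q e, av_rad_rad hC, hzy,
    av_rad_mul p Prod.fst y, av_rad_mul q Prod.fst z, hpq]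
  simp [hz, hy]

lemma step_Q (hC : S_Cube) {M : ℝ} {u : Finset ι → ℝ} (hu : ∀ A, A.card ≤ 1 → u A = 0)
    {p : κ → ℝ} {z : (κ → Bool) × Ω → ℝ} {z1 : Ω → ℝ} (h : Q M z z1)
    (hp : ∑ k, p k ^ 2 = (1 + M ^ 2) * ∑ A, u A ^ 2) :
    Q M (fun ω : (ι → Bool) × (κ → Bool) × Ω => hs u ω.1 + (rad p ω.2.1 + z ω.2))
      fun w => rad p w.1 + z1 w.2 := by
  obtain ⟨h1, h4⟩ := h
  have hU : 0 ≤ ∑ A, u A ^ 2 := sum_nonneg fun _ _ => sq_nonneg _
  have e1 : (av fun w : (κ → Bool) × Ω => (rad p w.1 + z1 w.2) ^ 2) =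
      ∑ k, p k ^ 2 + av fun w => z1 w ^ 2 := by
    rw [av_sq_indep (rad p) z1 (av_rad hC p), hC.rad2]
  constructor
  · have e : (fun ω : (ι → Bool) × (κ → Bool) × Ω =>
        (hs u ω.1 + (rad p ω.2.1 + z ω.2) - (rad p ω.2.1 + z1 ω.2.2)) ^ 2) =
        fun ω => (hs u ω.1 + (z ω.2 - z1 ω.2.2)) ^ 2 := by
      funext ω
      ring
    have e2 : (av fun e => hs u e ^ 2) = ∑ A, u A ^ 2 := by
      simpa only [← pow_two] using av_hs_hs hC u u
    rw [e, e1, av_sq_indep (hs u) (fun w : (κ → Bool) × Ω => z w - z1 w.2)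
      ((av_hs hC u).trans (hu _ (by simp))), e2, hp]
    linarith
  · rw [e1, av_four_indep (rad p) z1 (av_rad hC p) (hC.rad_odd κ p 3 (by decide)), hC.rad2]
    have := hC.rad4 κ p
    linarith

end Step

/-! ### Families of functionals -/

section Fam

variable {E F : Type} [NormedAddCommGroup E] [NormedSpace ℝ E] [NormedAddCommGroup F]
  [NormedSpace ℝ F]

lemma wl_sq {ι : Type} [Fintype ι] {φ : ι → E →L[ℝ] ℝ} {s : ℝ} (h : WL φ s)
    (x : E) : ∑ i, φ i x ^ 2 ≤ (s * ‖x‖) ^ 2 := by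
  have hS : 0 ≤ ∑ i, φ i x ^ 2 := sum_nonneg fun _ _ => sq_nonneg _
  have h1 : ∑ i, φ i x ^ 2 = (∑ i, φ i x • φ i) x := by
    simp [pow_two]
  have h2 : ∑ i, φ i x ^ 2 ≤ s * n2 (fun i => φ i x) * ‖x‖ := by
    rw [h1]
    exact (le_abs_self _).trans (((∑ i, φ i x • φ i).le_opNorm x).trans
      (mul_le_mul_of_nonneg_right (h _) (norm_nonneg _)))
  rw [n2] at h2
  have h3 := Real.sq_sqrt hS
  nlinarith [sq_nonneg (√(∑ i, φ i x ^ 2) - s * ‖x‖)]

lemma wl_of_sq {ι : Type} [Fintype ι] {φ : ι → E →L[ℝ] ℝ} {s : ℝ} (hs : 0 ≤ s)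
    (h : ∀ x, ∑ i, φ i x ^ 2 ≤ (s * ‖x‖) ^ 2) : WL φ s := by
  intro a
  have hA : 0 ≤ ∑ i, a i ^ 2 := sum_nonneg fun _ _ => sq_nonneg _
  refine ContinuousLinearMap.opNorm_le_bound _ (mul_nonneg hs (Real.sqrt_nonneg _)) fun x => ?_
  have h1 : (∑ i, a i • φ i) x = ∑ i, a i * φ i x := by simp
  rw [h1, Real.norm_eq_abs]
  refine abs_le_of_sq_le_sq ?_ (mul_nonneg (mul_nonneg hs (Real.sqrt_nonneg _)) (norm_nonneg _))
  refine (sum_mul_sq_le_sq_mul_sq _ _ _).trans ?_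
  rw [mul_pow, mul_pow, n2, Real.sq_sqrt hA]
  nlinarith [mul_le_mul_of_nonneg_left (h x) hA]

lemma rad_apply {ι : Type} [Fintype ι] (φ : ι → E →L[ℝ] ℝ) (e : ι → Bool) (x : E) :
    rad φ e x = rad (fun i => φ i x) e := by
  simp [rad]

lemma exists_H (hC : S_Cube) (hE : S_Ext) {K t s : ℝ} (hK : 0 ≤ K) (ht0 : 0 < t) (ht1 : t ≤ 1)
    (hs : 0 ≤ s) (hct : CT K E) {ι : Type} [Fintype ι] [DecidableEq ι] {α : ι → E →L[ℝ] ℝ}
    (hα : WL α s) :
    ∃ a : Finset ι → E →L[ℝ] ℝ, (∀ A, A.card ≤ 1 → a A = 0) ∧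
      (∀ x, ∑ A, a A x ^ 2 ≤ (t ^ 2 * (K * s * ‖x‖)) ^ 2) ∧
      ∀ e, ‖rad α e + ∑ A, wal A e • a A‖ ≤ K * s / t := by
  obtain ⟨Φ, hΦ, hco⟩ := hE K E hK hct ι α s hs hα
  refine ⟨fun A => if A.card = 1 then 0 else (od t A / t) • co Φ A, fun A hA => ?_, fun x => ?_,
    fun e => ?_⟩
  · by_cases h : A.card = 1
    · simp [h]
    · have : A.card = 0 := by omega
      simp [od, this]
  · have h1 := wl_sq (hC.wl_co ι _ Φ _ hΦ) x
    rw [mul_pow]
    refine le_trans ?_ (mul_le_mul_of_nonneg_left h1 (sq_nonneg _))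
    rw [mul_sum]
    refine sum_le_sum fun A _ => ?_
    by_cases h : A.card = 1
    · simp only [h, if_true, zero_apply]
      rw [zero_pow two_ne_zero]
      positivity
    · simp only [h, if_false, smul_apply, smul_eq_mul, mul_pow]
      refine mul_le_mul_of_nonneg_right ?_ (sq_nonneg _)
      by_cases ho : Odd A.card
      · have h3 : 3 ≤ A.card := by
          obtain ⟨k, hk⟩ := ho
          omega
        simp only [od, ho, if_true]
        refine pow_le_pow_left₀ (by positivity) ?_ 2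
        rw [div_le_iff₀ ht0, ← pow_succ]
        exact pow_le_pow_of_le_one ht0.le ht1 h3
      · simp only [od, ho, if_false, zero_div]
        rw [zero_pow two_ne_zero]
        positivity
  · have h1 : α = fun i => (od t {i} / t) • co Φ {i} := by
      funext i
      simp [od, hco, ht0.ne']
    have h2 : rad α e + ∑ A, wal A e • (if A.card = 1 then 0 else (od t A / t) • co Φ A) =
        t⁻¹ • av fun e' => ker t e e' • Φ e' := by
      rw [hC.ker_apply, h1, hC.rad_eq ι _ (fun A => (od t A / t) • co Φ A) e, ← sum_add_distrib,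
        smul_sum]
      refine sum_congr rfl fun A _ => ?_
      rw [← smul_add, smul_comm t⁻¹, smul_smul t⁻¹, inv_mul_eq_div]
      by_cases h : A.card = 1 <;> simp [h]
    have h3 : ‖av fun e' => ker t e e' • Φ e'‖ ≤ K * s * av fun e' => |ker t e e'| := by
      rw [av, av_eq, norm_smul, Real.norm_of_nonneg (by positivity), mul_left_comm]
      refine mul_le_mul_of_nonneg_left ((norm_sum_le _ _).trans ?_) (by positivity)
      rw [mul_sum]
      refine sum_le_sum fun e' _ => ?_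
      rw [norm_smul, Real.norm_eq_abs, mul_comm]
      exact mul_le_mul_of_nonneg_right (hΦ e') (abs_nonneg _)
    rw [h2, norm_smul, Real.norm_of_nonneg (by positivity), inv_mul_eq_div]
    refine div_le_div_of_nonneg_right (h3.trans ?_) ht0.le
    exact mul_le_of_le_one_right (mul_nonneg hK hs) (hC.ker_l1 ι t ht0.le ht1 e)

lemma reduce [FiniteDimensional ℝ E] [FiniteDimensional ℝ F] {J : Type} [Fintype J]
    (c : J → E →L[ℝ] ℝ) (d : J → F →L[ℝ] ℝ) :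
    ∃ r ≤ finrank ℝ E + finrank ℝ F, ∃ (c' : Fin r → E →L[ℝ] ℝ) (d' : Fin r → F →L[ℝ] ℝ),
      (∀ x, ∑ k, c' k x ^ 2 = ∑ j, c j x ^ 2) ∧ (∀ y, ∑ k, d' k y ^ 2 = ∑ j, d j y ^ 2) ∧
        ∀ x y, ∑ k, c' k x * d' k y = ∑ j, c j x * d j y := by
  let T : (E × F) →ₗ[ℝ] EuclideanSpace ℝ J :=
    (WithLp.linearEquiv 2 ℝ (J → ℝ)).symm.toLinearMap ∘ₗ LinearMap.pi fun j =>
      (c j).toLinearMap.coprod (d j).toLinearMap
  let o := stdOrthonormalBasis ℝ (LinearMap.range T)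
  let g : Fin (finrank ℝ (LinearMap.range T)) → (E × F) →ₗ[ℝ] ℝ := fun k =>
    (innerₗ _ (o k)) ∘ₗ T.rangeRestrict
  have hg : ∀ v w, ∑ k, g k v * g k w = ∑ j, (c j v.1 + d j v.2) * (c j w.1 + d j w.2) := by
    intro v w
    have h := o.sum_inner_mul_inner (T.rangeRestrict v) (T.rangeRestrict w)
    have h' : inner ℝ (T.rangeRestrict v) (T.rangeRestrict w) =
        ∑ j, (c j v.1 + d j v.2) * (c j w.1 + d j w.2) := by
      change inner ℝ (T v) (T w) = _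
      rw [PiLp.inner_apply]
      refine sum_congr rfl fun j _ => ?_
      simp [T, mul_comm]
    rw [← h', ← h]
    refine sum_congr rfl fun k _ => ?_
    simp only [g, LinearMap.comp_apply, innerₗ_apply_apply]
    rw [real_inner_comm]
  refine ⟨_, (LinearMap.finrank_range_le T).trans (Module.finrank_prod).le,
    fun k => LinearMap.toContinuousLinearMap (g k ∘ₗ LinearMap.inl ℝ E F),
    fun k => LinearMap.toContinuousLinearMap (g k ∘ₗ LinearMap.inr ℝ E F),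
    fun x => ?_, fun y => ?_, fun x y => ?_⟩
  · simpa [pow_two] using hg (x, 0) (x, 0)
  · simpa [pow_two] using hg (0, y) (0, y)
  · simpa using hg (x, 0) (0, y)

/-- The inductive statement. -/
def PP (M : ℝ) (L0 : ℕ) {ι : Type} [Fintype ι] [DecidableEq ι] (α : ι → E →L[ℝ] ℝ)
    (β : ι → F →L[ℝ] ℝ) (B : ℝ) : Prop :=
  ∃ (Ω : Type) (_ : Fintype Ω) (_ : DecidableEq Ω)
    (Z : (ι → Bool) × Ω → E →L[ℝ] ℝ) (Y : (ι → Bool) × Ω → F →L[ℝ] ℝ)
    (Z1 : Ω → E →L[ℝ] ℝ) (Y1 : Ω → F →L[ℝ] ℝ), L0 < Fintype.card Ω ∧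
    (∀ ω, ‖rad α ω.1 + Z ω‖ ≤ B) ∧ (∀ ω, ‖rad β ω.1 + Y ω‖ ≤ B) ∧
    (∀ i x, (av fun ω => sg (ω.1 i) * Z ω x) = 0) ∧
    (∀ i y, (av fun ω => sg (ω.1 i) * Y ω y) = 0) ∧
    (∀ x y, (av fun ω => Z ω x * Y ω y) = 0) ∧
    (∀ x, Q M (fun ω => Z ω x) fun w => Z1 w x) ∧ ∀ y, Q M (fun ω => Y ω y) fun w => Y1 w y

lemma norm_rad_le {ι : Type} [Fintype ι] {α : ι → E →L[ℝ] ℝ} {s : ℝ} (hα : WL α s)
    (e : ι → Bool) : ‖rad α e‖ ≤ s * √(Fintype.card ι : ℝ) := by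
  have h := hα fun i => sg (e i)
  have h1 : ∀ i, sg (e i) ^ 2 = 1 := fun i => by cases e i <;> simp [sg]
  simpa [n2, h1, rad] using h

lemma P_base (M : ℝ) (L0 : ℕ) {ι : Type} [Fintype ι] [DecidableEq ι] {α : ι → E →L[ℝ] ℝ}
    {β : ι → F →L[ℝ] ℝ} {s B : ℝ} (hα : WL α s) (hβ : WL β s)
    (hB : s * √(Fintype.card ι : ℝ) ≤ B) : PP M L0 α β B := by
  refine ⟨Fin (L0 + 1), inferInstance, inferInstance, 0, 0, 0, 0, by simp, fun ω => ?_,
    fun ω => ?_, ?_, ?_, ?_, ?_, ?_⟩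
  · simpa using (norm_rad_le hα ω.1).trans hB
  · simpa using (norm_rad_le hβ ω.1).trans hB
  all_goals simp [Q, av]

lemma P_step (hC : S_Cube) (hE : S_Ext) [FiniteDimensional ℝ E] [FiniteDimensional ℝ F]
    {K t M B : ℝ} (hK : 0 ≤ K) (ht0 : 0 < t) (ht1 : t ≤ 1)
    (ht : (1 + M ^ 2) * (t ^ 2 * K) ^ 2 ≤ 1 / 4) (hcE : CT K E) (hcF : CT K F) (L0 : ℕ)
    (IH : ∀ r ≤ finrank ℝ E + finrank ℝ F, ∀ (s : ℝ) (c : Fin r → E →L[ℝ] ℝ)
      (d : Fin r → F →L[ℝ] ℝ), 0 ≤ s → WL c s → WL d s → PP M L0 c d (s * B))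
    {ι : Type} [Fintype ι] [DecidableEq ι] {s : ℝ} {α : ι → E →L[ℝ] ℝ} {β : ι → F →L[ℝ] ℝ}
    (hs0 : 0 ≤ s) (hα : WL α s) (hβ : WL β s) : PP M L0 α β (s * (K / t + B / 2)) := by
  obtain ⟨a, ha0, ha2, ha⟩ := exists_H hC hE hK ht0 ht1 hs0 hcE hα
  obtain ⟨b, hb0, hb2, hb⟩ := exists_H hC hE hK ht0 ht1 hs0 hcF hβ
  obtain ⟨r, hr, c, d, hc, hd, hcd⟩ := reduce (J := Finset ι ⊕ Finset ι ⊕ Finset ι)
    (Sum.elim a (Sum.elim (fun A => M • a A) 0)) (Sum.elim (-b) (Sum.elim 0 fun A => M • b A))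
  have hc' : ∀ x, ∑ k, c k x ^ 2 = (1 + M ^ 2) * ∑ A, a A x ^ 2 := fun x => by
    simp [hc, mul_pow, ← mul_sum, add_mul]
  have hd' : ∀ y, ∑ k, d k y ^ 2 = (1 + M ^ 2) * ∑ A, b A y ^ 2 := fun y => by
    simp [hd, mul_pow, ← mul_sum, add_mul]
  have hcd' : ∀ x y, ∑ k, c k x * d k y = -∑ A, a A x * b A y := fun x y => by
    simp [hcd]
  have hw : ∀ S n : ℝ, S ≤ (t ^ 2 * (K * s * n)) ^ 2 → (1 + M ^ 2) * S ≤ (s / 2 * n) ^ 2 := by
    intro S n h
    have h1 := mul_le_mul_of_nonneg_left h (by positivity : 0 ≤ 1 + M ^ 2)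
    have h2 := mul_le_mul_of_nonneg_right ht (sq_nonneg (s * n))
    nlinarith
  obtain ⟨Ω, _, _, Z, Y, Z1, Y1, hL, nZ, nY, oZ, oY, oZY, qZ, qY⟩ := IH r hr (s / 2) c d
    (by positivity) (wl_of_sq (by positivity) fun x => (hc' x).trans_le (hw _ _ (ha2 x)))
    (wl_of_sq (by positivity) fun y => (hd' y).trans_le (hw _ _ (hb2 y)))
  have : Nonempty Ω := Fintype.card_pos_iff.1 (by omega)
  have eB : s * (K / t + B / 2) = K * s / t + s / 2 * B := by ring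
  have eZ : ∀ (ω : (ι → Bool) × (Fin r → Bool) × Ω) x,
      ((∑ A, wal A ω.1 • a A) + (rad c ω.2.1 + Z ω.2)) x =
        hs (fun A => a A x) ω.1 + (rad (fun k => c k x) ω.2.1 + Z ω.2 x) := fun ω x => by
    simp [hs, rad_apply]
  have eY : ∀ (ω : (ι → Bool) × (Fin r → Bool) × Ω) y,
      ((∑ A, wal A ω.1 • b A) + (rad d ω.2.1 + Y ω.2)) y =
        hs (fun A => b A y) ω.1 + (rad (fun k => d k y) ω.2.1 + Y ω.2 y) := fun ω y => by
    simp [hs, rad_apply]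
  have eZ1 : ∀ (w : (Fin r → Bool) × Ω) x,
      (rad c w.1 + Z1 w.2) x = rad (fun k => c k x) w.1 + Z1 w.2 x := fun w x => by
    simp [rad_apply]
  have eY1 : ∀ (w : (Fin r → Bool) × Ω) y,
      (rad d w.1 + Y1 w.2) y = rad (fun k => d k y) w.1 + Y1 w.2 y := fun w y => by
    simp [rad_apply]
  have za : ∀ x A, A.card ≤ 1 → a A x = 0 := fun x A h => by simp [ha0 A h]
  have zb : ∀ y A, A.card ≤ 1 → b A y = 0 := fun y A h => by simp [hb0 A h]
  refine ⟨(Fin r → Bool) × Ω, inferInstance, inferInstance,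
    fun ω => (∑ A, wal A ω.1 • a A) + (rad c ω.2.1 + Z ω.2),
    fun ω => (∑ A, wal A ω.1 • b A) + (rad d ω.2.1 + Y ω.2),
    fun w => rad c w.1 + Z1 w.2, fun w => rad d w.1 + Y1 w.2, ?_, fun ω => ?_, fun ω => ?_,
    fun i x => ?_, fun i y => ?_, fun x y => ?_, fun x => ?_, fun y => ?_⟩
  · rw [Fintype.card_prod]
    exact hL.trans_le (Nat.le_mul_of_pos_left _ Fintype.card_pos)
  · rw [eB, ← add_assoc]
    exact norm_add_le_of_le (ha _) (nZ _)
  · rw [eB, ← add_assoc]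
    exact norm_add_le_of_le (hb _) (nY _)
  · simp only [eZ]
    exact step_sg hC (za x) (fun w : (Fin r → Bool) × Ω => rad (fun k => c k x) w.1 + Z w x) i
  · simp only [eY]
    exact step_sg hC (zb y) (fun w : (Fin r → Bool) × Ω => rad (fun k => d k y) w.1 + Y w y) i
  · simp only [eZ, eY]
    exact step_orth hC (za x) (zb y) (fun k => oZ k x) (fun k => oY k y) (oZY x y) (hcd' x y)
  · have h := step_Q hC (za x) (qZ x) (hc' x)
    simp only [eZ, eZ1]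
    exact h
  · have h := step_Q hC (zb y) (qY y) (hd' y)
    simp only [eY, eY1]
    exact h

end Fam

end SeedA

open SeedA in
theorem seed (hC : S_Cube) (hE : S_Ext) : S_Seed := by
  intro K ε hK hε
  obtain ⟨M, hM2, hMε⟩ : ∃ M : ℝ, 2 ≤ M ∧ 2 ≤ M * ε :=
    ⟨max 2 (2 / ε), le_max_left _ _, (div_le_iff₀ hε).1 (le_max_right _ _)⟩
  obtain ⟨t, ht0, ht1, ht⟩ : ∃ t : ℝ, 0 < t ∧ t ≤ 1 ∧ (1 + M ^ 2) * (t ^ 2 * K) ^ 2 ≤ 1 / 4 := by
    have h1 : 1 ≤ 4 * (1 + M ^ 2) * K ^ 2 := by nlinarith [mul_nonneg (sq_nonneg M) (sq_nonneg K)]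
    have h0 : 0 < (4 * (1 + M ^ 2) * K ^ 2)⁻¹ := by positivity
    have h2 : (4 * (1 + M ^ 2) * K ^ 2)⁻¹ ≤ 1 := inv_le_one_of_one_le₀ h1
    have h3 : (4 * (1 + M ^ 2) * K ^ 2) * (4 * (1 + M ^ 2) * K ^ 2)⁻¹ = 1 :=
      mul_inv_cancel₀ (by positivity)
    refine ⟨_, h0, h2, ?_⟩
    have h4 := pow_le_one₀ (n := 3) h0.le h2
    generalize (4 * (1 + M ^ 2) * K ^ 2)⁻¹ = t at *
    have h5 : (1 + M ^ 2) * (t ^ 2 * K) ^ 2 = t ^ 3 / 4 := by
      linear_combination t ^ 3 / 4 * h3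
    linarith
  have hKt : 0 ≤ K / t := by positivity
  refine ⟨2 * (K / t) + 1, by linarith, ?_⟩
  intro E F _ _ _ _ _ _ hcE hcF ι _ _ α β hα hβ L0
  have H : ∀ J : ℕ, ∀ r ≤ finrank ℝ E + finrank ℝ F, ∀ (s : ℝ) (c : Fin r → E →L[ℝ] ℝ)
      (d : Fin r → F →L[ℝ] ℝ), 0 ≤ s → WL c s → WL d s →
      PP M L0 c d (s * (2 * (K / t) + √(finrank ℝ E + finrank ℝ F : ℕ) / 2 ^ J)) := by
    intro J
    induction J with
    | zero =>
      intro r hr s c d hs hc hd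
      refine P_base M L0 hc hd (mul_le_mul_of_nonneg_left ?_ hs)
      have : √(Fintype.card (Fin r) : ℝ) ≤ √(finrank ℝ E + finrank ℝ F : ℕ) :=
        Real.sqrt_le_sqrt (by simpa using (Nat.cast_le (α := ℝ)).2 hr)
      rw [pow_zero, div_one]
      linarith
    | succ J ih =>
      intro r _ s c d hs hc hd
      have h := P_step hC hE (by linarith) ht0 ht1 ht hcE hcF L0 ih hs hc hd
      have e : K / t + (2 * (K / t) + √(finrank ℝ E + finrank ℝ F : ℕ) / 2 ^ J) / 2 =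
          2 * (K / t) + √(finrank ℝ E + finrank ℝ F : ℕ) / 2 ^ (J + 1) := by ring
      rwa [e] at h
  obtain ⟨J, hJ⟩ := pow_unbounded_of_one_lt (√(finrank ℝ E + finrank ℝ F : ℕ)) one_lt_two
  obtain ⟨Ω, _, _, Z, Y, Z1, Y1, hL, nZ, nY, oZ, oY, oZY, qZ, qY⟩ :=
    P_step hC hE (by linarith) ht0 ht1 ht hcE hcF L0 (H J) zero_le_one hα hβ
  have : Nonempty Ω := Fintype.card_pos_iff.1 (by omega)
  have hB : 1 * (K / t + (2 * (K / t) + √(finrank ℝ E + finrank ℝ F : ℕ) / 2 ^ J) / 2) ≤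
      2 * (K / t) + 1 := by
    have := (div_le_one (by positivity)).2 hJ.le
    linarith
  refine ⟨Ω, inferInstance, inferInstance, Z, Y, hL, fun ω => (nZ ω).trans hB,
    fun ω => (nY ω).trans hB, fun i x => ?_, fun i y => ?_, fun x y => ?_,
    fun x => (qZ x).spr hM2 hε hMε, fun y => (qY y).spr hM2 hε hMε⟩
  · rw [sum_eq_av, oZ, mul_zero]
  · rw [sum_eq_av, oY, mul_zero]
  · rw [sum_eq_av, oZY, mul_zero]

end Pool.Agent.P.MP_1bacd4_an
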