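import Pool.Agent.P.MP_1bacd4_an.Defs

/-! Extension of scalars from the reals to a real or complex field. -/

set_option autoImplicit false

namespace Pool.Agent.P.MP_1bacd4_an

open RCLike Filter Topology

noncomputable section

namespace CxK

/-- The extension of scalars, realised as the real linear maps from `𝕜` to `X`. -/
def XK (𝕜 X : Type) [RCLike 𝕜] [NormedAddCommGroup X] [NormedSpace ℝ X] : Type := 𝕜 →L[ℝ] X

variable {𝕜 X : Type} [RCLike 𝕜] [NormedAddCommGroup X] [NormedSpace ℝ X]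

instance : NormedAddCommGroup (XK 𝕜 X) := inferInstanceAs (NormedAddCommGroup (𝕜 →L[ℝ] X))

instance : NormedSpace ℝ (XK 𝕜 X) := inferInstanceAs (NormedSpace ℝ (𝕜 →L[ℝ] X))

instance [CompleteSpace X] : CompleteSpace (XK 𝕜 X) :=
  inferInstanceAs (CompleteSpace (𝕜 →L[ℝ] X))

/-- The underlying map. -/
def ap (φ : XK 𝕜 X) : 𝕜 →L[ℝ] X := φ

/-- The element given by a map. -/
def mk (φ : 𝕜 →L[ℝ] X) : XK 𝕜 X := φ

theorem ext' {φ ψ : XK 𝕜 X} (h : ∀ z, ap φ z = ap ψ z) : φ = ψ := ContinuousLinearMap.ext h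

theorem ap_add (φ ψ : XK 𝕜 X) (z : 𝕜) : ap (φ + ψ) z = ap φ z + ap ψ z := rfl

theorem ap_zero (z : 𝕜) : ap (0 : XK 𝕜 X) z = 0 := rfl

theorem norm_ap (φ : XK 𝕜 X) : ‖ap φ‖ = ‖φ‖ := rfl

theorem ap_rsmul (r : ℝ) (φ : XK 𝕜 X) (z : 𝕜) : ap (r • φ) z = r • ap φ z := rfl

/-- The action of the scalars. -/
def sm (c : 𝕜) (φ : XK 𝕜 X) : XK 𝕜 X := mk ((ap φ).comp (ContinuousLinearMap.mul ℝ 𝕜 c))

theorem ap_sm (c : 𝕜) (φ : XK 𝕜 X) (z : 𝕜) : ap (sm c φ) z = ap φ (c * z) := rfl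

/-- The normed space structure over `𝕜`. -/
@[reducible] def nsp : NormedSpace 𝕜 (XK 𝕜 X) where
  smul := sm
  one_smul φ := ext' fun z => by
    change ap (sm 1 φ) z = _
    rw [ap_sm, one_mul]
  mul_smul a b φ := ext' fun z => by
    change ap (sm (a * b) φ) z = ap (sm a (sm b φ)) z
    rw [ap_sm, ap_sm, ap_sm]
    congr 1
    ring
  smul_zero c := ext' fun z => by
    change ap (sm c 0) z = _
    rw [ap_sm, ap_zero, ap_zero]
  smul_add c φ ψ := ext' fun z => by
    change ap (sm c (φ + ψ)) z = ap (sm c φ + sm c ψ) z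
    rw [ap_sm, ap_add, ap_add, ap_sm, ap_sm]
  add_smul a b φ := ext' fun z => by
    change ap (sm (a + b) φ) z = ap (sm a φ + sm b φ) z
    rw [ap_sm, ap_add, ap_sm, ap_sm, add_mul, map_add]
  zero_smul φ := ext' fun z => by
    change ap (sm 0 φ) z = _
    rw [ap_sm, zero_mul, map_zero, ap_zero]
  norm_smul_le c φ := by
    change ‖(ap φ).comp (ContinuousLinearMap.mul ℝ 𝕜 c)‖ ≤ ‖c‖ * ‖ap φ‖
    refine (ContinuousLinearMap.opNorm_comp_le _ _).trans ?_
    rw [mul_comm]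
    exact mul_le_mul_of_nonneg_right (ContinuousLinearMap.opNorm_mul_apply_le ℝ 𝕜 c)
      (norm_nonneg _)

theorem norm_ap_le (φ : XK 𝕜 X) (z : 𝕜) : ‖ap φ z‖ ≤ ‖z‖ * ‖φ‖ := by
  rw [mul_comm, ← norm_ap]
  exact (ap φ).le_opNorm z

/-- Evaluation at a scalar. -/
def ev (z : 𝕜) : XK 𝕜 X →L[ℝ] X :=
  LinearMap.mkContinuous
    { toFun := fun φ => ap φ z
      map_add' := fun φ ψ => ap_add φ ψ z
      map_smul' := fun r φ => ap_rsmul r φ z } ‖z‖ fun φ => norm_ap_le φ z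

theorem norm_io_le (x : X) : ‖mk ((reCLM (K := 𝕜)).smulRight x)‖ ≤ ‖x‖ := by
  change ‖(reCLM (K := 𝕜)).smulRight x‖ ≤ ‖x‖
  refine ContinuousLinearMap.opNorm_le_bound _ (norm_nonneg _) fun z => ?_
  rw [ContinuousLinearMap.smulRight_apply, norm_smul, mul_comm]
  exact mul_le_mul_of_nonneg_left (abs_re_le_norm z) (norm_nonneg _)

/-- The real embedding. -/
def io : X →L[ℝ] XK 𝕜 X :=
  LinearMap.mkContinuous
    { toFun := fun x => mk ((reCLM (K := 𝕜)).smulRight x)
      map_add' := fun x y => ext' fun z => by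
        rw [ap_add]
        exact smul_add (re z) x y
      map_smul' := fun r x => ext' fun z => by
        rw [RingHom.id_apply, ap_rsmul]
        exact smul_comm (re z) r x } 1 fun x => by
    rw [one_mul]
    exact norm_io_le x

theorem ap_io (x : X) (z : 𝕜) : ap (io x) z = re z • x := rfl

theorem ap_eq (φ : XK 𝕜 X) (z : 𝕜) : ap φ z = re z • ap φ 1 + im z • ap φ I := by
  rw [← map_smul, ← map_smul, ← map_add]
  congr 1
  rw [real_smul_eq_coe_mul, real_smul_eq_coe_mul, mul_one, re_add_im]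

theorem decomp (φ : XK 𝕜 X) : φ = io (ap φ 1) + sm I (io (-ap φ I)) := by
  refine ext' fun z => ?_
  rw [ap_add, ap_sm, ap_io, ap_io, ap_eq φ z, I_mul_re]
  simp

theorem sm_real (r : ℝ) (φ : XK 𝕜 X) : sm (r : 𝕜) φ = r • φ := ext' fun z => by
  rw [ap_sm, ap_rsmul, ← map_smul, real_smul_eq_coe_mul]

end CxK

/-- An abstract form of the extension of scalars. -/
structure Ext (𝕜 X E : Type) [RCLike 𝕜] [NormedAddCommGroup X] [NormedSpace ℝ X]
    [NormedAddCommGroup E] [NormedSpace 𝕜 E] (i : X → E) (p q : E → X) : Prop where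
  i_add : ∀ x y, i (x + y) = i x + i y
  i_smul : ∀ (r : ℝ) x, i (r • x) = (r : 𝕜) • i x
  i_le : ∀ x, ‖i x‖ ≤ ‖x‖
  p_add : ∀ x y, p (x + y) = p x + p y
  q_add : ∀ x y, q (x + y) = q x + q y
  p_smul : ∀ (c : 𝕜) x, p (c • x) = re c • p x - im c • q x
  q_smul : ∀ (c : 𝕜) x, q (c • x) = re c • q x + (im c * im (I : 𝕜)) • p x
  p_le : ∀ x, ‖p x‖ ≤ ‖x‖
  q_le : ∀ x, ‖q x‖ ≤ ‖x‖
  p_i : ∀ x, p (i x) = x
  dec : ∀ x, x = i (p x) + (I : 𝕜) • i (q x)

theorem exists_ext (𝕜 X : Type) [RCLike 𝕜] [NormedAddCommGroup X] [NormedSpace ℝ X]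
    [CompleteSpace X] : ∃ (E : Type) (_ : NormedAddCommGroup E) (_ : NormedSpace 𝕜 E)
      (_ : CompleteSpace E) (i : X → E) (p q : E → X), Ext 𝕜 X E i p q := by
  have hI : ‖(I : 𝕜)‖ ≤ 1 := by
    rw [norm_I]
    split_ifs <;> norm_num
  refine ⟨CxK.XK 𝕜 X, inferInstance, CxK.nsp, inferInstance, CxK.io, fun φ => CxK.ap φ 1,
    fun φ => -CxK.ap φ I, ?_⟩
  let _ := CxK.nsp (𝕜 := 𝕜) (X := X)
  refine ⟨fun x y => map_add _ x y, fun r x => ?_, CxK.norm_io_le, fun _ _ => rfl,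
    fun φ ψ => ?_, fun c φ => ?_, fun c φ => ?_, fun φ => ?_, fun φ => ?_, fun x => ?_,
    CxK.decomp⟩
  · exact (map_smul _ r x).trans (CxK.sm_real r _).symm
  · rw [CxK.ap_add, neg_add]
  · change CxK.ap (CxK.sm c φ) 1 = _
    rw [CxK.ap_sm, mul_one, CxK.ap_eq φ c, smul_neg, sub_neg_eq_add]
  · change -CxK.ap (CxK.sm c φ) I = _
    rw [CxK.ap_sm, CxK.ap_eq φ (c * I), mul_re, mul_im, I_re]
    rcases I_eq_zero_or_im_I_eq_one (K := 𝕜) with h | h
    · simp [h]
    · rw [h]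
      simp only [mul_zero, mul_one, zero_sub, add_zero, neg_smul, smul_neg, neg_add, neg_neg]
      abel
  · simpa using CxK.norm_ap_le φ 1
  · rw [norm_neg]
    exact (CxK.norm_ap_le φ I).trans (mul_le_of_le_one_left (norm_nonneg _) hI)
  · rw [CxK.ap_io, one_re, one_smul]

namespace Ext

variable {𝕜 X E : Type} [RCLike 𝕜] [NormedAddCommGroup X] [NormedSpace ℝ X]
  [NormedAddCommGroup E] [NormedSpace 𝕜 E] {i : X → E} {p q : E → X}

theorem norm_I_le : ‖(I : 𝕜)‖ ≤ 1 := by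
  rw [norm_I]
  split_ifs <;> norm_num

/-- The embedding as an additive map. -/
def ia (h : Ext 𝕜 X E i p q) : X →+ E := AddMonoidHom.mk' i h.i_add

theorem i_cont (h : Ext 𝕜 X E i p q) : Continuous i :=
  AddMonoidHomClass.continuous_of_bound h.ia 1 fun x => by
    rw [one_mul]
    exact h.i_le x

theorem p_cont (h : Ext 𝕜 X E i p q) : Continuous p :=
  AddMonoidHomClass.continuous_of_bound (AddMonoidHom.mk' p h.p_add) 1 fun x => by
    rw [one_mul]
    exact h.p_le x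

theorem norm_fc_le (h : Ext 𝕜 X E i p q) (f : X →L[ℝ] ℝ) (x : E) :
    ‖(f (p x) : 𝕜) + I * (f (q x) : 𝕜)‖ ≤ 2 * ‖f‖ * ‖x‖ := by
  have h3 := (f.le_opNorm (p x)).trans (mul_le_mul_of_nonneg_left (h.p_le x) (norm_nonneg f))
  have h4 := (f.le_opNorm (q x)).trans (mul_le_mul_of_nonneg_left (h.q_le x) (norm_nonneg f))
  have h5 : ‖(I : 𝕜)‖ * ‖f (q x)‖ ≤ ‖f (q x)‖ :=
    mul_le_of_le_one_left (norm_nonneg _) norm_I_le
  refine (norm_add_le _ _).trans ?_
  rw [norm_mul, norm_ofReal, norm_ofReal, ← Real.norm_eq_abs, ← Real.norm_eq_abs]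
  linarith

/-- The extension of a functional. -/
def fc (h : Ext 𝕜 X E i p q) (f : X →L[ℝ] ℝ) : E →L[𝕜] 𝕜 :=
  LinearMap.mkContinuous
    { toFun := fun x => (f (p x) : 𝕜) + I * (f (q x) : 𝕜)
      map_add' := fun x y => by
        simp only [h.p_add, h.q_add, map_add]
        ring
      map_smul' := fun c x => by
        rw [h.p_smul, h.q_smul]
        simp only [map_add, map_sub, map_smul, smul_eq_mul, RingHom.id_apply]
        push_cast
        have hc := re_add_im c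
        rcases I_mul_I (K := 𝕜) with hI | hI
        · have h0 : im c = 0 := by rw [← I_im c, hI, map_zero, mul_zero]
          rw [hI, mul_zero, add_zero] at hc
          rw [h0, hI]
          push_cast
          linear_combination (f (p x) : 𝕜) * hc
        · have h1 : im (I : 𝕜) = 1 :=
            (I_eq_zero_or_im_I_eq_one (K := 𝕜)).resolve_left fun h0 => by simp [h0] at hI
          rw [h1]
          push_cast
          linear_combination ((f (p x) : 𝕜) + I * (f (q x) : 𝕜)) * hc -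
            (im c : 𝕜) * (f (q x) : 𝕜) * hI } (2 * ‖f‖) fun x => h.norm_fc_le f x

theorem fc_apply (h : Ext 𝕜 X E i p q) (f : X →L[ℝ] ℝ) (x : E) :
    h.fc f x = (f (p x) : 𝕜) + I * (f (q x) : 𝕜) := rfl

theorem norm_fc (h : Ext 𝕜 X E i p q) (f : X →L[ℝ] ℝ) : ‖h.fc f‖ ≤ 2 * ‖f‖ :=
  LinearMap.mkContinuous_norm_le _ (by positivity) _

theorem hasSum_fc (h : Ext 𝕜 X E i p q) {J : Type} {f : J → X →L[ℝ] ℝ} {y : J → X} {N : X → X}
    (hN : ∀ x, HasSum (fun j => f j x • y j) (N x)) (u : 𝕜) (x : E) :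
    HasSum (fun j => h.fc (f j) x • (u • i (y j)))
      (u • (i (N (p x)) + (I : 𝕜) • i (N (q x)))) := by
  have h1 := (hN (p x)).map h.ia h.i_cont
  have h2 := ((hN (q x)).map h.ia h.i_cont).const_smul (I : 𝕜)
  have h3 := (h1.add h2).const_smul u
  have e : (fun j => h.fc (f j) x • (u • i (y j))) =
      fun j => u • (i (f j (p x) • y j) + (I : 𝕜) • i (f j (q x) • y j)) := by
    funext j
    rw [fc_apply, h.i_smul, h.i_smul, smul_comm, add_smul, mul_smul]
  rw [e]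
  exact h3

theorem summable_fc (h : Ext 𝕜 X E i p q) {J : Type} {f : J → X →L[ℝ] ℝ} {y : J → X}
    (hs : Summable fun j => ‖f j‖ * ‖y j‖) {u : 𝕜} (hu : ‖u‖ ≤ 1) :
    Summable fun j => ‖h.fc (f j)‖ * ‖u • i (y j)‖ := by
  refine Summable.of_nonneg_of_le (fun j => by positivity) (fun j => ?_) (hs.mul_left 2)
  rw [norm_smul, ← mul_assoc 2]
  exact mul_le_mul (h.norm_fc _)
    ((mul_le_of_le_one_left (norm_nonneg _) hu).trans (h.i_le _)) (by positivity) (by positivity)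

theorem to_nat {J : Type} [Countable J]
    (f : J → E →L[𝕜] 𝕜) (y : J → E) (hs : Summable fun j => ‖f j‖ * ‖y j‖) (N : E → E)
    (h : ∀ x, HasSum (fun j => f j x • y j) (N x)) :
    ∃ f' : ℕ → (E →L[𝕜] 𝕜), ∃ y' : ℕ → E, Summable (fun n => ‖f' n‖ * ‖y' n‖) ∧
      ∀ x : E, HasSum (fun n => f' n x • y' n) (N x) := by
  obtain ⟨e, he⟩ := exists_injective_nat J
  have h0 : ∀ n, n ∉ Set.range e → Function.extend e y 0 n = 0 := fun n hn =>
    Function.extend_apply' _ _ _ hn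
  refine ⟨Function.extend e f 0, Function.extend e y 0, ?_, fun x => ?_⟩
  · refine (he.summable_iff fun n hn => ?_).mp ?_
    · rw [h0 n hn, norm_zero, mul_zero]
    · refine hs.congr fun j => ?_
      simp only [Function.comp_apply, he.extend_apply]
  · refine (he.hasSum_iff fun n hn => ?_).mp ?_
    · rw [h0 n hn, smul_zero]
    · have : ((fun n => Function.extend e f 0 n x • Function.extend e y 0 n) ∘ e) =
          fun j => f j x • y j := by
        funext j
        simp only [Function.comp_apply, he.extend_apply]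
      rw [this]
      exact h x

theorem infdim (h : Ext 𝕜 X E i p q) (hX : ¬ FiniteDimensional ℝ X) : ¬ FiniteDimensional 𝕜 E := by
  intro hE
  have : ProperSpace E := FiniteDimensional.proper_rclike 𝕜 E
  refine hX (FiniteDimensional.of_isCompact_closedBall₀ ℝ one_pos ?_)
  refine ((isCompact_closedBall (0 : E) 1).image h.p_cont).of_isClosed_subset
    Metric.isClosed_closedBall fun x hx => ⟨i x, ?_, h.p_i x⟩
  rw [mem_closedBall_zero_iff] at hx ⊢
  exact (h.i_le x).trans hx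

theorem sep (h : Ext 𝕜 X E i p q) [TopologicalSpace.SeparableSpace X] :
    TopologicalSpace.SeparableSpace E := by
  have h1 : Function.Surjective fun w : X × X => i w.1 + (I : 𝕜) • i w.2 := fun x =>
    ⟨(p x, q x), (h.dec x).symm⟩
  exact h1.denseRange.separableSpace
    ((h.i_cont.comp continuous_fst).add ((h.i_cont.comp continuous_snd).const_smul _))

theorem schur (h : Ext 𝕜 X E i p q)
    (hX : ∀ x : ℕ → X, (∀ f : X →L[ℝ] ℝ, Tendsto (fun n => f (x n)) atTop (𝓝 0)) →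
      Tendsto x atTop (𝓝 0))
    (x : ℕ → E) (hx : ∀ f : E →L[𝕜] 𝕜, Tendsto (fun n => f (x n)) atTop (𝓝 0)) :
    Tendsto x atTop (𝓝 0) := by
  have hp : ∀ u : 𝕜, Tendsto (fun n => i (p (u • x n))) atTop (𝓝 0) := fun u => by
    have h1 := hX (fun n => p (u • x n)) fun f => by
      have h2 := (continuous_re.tendsto _).comp ((hx (h.fc f)).const_mul u)
      rw [mul_zero, map_zero] at h2
      refine h2.congr fun n => ?_
      rw [Function.comp_apply, ← smul_eq_mul, ← map_smul, fc_apply, map_add, I_mul_re]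
      simp
    have h3 := (h.i_cont.tendsto 0).comp h1
    rwa [show i 0 = 0 from map_zero h.ia] at h3
  have h4 := (hp 1).sub ((hp I).const_smul (I : 𝕜))
  rw [smul_zero, sub_zero] at h4
  refine h4.congr fun n => ?_
  rw [one_smul]
  nth_rewrite 3 [h.dec (x n)]
  rcases I_eq_zero_or_im_I_eq_one (K := 𝕜) with hI | hI
  · simp [hI]
  · rw [h.p_smul, I_re, hI, zero_smul, one_smul, zero_sub,
      show i (-q (x n)) = -i (q (x n)) from map_neg h.ia _, smul_neg, sub_neg_eq_add]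

theorem nuc (h : Ext 𝕜 X E i p q)
    (hX : ∀ S : X →L[ℝ] X, ∃ l C : ℝ, NucC (fun x => S x - l • x) C) (T : E →L[𝕜] E) :
    ∃ c : 𝕜, ∃ f : ℕ → (E →L[𝕜] 𝕜), ∃ y : ℕ → E, Summable (fun n => ‖f n‖ * ‖y n‖) ∧
      ∀ x : E, HasSum (fun n => f n x • y n) (T x - c • x) := by
  have hb : ∀ x, ‖T (i x)‖ ≤ ‖T‖ * ‖x‖ := fun x =>
    (T.le_opNorm _).trans (mul_le_mul_of_nonneg_left (h.i_le x) (norm_nonneg T))
  let S1 : X →L[ℝ] X := LinearMap.mkContinuous
    { toFun := fun x => p (T (i x))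
      map_add' := fun x y => by rw [h.i_add, map_add, h.p_add]
      map_smul' := fun r x => by
        rw [h.i_smul, map_smul, h.p_smul]
        simp } ‖T‖ fun x => (h.p_le _).trans (hb x)
  let S2 : X →L[ℝ] X := LinearMap.mkContinuous
    { toFun := fun x => q (T (i x))
      map_add' := fun x y => by rw [h.i_add, map_add, h.q_add]
      map_smul' := fun r x => by
        rw [h.i_smul, map_smul, h.q_smul]
        simp } ‖T‖ fun x => (h.q_le _).trans (hb x)
  obtain ⟨l1, C1, I1, _, f1, y1, hs1, -, h1⟩ := hX S1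
  obtain ⟨l2, C2, I2, _, f2, y2, hs2, -, h2⟩ := hX S2
  refine ⟨l1 + I * l2, to_nat (J := I1 ⊕ I2)
    (Sum.elim (fun j => h.fc (f1 j)) fun j => h.fc (f2 j))
    (Sum.elim (fun j => (1 : 𝕜) • i (y1 j)) fun j => (I : 𝕜) • i (y2 j)) ?_
    (fun x => T x - ((l1 : 𝕜) + I * l2) • x) fun x => ?_⟩
  · exact Summable.sum _ (h.summable_fc hs1 norm_one.le) (h.summable_fc hs2 norm_I_le)
  · have h3 := HasSum.sum (f := fun j : I1 ⊕ I2 =>
      (Sum.elim (fun j => h.fc (f1 j)) fun j => h.fc (f2 j)) j x •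
        (Sum.elim (fun j => (1 : 𝕜) • i (y1 j)) fun j => (I : 𝕜) • i (y2 j)) j)
      (h.hasSum_fc h1 1 x) (h.hasSum_fc h2 I x)
    have hsub : ∀ a b, i (a - b) = i a - i b := fun a b => map_sub h.ia a b
    have key : ∀ w : X, T (i w) - ((l1 : 𝕜) + I * l2) • i w =
        i (S1 w - l1 • w) + (I : 𝕜) • i (S2 w - l2 • w) := by
      intro w
      rw [hsub, hsub, h.i_smul, h.i_smul, smul_sub, add_smul, mul_smul]
      nth_rewrite 1 [h.dec (T (i w))]
      change i (S1 w) + (I : 𝕜) • i (S2 w) - _ = _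
      abel
    have e : T x - ((l1 : 𝕜) + I * l2) • x =
        (T (i (p x)) - ((l1 : 𝕜) + I * l2) • i (p x)) +
          (I : 𝕜) • (T (i (q x)) - ((l1 : 𝕜) + I * l2) • i (q x)) := by
      nth_rewrite 1 [h.dec x]
      nth_rewrite 3 [h.dec x]
      rw [map_add, map_smul, smul_add, smul_sub, smul_comm (I : 𝕜) ((l1 : 𝕜) + I * l2)]
      abel
    rw [e, key, key]
    refine (congrArg (fun a => HasSum _ a) ?_).mp h3
    simp only [one_smul, smul_add]
    abel

end Ext

end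

end Pool.Agent.P.MP_1bacd4_an
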