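import Pool.Agent.P.MP_1bacd4_an.Basic

/-! Existence of a good random matrix: union bounds and choice of the constants. -/

set_option autoImplicit false

namespace Pool.Agent.P.MP_1bacd4_an

open Finset Module MeasureTheory ProbabilityTheory Matrix

namespace ExistA

theorem prod_le {α β : Type} [MeasurableSpace α] [MeasurableSpace β] (μ : Measure α)
    (ν : Measure β) [IsProbabilityMeasure μ] [IsProbabilityMeasure ν] {S : Set (α × β)}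
    (hS : MeasurableSet S) (N : Set α) (c : ℝ) (hc : 0 ≤ c)
    (h : ∀ x, x ∉ N → ν.real (Prod.mk x ⁻¹' S) ≤ c) : (μ.prod ν).real S ≤ μ.real N + c := by
  have h1 : (μ.prod ν) S ≤ μ N + ENNReal.ofReal c := by
    rw [Measure.prod_apply hS]
    calc ∫⁻ x, ν (Prod.mk x ⁻¹' S) ∂μ
        ≤ ∫⁻ x, ((toMeasurable μ N).indicator 1 x + ENNReal.ofReal c) ∂μ := by
          refine lintegral_mono fun x => ?_
          by_cases hx : x ∈ toMeasurable μ N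
          · rw [Set.indicator_of_mem hx]
            exact prob_le_one.trans le_self_add
          · rw [Set.indicator_of_notMem hx, zero_add]
            have h2 := h x fun hN => hx (subset_toMeasurable μ N hN)
            rw [← ENNReal.ofReal_toReal (measure_ne_top ν (Prod.mk x ⁻¹' S))]
            exact ENNReal.ofReal_le_ofReal h2
      _ = μ N + ENNReal.ofReal c := by
          rw [lintegral_add_right _ measurable_const,
            lintegral_indicator_one (measurableSet_toMeasurable μ N), measure_toMeasurable,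
            lintegral_const, measure_univ, mul_one]
  have h2 := ENNReal.toReal_mono
    (ENNReal.add_ne_top.2 ⟨measure_ne_top μ N, ENNReal.ofReal_ne_top⟩) h1
  rw [ENNReal.toReal_add (measure_ne_top μ N) ENNReal.ofReal_ne_top,
    ENNReal.toReal_ofReal hc] at h2
  exact h2

theorem bad_open {Ω J : Type} [Fintype Ω] [Fintype J] (r : ℕ) (B : ℝ) :
    IsOpen {z : GS (Ω × J) × GS (Ω × J) | ¬ ∀ g : Matrix Ω Ω ℝ, Sparse r g →
      fro ((mat z.1)ᵀ * g * mat z.2) ≤ B * fro g} := by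
  have e : {z : GS (Ω × J) × GS (Ω × J) | ¬ ∀ g : Matrix Ω Ω ℝ, Sparse r g →
      fro ((mat z.1)ᵀ * g * mat z.2) ≤ B * fro g} = ⋃ g : Matrix Ω Ω ℝ, ⋃ _ : Sparse r g,
      {z | B * fro g < fro ((mat z.1)ᵀ * g * mat z.2)} := by
    ext z
    simp
  rw [e]
  refine isOpen_iUnion fun g => isOpen_iUnion fun _ => isOpen_lt continuous_const ?_
  simp only [fro, mat, Matrix.mul_apply, Matrix.transpose_apply, Matrix.of_apply]
  fun_prop

theorem choose_le (L s : ℕ) (hs : s ≤ L) (l : ℝ) (hl : 0 < l) :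
    (L.choose s : ℝ) ≤ l ^ s * Real.exp (L / l) := by
  have h1 : (L.choose s : ℝ) * l⁻¹ ^ s ≤ (l⁻¹ + 1) ^ L := by
    rw [add_pow]
    refine le_trans (le_of_eq ?_) (single_le_sum
      (f := fun k => l⁻¹ ^ k * (1 : ℝ) ^ (L - k) * (L.choose k : ℝ))
      (fun k _ => by positivity) (mem_range.2 (Nat.lt_succ_of_le hs)))
    simp [mul_comm]
  have h2 : (l⁻¹ + 1) ^ L ≤ Real.exp (L / l) := by
    rw [div_eq_mul_inv, Real.exp_nat_mul]
    exact pow_le_pow_left₀ (by positivity) (Real.add_one_le_exp _) L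
  have h3 : (L.choose s : ℝ) = l ^ s * ((L.choose s : ℝ) * l⁻¹ ^ s) := by
    rw [inv_pow]
    field_simp
  rw [h3]
  exact mul_le_mul_of_nonneg_left (h1.trans h2) (by positivity)

theorem pow125 (d : ℕ) : (125 : ℝ) ^ d ≤ Real.exp (5 * d) := by
  have h1 : (125 : ℝ) ≤ Real.exp 5 := by
    have h := Real.exp_one_gt_d9
    have h2 : Real.exp 5 = Real.exp 1 ^ 5 := by
      rw [← Real.exp_nat_mul]; norm_num
    rw [h2]
    calc (125 : ℝ) ≤ 2.7 ^ 5 := by norm_num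
      _ ≤ Real.exp 1 ^ 5 := pow_le_pow_left₀ (by norm_num) (by linarith) 5
  rw [mul_comm, Real.exp_nat_mul]
  exact pow_le_pow_left₀ (by norm_num) h1 d

theorem count_le (L s d D : ℕ) (σ : ℝ) (hD : 1 ≤ D) (hsL : s ≤ L) (hL : L ≤ 2 * D * d)
    (hs : (s : ℝ) ≤ 2 * σ * L) (hσ0 : 0 ≤ σ) (hσ : 4 * 10 ^ 9 * (D : ℝ) ^ 2 * σ ≤ 1) :
    (L.choose s : ℝ) * 125 ^ s ≤ Real.exp (d / 1000) := by
  have hD' : (1 : ℝ) ≤ D := by exact_mod_cast hD
  have hL' : (L : ℝ) ≤ 2 * D * d := by exact_mod_cast hL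
  have hd : (0 : ℝ) ≤ d := Nat.cast_nonneg d
  have h1 := choose_le L s hsL (4000 * D) (by positivity)
  have h2 : (4000 * (D : ℝ)) ^ s * 125 ^ s ≤ Real.exp (s * (500000 * D)) := by
    rw [← mul_pow, Real.exp_nat_mul]
    refine pow_le_pow_left₀ (by positivity) ?_ s
    have := Real.add_one_le_exp (500000 * (D : ℝ))
    linarith
  have h3 : (L : ℝ) / (4000 * D) ≤ d / 2000 := by
    rw [div_le_div_iff₀ (by positivity) (by norm_num)]
    nlinarith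
  have h4 : (s : ℝ) * (500000 * D) ≤ d / 2000 := by
    have h5 : (s : ℝ) ≤ 2 * σ * (2 * D * d) :=
      hs.trans (mul_le_mul_of_nonneg_left hL' (by positivity))
    have h6 : (s : ℝ) * (500000 * D) ≤ 2 * σ * (2 * D * d) * (500000 * D) :=
      mul_le_mul_of_nonneg_right h5 (by positivity)
    have h7 := mul_le_mul_of_nonneg_right hσ hd
    nlinarith
  calc (L.choose s : ℝ) * 125 ^ s ≤ (4000 * (D : ℝ)) ^ s * Real.exp (L / (4000 * D)) * 125 ^ s :=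
        mul_le_mul_of_nonneg_right h1 (by positivity)
    _ = (4000 * (D : ℝ)) ^ s * 125 ^ s * Real.exp (L / (4000 * D)) := by ring
    _ ≤ Real.exp (s * (500000 * D)) * Real.exp (L / (4000 * D)) :=
        mul_le_mul_of_nonneg_right h2 (by positivity)
    _ ≤ Real.exp (d / 1000) := by
        rw [← Real.exp_add]
        exact Real.exp_le_exp.2 (by linarith)

theorem small_le (K : ℝ) (hK : 0 ≤ K) (L d D : ℕ) (hd1 : 1 ≤ d) (hL0 : 0 < L)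
    (hL : L ≤ 2 * D * d) (hd : K * (120 * 10 ^ 15) * (576000 * D) ^ 4 ≤ d) :
    K * Real.exp (-(d : ℝ) / 1000) ≤ (1 / (288000 * L)) ^ 4 := by
  have hL' : (L : ℝ) ≤ 2 * D * d := by exact_mod_cast hL
  have hL1 : (0 : ℝ) < L := by exact_mod_cast hL0
  have hd0 : (0 : ℝ) < d := by exact_mod_cast hd1
  have h1 := Real.pow_div_factorial_le_exp ((d : ℝ) / 1000) (by positivity) 5
  have h2 : (288000 * (L : ℝ)) ^ 4 ≤ (576000 * D * d) ^ 4 :=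
    pow_le_pow_left₀ (by positivity) (by linarith) 4
  rw [neg_div, Real.exp_neg, div_pow, one_pow, ← div_eq_mul_inv,
    div_le_div_iff₀ (Real.exp_pos _) (by positivity), one_mul]
  refine le_trans ?_ h1
  have h3 : ((d : ℝ) / 1000) ^ 5 / (Nat.factorial 5 : ℕ) = d * d ^ 4 / (120 * 10 ^ 15) := by
    simp only [Nat.factorial]
    norm_num
    ring
  rw [h3, le_div_iff₀ (by norm_num)]
  calc K * (288000 * (L : ℝ)) ^ 4 * (120 * 10 ^ 15)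
      ≤ K * (576000 * D * d) ^ 4 * (120 * 10 ^ 15) := by gcongr
    _ = K * (120 * 10 ^ 15) * (576000 * D) ^ 4 * d ^ 4 := by ring
    _ ≤ d * d ^ 4 := mul_le_mul_of_nonneg_right hd (by positivity)

theorem dB_le (C σ : ℝ) (L d s R D : ℕ) (hC : 1 ≤ C) (hR : (96000 * C) ^ 2 ≤ R)
    (hD : (96000 * C) ^ 2 * R ≤ D) (hDd : D * d ≤ L) (hL : L ≤ 2 * D * d)
    (hs : (s : ℝ) ≤ 2 * σ * L) (hσ0 : 0 ≤ σ) (hσ : 8 * (96000 * C) ^ 4 * (D : ℝ) ^ 2 * σ ≤ 1) :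
    dB C L d s R ≤ √(d : ℝ) * √(L : ℝ) / 32000 := by
  set c := 96000 * C with hc
  have hc0 : 0 < c := by rw [hc]; positivity
  have hL' : (L : ℝ) ≤ 2 * D * d := by exact_mod_cast hL
  have hDd' : (D : ℝ) * d ≤ L := by exact_mod_cast hDd
  have hd0 : (0 : ℝ) ≤ d := Nat.cast_nonneg d
  have hL0 : (0 : ℝ) ≤ L := Nat.cast_nonneg L
  have hR0 : (0 : ℝ) < R := lt_of_lt_of_le (by positivity) hR
  set A := √(d : ℝ) * √(L : ℝ) with hA
  have hA0 : 0 ≤ A := by rw [hA]; positivity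
  have hA2 : A ^ 2 = d * L := by
    rw [hA, mul_pow, Real.sq_sqrt hd0, Real.sq_sqrt hL0]
  have h1 : √((d : ℝ) * L / R) ≤ A / c := by
    refine Real.sqrt_le_iff.2 ⟨by positivity, ?_⟩
    rw [div_pow, hA2]
    exact div_le_div_of_nonneg_left (by positivity) (by positivity) hR
  have h2 : √(√((s : ℝ) * L ^ 3)) ≤ A / c := by
    refine Real.sqrt_le_iff.2 ⟨by positivity, Real.sqrt_le_iff.2 ⟨by positivity, ?_⟩⟩
    rw [div_pow, hA2, div_pow, le_div_iff₀ (by positivity)]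
    have h3 : (L : ℝ) ^ 2 ≤ (2 * D * d) ^ 2 := pow_le_pow_left₀ hL0 hL' 2
    calc (s : ℝ) * L ^ 3 * (c ^ 2) ^ 2 ≤ 2 * σ * L * L ^ 3 * (c ^ 2) ^ 2 := by gcongr
      _ = 2 * σ * c ^ 4 * L ^ 2 * L ^ 2 := by ring
      _ ≤ 2 * σ * c ^ 4 * (2 * D * d) ^ 2 * L ^ 2 := by gcongr
      _ = 8 * c ^ 4 * (D : ℝ) ^ 2 * σ * (d * L) ^ 2 := by ring
      _ ≤ 1 * (d * L) ^ 2 := mul_le_mul_of_nonneg_right hσ (by positivity)
      _ = (d * L) ^ 2 := one_mul _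
  have h3 : √(R : ℝ) * d ≤ A / c := by
    refine le_of_sq_le_sq' (by positivity) ?_
    rw [mul_pow, Real.sq_sqrt hR0.le, div_pow, hA2, le_div_iff₀ (by positivity)]
    calc (R : ℝ) * (d : ℝ) ^ 2 * c ^ 2 = c ^ 2 * R * d * d := by ring
      _ ≤ (D : ℝ) * d * d := by gcongr
      _ ≤ (L : ℝ) * d := by gcongr
      _ = (d : ℝ) * L := by ring
  have h4 : C * (A / c + A / c + A / c) = A / 32000 := by
    rw [hc]
    field_simp
    ring
  rw [dB, ← h4]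
  gcongr

theorem exists_coord {Ω : Type} [Fintype Ω] [DecidableEq Ω] {s : ℕ} (hs : s ≤ Fintype.card Ω)
    {x : Ω → ℝ} (hx : supp x ≤ s) : ∃ S ∈ powersetCard s (univ : Finset Ω), x ∈ coordS S := by
  obtain ⟨S, h1, -, h3⟩ := exists_subsuperset_card_eq
    (subset_univ (univ.filter fun i => x i ≠ 0)) hx hs
  refine ⟨S, mem_powersetCard.2 ⟨subset_univ _, h3⟩, fun i hi => ?_⟩
  by_contra h
  exact hi (h1 (mem_filter.2 ⟨mem_univ _, h⟩))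

theorem fro_le_of_op {Ω : Type} [Fintype Ω] {d : ℕ} {Γ : Matrix Ω (Fin d) ℝ}
    (h : ∀ v, n2 (Γ *ᵥ v) ≤ 2 * sq Ω * n2 v) : fro Γ ^ 2 ≤ 4 * Fintype.card (Ω × Fin d) := by
  rw [fro_sq_cols]
  have h1 : ∀ j : Fin d, n2 (fun i => Γ i j) ^ 2 ≤ 4 * Fintype.card Ω := by
    intro j
    have h2 := h (Pi.single j 1)
    have h3 : n2 (Pi.single j 1 : Fin d → ℝ) = 1 := by
      simp [n2, Pi.single_apply]
    have h4 : Γ *ᵥ Pi.single j 1 = fun i => Γ i j := by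
      ext i
      simp
    rw [h3, h4, mul_one] at h2
    have h5 := pow_le_pow_left₀ (n2_nonneg _) h2 2
    rw [mul_pow, sq_sq] at h5
    linarith
  refine (sum_le_sum fun j _ => h1 j).trans (le_of_eq ?_)
  simp
  ring

theorem pE1 (hi : S_Iso) (Ω : Type) [Fintype Ω] (d m : ℕ) (h5 : 5000 * d ≤ Fintype.card Ω) :
    (gm (Ω × Fin d)).real {G | ¬ IsoOn (mat G) (sq Ω) Set.univ} ≤
      14 * 125 ^ m * Real.exp (-(d : ℝ) / 1000) := by
  have h := (hi Ω (Fin d)).1 ⊤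
  rw [finrank_top, Module.finrank_fin_fun, Submodule.top_coe] at h
  refine h.trans ?_
  have h5' : (5000 : ℝ) * d ≤ Fintype.card Ω := by exact_mod_cast h5
  have hd : (0 : ℝ) ≤ d := Nat.cast_nonneg d
  have h2 : (125 : ℝ) ^ d * Real.exp (-(Fintype.card Ω : ℝ) / 500) ≤
      Real.exp (-(d : ℝ) / 1000) := by
    refine (mul_le_mul_of_nonneg_right (pow125 d) (Real.exp_pos _).le).trans ?_
    rw [← Real.exp_add]
    exact Real.exp_le_exp.2 (by linarith)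
  have h3 := Real.exp_pos (-(d : ℝ) / 1000)
  have h125 : (1 : ℝ) ≤ 125 ^ m := one_le_pow₀ (by norm_num)
  nlinarith

theorem pE3 (hi : S_Iso) (Ω : Type) [Fintype Ω] [DecidableEq Ω] (d m s : ℕ)
    (Ξ : Submodule ℝ (Ω → ℝ)) (hΞ : finrank ℝ Ξ ≤ m)
    (h2 : ((Fintype.card Ω).choose s : ℝ) * 125 ^ s ≤ Real.exp (d / 1000)) :
    (gm (Ω × Fin d)).real (⋃ S ∈ powersetCard s (univ : Finset Ω),
      {G | ¬ IsoOn (mat G)ᵀ (√(d : ℝ)) (coordS S ⊔ Ξ : Submodule ℝ (Ω → ℝ))}) ≤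
      14 * 125 ^ m * Real.exp (-(d : ℝ) / 1000) := by
  have hsq : sq (Fin d) = √(d : ℝ) := by simp [sq]
  refine (measureReal_biUnion_finset_le _ _).trans ?_
  have h1 : ∀ S ∈ powersetCard s (univ : Finset Ω), (gm (Ω × Fin d)).real
      {G | ¬ IsoOn (mat G)ᵀ (√(d : ℝ)) (coordS S ⊔ Ξ : Submodule ℝ (Ω → ℝ))} ≤
      14 * 125 ^ (s + m) * Real.exp (-(d : ℝ) / 500) := by
    intro S hS
    have h := (hi Ω (Fin d)).2 (coordS S ⊔ Ξ)
    rw [hsq, Fintype.card_fin] at h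
    refine h.trans ?_
    have h2 : finrank ℝ (coordS S ⊔ Ξ : Submodule ℝ (Ω → ℝ)) ≤ s + m := by
      refine (Submodule.finrank_add_le_finrank_add_finrank _ _).trans ?_
      have := finrank_coordS_le S
      rw [(mem_powersetCard.1 hS).2] at this
      omega
    gcongr
    norm_num
  refine (sum_le_sum h1).trans ?_
  rw [sum_const, card_powersetCard, card_univ, nsmul_eq_mul]
  calc ((Fintype.card Ω).choose s : ℝ) * (14 * 125 ^ (s + m) * Real.exp (-(d : ℝ) / 500))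
      = 14 * 125 ^ m * (((Fintype.card Ω).choose s : ℝ) * 125 ^ s *
        Real.exp (-(d : ℝ) / 500)) := by ring
    _ ≤ 14 * 125 ^ m * (Real.exp (d / 1000) * Real.exp (-(d : ℝ) / 500)) := by gcongr
    _ = _ := by
      rw [← Real.exp_add]
      congr 2
      ring

theorem exp_le_Q (d m : ℕ) :
    Real.exp (-(d : ℝ)) ≤ 14 * 125 ^ m * Real.exp (-(d : ℝ) / 1000) := by
  have hd : (0 : ℝ) ≤ d := Nat.cast_nonneg d
  have h1 : Real.exp (-(d : ℝ)) ≤ Real.exp (-(d : ℝ) / 1000) := Real.exp_le_exp.2 (by linarith)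
  have h3 := Real.exp_pos (-(d : ℝ) / 1000)
  have h125 : (1 : ℝ) ≤ 125 ^ m := one_le_pow₀ (by norm_num)
  nlinarith

theorem core (hu : S_Decoup) (Ω : Type) [Fintype Ω] [DecidableEq Ω] (d s : ℕ)
    (Ξ : Submodule ℝ (Ω → ℝ)) (B Q p : ℝ) (hB0 : 0 ≤ B) (hQ0 : 0 ≤ Q) (hp0 : 0 < p)
    (hp1 : p ≤ 1 / 2) (hQp : 4 * Q ≤ p ^ 4) (hsL : s ≤ Fintype.card Ω)
    (hE1 : (gm (Ω × Fin d)).real {G | ¬ IsoOn (mat G) (sq Ω) Set.univ} ≤ Q)
    (hE3 : (gm (Ω × Fin d)).real (⋃ S ∈ powersetCard s (univ : Finset Ω),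
      {G | ¬ IsoOn (mat G)ᵀ (√(d : ℝ)) (coordS S ⊔ Ξ : Submodule ℝ (Ω → ℝ))}) ≤ Q)
    (hdec : ∀ Γ1 : Matrix Ω (Fin d) ℝ, (∀ v, n2 (Γ1 *ᵥ v) ≤ 2 * sq Ω * n2 v) →
      (∀ x, supp x ≤ s → n2 (Γ1ᵀ *ᵥ x) ≤ 2 * √(d : ℝ) * n2 x) →
      (gm (Ω × Fin d)).real {G | (∀ v, n2 (mat G *ᵥ v) ≤ 2 * sq Ω * n2 v) ∧
        ¬ ∀ g : Matrix Ω Ω ℝ, Sparse s g → fro (Γ1ᵀ * g * mat G) ≤ B * fro g} ≤ Q)
    (hfin : 2 * B + 6 * Fintype.card (Ω × Fin d) * p ≤ √(d : ℝ) * sq Ω / 12000) :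
    ∃ Γ : Matrix Ω (Fin d) ℝ, RG Γ Ξ s := by
  set E1 : Set (GS (Ω × Fin d)) := {G | ¬ IsoOn (mat G) (sq Ω) Set.univ} with hE1def
  set E3 : Set (GS (Ω × Fin d)) := ⋃ S ∈ powersetCard s (univ : Finset Ω),
    {G | ¬ IsoOn (mat G)ᵀ (√(d : ℝ)) (coordS S ⊔ Ξ : Submodule ℝ (Ω → ℝ))} with hE3def
  have hr3 : ∀ G, G ∉ E3 →
      IsoOn (mat G)ᵀ (√(d : ℝ)) {w | ∃ x ξ, supp x ≤ s ∧ ξ ∈ Ξ ∧ w = x + ξ} := by
    rintro G hG _ ⟨x, ξ, hx, hξ, rfl⟩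
    obtain ⟨S, hS, hxS⟩ := exists_coord hsL hx
    have h : IsoOn (mat G)ᵀ (√(d : ℝ)) (coordS S ⊔ Ξ : Submodule ℝ (Ω → ℝ)) := by
      by_contra h
      exact hG (Set.mem_biUnion hS h)
    exact h _ (Submodule.add_mem_sup hxS hξ)
  have hr1 : ∀ G, G ∉ E1 → IsoOn (mat G) (sq Ω) Set.univ := fun G hG => not_not.1 hG
  have hpair := prod_le (gm (Ω × Fin d)) (gm (Ω × Fin d))
    (bad_open (Ω := Ω) (J := Fin d) s B).measurableSet
    (E1 ∪ E3) (Q + Q) (by linarith) (fun G hG => by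
      rw [Set.mem_union, not_or] at hG
      have h := hdec (mat G) (fun v => (hr1 G hG.1 v trivial).2)
        (fun x hx => (hr3 G hG.2 x ⟨x, 0, hx, Ξ.zero_mem, (add_zero x).symm⟩).2)
      refine le_trans (measureReal_mono ?_) ((measureReal_union_le E1 _).trans
        (add_le_add hE1 h))
      intro G' hG'
      by_cases h1 : G' ∈ E1
      · exact Or.inl h1
      · exact Or.inr ⟨fun v => (hr1 G' h1 v trivial).2, hG'⟩)
  have hE13 : (gm (Ω × Fin d)).real (E1 ∪ E3) ≤ Q + Q :=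
    (measureReal_union_le _ _).trans (add_le_add hE1 hE3)
  have hE4 := hu Ω (Fin d) s B p hB0 hp0 (by linarith) (hpair.trans (by linarith))
  have hlt := (measureReal_union_le (μ := gm (Ω × Fin d)) _ _).trans (add_le_add hE13 hE4)
  have hp2 : p ^ 2 ≤ (1 / 2) ^ 2 := pow_le_pow_left₀ hp0.le hp1 2
  have hp4 : p ^ 4 ≤ (1 / 2) ^ 4 := pow_le_pow_left₀ hp0.le hp1 4
  have hex : ∀ S : Set (GS (Ω × Fin d)), (gm (Ω × Fin d)).real S ≤ Q + Q + p ^ 2 →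
      ∃ G, G ∉ S := fun S hS => (Set.ne_univ_iff_exists_notMem S).1 (fun h => by
    rw [h, probReal_univ] at hS
    linarith)
  obtain ⟨G, hG⟩ := hex _ hlt
  rw [Set.mem_union, Set.mem_union, not_or, not_or] at hG
  obtain ⟨⟨hG1, hG3⟩, hG4⟩ := hG
  refine ⟨mat G, hr1 G hG1, hr3 G hG3, fun g hg htr => ?_⟩
  have h1 := fro_le_of_op fun v => (hr1 G hG1 v trivial).2
  have h2 := not_not.1 (fun h => hG4 ⟨h1, h⟩) g hg htr
  exact h2.trans (mul_le_mul_of_nonneg_right hfin (fro_nonneg g))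

theorem fin_le (B : ℝ) (L d : ℕ) (hL0 : 0 < L) (hdL : d ≤ L)
    (hB : B ≤ √(d : ℝ) * √(L : ℝ) / 32000) :
    2 * B + 6 * ((L * d : ℕ) : ℝ) * (1 / (288000 * L)) ≤ √(d : ℝ) * √(L : ℝ) / 12000 := by
  have hL1 : (0 : ℝ) < L := by exact_mod_cast hL0
  have h4 : 6 * ((L * d : ℕ) : ℝ) * (1 / (288000 * L)) = d / 48000 := by
    push_cast
    field_simp
    ring
  have h5 : (d : ℝ) ≤ √(d : ℝ) * √(L : ℝ) := by
    have h6 : √(d : ℝ) ≤ √(L : ℝ) := Real.sqrt_le_sqrt (by exact_mod_cast hdL)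
    calc (d : ℝ) = √(d : ℝ) * √(d : ℝ) := (Real.mul_self_sqrt (Nat.cast_nonneg d)).symm
      _ ≤ _ := mul_le_mul_of_nonneg_left h6 (Real.sqrt_nonneg _)
  rw [h4]
  linarith

theorem consts (C : ℝ) (hC : 1 ≤ C) : ∃ (R D : ℕ) (σ : ℝ), 2 ≤ R ∧ 5000 ≤ D ∧ 0 < σ ∧
    2 * σ ≤ 1 ∧ (96000 * C) ^ 2 ≤ R ∧ (96000 * C) ^ 2 * R ≤ D ∧
    4 * 10 ^ 9 * (D : ℝ) ^ 2 * σ ≤ 1 ∧ 8 * (96000 * C) ^ 4 * (D : ℝ) ^ 2 * σ ≤ 1 := by
  obtain ⟨R, hR⟩ := exists_nat_ge ((96000 * C) ^ 2)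
  obtain ⟨D, hD⟩ := exists_nat_ge ((96000 * C) ^ 2 * R)
  have hc1 : (96000 : ℝ) ≤ 96000 * C := by linarith
  have hc2 : (96000 : ℝ) ^ 2 ≤ (96000 * C) ^ 2 := pow_le_pow_left₀ (by norm_num) hc1 2
  have hc4 : (1 : ℝ) ≤ (96000 * C) ^ 4 := one_le_pow₀ (by linarith)
  have hR2 : (2 : ℝ) ≤ R := by nlinarith
  have hD5 : (5000 : ℝ) ≤ D := by nlinarith
  obtain ⟨σ, hσ0, hσ1⟩ : ∃ σ : ℝ, 0 < σ ∧
      4 * 10 ^ 9 * (96000 * C) ^ 4 * (D : ℝ) ^ 2 * σ = 1 :=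
    ⟨1 / (4 * 10 ^ 9 * (96000 * C) ^ 4 * (D : ℝ) ^ 2), by positivity, by field_simp⟩
  have hD2 : (1 : ℝ) ≤ (D : ℝ) ^ 2 := one_le_pow₀ (by linarith)
  have hDσ : 0 ≤ (D : ℝ) ^ 2 * σ := by positivity
  have hσ2 : 4 * 10 ^ 9 * (D : ℝ) ^ 2 * σ ≤ 1 := by nlinarith
  have hσ3 : 8 * (96000 * C) ^ 4 * (D : ℝ) ^ 2 * σ ≤ 1 := by
    have : 0 ≤ (96000 * C) ^ 4 * (D : ℝ) ^ 2 * σ := by positivity
    nlinarith
  exact ⟨R, D, σ, by exact_mod_cast hR2, by exact_mod_cast hD5, hσ0, by nlinarith, hR, hD,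
    hσ2, hσ3⟩

theorem sizes (σ : ℝ) (hσ0 : 0 < σ) (hσ4 : 2 * σ ≤ 1) (L : ℕ) (hL : σ⁻¹ ≤ L) :
    ∃ s : ℕ, σ * L ≤ s ∧ (s : ℝ) ≤ 2 * σ * L ∧ s ≤ L ∧ 1 ≤ s := by
  have hσL : 1 ≤ σ * L := by
    have h2 := mul_le_mul_of_nonneg_left hL hσ0.le
    rwa [mul_inv_cancel₀ hσ0.ne'] at h2
  have hL0 : (0 : ℝ) ≤ L := Nat.cast_nonneg L
  have hs1 : σ * L ≤ ⌈σ * L⌉₊ := Nat.le_ceil _
  have hs2 : (⌈σ * L⌉₊ : ℝ) ≤ 2 * σ * L := by
    have := Nat.ceil_lt_add_one (a := σ * L) (by positivity)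
    linarith
  refine ⟨⌈σ * L⌉₊, hs1, hs2, ?_, ?_⟩
  · have : (⌈σ * L⌉₊ : ℝ) ≤ L := by nlinarith
    exact_mod_cast this
  · have : (1 : ℝ) ≤ ⌈σ * L⌉₊ := hσL.trans hs1
    exact_mod_cast this

end ExistA

open ExistA in
theorem exist (hi : S_Iso) (hd : S_Dec) (hu : S_Decoup) : S_Exist := by
  obtain ⟨C, hC, hdec⟩ := hd
  obtain ⟨R, D, σ, hR2, hD5, hσ0, hσ4, hR, hD, hσ2, hσ3⟩ := consts C hC
  refine ⟨D, σ, by omega, hσ0, by linarith, fun m => ?_⟩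
  obtain ⟨d0, hd0⟩ := exists_nat_ge
    (4 * (14 * 125 ^ m) * (120 * 10 ^ 15) * (576000 * (D : ℝ)) ^ 4)
  obtain ⟨L1, hL1⟩ := exists_nat_ge σ⁻¹
  refine ⟨max (D * (d0 + 1)) L1, fun Ω _ _ hL Ξ hΞ => ?_⟩
  obtain ⟨d, hdd0, hDd, hLD⟩ : ∃ d : ℕ, d0 + 1 ≤ d ∧ D * d ≤ Fintype.card Ω ∧
      Fintype.card Ω ≤ 2 * D * d := by
    have h0 : d0 + 1 ≤ Fintype.card Ω / D := by
      rw [Nat.le_div_iff_mul_le (by omega), mul_comm]
      exact (le_max_left _ _).trans hL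
    refine ⟨Fintype.card Ω / D, h0, Nat.mul_div_le _ D, ?_⟩
    have h1 := Nat.lt_mul_div_succ (Fintype.card Ω) (by omega : 0 < D)
    have h2 : D * (Fintype.card Ω / D + 1) ≤ D * (2 * (Fintype.card Ω / D)) :=
      Nat.mul_le_mul_left D (by omega)
    rw [mul_comm 2 D, mul_assoc]
    omega
  have hL0 : 0 < Fintype.card Ω :=
    lt_of_lt_of_le (Nat.mul_pos (by omega) (by omega)) hDd
  have hL0' : (1 : ℝ) ≤ Fintype.card Ω := by exact_mod_cast hL0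
  obtain ⟨s, hs1, hs2, hsL, hs0⟩ := sizes σ hσ0 hσ4 (Fintype.card Ω)
    (hL1.trans (by exact_mod_cast (le_max_right _ _).trans hL))
  have h5 : 5000 * d ≤ Fintype.card Ω := (Nat.mul_le_mul_right d hD5).trans hDd
  obtain ⟨Γ, hΓ⟩ := core hu Ω d s Ξ (dB C (Fintype.card Ω) d s R)
    (14 * 125 ^ m * Real.exp (-(d : ℝ) / 1000)) (1 / (288000 * Fintype.card Ω))
    (by rw [dB]; positivity) (by positivity) (by positivity)
    (one_div_le_one_div_of_le (by norm_num) (by linarith))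
    (by
      rw [← mul_assoc]
      refine small_le _ (by positivity) _ d D (by omega) hL0 hLD (hd0.trans ?_)
      exact_mod_cast (by omega : d0 ≤ d))
    hsL (pE1 hi Ω d m h5)
    (pE3 hi Ω d m s Ξ hΞ (count_le _ s d D σ (by omega) hsL hLD hs2 hσ0.le hσ2))
    (fun Γ1 h1 h2 => (hdec Ω d s R (by omega) hs0 hR2 Γ1 h1 h2).trans (exp_le_Q d m))
    (by
      rw [Fintype.card_prod, Fintype.card_fin]
      exact fin_le _ _ d hL0 (by omega)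
        (dB_le C σ _ d s R D hC hR hD hDd hLD hs2 hσ0.le hσ3))
  exact ⟨d, s, Γ, hDd, hLD, hs1, hΓ⟩

end Pool.Agent.P.MP_1bacd4_an
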