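import Pool.Agent.P.MP_1bacd4_an.Defs

/-! Dovetailing recursion and passage to the limit. -/

set_option autoImplicit false

namespace Pool.Agent.P.MP_1bacd4_an

open Finset Filter Topology

noncomputable section

namespace RecA

/-- Requests over a pair of spaces. -/
abbrev Rq (E F : Type) : Type := E × (Σ n : ℕ, (Fin n → F) × (Fin n → E))

/-- Image of a request. -/
def Rq.map {E F E' F' : Type} (a : E → E') (b : F → F') (r : Rq E F) : Rq E' F' :=
  (a r.1, ⟨r.2.1, fun i => b (r.2.2.1 i), fun i => a (r.2.2.2 i)⟩)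

/-- A request is satisfied. -/
def Out (c : ℝ) {E F : Type} [NormedAddCommGroup E] [NormedSpace ℝ E] [NormedAddCommGroup F]
    [NormedSpace ℝ F] (β : F →L[ℝ] E →L[ℝ] ℝ) (r : Rq E F) : Prop :=
  (∃ y : F, ‖y‖ ≤ 1 ∧ β y r.1 = ‖r.1‖) ∧
    (WL r.2.2.1 1 → WL r.2.2.2 1 → |∑ i, β (r.2.2.1 i) (r.2.2.2 i)| ≤ 1 →
      (∀ b : F →L[ℝ] E →L[ℝ] ℝ, Bd b → c ^ 2 * |∑ i, b (r.2.2.1 i) (r.2.2.2 i)| ≤ 1) ∧
      ∃ Ψ : (Fin r.2.1 → Bool) → E, (∀ ε, ‖Ψ ε‖ ≤ 1) ∧ ∀ i, co Ψ {i} = c • r.2.2.2 i)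

section Aux

variable {ι E E' : Type} [Fintype ι] [NormedAddCommGroup E] [NormedSpace ℝ E]
  [NormedAddCommGroup E'] [NormedSpace ℝ E']

theorem wl_map (j : E →ₗᵢ[ℝ] E') (x : ι → E) (s : ℝ) : WL (fun i => j (x i)) s ↔ WL x s := by
  refine forall_congr' fun a => ?_
  rw [← j.norm_map (∑ i, a i • x i), map_sum]
  simp only [map_smul]

theorem co_map [DecidableEq ι] (j : E →ₗᵢ[ℝ] E') (f : (ι → Bool) → E) (A : Finset ι) :
    co (fun ε => j (f ε)) A = j (co f A) := by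
  simp only [co, av, map_smul, map_sum]

theorem co_add_smul [DecidableEq ι] (t : ℝ) (f g : (ι → Bool) → E) (A : Finset ι) :
    co (fun ε => t • f ε + g ε) A = t • co f A + co g A := by
  simp only [co, av, smul_add, sum_add_distrib, smul_comm (wal A _) t, ← smul_sum,
    smul_comm _ t]

theorem rad_map (j : E →ₗᵢ[ℝ] E') (x : ι → E) (ε : ι → Bool) :
    rad (fun i => j (x i)) ε = j (rad x ε) := by
  simp only [rad, map_smul, map_sum]

theorem norm_rad_le (x : ι → E) (ε : ι → Bool) : ‖rad x ε‖ ≤ ∑ i, ‖x i‖ := by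
  refine (norm_sum_le _ _).trans (sum_le_sum fun i _ => ?_)
  rw [norm_smul, sg]
  split_ifs <;> simp

theorem av_nonneg {Ω : Type} [Fintype Ω] {f : Ω → ℝ} (h : ∀ ω, 0 ≤ f ω) : 0 ≤ av f :=
  mul_nonneg (inv_nonneg.2 (Nat.cast_nonneg _)) (sum_nonneg fun ω _ => h ω)

theorem ct_mono {K C : ℝ} (h : CT K E) (hK : K ≤ C) : CT C E := fun ι _ _ φ x hφ =>
  (h ι φ x hφ).trans (mul_le_mul_of_nonneg_right hK (av_nonneg fun _ => norm_nonneg _))

theorem wl_half {x : ι → E} (hx : WL x 1) :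
    ∀ᶠ z in 𝓝 (fun i => (1 / 2 : ℝ) • x i), WL z 1 := by
  have h1 : Continuous fun z : ι → E => ∑ i, ‖z i - (1 / 2 : ℝ) • x i‖ := by fun_prop
  have h2 := h1.continuousAt (x := fun i => (1 / 2 : ℝ) • x i) |>.eventually
    (gt_mem_nhds (a := (1 / 2 : ℝ)) (by simp))
  filter_upwards [h2] with z hz a
  have h3 : ∑ i, a i • z i =
      (1 / 2 : ℝ) • ∑ i, a i • x i + ∑ i, a i • (z i - (1 / 2 : ℝ) • x i) := by
    rw [smul_sum, ← sum_add_distrib]
    refine sum_congr rfl fun i _ => ?_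
    rw [smul_sub, smul_comm]
    abel
  have h4 : ‖∑ i, a i • (z i - (1 / 2 : ℝ) • x i)‖ ≤ n2 a * ∑ i, ‖z i - (1 / 2 : ℝ) • x i‖ := by
    rw [mul_sum]
    refine (norm_sum_le _ _).trans (sum_le_sum fun i _ => ?_)
    rw [norm_smul]
    exact mul_le_mul_of_nonneg_right (Real.abs_le_sqrt (single_le_sum (f := fun i => a i ^ 2)
      (fun _ _ => sq_nonneg _) (mem_univ i))) (norm_nonneg _)
  have h5 := hx a
  have h6 : 0 ≤ n2 a := Real.sqrt_nonneg _
  have h7 : n2 a * ∑ i, ‖z i - (1 / 2 : ℝ) • x i‖ ≤ n2 a * (1 / 2) :=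
    mul_le_mul_of_nonneg_left hz.le h6
  rw [h3]
  refine (norm_add_le _ _).trans ?_
  rw [norm_smul, Real.norm_of_nonneg (by norm_num : (0 : ℝ) ≤ 1 / 2)]
  linarith

end Aux

theorem Out.map {c : ℝ} {E F E' F' : Type} [NormedAddCommGroup E] [NormedSpace ℝ E]
    [NormedAddCommGroup F] [NormedSpace ℝ F] [NormedAddCommGroup E'] [NormedSpace ℝ E']
    [NormedAddCommGroup F'] [NormedSpace ℝ F'] {β : F →L[ℝ] E →L[ℝ] ℝ}
    {β' : F' →L[ℝ] E' →L[ℝ] ℝ} (a : E →ₗᵢ[ℝ] E') (b : F →ₗᵢ[ℝ] F')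
    (hβ : ∀ y x, β' (b y) (a x) = β y x) {r : Rq E F} (h : Out c β r) :
    Out c β' (r.map a b) := by
  obtain ⟨x0, n, y0, x1⟩ := r
  obtain ⟨⟨y, hy, hy'⟩, h2⟩ := h
  refine ⟨⟨b y, by rwa [b.norm_map], ?_⟩, fun h3 h4 h5 => ?_⟩
  · change β' (b y) (a x0) = ‖a x0‖
    rw [hβ, a.norm_map]
    exact hy'
  · obtain ⟨h6, Ψ, h7, h8⟩ := h2 ((wl_map b _ _).1 h3) ((wl_map a _ _).1 h4)
      (by
        change |∑ i : Fin n, β' (b (y0 i)) (a (x1 i))| ≤ 1 at h5
        simpa only [hβ] using h5)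
    refine ⟨fun B hB => ?_, fun ε => a (Ψ ε), fun ε => by rw [a.norm_map]; exact h7 ε,
      fun i => ?_⟩
    · refine h6 (B.bilinearComp b.toContinuousLinearMap a.toContinuousLinearMap) fun y x => ?_
      have := hB (b y) (a x)
      rwa [b.norm_map, a.norm_map] at this
    · exact (co_map a Ψ {i}).trans ((congrArg a (h8 i)).trans (map_smul a _ _))

variable {K : ℝ}

/-- Composition of stage maps. -/
def comp (hA : S_Adm) {s s' s'' : Stg K} (h : Hom s s') (h' : Hom s' s'') : Hom s s'' where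
  jE := h'.jE.comp h.jE
  jF := h'.jF.comp h.jF
  comp := fun y x => (h'.comp _ _).trans (h.comp y x)
  adm := by
    have h1 := hA.map _ _ h'.jE _ _ h.adm
    rw [Submodule.map_top, ← LinearMap.range_comp] at h1
    exact hA.trans _ _ _ _ h1 h'.adm

theorem step (hA : S_Adm) {c : ℝ} (h1 : StepA K) (h2 : StepB K c) (s : Stg K)
    (r : Rq s.E s.F) : ∃ (s' : Stg K) (h : Hom s s'), ¬ Function.Surjective h.jE ∧
      Out c s'.β (r.map h.jE h.jF) := by
  obtain ⟨s1, g, hg, y, hy, hy'⟩ := h1 s r.1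
  by_cases hr : WL (r.map g.jE g.jF).2.2.1 1 ∧ WL (r.map g.jE g.jF).2.2.2 1 ∧
      |∑ i, s1.β ((r.map g.jE g.jF).2.2.1 i) ((r.map g.jE g.jF).2.2.2 i)| ≤ 1
  · obtain ⟨s2, g', h3⟩ := h2 s1 _ _ _ hr.1 hr.2.1 hr.2.2
    refine ⟨s2, comp hA g g', fun hs => hg fun z => ?_, ⟨g'.jF y, by rwa [g'.jF.norm_map], ?_⟩,
      fun _ _ _ => h3⟩
    · obtain ⟨e, he⟩ := hs (g'.jE z)
      exact ⟨e, g'.jE.injective he⟩
    · change s2.β (g'.jF y) (g'.jE (g.jE r.1)) = ‖g'.jE (g.jE r.1)‖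
      rw [g'.comp, hy', g'.jE.norm_map, g.jE.norm_map]
  · refine ⟨s1, g, hg, ⟨y, hy, ?_⟩, fun h3 h4 h5 => absurd ⟨h3, h4, h5⟩ hr⟩
    change s1.β y (g.jE r.1) = ‖g.jE r.1‖
    rw [hy', g.jE.norm_map]

/-- A dense sequence of requests. -/
theorem exists_den (s : Stg K) : ∃ d : ℕ → Rq s.E s.F, ∀ n : ℕ,
    Dense {p : s.E × (Fin n → s.F) × (Fin n → s.E) | ∃ k, d k = (p.1, ⟨n, p.2⟩)} := by
  have h : ∀ n : ℕ, ∃ u : ℕ → s.E × (Fin n → s.F) × (Fin n → s.E), DenseRange u := fun n => by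
    have := FiniteDimensional.proper_real s.E
    have := FiniteDimensional.proper_real s.F
    exact TopologicalSpace.exists_dense_seq _
  choose u hu using h
  refine ⟨fun k => ((u k.unpair.1 k.unpair.2).1, ⟨k.unpair.1, (u k.unpair.1 k.unpair.2).2⟩),
    fun n => (hu n).mono ?_⟩
  rintro _ ⟨j, rfl⟩
  refine ⟨Nat.pair n j, ?_⟩
  have e : ∀ q : ℕ × ℕ, q = (n, j) →
      ((((u q.1 q.2).1, ⟨q.1, (u q.1 q.2).2⟩) : Rq s.E s.F)) = ((u n j).1, ⟨n, (u n j).2⟩) := by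
    rintro _ rfl
    rfl
  exact e _ (Nat.unpair_pair n j)

theorem ct_triv (hK : 0 ≤ K) : CT K (Fin 0 → ℝ) := fun ι _ _ φ x _ => by
  refine le_trans (sum_eq_zero fun i _ => ?_).le
    (mul_nonneg hK (av_nonneg fun _ => norm_nonneg _))
  rw [Subsingleton.elim (x i) 0, map_zero]

/-- The trivial stage. -/
def triv (hK : 0 ≤ K) : Stg K where
  E := Fin 0 → ℝ
  F := Fin 0 → ℝ
  β := 0
  bd := fun y x => by simpa using mul_nonneg (norm_nonneg y) (norm_nonneg x)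
  cE := ct_triv hK
  cF := ct_triv hK

theorem exists_seq (hK : 0 ≤ K) {c : ℝ} (d : ∀ s : Stg K, ℕ → Rq s.E s.F)
    (hs : ∀ (s : Stg K) (r : Rq s.E s.F), ∃ (s' : Stg K) (h : Hom s s'),
      ¬ Function.Surjective h.jE ∧ Out c s'.β (r.map h.jE h.jF)) :
    ∃ (s : ℕ → Stg K) (h : ∀ n, Hom (s n) (s (n + 1))) (q : ∀ m, ℕ → ℕ → Rq (s m).E (s m).F),
      (∀ m, q m m = d (s m)) ∧
      (∀ m n k, n ≠ m + 1 → q (m + 1) n k = (q m n k).map (h m).jE (h m).jF) ∧
      ∀ m, ¬ Function.Surjective (h m).jE ∧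
        Out c (s (m + 1)).β ((q m m.unpair.1 m.unpair.2).map (h m).jE (h m).jF) := by
  choose S H hH using hs
  let nx : ℕ → (Σ s : Stg K, ℕ → ℕ → Rq s.E s.F) → Σ s : Stg K, ℕ → ℕ → Rq s.E s.F :=
    fun m σ => ⟨S σ.1 (σ.2 m.unpair.1 m.unpair.2), fun n => if n = m + 1 then d _ else
      fun k => (σ.2 n k).map (H σ.1 _).jE (H σ.1 _).jF⟩
  let σ : ℕ → Σ s : Stg K, ℕ → ℕ → Rq s.E s.F :=
    fun m => Nat.rec ⟨triv hK, fun _ => d _⟩ nx m
  refine ⟨fun m => (σ m).1, fun m => H (σ m).1 ((σ m).2 m.unpair.1 m.unpair.2),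
    fun m => (σ m).2, fun m => ?_, fun m n k hn => ?_, fun m => hH _ _⟩
  · cases m with
    | zero => rfl
    | succ m => exact if_pos rfl
  · exact congrFun (if_neg hn) k

/-- Eventual approximation in the stages. -/
theorem approx {X : Type} [NormedAddCommGroup X] {E : ℕ → Type} (i : ∀ n, E n → X)
    (j : ∀ n, E n → E (n + 1)) (hij : ∀ n x, i (n + 1) (j n x) = i n x)
    (hd : ∀ x : X, ∀ δ : ℝ, 0 < δ → ∃ n e, ‖x - i n e‖ < δ) {ι : Type} [Fintype ι] (x : ι → X)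
    {δ : ℝ} (hδ : 0 < δ) : ∀ᶠ m in atTop, ∃ e : ι → E m, dist x (fun a => i m (e a)) < δ := by
  have h1 : ∀ a, ∀ᶠ m in atTop, ∃ e : E m, dist (x a) (i m e) < δ := fun a => by
    obtain ⟨n, e, he⟩ := hd (x a) δ hδ
    refine eventually_atTop.2 ⟨n, fun m hm => ?_⟩
    induction m, hm using Nat.le_induction with
    | base => exact ⟨e, by rwa [dist_eq_norm]⟩
    | succ m _ ih =>
      obtain ⟨e', he'⟩ := ih
      exact ⟨j m e', by rwa [hij]⟩
  filter_upwards [eventually_all.2 h1] with m hm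
  choose e he using hm
  exact ⟨e, (dist_pi_lt_iff hδ).2 he⟩

end RecA

open RecA in
theorem recu (hC : S_Cube) (hA : S_Adm) (h1 : S_StepA) (h2 : S_StepB) (hL : S_Lim) : S_Rec := by
  obtain ⟨K0, c, hK0, hc, -, hB⟩ := h2
  choose d hd using exists_den (K := 2 * K0)
  obtain ⟨s, h, q, hq1, hq2, hq3⟩ :=
    exists_seq (by linarith) d (step hA (h1 K0 hK0) hB)
  obtain ⟨X, Y, _, _, _, _, _, i, k, β, hi, hk, hdX, hdY, hβ, hβ'⟩ := hL _ s h
  have hpush : ∀ m (r : Rq (s m).E (s m).F),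
      (r.map (h m).jE (h m).jF).map (i (m + 1)) (k (m + 1)) = r.map (i m) (k m) := fun m r => by
    simp only [Rq.map, hi, hk]
  have hrow : ∀ n j m, n ≤ m → (q m n j).map (i m) (k m) = (d (s n) j).map (i n) (k n) := by
    intro n j m hm
    induction m, hm using Nat.le_induction with
    | base => rw [hq1]
    | succ m hm ih => rw [hq2 m n j (by omega), hpush, ih]
  have hout : ∀ n j, Out c β ((d (s n) j).map (i n) (k n)) := fun n j => by
    have h3 := (hq3 (Nat.pair n j)).2.map (i _) (k _) (hβ' _)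
    rwa [hpush, Nat.unpair_pair, hrow n j _ (Nat.left_le_pair n j)] at h3
  have hden : ∀ n : ℕ,
      Dense {p : X × (Fin n → Y) × (Fin n → X) | Out c β (p.1, ⟨n, p.2⟩)} := by
    intro n
    refine dense_closure.1 fun p => Metric.mem_closure_iff.2 fun δ hδ => ?_
    obtain ⟨m, ⟨e0, he0⟩, ⟨e1, he1⟩, e2, he2⟩ :=
      ((approx (fun m => i m) (fun m => (h m).jE) hi hdX (fun _ : Unit => p.1) hδ).and
        ((approx (fun m => k m) (fun m => (h m).jF) hk hdY p.2.1 hδ).and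
          (approx (fun m => i m) (fun m => (h m).jE) hi hdX p.2.2 hδ))).exists
    let F : (s m).E × (Fin n → (s m).F) × (Fin n → (s m).E) → X × (Fin n → Y) × (Fin n → X) :=
      fun z => (i m z.1, fun a => k m (z.2.1 a), fun a => i m (z.2.2 a))
    have hF : Continuous F := by
      have := (i m).continuous
      have := (k m).continuous
      fun_prop
    refine ⟨F (e0 (), e1, e2), map_mem_closure hF (hd (s m) n _) ?_, ?_⟩
    · rintro z ⟨j, hj⟩
      have h3 := hout m j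
      rw [hj] at h3
      exact h3
    · rw [Prod.dist_eq, Prod.dist_eq]
      exact max_lt ((dist_pi_lt_iff hδ).1 he0 ()) (max_lt he1 he2)
  have hfreq : ∀ (n : ℕ) (y : Fin n → Y) (x : Fin n → X), WL y 1 → WL x 1 →
      ∑ a, β (y a) (x a) = 0 →
      ∃ᶠ p in 𝓝 ((fun a => (1 / 2 : ℝ) • y a, fun a => (1 / 2 : ℝ) • x a) :
        (Fin n → Y) × (Fin n → X)),
      (∀ b : Y →L[ℝ] X →L[ℝ] ℝ, Bd b → c ^ 2 * |∑ a, b (p.1 a) (p.2 a)| ≤ 1) ∧
      ∃ Ψ : (Fin n → Bool) → X, (∀ ε, ‖Ψ ε‖ ≤ 1) ∧ ∀ a, co Ψ {a} = c • p.2 a := by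
    intro n y x hy hx h0
    have f1 := (continuous_snd.tendsto ((0 : X), ((fun a => (1 / 2 : ℝ) • y a,
      fun a => (1 / 2 : ℝ) • x a) : (Fin n → Y) × (Fin n → X)))).frequently_map
      (p := fun p => Out c β (p.1, ⟨n, p.2⟩))
      (q := fun p => ∃ x0 : X, Out c β (x0, ⟨n, p⟩)) _ (fun p hp => ⟨p.1, hp⟩)
      (mem_closure_iff_frequently.1 (hden n _))
    have e1 := (continuous_fst.tendsto ((fun a => (1 / 2 : ℝ) • y a,
      fun a => (1 / 2 : ℝ) • x a) : (Fin n → Y) × (Fin n → X))).eventually (wl_half hy)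
    have e2 := (continuous_snd.tendsto ((fun a => (1 / 2 : ℝ) • y a,
      fun a => (1 / 2 : ℝ) • x a) : (Fin n → Y) × (Fin n → X))).eventually (wl_half hx)
    have c3 : Continuous fun p : (Fin n → Y) × (Fin n → X) => |∑ a, β (p.1 a) (p.2 a)| := by
      fun_prop
    have e3 := (c3.tendsto ((fun a => (1 / 2 : ℝ) • y a,
      fun a => (1 / 2 : ℝ) • x a) : (Fin n → Y) × (Fin n → X))).eventually
      (gt_mem_nhds (a := (1 : ℝ)) (by
        simp only [map_smul, smul_apply, ← smul_sum, h0]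
        simp))
    refine (f1.and_eventually (e1.and (e2.and e3))).mono ?_
    rintro p ⟨⟨x0, hx0⟩, a1, a2, a3⟩
    exact hx0.2 a1 a2 a3.le
  have hc4 : 0 < 4 / c ^ 2 := by positivity
  have hc2 : 0 < 2 / c := by positivity
  refine ⟨X, Y, inferInstance, inferInstance, inferInstance, inferInstance, inferInstance, β,
    2 * K0 + 4 / c ^ 2 + 2 / c, by linarith, ct_mono (K := 2 * K0) ?_ (by linarith), ?_, ?_, ?_,
    ?_⟩
  · intro ι _ _ φ x hφ
    have hcl : IsClosed {x : ι → X | ∑ a, φ a (x a) ≤ 2 * K0 * av fun ε => ‖rad x ε‖} := by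
      refine isClosed_le (by fun_prop) ?_
      unfold av rad
      fun_prop
    refine hcl.closure_subset (Metric.mem_closure_iff.2 fun δ hδ => ?_)
    obtain ⟨m, e, he⟩ := (approx (fun m => i m) (fun m => (h m).jE) hi hdX x hδ).exists
    refine ⟨_, ?_, he⟩
    have h3 := (s m).cE ι (fun a => (φ a).comp (i m).toContinuousLinearMap) e fun a => by
      refine le_trans (ContinuousLinearMap.opNorm_le_bound _ (norm_nonneg _) fun z => ?_) (hφ a)
      have h4 := (∑ b, a b • φ b).le_opNorm (i m z)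
      rw [(i m).norm_map] at h4
      simpa using h4
    simp only [Set.mem_ofPred_eq, rad_map, LinearIsometry.norm_map]
    exact h3
  · intro x δ hδ
    obtain ⟨p, ⟨⟨y, hy, hy'⟩, -⟩, hp⟩ := Metric.mem_closure_iff.1
      (hden 0 (x, fun _ => 0, fun _ => 0)) (δ / 2) (by linarith)
    refine ⟨y, hy, ?_⟩
    have h3 : ‖x - p.1‖ < δ / 2 := by
      rw [← dist_eq_norm]
      exact (le_max_left _ _).trans_lt hp
    have h4 := hβ y (x - p.1)
    have h5 : ‖y‖ * ‖x - p.1‖ ≤ 1 * ‖x - p.1‖ := mul_le_mul_of_nonneg_right hy (norm_nonneg _)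
    have h6 := norm_sub_norm_le x p.1
    rw [map_sub] at h4
    have h7 := (abs_le.1 h4).1
    change β y p.1 = ‖p.1‖ at hy'
    linarith
  · intro n y x hy hx h0 S
    by_cases hS : S = 0
    · simp [hS]
    have hS' : 0 < ‖S‖ := norm_pos_iff.2 hS
    let b : Y →L[ℝ] X →L[ℝ] ℝ := β.bilinearComp (ContinuousLinearMap.id ℝ Y) (‖S‖⁻¹ • S)
    have hb : Bd b := fun y x => by
      refine (hβ y ((‖S‖⁻¹ • S) x)).trans (mul_le_mul_of_nonneg_left ?_ (norm_nonneg _))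
      rw [smul_apply, norm_smul, norm_inv, norm_norm,
        inv_mul_le_iff₀ hS']
      exact S.le_opNorm x
    have hcl : IsClosed {p : (Fin n → Y) × (Fin n → X) | c ^ 2 * |∑ a, b (p.1 a) (p.2 a)| ≤ 1} :=
      isClosed_le (by fun_prop) continuous_const
    have h3 := hcl.closure_subset
      (((hfreq n y x hy hx h0).mono fun p hp => hp.1 b hb).mem_closure)
    have h4 : ∑ a, β (y a) (S (x a)) =
        4 * ‖S‖ * ∑ a, b ((1 / 2 : ℝ) • y a) ((1 / 2 : ℝ) • x a) := by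
      rw [mul_sum]
      refine sum_congr rfl fun a _ => ?_
      simp only [b, map_smul, smul_apply,
        ContinuousLinearMap.bilinearComp_apply, ContinuousLinearMap.id_apply, smul_eq_mul]
      field_simp
      ring
    have h5 : |∑ a, b ((1 / 2 : ℝ) • y a) ((1 / 2 : ℝ) • x a)| ≤ 1 / c ^ 2 := by
      rw [le_div_iff₀ (by positivity), mul_comm]
      exact h3
    rw [h4, abs_mul, abs_of_pos (by positivity : 0 < 4 * ‖S‖)]
    calc _ ≤ 4 * ‖S‖ * (1 / c ^ 2) := mul_le_mul_of_nonneg_left h5 (by positivity)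
      _ = 4 / c ^ 2 * ‖S‖ := by ring
      _ ≤ _ := mul_le_mul_of_nonneg_right (by linarith) hS'.le
  · intro n x hx
    have c3 : Continuous fun p : (Fin n → Y) × (Fin n → X) => ∑ a, ‖x a - (2 : ℝ) • p.2 a‖ := by
      fun_prop
    have e3 := (c3.tendsto ((fun a => (1 / 2 : ℝ) • (0 : Fin n → Y) a,
      fun a => (1 / 2 : ℝ) • x a) : (Fin n → Y) × (Fin n → X))).eventually
      (gt_mem_nhds (a := (1 : ℝ)) (by simp [smul_smul]))
    obtain ⟨p, ⟨-, Ψ, h3, h4⟩, h5⟩ := ((hfreq n 0 x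
      (fun a => by
        have h9 : 0 ≤ n2 a := Real.sqrt_nonneg _
        simpa using h9) hx
      (by simp)).and_eventually e3).exists
    refine ⟨fun ε => (2 / c) • Ψ ε + rad (fun a => x a - (2 : ℝ) • p.2 a) ε, fun ε => ?_,
      fun a => ?_⟩
    · refine (norm_add_le _ _).trans ?_
      rw [norm_smul, Real.norm_of_nonneg hc2.le]
      have h6 := norm_rad_le (fun a => x a - (2 : ℝ) • p.2 a) ε
      have h7 := mul_le_mul_of_nonneg_left (h3 ε) hc2.le
      linarith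
    · rw [co_add_smul, h4, hC.co_rad, smul_smul, div_mul_cancel₀ _ hc.ne']
      abel
  · refine ⟨fun m => LinearMap.range (i m).toLinearMap, fun m => inferInstance, fun m => ?_,
      fun m hm => (hq3 m).1 fun z => ?_, fun x δ hδ => ?_⟩
    · have h3 := hA.map _ _ (i (m + 1)) _ _ (h m).adm
      rw [Submodule.map_top, ← LinearMap.range_comp] at h3
      have h4 : (i (m + 1)).toLinearMap ∘ₗ (h m).jE.toLinearMap = (i m).toLinearMap :=
        LinearMap.ext (hi m)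
      rwa [h4] at h3
    · have h3 : i (m + 1) z ∈ LinearMap.range (i m).toLinearMap := by
        have h4 : i (m + 1) z ∈ LinearMap.range (i (m + 1)).toLinearMap := ⟨z, rfl⟩
        exact hm.ge h4
      obtain ⟨e, he⟩ := h3
      exact ⟨e, (i (m + 1)).injective ((hi m e).trans he)⟩
    · obtain ⟨m, e, he⟩ := hdX x δ hδ
      exact ⟨m, i m e, ⟨e, rfl⟩, he⟩

end

end Pool.Agent.P.MP_1bacd4_an
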