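import Pool.Agent.P.MP_1bacd4_an.Defs

/-! Walsh expansion on the discrete cube and the Kahane inequality. -/

set_option autoImplicit false

namespace Pool.Agent.P.MP_1bacd4_an

open Finset

namespace CubeA

theorem sg_mul (b : Bool) : sg b * sg b = 1 := by cases b <;> simp [sg]

theorem sg_not (b : Bool) : sg (!b) = -sg b := by cases b <;> simp [sg]

theorem sg_cases (b : Bool) : sg b = 1 ∨ sg b = -1 := by cases b <;> simp [sg]

section Av

variable {Ω V : Type} [Fintype Ω] [AddCommGroup V] [Module ℝ V]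

theorem av_add (f g : Ω → V) : (av fun ω => f ω + g ω) = av f + av g := by
  simp only [av, sum_add_distrib, smul_add]

theorem av_sub (f g : Ω → V) : (av fun ω => f ω - g ω) = av f - av g := by
  simp only [av, sum_sub_distrib, smul_sub]

theorem av_neg (f : Ω → V) : (av fun ω => -f ω) = -av f := by
  simp only [av, sum_neg_distrib, smul_neg]

theorem av_sum {κ : Type} (s : Finset κ) (f : κ → Ω → V) :
    (av fun ω => ∑ k ∈ s, f k ω) = ∑ k ∈ s, av (f k) := by
  simp only [av]
  rw [sum_comm, smul_sum]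

theorem av_smul (c : ℝ) (f : Ω → V) : (av fun ω => c • f ω) = c • av f := by
  simp only [av]
  rw [← smul_sum, smul_comm]

theorem av_mul (c : ℝ) (f : Ω → ℝ) : (av fun ω => c * f ω) = c * av f := av_smul c f

theorem av_smul_const (g : Ω → ℝ) (v : V) : (av fun ω => g ω • v) = av g • v := by
  simp only [av]
  rw [← sum_smul, smul_smul, smul_eq_mul]

theorem av_const [Nonempty Ω] (v : V) : (av fun _ : Ω => v) = v := by
  have h : (Fintype.card Ω : ℝ) ≠ 0 := Nat.cast_ne_zero.2 Fintype.card_ne_zero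
  simp only [av, sum_const, card_univ]
  rw [← Nat.cast_smul_eq_nsmul ℝ, smul_smul, inv_mul_cancel₀ h, one_smul]

theorem av_mono {f g : Ω → ℝ} (h : ∀ ω, f ω ≤ g ω) : av f ≤ av g := by
  simp only [av, smul_eq_mul]
  exact mul_le_mul_of_nonneg_left (sum_le_sum fun ω _ => h ω) (by positivity)

theorem av_equiv (e : Ω ≃ Ω) (f : Ω → V) : (av fun ω => f (e ω)) = av f := by
  simp only [av]
  rw [Equiv.sum_comp e f]

theorem av_nonneg {f : Ω → ℝ} (h : ∀ ω, 0 ≤ f ω) : 0 ≤ av f := by
  simp only [av, smul_eq_mul]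
  exact mul_nonneg (by positivity) (sum_nonneg fun ω _ => h ω)

theorem av_abs_le [Nonempty Ω] (h : Ω → ℝ) : (av fun ω => |h ω|) ≤ √(av fun ω => h ω ^ 2) := by
  set m := av fun ω => |h ω| with hm
  have h0 : 0 ≤ av fun ω => (|h ω| - m) ^ 2 := av_nonneg fun ω => by positivity
  have h1 : (fun ω => (|h ω| - m) ^ 2) = fun ω => (h ω ^ 2 - (2 * m) * |h ω|) + m ^ 2 := by
    funext ω
    rw [sub_sq, sq_abs]
    ring
  rw [h1, av_add, av_sub, av_mul, av_const, ← hm] at h0
  exact Real.le_sqrt_of_sq_le (by nlinarith)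

theorem norm_av {W : Type} [NormedAddCommGroup W] [NormedSpace ℝ W] (f : Ω → W) :
    ‖av f‖ ≤ av fun ω => ‖f ω‖ := by
  simp only [av, smul_eq_mul]
  rw [norm_smul, Real.norm_of_nonneg (by positivity)]
  exact mul_le_mul_of_nonneg_left (norm_sum_le _ _) (by positivity)

end Av

variable {ι : Type} [Fintype ι] [DecidableEq ι]

theorem av_prod (f : ι → Bool → ℝ) :
    (av fun ε : ι → Bool => ∏ i, f i (ε i)) = ∏ i, (f i true + f i false) / 2 := by
  simp only [av, smul_eq_mul]
  rw [← Fintype.prod_sum, prod_div_distrib]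
  simp only [Fintype.sum_bool, Fintype.card_pi, Fintype.card_bool, prod_const, card_univ]
  push_cast
  rw [inv_mul_eq_div]

omit [DecidableEq ι] in
theorem sum_wal (t : ℝ) (ε ε' : ι → Bool) :
    ∏ i, (1 + t * sg (ε i) * sg (ε' i)) = ∑ A : Finset ι, t ^ A.card * wal A ε * wal A ε' := by
  rw [prod_one_add, powerset_univ]
  refine sum_congr rfl fun A _ => ?_
  rw [prod_mul_distrib, prod_mul_distrib, prod_const]
  rfl

theorem wal_eq (A : Finset ι) (ε : ι → Bool) :
    wal A ε = ∏ i, if i ∈ A then sg (ε i) else 1 := by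
  rw [wal, prod_ite_mem, univ_inter]

theorem orth (A B : Finset ι) :
    (av fun ε : ι → Bool => wal A ε * wal B ε) = if A = B then 1 else 0 := by
  have h : (fun ε : ι → Bool => wal A ε * wal B ε) = fun ε => ∏ i,
      (fun i b => (if i ∈ A then sg b else 1) * if i ∈ B then sg b else 1) i (ε i) := by
    funext ε
    rw [wal_eq, wal_eq, ← prod_mul_distrib]
  rw [h, av_prod fun i b => (if i ∈ A then sg b else 1) * if i ∈ B then sg b else 1]
  split_ifs with hAB
  · subst hAB
    refine prod_eq_one fun i _ => ?_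
    by_cases hi : i ∈ A <;> simp [hi, sg]
  · obtain ⟨i, hi⟩ : ∃ i, ¬ (i ∈ A ↔ i ∈ B) := by
      by_contra hc
      exact hAB (Finset.ext fun i => by
        by_contra hi
        exact hc ⟨i, hi⟩)
    refine prod_eq_zero (mem_univ i) ?_
    by_cases h1 : i ∈ A <;> by_cases h2 : i ∈ B <;> simp [h1, h2, sg] at hi ⊢

section Vec

variable {V : Type} [AddCommGroup V] [Module ℝ V]

theorem mult (m : Finset ι → ℝ) (f : (ι → Bool) → V) (ε : ι → Bool) :
    ∑ A : Finset ι, wal A ε • (m A • co f A) =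
      av fun ε' => (∑ A : Finset ι, m A * wal A ε * wal A ε') • f ε' := by
  simp only [sum_smul]
  rw [av_sum]
  refine sum_congr rfl fun A _ => ?_
  rw [co, smul_smul, ← av_smul]
  congr 1
  funext ε'
  rw [smul_smul]
  congr 1
  ring

theorem inv (f : (ι → Bool) → V) (ε : ι → Bool) : f ε = ∑ A : Finset ι, wal A ε • co f A := by
  have h := mult (fun _ => 1) f ε
  simp only [one_smul] at h
  rw [h]
  have h2 : ∀ ε' : ι → Bool, (∑ A : Finset ι, 1 * wal A ε * wal A ε') =
      if ε' = ε then (Fintype.card (ι → Bool) : ℝ) else 0 := by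
    intro ε'
    have h3 := sum_wal 1 ε ε'
    simp only [one_pow] at h3
    rw [← h3]
    split_ifs with he
    · subst he
      simp only [one_mul, sg_mul, prod_const, card_univ, Fintype.card_pi, Fintype.card_bool]
      push_cast
      norm_num
    · obtain ⟨i, hi⟩ := Function.ne_iff.1 he
      refine prod_eq_zero (mem_univ i) ?_
      cases h1 : ε i <;> cases h2 : ε' i <;> simp [h1, h2, sg] at hi ⊢
  simp only [h2, av, ite_smul, zero_smul, sum_ite_eq', mem_univ, if_true]
  have h0 : (Fintype.card (ι → Bool) : ℝ) ≠ 0 := Nat.cast_ne_zero.2 Fintype.card_ne_zero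
  rw [smul_smul, inv_mul_cancel₀ h0, one_smul]

theorem co_sum (c : Finset ι → V) (B : Finset ι) :
    co (fun ε => ∑ A : Finset ι, wal A ε • c A) B = c B := by
  simp only [co, smul_sum, smul_smul]
  rw [av_sum]
  simp only [av_smul_const, orth, ite_smul, one_smul, zero_smul, sum_ite_eq, mem_univ, if_true]

omit [Fintype ι] [DecidableEq ι] in
theorem wal_single (i : ι) (ε : ι → Bool) : wal {i} ε = sg (ε i) := by
  rw [wal, prod_singleton]

theorem co_rad_gen (x : ι → V) (A : Finset ι) :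
    co (rad x) A = ∑ i, if A = {i} then x i else 0 := by
  simp only [co, rad, smul_sum, smul_smul]
  rw [av_sum]
  refine sum_congr rfl fun i _ => ?_
  simp only [← wal_single]
  rw [av_smul_const, orth, ite_smul, one_smul, zero_smul]

theorem co_rad (x : ι → V) (i : ι) : co (rad x) {i} = x i := by
  rw [co_rad_gen]
  simp only [singleton_inj, sum_ite_eq, mem_univ, if_true]

theorem co_rad_ne (x : ι → V) (A : Finset ι) (h : A.card ≠ 1) : co (rad x) A = 0 := by
  rw [co_rad_gen]
  refine sum_eq_zero fun i _ => if_neg fun hA => h ?_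
  rw [hA, card_singleton]

theorem rad_eq (c : Finset ι → V) (ε : ι → Bool) :
    rad (fun i => c {i}) ε = ∑ A : Finset ι, wal A ε • (if A.card = 1 then c A else 0) := by
  rw [inv (rad fun i => c {i}) ε]
  refine sum_congr rfl fun A _ => ?_
  split_ifs with h
  · obtain ⟨i, rfl⟩ := card_eq_one.1 h
    rw [co_rad]
  · rw [co_rad_ne _ _ h]

end Vec

theorem pars (f g : (ι → Bool) → ℝ) :
    (av fun ε => f ε * g ε) = ∑ A : Finset ι, co f A * co g A := by
  have h : (fun ε => f ε * g ε) = fun ε => ∑ A : Finset ι, co f A * (wal A ε • g ε) := by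
    funext ε
    rw [inv f ε, sum_mul]
    refine sum_congr rfl fun A _ => ?_
    simp only [smul_eq_mul]
    ring
  rw [h, av_sum]
  refine sum_congr rfl fun A _ => ?_
  rw [av_mul]
  rfl

omit [DecidableEq ι] in
theorem ker_eq (t : ℝ) (ε ε' : ι → Bool) :
    ker t ε ε' = ∑ A : Finset ι, od t A * wal A ε * wal A ε' := by
  have h2 : ∏ i, (1 - t * sg (ε i) * sg (ε' i)) = ∏ i, (1 + (-t) * sg (ε i) * sg (ε' i)) :=
    prod_congr rfl fun i _ => by ring
  rw [ker, h2, sum_wal, sum_wal, ← sum_sub_distrib, sum_div]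
  refine sum_congr rfl fun A _ => ?_
  rw [od]
  split_ifs with h
  · rw [h.neg_pow]
    ring
  · rw [(Nat.not_odd_iff_even.1 h).neg_pow]
    ring

theorem ker_l1 (t : ℝ) (h0 : 0 ≤ t) (h1 : t ≤ 1) (ε : ι → Bool) :
    (av fun ε' => |ker t ε ε'|) ≤ 1 := by
  have hp : ∀ (u : ℝ), |u| ≤ 1 → ∀ ε' : ι → Bool, 0 ≤ ∏ i, (1 + u * sg (ε i) * sg (ε' i)) := by
    intro u hu ε'
    refine prod_nonneg fun i _ => ?_
    have := abs_le.1 hu
    rcases sg_cases (ε i) with h | h <;> rcases sg_cases (ε' i) with h' | h' <;>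
      rw [h, h'] <;> linarith [this.1, this.2]
  have ha : ∀ u : ℝ, (av fun ε' : ι → Bool => ∏ i, (1 + u * sg (ε i) * sg (ε' i))) = 1 := by
    intro u
    rw [av_prod fun i b => 1 + u * sg (ε i) * sg b]
    refine prod_eq_one fun i _ => ?_
    simp only [sg, if_true, Bool.false_eq_true, if_false]
    ring
  have hb : ∀ ε' : ι → Bool, |ker t ε ε'| ≤ (1 / 2) * ((∏ i, (1 + t * sg (ε i) * sg (ε' i))) +
      ∏ i, (1 + (-t) * sg (ε i) * sg (ε' i))) := by
    intro ε'
    have h2 : ∏ i, (1 - t * sg (ε i) * sg (ε' i)) = ∏ i, (1 + (-t) * sg (ε i) * sg (ε' i)) :=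
      prod_congr rfl fun i _ => by ring
    have p1 := hp t (by rw [abs_of_nonneg h0]; exact h1) ε'
    have p2 := hp (-t) (by rw [abs_neg, abs_of_nonneg h0]; exact h1) ε'
    rw [ker, h2, abs_le]
    constructor <;> linarith
  refine (av_mono hb).trans ?_
  rw [av_mul, av_add, ha, ha]
  norm_num

/-- Flip of one bit. -/
def flp (j : ι) : (ι → Bool) ≃ (ι → Bool) :=
  Function.Involutive.toPerm (fun ε => Function.update ε j (!ε j)) fun ε => by
    simp

/-- Flip of all bits. -/
def ngt : (ι → Bool) ≃ (ι → Bool) :=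
  Function.Involutive.toPerm (fun ε i => !ε i) fun ε => by
    simp

omit [Fintype ι] in
theorem sg_flp (j i : ι) (ε : ι → Bool) :
    sg (flp j ε i) = (if i = j then -1 else 1) * sg (ε i) := by
  change sg (Function.update ε j (!ε j) i) = _
  split_ifs with h
  · subst h
    rw [Function.update_self, sg_not]
    ring
  · rw [Function.update_of_ne h, one_mul]

omit [Fintype ι] [DecidableEq ι] in
theorem sg_ngt (i : ι) (ε : ι → Bool) : sg (ngt ε i) = -sg (ε i) := sg_not _

omit [Fintype ι] in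
theorem wal_flp (j : ι) (A : Finset ι) (ε : ι → Bool) :
    wal A (flp j ε) = (if j ∈ A then -1 else 1) * wal A ε := by
  simp only [wal, sg_flp]
  rw [prod_mul_distrib, prod_ite_eq']

omit [Fintype ι] in
theorem flp_flp (j : ι) (ε : ι → Bool) : flp j (flp j ε) = ε := (flp j).left_inv ε

theorem co_flp (F : (ι → Bool) → ℝ) (j : ι) (A : Finset ι) :
    co (fun ε => F (flp j ε)) A = (if j ∈ A then -1 else 1) * co F A := by
  rw [co, co, ← av_mul, ← av_equiv (flp j)]
  congr 1
  funext ε
  rw [flp_flp, wal_flp, smul_eq_mul, smul_eq_mul, mul_assoc]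

section Vec2

variable {V : Type} [AddCommGroup V] [Module ℝ V]

omit [DecidableEq ι] in
theorem rad_ngt (x : ι → V) (ε : ι → Bool) : rad x (ngt ε) = -rad x ε := by
  simp only [rad, sg_ngt, neg_smul, sum_neg_distrib]

theorem rad_flp (x : ι → V) (j : ι) (ε : ι → Bool) :
    rad x (flp j ε) = rad x ε - (2 : ℝ) • (sg (ε j) • x j) := by
  have h : ∀ i, sg (flp j ε i) • x i =
      sg (ε i) • x i - if i = j then (2 : ℝ) • (sg (ε j) • x j) else 0 := by
    intro i
    rw [sg_flp]
    split_ifs with h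
    · subst h
      rw [smul_smul, ← sub_smul]
      congr 1
      ring
    · rw [one_mul, sub_zero]
  simp only [rad, h, sum_sub_distrib, sum_ite_eq', mem_univ, if_true]

theorem kahane (q : Seminorm ℝ V) (x : ι → V) :
    (av fun ε => q (rad x ε) ^ 2) ≤ 2 * (av fun ε => q (rad x ε)) ^ 2 := by
  set F : (ι → Bool) → ℝ := fun ε => q (rad x ε) with hF
  have F0 : ∀ ε, 0 ≤ F ε := fun ε => apply_nonneg q _
  set G : (ι → Bool) → ℝ := fun ε => ∑ j, (1 / 2 : ℝ) * (F ε - F (flp j ε)) with hG
  have hGF : ∀ ε, G ε ≤ F ε := by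
    intro ε
    have h1 : ∑ j, rad x (flp j ε) = ((Fintype.card ι : ℝ) - 2) • rad x ε := by
      simp only [rad_flp, sum_sub_distrib, sum_const, card_univ]
      rw [← smul_sum, sub_smul, Nat.cast_smul_eq_nsmul]
      rfl
    have h2 : q (∑ j, rad x (flp j ε)) ≤ ∑ j, F (flp j ε) :=
      le_sum_of_subadditive q (map_zero q).le (map_add_le_add q) _ _
    rw [h1, map_smul_eq_mul, Real.norm_eq_abs] at h2
    have h3 : ((Fintype.card ι : ℝ) - 2) * F ε ≤ |(Fintype.card ι : ℝ) - 2| * F ε :=
      mul_le_mul_of_nonneg_right (le_abs_self _) (F0 ε)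
    have h4 : G ε = (1 / 2) * (Fintype.card ι * F ε - ∑ j, F (flp j ε)) := by
      simp only [hG]
      rw [← mul_sum, sum_sub_distrib, sum_const, card_univ, nsmul_eq_mul]
    have h5 : q (rad x ε) = F ε := rfl
    rw [h5] at h2
    rw [h4]
    linarith
  have hco : ∀ A : Finset ι, co G A = A.card * co F A := by
    intro A
    have h1 : co G A = ∑ j, (1 / 2 : ℝ) * (co F A - co (fun ε => F (flp j ε)) A) := by
      simp only [co, hG, smul_eq_mul, mul_sum]
      rw [av_sum]
      refine sum_congr rfl fun j _ => ?_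
      rw [← av_sub, ← av_mul]
      congr 1
      funext ε
      ring
    have h2 : ∀ j, (1 / 2 : ℝ) * (co F A - co (fun ε => F (flp j ε)) A) =
        if j ∈ A then co F A else 0 := by
      intro j
      rw [co_flp]
      split_ifs <;> ring
    rw [h1]
    simp only [h2]
    rw [sum_ite_mem, univ_inter, sum_const, nsmul_eq_mul]
  have hone : ∀ i : ι, co F {i} = 0 := by
    intro i
    have h1 : co F {i} = -co F {i} := by
      rw [co, ← av_neg, ← av_equiv ngt]
      congr 1
      funext ε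
      simp only [wal_single, sg_ngt, hF, rad_ngt, map_neg_eq_map, smul_eq_mul, neg_mul]
    linarith
  have hemp : co F ∅ = av F := by
    simp only [co, wal, prod_empty, one_smul]
  have h1 : (av fun ε => F ε * G ε) ≤ av fun ε => F ε * F ε :=
    av_mono fun ε => mul_le_mul_of_nonneg_left (hGF ε) (F0 ε)
  have h2 : ∑ A : Finset ι, (2 * (co F A * co F A) -
      if A = ∅ then 2 * (co F ∅ * co F ∅) else 0) ≤ ∑ A : Finset ι, co F A * co G A := by
    refine sum_le_sum fun A _ => ?_
    rw [hco]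
    split_ifs with h
    · subst h
      simp
    · rcases Nat.lt_or_ge 1 A.card with h3 | h3
      · have h4 : (2 : ℝ) ≤ A.card := by exact_mod_cast h3
        nlinarith [mul_self_nonneg (co F A)]
      · have h4 : A.card = 1 := le_antisymm h3 (card_pos.2 (nonempty_iff_ne_empty.2 h))
        obtain ⟨i, rfl⟩ := card_eq_one.1 h4
        rw [hone]
        simp
  rw [sum_sub_distrib, ← mul_sum, sum_ite_eq', if_pos (mem_univ _), ← pars, ← pars, hemp] at h2
  have h3 : (av fun ε => q (rad x ε) ^ 2) = av fun ε => F ε * F ε := by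
    congr 1
    funext ε
    exact pow_two _
  rw [h3]
  nlinarith

end Vec2

theorem av_sym (j : ι) (g : (ι → Bool) → ℝ) :
    av g = av fun ε => (1 / 2 : ℝ) * (g ε + g (flp j ε)) := by
  rw [av_mul, av_add, av_equiv (flp j) g]
  ring

theorem mom (a : ι → ℝ) (s : Finset ι) :
    (av fun ε : ι → Bool => (∑ i ∈ s, sg (ε i) * a i) ^ 2) = ∑ i ∈ s, a i ^ 2 ∧
    (av fun ε : ι → Bool => (∑ i ∈ s, sg (ε i) * a i) ^ 4) ≤ 3 * (∑ i ∈ s, a i ^ 2) ^ 2 := by
  induction s using Finset.induction_on with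
  | empty => simp [av]
  | insert j s hj ih =>
    have hR : ∀ ε : ι → Bool, ∑ i ∈ s, sg (flp j ε i) * a i = ∑ i ∈ s, sg (ε i) * a i := by
      intro ε
      refine sum_congr rfl fun i hi => ?_
      rw [sg_flp, if_neg (fun h : i = j => hj (h ▸ hi)), one_mul]
    have hj' : ∀ ε : ι → Bool, sg (flp j ε j) = -sg (ε j) := by
      intro ε
      rw [sg_flp, if_pos rfl]
      ring
    simp only [sum_insert hj]
    have hS : 0 ≤ ∑ i ∈ s, a i ^ 2 := sum_nonneg fun i _ => by positivity
    constructor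
    · rw [av_sym j]
      have h : (fun ε : ι → Bool => (1 / 2 : ℝ) *
          ((sg (ε j) * a j + ∑ i ∈ s, sg (ε i) * a i) ^ 2 +
            (sg (flp j ε j) * a j + ∑ i ∈ s, sg (flp j ε i) * a i) ^ 2)) =
          fun ε => a j ^ 2 + (∑ i ∈ s, sg (ε i) * a i) ^ 2 := by
        funext ε
        rw [hR, hj']
        rcases sg_cases (ε j) with h | h <;> rw [h] <;> ring
      rw [h, av_add, av_const, ih.1]
    · rw [av_sym j]
      have h : (fun ε : ι → Bool => (1 / 2 : ℝ) *
          ((sg (ε j) * a j + ∑ i ∈ s, sg (ε i) * a i) ^ 4 +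
            (sg (flp j ε j) * a j + ∑ i ∈ s, sg (flp j ε i) * a i) ^ 4)) =
          fun ε => a j ^ 4 + (6 * a j ^ 2 * (∑ i ∈ s, sg (ε i) * a i) ^ 2 +
            (∑ i ∈ s, sg (ε i) * a i) ^ 4) := by
        funext ε
        rw [hR, hj']
        rcases sg_cases (ε j) with h | h <;> rw [h] <;> ring
      rw [h, av_add, av_const, av_add, av_mul, ih.1]
      have h4 : 0 ≤ a j ^ 4 := by positivity
      nlinarith [ih.2]

theorem rad_odd (a : ι → ℝ) (k : ℕ) (hk : Odd k) : (av fun ε => rad a ε ^ k) = 0 := by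
  have h : (av fun ε => rad a ε ^ k) = -av fun ε => rad a ε ^ k := by
    rw [← av_neg, ← av_equiv ngt]
    congr 1
    funext ε
    rw [rad_ngt, hk.neg_pow]
  linarith

theorem wl_co {V : Type} [NormedAddCommGroup V] [NormedSpace ℝ V] (f : (ι → Bool) → V) (C : ℝ)
    (hf : ∀ ε, ‖f ε‖ ≤ C) : WL (co f) C := by
  intro a
  have hC : 0 ≤ C := (norm_nonneg _).trans (hf fun _ => true)
  set h : (ι → Bool) → ℝ := fun ε => ∑ A : Finset ι, wal A ε • a A with hh
  have h1 : ∑ A : Finset ι, a A • co f A = av fun ε => h ε • f ε := by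
    simp only [hh, sum_smul]
    rw [av_sum]
    refine sum_congr rfl fun A _ => ?_
    rw [co, ← av_smul]
    congr 1
    funext ε
    rw [smul_smul, smul_eq_mul, mul_comm]
  have h2 : (av fun ε => h ε ^ 2) = ∑ A : Finset ι, a A ^ 2 := by
    simp only [pow_two]
    rw [pars]
    simp only [hh, co_sum]
  rw [h1]
  refine (norm_av _).trans ((av_mono (g := fun ε => C * |h ε|) fun ε => ?_).trans ?_)
  · rw [norm_smul, Real.norm_eq_abs, mul_comm]
    exact mul_le_mul_of_nonneg_right (hf ε) (abs_nonneg _)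
  · rw [av_mul, n2, ← h2]
    exact mul_le_mul_of_nonneg_left (av_abs_le h) hC

end CubeA

theorem cube : S_Cube where
  inv := fun _ _ _ _ _ _ f ε => CubeA.inv f ε
  orth := fun _ _ _ A B => CubeA.orth A B
  pars := fun _ _ _ f g => CubeA.pars f g
  co_sum := fun _ _ _ _ _ _ c B => CubeA.co_sum c B
  co_rad := fun _ _ _ _ _ _ x i => CubeA.co_rad x i
  co_rad_ne := fun _ _ _ _ _ _ x A h => CubeA.co_rad_ne x A h
  rad_eq := fun _ _ _ _ _ _ c ε => CubeA.rad_eq c ε
  ker_symm := fun _ _ t ε ε' => by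
    rw [CubeA.ker_eq, CubeA.ker_eq]
    exact sum_congr rfl fun A _ => by ring
  ker_l1 := fun _ _ _ t h0 h1 ε => CubeA.ker_l1 t h0 h1 ε
  ker_apply := fun _ _ _ _ _ _ t f ε => by
    rw [CubeA.mult]
    simp only [CubeA.ker_eq]
  kahane := fun _ _ _ _ _ _ q x => CubeA.kahane q x
  rad2 := fun _ _ _ a => (CubeA.mom a univ).1
  rad4 := fun _ _ _ a => (CubeA.mom a univ).2
  rad_odd := fun _ _ _ a k hk => CubeA.rad_odd a k hk
  wl_co := fun _ _ _ _ _ _ f C hf => CubeA.wl_co f C hf

end Pool.Agent.P.MP_1bacd4_an
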