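import Pool.Agent.P.MP_1bacd4_an.Basic

/-! Greedy subspaces and nets for the decoupled chaos bound. -/

set_option autoImplicit false

namespace Pool.Agent.P.MP_1bacd4_an.DecA

open Finset Module Matrix

noncomputable section

variable {Ω J : Type} [Fintype Ω] [Fintype J] [DecidableEq J]

/-- Operator norm of `M` on the complement of `T`. -/
def sop (M : Matrix Ω J ℝ) (T : Submodule ℝ (J → ℝ)) : ℝ :=
  sInf {μ | 0 ≤ μ ∧ ∀ v ∈ perp T, n2 (M *ᵥ v) ≤ μ * n2 v}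

/-- Energy of `M` on the complement of `T`. -/
def en (M : Matrix Ω J ℝ) (T : Submodule ℝ (J → ℝ)) : ℝ := fro (M * (1 - proj T)) ^ 2

omit [DecidableEq J] in
theorem sop_ne (M : Matrix Ω J ℝ) (T : Submodule ℝ (J → ℝ)) :
    {μ | 0 ≤ μ ∧ ∀ v ∈ perp T, n2 (M *ᵥ v) ≤ μ * n2 v}.Nonempty :=
  ⟨fro M, fro_nonneg _, fun v _ => n2_mulVec_le M v⟩

omit [DecidableEq J] in
theorem sop_bdd (M : Matrix Ω J ℝ) (T : Submodule ℝ (J → ℝ)) :
    BddBelow {μ | 0 ≤ μ ∧ ∀ v ∈ perp T, n2 (M *ᵥ v) ≤ μ * n2 v} := ⟨0, fun _ h => h.1⟩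

omit [DecidableEq J] in
theorem sop_nonneg (M : Matrix Ω J ℝ) (T : Submodule ℝ (J → ℝ)) : 0 ≤ sop M T :=
  le_csInf (sop_ne M T) fun _ h => h.1

omit [DecidableEq J] in
theorem sop_le {M : Matrix Ω J ℝ} {T : Submodule ℝ (J → ℝ)} {μ : ℝ} (h0 : 0 ≤ μ)
    (h : ∀ v ∈ perp T, n2 (M *ᵥ v) ≤ μ * n2 v) : sop M T ≤ μ :=
  csInf_le (sop_bdd M T) ⟨h0, h⟩

omit [DecidableEq J] in
theorem le_sop (M : Matrix Ω J ℝ) {T : Submodule ℝ (J → ℝ)} {v : J → ℝ} (hv : v ∈ perp T) :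
    n2 (M *ᵥ v) ≤ sop M T * n2 v := by
  rcases (n2_nonneg v).eq_or_lt with h | h
  · rw [n2_eq_zero h.symm, mulVec_zero, n2_zero, n2_zero, mul_zero]
  · rw [← div_le_iff₀ h]
    exact le_csInf (sop_ne M T) fun μ hμ => (div_le_iff₀ h).2 (hμ.2 v hv)

omit [DecidableEq J] in
theorem sop_anti (M : Matrix Ω J ℝ) {T T' : Submodule ℝ (J → ℝ)} (h : T ≤ T') :
    sop M T' ≤ sop M T := sop_le (sop_nonneg M T) fun _ hv => le_sop M (perp_anti h hv)

omit [DecidableEq J] in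
theorem sop_le_fro (M : Matrix Ω J ℝ) (T : Submodule ℝ (J → ℝ)) : sop M T ≤ fro M :=
  sop_le (fro_nonneg M) fun v _ => n2_mulVec_le M v

theorem en_nonneg (M : Matrix Ω J ℝ) (T : Submodule ℝ (J → ℝ)) : 0 ≤ en M T := sq_nonneg _

theorem en_bot (M : Matrix Ω J ℝ) : en M ⊥ = fro M ^ 2 := by simp [en, proj_bot]

theorem en_split (M : Matrix Ω J ℝ) {T T' : Submodule ℝ (J → ℝ)} (h : T ≤ T') :
    en M T = en M T' + fro (M * (proj T' - proj T)) ^ 2 := by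
  unfold en
  rw [← fro_pyth, ← Matrix.mul_add]
  · congr 3; abel
  · have h0 : (proj T' - proj T) * (1 - proj T')ᵀ = 0 := by
      rw [transpose_sub, transpose_one, proj_transpose, Matrix.mul_sub, Matrix.mul_one,
        Matrix.sub_mul, proj_mul_self, proj_mul_of_le' h, sub_self]
    rw [ip_mul_right, Matrix.mul_assoc, h0, Matrix.mul_zero, ip_zero_right]

theorem greedy_one {N : Finset (J → ℝ)} (hN : ∀ x, n2 x ≤ 1 → ∃ n ∈ N, n2 (x - n) ≤ 1 / 4)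
    (M : Matrix Ω J ℝ) (T : Submodule ℝ (J → ℝ)) :
    ∃ n ∈ N, sop M T ^ 2 ≤ 3 * (en M T - en M (T ⊔ Submodule.span ℝ {n})) := by
  rcases (sop_nonneg M T).eq_or_lt with hs | hs
  · obtain ⟨n, hn, -⟩ := hN 0 (by rw [n2_zero]; norm_num)
    refine ⟨n, hn, ?_⟩
    rw [← hs, en_split M (le_sup_left : T ≤ T ⊔ Submodule.span ℝ {n})]
    nlinarith [sq_nonneg (fro (M * (proj (T ⊔ Submodule.span ℝ {n}) - proj T)))]
  set s := sop M T with hsdef
  have hex : ∃ v ∈ perp T, 99 / 100 * s * n2 v < n2 (M *ᵥ v) := by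
    by_contra hh
    push Not at hh
    have := sop_le (by positivity) hh
    linarith
  obtain ⟨v0, hv0, hlt⟩ := hex
  have hpos : 0 < n2 v0 := by
    rcases (n2_nonneg v0).eq_or_lt with h | h
    · rw [n2_eq_zero h.symm, mulVec_zero, n2_zero, n2_zero] at hlt; simp at hlt
    · exact h
  set v := (n2 v0)⁻¹ • v0 with hv
  have hv1 : n2 v = 1 := by
    rw [hv, n2_smul, abs_of_pos (inv_pos.2 hpos), inv_mul_cancel₀ hpos.ne']
  have hvp : v ∈ perp T := (perp T).smul_mem _ hv0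
  have hMv : 99 / 100 * s ≤ n2 (M *ᵥ v) := by
    rw [hv, mulVec_smul, n2_smul, abs_of_pos (inv_pos.2 hpos), ← div_eq_inv_mul, le_div_iff₀ hpos]
    exact hlt.le
  obtain ⟨n, hn, hvn⟩ := hN v hv1.le
  refine ⟨n, hn, ?_⟩
  set T' := T ⊔ Submodule.span ℝ {n} with hT'
  set e := proj (perp T) *ᵥ (v - n) with he
  have hep : e ∈ perp T := proj_mem _ _
  have hen : n2 e ≤ 1 / 4 := (n2_proj_le _ _).trans hvn
  have hu : v - e = n - proj T *ᵥ n := by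
    rw [he, mulVec_sub, proj_of_mem hvp, proj_perp, sub_mulVec, one_mulVec]; abel
  have huT : v - e ∈ T' ⊓ perp T := by
    refine ⟨?_, (perp T).sub_mem hvp hep⟩
    rw [hu]
    exact T'.sub_mem (Submodule.mem_sup_right (Submodule.mem_span_singleton_self n))
      (Submodule.mem_sup_left (proj_mem T n))
  have h1 : n2 (M *ᵥ (v - e)) ≤ fro (M * (proj T' - proj T)) * n2 (v - e) := by
    have := n2_mulVec_le (M * (proj T' - proj T)) (v - e)
    rwa [← mulVec_mulVec, ← proj_inf_perp le_sup_left, proj_of_mem huT,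
      proj_inf_perp le_sup_left] at this
  have h2 : n2 (v - e) ≤ 5 / 4 := (n2_sub_le _ _).trans (by linarith)
  have h3 : n2 (M *ᵥ e) ≤ s / 4 := (le_sop M hep).trans (by nlinarith)
  have h4 : n2 (M *ᵥ v) ≤ n2 (M *ᵥ (v - e)) + n2 (M *ᵥ e) := by
    have := n2_add_le (M *ᵥ (v - e)) (M *ᵥ e)
    rwa [← mulVec_add, sub_add_cancel] at this
  rw [en_split M (le_sup_left : T ≤ T')]
  set f := fro (M * (proj T' - proj T))
  have hf : 0 ≤ f := fro_nonneg _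
  have h5 : 74 / 100 * s ≤ f * (5 / 4) := by nlinarith
  nlinarith

theorem greedy_block {N : Finset (J → ℝ)} (hN : ∀ x, n2 x ≤ 1 → ∃ n ∈ N, n2 (x - n) ≤ 1 / 4)
    (M : Matrix Ω J ℝ) (r : ℕ) (T : Submodule ℝ (J → ℝ)) :
    ∃ n : Fin r → J → ℝ, (∀ i, n i ∈ N) ∧
      r * sop M (T ⊔ Submodule.span ℝ (Set.range n)) ^ 2 ≤
        3 * (en M T - en M (T ⊔ Submodule.span ℝ (Set.range n))) := by
  induction r generalizing T with
  | zero => exact ⟨Fin.elim0, fun i => i.elim0, by simp⟩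
  | succ r ih =>
    obtain ⟨n0, hn0, h0⟩ := greedy_one hN M T
    obtain ⟨n, hn, h⟩ := ih (T ⊔ Submodule.span ℝ {n0})
    refine ⟨Fin.cons n0 n, fun i => Fin.cases hn0 hn i, ?_⟩
    have e : T ⊔ Submodule.span ℝ (Set.range (Fin.cons n0 n : Fin (r + 1) → J → ℝ)) =
        T ⊔ Submodule.span ℝ {n0} ⊔ Submodule.span ℝ (Set.range n) := by
      rw [Fin.range_cons, Submodule.span_insert, sup_assoc]
    rw [e]
    have h1 := sop_anti M (show T ≤ T ⊔ Submodule.span ℝ {n0} ⊔ Submodule.span ℝ (Set.range n)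
      from le_sup_left.trans le_sup_left)
    have h2 := pow_le_pow_left₀ (sop_nonneg _ _) h1 2
    push_cast
    linarith

theorem finrank_new_le {r : ℕ} (T : Submodule ℝ (J → ℝ)) (n : Fin r → J → ℝ) :
    finrank ℝ ((T ⊔ Submodule.span ℝ (Set.range n)) ⊓ perp T : Submodule ℝ (J → ℝ)) ≤ r := by
  have h : (T ⊔ Submodule.span ℝ (Set.range n)) ⊓ perp T ≤
      (Submodule.span ℝ (Set.range n)).map (Matrix.mulVecLin (proj (perp T))) := by
    rintro v ⟨hv, hv'⟩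
    obtain ⟨t, ht, s, hs, rfl⟩ := Submodule.mem_sup.1 hv
    refine ⟨s, hs, ?_⟩
    have := proj_of_mem hv'
    rwa [mulVec_add, proj_of_perp (le_perp_perp T ht), zero_add] at this
  refine (Submodule.finrank_mono h).trans ((Submodule.finrank_map_le _ _).trans ?_)
  simpa [Set.finrank] using finrank_range_le_card (R := ℝ) n

omit [DecidableEq J] in
theorem net_vec (hn : S_Net) : ∃ N : Finset (J → ℝ), N.card ≤ 25 ^ Fintype.card J ∧
    ∀ x, n2 x ≤ 1 → ∃ n ∈ N, n2 (x - n) ≤ 1 / 4 := by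
  classical
  obtain ⟨N, hc, hN⟩ := hn (EuclideanSpace ℝ J) 2
  refine ⟨N.image WithLp.ofLp, card_image_le.trans (by simpa using hc), fun x hx => ?_⟩
  obtain ⟨n, hn, h⟩ := hN (WithLp.toLp 2 x) (by rwa [← n2_eq_norm])
  refine ⟨n.ofLp, mem_image_of_mem _ hn, ?_⟩
  rw [n2_eq_norm, WithLp.toLp_sub]
  exact h.trans (by norm_num)

omit [DecidableEq J] in
theorem net_mat (hn : S_Net) (V : Submodule ℝ (J → ℝ)) :
    ∃ N : Finset (Matrix J J ℝ), N.card ≤ 125 ^ (Fintype.card J * finrank ℝ V) ∧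
      (∀ Z ∈ N, ∀ j, (fun i => Z i j) ∈ V) ∧
      ∀ W : Matrix J J ℝ, (∀ j, (fun i => W i j) ∈ V) → fro W ≤ 1 →
        ∃ Z ∈ N, fro (W - Z) ≤ 1 / 8 := by
  classical
  obtain ⟨N, hc, hN⟩ := hn (PiLp 2 fun _ : J => euc V) 3
  let φ : (PiLp 2 fun _ : J => euc V) → Matrix J J ℝ := fun z => Matrix.of fun i j => (z j).1 i
  have hφ : ∀ z, fro (φ z) = ‖z‖ := fun z => by
    refine (sq_eq_sq₀ (fro_nonneg _) (norm_nonneg _)).1 ?_
    rw [fro_sq_cols, PiLp.norm_sq_eq_of_L2]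
    exact sum_congr rfl fun j _ => by rw [Submodule.coe_norm, norm_eq_n2]; rfl
  have hr : finrank ℝ (PiLp 2 fun _ : J => euc V) = Fintype.card J * finrank ℝ V := by
    rw [(WithLp.linearEquiv 2 ℝ (J → euc V)).finrank_eq, finrank_pi_fintype, sum_const,
      finrank_euc, smul_eq_mul, card_univ]
  refine ⟨N.image φ, card_image_le.trans (by rw [hr] at hc; simpa using hc), ?_, ?_⟩
  · intro Z hZ j
    obtain ⟨z, -, rfl⟩ := mem_image.1 hZ
    exact (z j).2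
  · intro W hW h1
    let w : PiLp 2 fun _ : J => euc V :=
      WithLp.toLp 2 fun j => ⟨WithLp.toLp 2 fun i => W i j, hW j⟩
    have hw : φ w = W := rfl
    obtain ⟨z, hz, h⟩ := hN w (by rw [← hφ, hw]; exact h1)
    refine ⟨φ z, mem_image_of_mem _ hz, ?_⟩
    rw [← hφ] at h
    exact h.trans (by norm_num)

omit [DecidableEq J] in
/-- Rounding of a matrix to a multiple of a net point. -/
theorem approx {V : Submodule ℝ (J → ℝ)} {N : Finset (Matrix J J ℝ)}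
    (hN : ∀ W : Matrix J J ℝ, (∀ j, (fun i => W i j) ∈ V) → fro W ≤ 1 →
      ∃ Z ∈ N, fro (W - Z) ≤ 1 / 8) {m : ℕ} (hm : 0 < m) (Θ : Matrix J J ℝ)
    (hΘ : ∀ j, (fun i => Θ i j) ∈ V) (h1 : fro Θ ≤ 1) :
    ∃ i ∈ range (m + 1), ∃ Z ∈ N, fro (((i : ℝ) / m) • Z - Θ) ≤ (i : ℝ) / m / 8 ∧
      fro Θ ≤ (i : ℝ) / m ∧ (i : ℝ) / m ≤ fro Θ + 1 / m ∧ (Θ = 0 → i = 0) := by
  have hm' : (0 : ℝ) < m := Nat.cast_pos.2 hm
  set i := ⌈fro Θ * m⌉₊ with hi
  have h2 : fro Θ ≤ (i : ℝ) / m := (le_div_iff₀ hm').2 (Nat.le_ceil _)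
  have h3 : (i : ℝ) / m ≤ fro Θ + 1 / m := by
    rw [div_le_iff₀ hm', add_mul, one_div_mul_cancel hm'.ne']
    exact (Nat.ceil_lt_add_one (mul_nonneg (fro_nonneg _) hm'.le)).le
  have h4 : i ∈ range (m + 1) := by
    rw [mem_range, Nat.lt_succ_iff, hi, Nat.ceil_le]; nlinarith
  have h5 : Θ = 0 → i = 0 := fun h => by rw [hi, h, fro_zero]; simp
  rcases Nat.eq_zero_or_pos i with h0 | h0
  · obtain ⟨Z, hZ, -⟩ := hN 0 (fun _ => V.zero_mem) (by rw [fro_zero]; norm_num)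
    refine ⟨i, h4, Z, hZ, ?_, h2, h3, h5⟩
    rw [h0] at h2 ⊢
    simpa [fro_neg] using h2
  · have hg : (0 : ℝ) < (i : ℝ) / m := div_pos (Nat.cast_pos.2 h0) hm'
    obtain ⟨Z, hZ, h⟩ := hN (((i : ℝ) / m)⁻¹ • Θ) (fun j => V.smul_mem _ (hΘ j)) (by
      rw [fro_smul, abs_of_pos (inv_pos.2 hg), ← div_eq_inv_mul, div_le_one hg]; exact h2)
    refine ⟨i, h4, Z, hZ, ?_, h2, h3, h5⟩
    have e : ((i : ℝ) / m) • Z - Θ = (-((i : ℝ) / m)) • (((i : ℝ) / m)⁻¹ • Θ - Z) := by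
      rw [smul_sub, smul_smul, neg_mul, mul_inv_cancel₀ hg.ne', neg_smul, neg_smul, one_smul]
      abel
    rw [e, fro_smul, abs_neg, abs_of_pos hg]
    nlinarith

end

end Pool.Agent.P.MP_1bacd4_an.DecA
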