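import Pool.Agent.P.MP_1bacd4_an.Dec1

/-! Deterministic part of the decoupled chaos bound. -/

set_option autoImplicit false

namespace Pool.Agent.P.MP_1bacd4_an.DecA

open Finset Module Matrix

noncomputable section

variable {Ω J : Type} [Fintype Ω] [Fintype J] [DecidableEq J]

/-- Span of the rows of the first `k` matrices. -/
def U (W : ℕ → Matrix J J ℝ) (k : ℕ) : Submodule ℝ (J → ℝ) :=
  Submodule.span ℝ {x | ∃ i < k, ∃ a, x = W i a}

def Dm (W : ℕ → Matrix J J ℝ) (k : ℕ) : Matrix J J ℝ := W k * (1 - proj (U W k))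

def Am (Γ : Matrix Ω J ℝ) (W : ℕ → Matrix J J ℝ) (k : ℕ) : Matrix Ω J ℝ := Γ * Dm W k

omit [Fintype J] [DecidableEq J] in
theorem U_mono (W : ℕ → Matrix J J ℝ) {j k : ℕ} (h : j ≤ k) : U W j ≤ U W k :=
  Submodule.span_mono fun _ ⟨i, hi, a, e⟩ => ⟨i, hi.trans_le h, a, e⟩

omit [Fintype Ω] in
theorem Am_orth (Γ : Matrix Ω J ℝ) (W : ℕ → Matrix J J ℝ) {j k : ℕ} (h : j < k) :
    Am Γ W k * (Am Γ W j)ᵀ = 0 := by
  have h1 : W j * proj (U W k) = W j :=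
    mul_proj_eq_self fun a => Submodule.subset_span ⟨j, h, a, rfl⟩
  have h2 : Dm W j * proj (U W k) = Dm W j := by
    rw [Dm, Matrix.mul_sub, Matrix.mul_one, Matrix.sub_mul, h1, Matrix.mul_assoc,
      proj_mul_of_le' (U_mono W h.le)]
  have h3 : (1 - proj (U W k)) * (Dm W j)ᵀ = 0 := by
    rw [← h2, transpose_mul, proj_transpose, ← Matrix.mul_assoc, Matrix.sub_mul, Matrix.one_mul,
      proj_mul_self, sub_self, Matrix.zero_mul]
  rw [Am, Am, transpose_mul, Dm, Matrix.mul_assoc, Matrix.mul_assoc, ← Matrix.mul_assoc _ (Dm W j)ᵀ,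
    h3, Matrix.zero_mul, Matrix.mul_zero, Matrix.mul_zero]

omit [Fintype Ω] in
theorem Am_congr (Γ : Matrix Ω J ℝ) {W W' : ℕ → Matrix J J ℝ} {k : ℕ}
    (h : ∀ j ≤ k, W j = W' j) : Am Γ W k = Am Γ W' k := by
  have : U W k = U W' k := by
    unfold U; congr 1; ext x
    exact ⟨fun ⟨i, hi, a, e⟩ => ⟨i, hi, a, h i hi.le ▸ e⟩,
      fun ⟨i, hi, a, e⟩ => ⟨i, hi, a, (h i hi.le).symm ▸ e⟩⟩
  rw [Am, Am, Dm, Dm, this, h k le_rfl]

omit [DecidableEq J] in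
theorem finrank_U_succ (W : ℕ → Matrix J J ℝ) (k : ℕ) {V : Submodule ℝ (J → ℝ)}
    (hV : ∀ j, (fun i => W k i j) ∈ V) :
    finrank ℝ (U W (k + 1)) ≤ finrank ℝ (U W k) + finrank ℝ V := by
  have h : U W (k + 1) ≤ U W k ⊔ Submodule.span ℝ (Set.range (W k).row) := by
    refine Submodule.span_le.2 ?_
    rintro x ⟨i, hi, a, rfl⟩
    rcases (Nat.lt_succ_iff.1 hi).lt_or_eq with h | rfl
    · exact Submodule.mem_sup_left (Submodule.subset_span ⟨i, h, a, rfl⟩)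
    · exact Submodule.mem_sup_right (Submodule.subset_span ⟨a, rfl⟩)
  refine (Submodule.finrank_mono h).trans
    ((Submodule.finrank_add_le_finrank_add_finrank _ _).trans (Nat.add_le_add_left ?_ _))
  rw [← rank_eq_finrank_span_row, rank_eq_finrank_span_cols]
  exact Submodule.finrank_mono (Submodule.span_le.2 (by rintro x ⟨j, rfl⟩; exact hV j))

omit [DecidableEq J] in
theorem finrank_U_le (W : ℕ → Matrix J J ℝ) {R : ℕ} (hR : 2 ≤ R) {V : ℕ → Submodule ℝ (J → ℝ)}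
    (hV : ∀ k j, (fun i => W k i j) ∈ V k) (hr : ∀ k, finrank ℝ (V k) ≤ R ^ (k + 1)) (k : ℕ) :
    finrank ℝ (U W k) ≤ 2 * R ^ k := by
  induction k with
  | zero =>
    have : U W 0 = ⊥ := by simp [U]
    rw [this]; simp
  | succ k ih =>
    have h1 := finrank_U_succ W k (hV k)
    have h2 := hr k
    have h3 : 2 * R ^ k ≤ R ^ (k + 1) := by rw [pow_succ, mul_comm]; gcongr
    omega

omit [DecidableEq J] in
theorem finrank_U_alt (W : ℕ → Matrix J J ℝ) {R : ℕ} (hR : 2 ≤ R)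
    {V : ℕ → Submodule ℝ (J → ℝ)} (hV : ∀ k j, (fun i => W k i j) ∈ V k)
    (hr : ∀ k, finrank ℝ (V k) ≤ R ^ (k + 1)) (alt : ∀ k, W k = 0 ∨ W (k + 1) = 0) {k : ℕ}
    (hk : W k ≠ 0) : finrank ℝ (U W k) * R ≤ 2 * R ^ k := by
  cases k with
  | zero =>
    have : U W 0 = ⊥ := by simp [U]
    rw [this]; simp
  | succ k =>
    have h0 : W k = 0 := (alt k).resolve_right hk
    have h1 := finrank_U_succ W k (V := ⊥) fun j => by rw [h0]; rfl
    have h2 := finrank_U_le W hR hV hr k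
    rw [finrank_bot, add_zero] at h1
    rw [pow_succ, ← mul_assoc]
    exact Nat.mul_le_mul_right _ (h1.trans h2)

omit [Fintype J] [DecidableEq J] in
theorem ip_le_pot {g : Matrix Ω Ω ℝ} {r : ℕ} (hg : ∀ ω, supp (g ω) ≤ r) (Y : Matrix Ω Ω ℝ) :
    ip g Y ≤ fro g * √(√(r : ℝ) * pot Y) := by
  classical
  let Y' : Matrix Ω Ω ℝ := Matrix.of fun ω ω' => if g ω ω' = 0 then 0 else Y ω ω'
  have e : ip g Y = ip g Y' := by
    refine sum_congr rfl fun ω _ => sum_congr rfl fun ω' _ => ?_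
    by_cases h : g ω ω' = 0 <;> simp [Y', h]
  rw [e]
  refine (ip_le _ _).trans (mul_le_mul_of_nonneg_left (Real.le_sqrt_of_sq_le ?_) (fro_nonneg _))
  rw [fro_sq, pot, mul_sum]
  refine sum_le_sum fun ω _ => ?_
  have h1 : ∑ ω', Y' ω ω' ^ 2 = ∑ ω' ∈ univ.filter fun ω' => g ω ω' ≠ 0, |Y ω ω' ^ 2| := by
    rw [sum_filter]
    exact sum_congr rfl fun ω' _ => by by_cases h : g ω ω' = 0 <;> simp [Y', h]
  rw [h1]
  refine (sum_abs_le_sqrt_card _ _).trans (mul_le_mul (Real.sqrt_le_sqrt ?_) (le_of_eq ?_)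
    (n2_nonneg _) (Real.sqrt_nonneg _))
  · exact_mod_cast hg ω
  · unfold n2; congr 1; exact sum_congr rfl fun _ _ => by ring

omit [Fintype Ω] in
theorem exists_T [Fintype Ω] {N : Finset (J → ℝ)}
    (hN : ∀ x, n2 x ≤ 1 → ∃ n ∈ N, n2 (x - n) ≤ 1 / 4) (M : Matrix Ω J ℝ) (R : ℕ) :
    ∃ (T : ℕ → Submodule ℝ (J → ℝ)) (n : ∀ k, Fin (R ^ (k + 1)) → J → ℝ), T 0 = ⊥ ∧
      (∀ k i, n k i ∈ N) ∧ (∀ k, T (k + 1) = T k ⊔ Submodule.span ℝ (Set.range (n k))) ∧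
      ∀ K, ∑ k ∈ range (K + 1), (R : ℝ) ^ k * sop M (T k) ^ 2 ≤ 4 * fro M ^ 2 := by
  choose f hf1 hf2 using greedy_block hN M
  let T : ℕ → Submodule ℝ (J → ℝ) := fun k =>
    Nat.rec ⊥ (fun k T => T ⊔ Submodule.span ℝ (Set.range (f (R ^ (k + 1)) T))) k
  refine ⟨T, fun k => f _ (T k), rfl, fun k i => hf1 _ _ i, fun k => rfl, fun K => ?_⟩
  have : ∑ k ∈ range (K + 1), (R : ℝ) ^ k * sop M (T k) ^ 2 + 3 * en M (T K) ≤ 4 * fro M ^ 2 := by
    induction K with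
    | zero =>
      have h1 := pow_le_pow_left₀ (sop_nonneg M (T 0)) (sop_le_fro M (T 0)) 2
      have h2 : en M (T 0) = fro M ^ 2 := en_bot M
      simp only [zero_add, range_one, sum_singleton, pow_zero, one_mul]
      linarith
    | succ K ih =>
      rw [sum_range_succ]
      have h := hf2 (R ^ (K + 1)) (T K)
      push_cast at h
      change _ * sop M (T (K + 1)) ^ 2 ≤ 3 * (_ - en M (T (K + 1))) at h
      linarith
  linarith [en_nonneg M (T K)]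

/-- The analytic estimate along one branch. -/
theorem branch {Γ G : Matrix Ω J ℝ} {g : Matrix Ω Ω ℝ} {r R K : ℕ} {a ρ : ℝ} (hR : 2 ≤ R)
    (ha : 0 ≤ a) (hρ : 0 < ρ) (hρR : ρ ^ 2 = R) (hb : 1 ≤ sq Ω)
    (hΓ : ∀ v, n2 (Γ *ᵥ v) ≤ 2 * sq Ω * n2 v) (hG : ∀ v, n2 (G *ᵥ v) ≤ 2 * sq Ω * n2 v)
    (hg : fro g ≤ 1) (hs : ∀ ω, supp (g ω) ≤ r) {T : ℕ → Submodule ℝ (J → ℝ)}
    (hT : ∑ k ∈ range K, (R : ℝ) ^ k * sop (gᵀ * Γ) (T k) ^ 2 ≤ 16 * a ^ 2)
    {V : ℕ → Submodule ℝ (J → ℝ)} (hVT : ∀ k, V k ≤ perp (T k))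
    (hr : ∀ k, finrank ℝ (V k) ≤ R ^ (k + 1)) {W : ℕ → Matrix J J ℝ}
    (hV : ∀ k j, (fun i => W k i j) ∈ V k) (alt : ∀ k, W k = 0 ∨ W (k + 1) = 0)
    (hW : ∑ k ∈ range K, fro (W k) ^ 2 ≤ 6) {Δ : ℕ → Matrix Ω J ℝ}
    (hΔ : ∀ k < K, fro (Δ k) ≤ 15 * ρ * ρ ^ k * a)
    (hp : pot (∑ j ∈ range K, Am Γ W j * (G - Δ j)ᵀ) ≤
      3 * (1 + 3 * sq Ω * ∑ j ∈ range K, fro (Am Γ W j) ^ 2)) :
    ∑ k ∈ range K, ip ((gᵀ * Γ)ᵀ * G) (W k) ≤
      30 * (a * sq Ω / ρ) + 15 * √(√(r : ℝ) * sq Ω ^ 3) + 150 * (ρ * a ^ 2) := by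
  set M := gᵀ * Γ with hM
  set b := sq Ω with hbdef
  have hb0 : 0 < b := by linarith
  have hMW : ∀ k, fro (M * W k) ≤ sop M (T k) * fro (W k) := fun k =>
    fro_mul_le_left (sop_nonneg _ _) _ fun j => le_sop M (hVT k (hV k j))
  have hone : ∀ k, 1 - proj (U W k) = proj (perp (U W k)) := fun k => (proj_perp _).symm
  have hMD : ∀ k, fro (M * Dm W k) ≤ sop M (T k) * fro (W k) := fun k => by
    rw [Dm, ← Matrix.mul_assoc, hone]; exact (fro_mul_proj_le _ _).trans (hMW k)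
  have hCS : ∑ k ∈ range K, ρ ^ k * sop M (T k) * fro (W k) ≤ 10 * a := by
    have h := sum_mul_sq_le_sq_mul_sq (range K) (fun k => ρ ^ k * sop M (T k)) fun k => fro (W k)
    have e : ∑ k ∈ range K, (ρ ^ k * sop M (T k)) ^ 2 =
        ∑ k ∈ range K, (R : ℝ) ^ k * sop M (T k) ^ 2 :=
      sum_congr rfl fun k _ => by rw [mul_pow, ← pow_mul, mul_comm k 2, pow_mul, hρR]
    rw [e] at h
    refine le_of_sq_le_sq' (by positivity) (h.trans ?_)
    have := mul_le_mul hT hW (sum_nonneg fun _ _ => sq_nonneg _) (by positivity)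
    nlinarith [sq_nonneg a]
  have key : ∀ k ∈ range K, ip (Mᵀ * G) (W k) ≤ ip g (Am Γ W k * (G - Δ k)ᵀ) +
      (3 * b / ρ + 15 * ρ * a) * (ρ ^ k * sop M (T k) * fro (W k)) := by
    intro k hk
    have hμ := sop_nonneg M (T k)
    have hw := fro_nonneg (W k)
    have e1 : ip (Mᵀ * G) (W k) = ip (M * W k) (G * proj (U W k)) + ip (M * Dm W k) G := by
      have e0 : W k = W k * proj (U W k) + Dm W k := by
        rw [Dm, Matrix.mul_sub, Matrix.mul_one]; abel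
      rw [ip_comm, ← ip_mul_left]
      conv_lhs => rw [e0]
      rw [Matrix.mul_add, ip_add_left, ← Matrix.mul_assoc, ip_mul_right, proj_transpose]
    have e2 : ip (M * Dm W k) G = ip g (Am Γ W k * (G - Δ k)ᵀ) + ip (M * Dm W k) (Δ k) := by
      have : ∀ X : Matrix Ω J ℝ, ip (M * Dm W k) X = ip g (Am Γ W k * Xᵀ) := fun X => by
        rw [hM, Matrix.mul_assoc, ip_mul_left, transpose_transpose, ip_comm, ip_mul_right]
        rfl
      rw [← this, ← ip_add_right, sub_add_cancel]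
    have h3 : ip (M * Dm W k) (Δ k) ≤ sop M (T k) * fro (W k) * (15 * ρ * ρ ^ k * a) :=
      (ip_le _ _).trans (mul_le_mul (hMD k) (hΔ k (mem_range.1 hk)) (fro_nonneg _)
        (mul_nonneg hμ hw))
    have h4 : ip (M * W k) (G * proj (U W k)) ≤
        sop M (T k) * fro (W k) * (3 * b / ρ * ρ ^ k) := by
      by_cases h0 : W k = 0
      · rw [h0, Matrix.mul_zero, ip_zero_left, fro_zero]; simp
      refine (ip_le _ _).trans (mul_le_mul (hMW k) ?_ (fro_nonneg _) (mul_nonneg hμ hw))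
      refine (fro_mul_le_left (by positivity) _ fun _ => hG _).trans ?_
      have h5 : fro (proj (U W k)) * ρ ≤ 3 / 2 * ρ ^ k := by
        refine le_of_sq_le_sq' (by positivity) ?_
        have h6 : (finrank ℝ (U W k) : ℝ) * R ≤ 2 * (R : ℝ) ^ k := by
          exact_mod_cast finrank_U_alt W hR hV hr alt h0
        rw [mul_pow, fro_proj_sq, hρR, mul_pow, ← pow_mul, mul_comm k 2, pow_mul, hρR]
        have : (0 : ℝ) ≤ (R : ℝ) ^ k := by positivity
        linarith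
      rw [div_mul_eq_mul_div, le_div_iff₀ hρ]
      nlinarith
    rw [e1, e2]; nlinarith
  refine (sum_le_sum key).trans ?_
  rw [sum_add_distrib, ← ip_sum_right, ← mul_sum]
  have hA : ∑ j ∈ range K, fro (Am Γ W j) ^ 2 ≤ 4 * b ^ 2 * 6 := by
    refine le_trans (sum_le_sum fun j _ => ?_) ((mul_sum _ _ _).symm.le.trans
      (mul_le_mul_of_nonneg_left hW (by positivity)))
    have h1 : fro (Am Γ W j) ≤ 2 * b * fro (W j) := by
      refine (fro_mul_le_left (by positivity) _ fun _ => hΓ _).trans ?_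
      rw [Dm, hone]
      exact mul_le_mul_of_nonneg_left (fro_mul_proj_le _ _) (by positivity)
    have := pow_le_pow_left₀ (fro_nonneg _) h1 2
    linarith
  have h1 : ip g (∑ j ∈ range K, Am Γ W j * (G - Δ j)ᵀ) ≤ 15 * √(√(r : ℝ) * b ^ 3) := by
    refine (ip_le_pot hs _).trans ((mul_le_of_le_one_left (Real.sqrt_nonneg _) hg).trans ?_)
    rw [Real.sqrt_le_left (by positivity), mul_pow, Real.sq_sqrt (by positivity)]
    have h2 : 1 ≤ b ^ 3 := one_le_pow₀ hb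
    have h3 : pot (∑ j ∈ range K, Am Γ W j * (G - Δ j)ᵀ) ≤ 225 * b ^ 3 := by
      have := mul_le_mul_of_nonneg_left hA (show 0 ≤ 3 * b by positivity)
      nlinarith
    have := mul_le_mul_of_nonneg_left h3 (Real.sqrt_nonneg (r : ℝ))
    linarith
  have h2 := mul_le_mul_of_nonneg_left hCS (show 0 ≤ 3 * b / ρ + 15 * ρ * a by positivity)
  have e : (3 * b / ρ + 15 * ρ * a) * (10 * a) = 30 * (a * b / ρ) + 150 * (ρ * a ^ 2) := by ring
  linarith

end

end Pool.Agent.P.MP_1bacd4_an.DecA
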