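import Pool.Agent.P.MP_1bacd4_an.Defs

/-! Gaussian moments, invariance of the Gaussian measure, and nets. -/

set_option autoImplicit false

namespace Pool.Agent.P.MP_1bacd4_an

open Finset Module MeasureTheory ProbabilityTheory
open scoped NNReal

namespace MomA

theorem deriv_pe (v : ℝ) (P P' : ℝ → ℝ) (h : ∀ t, HasDerivAt P (P' t) t) :
    deriv (fun t => P t * Real.exp (v * t ^ 2 / 2)) =
      fun t => (P' t + v * t * P t) * Real.exp (v * t ^ 2 / 2) := by
  ext t
  have h1 : HasDerivAt (fun t : ℝ => v * t ^ 2 / 2) (v * t) t := by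
    have := ((hasDerivAt_pow 2 t).const_mul v).div_const 2
    refine this.congr_deriv ?_
    norm_num
    ring
  have h2 := (h t).mul h1.exp
  rw [HasDerivAt.deriv (f := fun t => P t * Real.exp (v * t ^ 2 / 2)) h2]
  ring

theorem it1 (v : ℝ) : iteratedDeriv 1 (fun t => Real.exp (v * t ^ 2 / 2)) =
    fun t => (v * t) * Real.exp (v * t ^ 2 / 2) := by
  rw [iteratedDeriv_one]
  have := deriv_pe v (fun _ => 1) (fun _ => 0) fun t => hasDerivAt_const t 1
  simpa using this

theorem it2 (v : ℝ) : iteratedDeriv 2 (fun t => Real.exp (v * t ^ 2 / 2)) =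
    fun t => (v + v ^ 2 * t ^ 2) * Real.exp (v * t ^ 2 / 2) := by
  rw [iteratedDeriv_succ, it1, deriv_pe v (fun t => v * t) (fun _ => v) fun t => by
    simpa using (hasDerivAt_id t).const_mul v]
  ext t
  ring

theorem it3 (v : ℝ) : iteratedDeriv 3 (fun t => Real.exp (v * t ^ 2 / 2)) =
    fun t => (3 * v ^ 2 * t + v ^ 3 * t ^ 3) * Real.exp (v * t ^ 2 / 2) := by
  rw [iteratedDeriv_succ, it2, deriv_pe v (fun t => v + v ^ 2 * t ^ 2)
    (fun t => v ^ 2 * (2 * t)) fun t => by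
      simpa using ((hasDerivAt_pow 2 t).const_mul (v ^ 2)).const_add v]
  ext t
  ring

theorem it4 (v : ℝ) : iteratedDeriv 4 (fun t => Real.exp (v * t ^ 2 / 2)) 0 = 3 * v ^ 2 := by
  rw [iteratedDeriv_succ, it3, deriv_pe v (fun t => 3 * v ^ 2 * t + v ^ 3 * t ^ 3)
    (fun t => 3 * v ^ 2 + v ^ 3 * (3 * t ^ 2)) fun t => by
      have h1 : HasDerivAt (fun t : ℝ => 3 * v ^ 2 * t) (3 * v ^ 2) t := by
        simpa using (hasDerivAt_id t).const_mul (3 * v ^ 2)
      have h2 : HasDerivAt (fun t : ℝ => v ^ 3 * t ^ 3) (v ^ 3 * (3 * t ^ 2)) t := by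
        simpa using (hasDerivAt_pow 3 t).const_mul (v ^ 3)
      exact h1.add h2]
  simp

theorem mom_eq (v : ℝ≥0) (k : ℕ) : ∫ x, x ^ k ∂(gaussianReal 0 v) =
    iteratedDeriv k (fun t => Real.exp (v * t ^ 2 / 2)) 0 := by
  have h : ∫ x, x ^ k ∂(gaussianReal 0 v) =
      iteratedDeriv k (mgf (fun x => x) (gaussianReal 0 v)) 0 := by
    rw [iteratedDeriv_mgf_zero] <;> simp
  rw [h, mgf_fun_id_gaussianReal]
  simp only [zero_mul, zero_add]

variable {I : Type} [Fintype I]

/-- The functional with coefficients `u`. -/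
noncomputable def dl (u : I → ℝ) : GS I →L[ℝ] ℝ := innerSL ℝ (WithLp.toLp 2 u : GS I)

theorem dl_apply (u : I → ℝ) (x : GS I) : dl u x = ∑ i, u i * x i := by
  simp [dl, PiLp.inner_apply, mul_comm]

theorem dl_norm (u : I → ℝ) : ‖dl u‖ ^ 2 = ∑ i, u i ^ 2 := by
  rw [dl, innerSL_apply_norm, EuclideanSpace.real_norm_sq_eq]

theorem mom_dl (u : I → ℝ) (k : ℕ) : ∫ x : GS I, (∑ i, u i * x i) ^ k ∂(gm I) =
    iteratedDeriv k (fun t => Real.exp ((∑ i, u i ^ 2) * t ^ 2 / 2)) 0 := by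
  have h := IsGaussian.map_eq_gaussianReal (μ := gm I) (dl u)
  rw [integral_strongDual_stdGaussian, variance_dual_stdGaussian, dl_norm] at h
  have h2 := mom_eq (∑ i, u i ^ 2).toNNReal k
  rw [← h, integral_map (dl u).continuous.aemeasurable (by fun_prop),
    Real.coe_toNNReal _ (sum_nonneg fun _ _ => _root_.sq_nonneg _)] at h2
  simpa only [dl_apply] using h2

theorem norm_int (k : ℕ) : Integrable (fun x : GS I => ‖x‖ ^ k) (gm I) :=
  (IsGaussian.memLp_id (gm I) k (by simp)).integrable_norm_pow'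

theorem int2 (u v : I → ℝ) (k m : ℕ) :
    Integrable (fun x : GS I => (∑ i, u i * x i) ^ k * (∑ i, v i * x i) ^ m) (gm I) := by
  simp only [← dl_apply]
  refine ((norm_int (k + m)).const_mul (‖dl u‖ ^ k * ‖dl v‖ ^ m)).mono' (by fun_prop) ?_
  refine Filter.Eventually.of_forall fun x => ?_
  rw [norm_mul, norm_pow, norm_pow]
  calc ‖dl u x‖ ^ k * ‖dl v x‖ ^ m ≤ (‖dl u‖ * ‖x‖) ^ k * (‖dl v‖ * ‖x‖) ^ m := by
        gcongr
        · exact (dl u).le_opNorm x
        · exact (dl v).le_opNorm x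
    _ = _ := by rw [mul_pow, mul_pow, pow_add]; ring

theorem int1 (u : I → ℝ) (k : ℕ) :
    Integrable (fun x : GS I => (∑ i, u i * x i) ^ k) (gm I) := by
  simpa using int2 u u k 0

theorem one (u : I → ℝ) : ∫ x : GS I, (∑ i, u i * x i) ∂(gm I) = 0 := by
  simp only [← dl_apply]
  exact integral_strongDual_stdGaussian (dl u)

theorem two' (u : I → ℝ) : ∫ x : GS I, (∑ i, u i * x i) ^ 2 ∂(gm I) = ∑ i, u i ^ 2 := by
  rw [mom_dl, it2]
  simp

theorem two (u v : I → ℝ) :
    ∫ x : GS I, (∑ i, u i * x i) * (∑ i, v i * x i) ∂(gm I) = ∑ i, u i * v i := by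
  have h : ∀ x : GS I, (∑ i, u i * x i) * (∑ i, v i * x i) =
      (1 / 4) * ((∑ i, (u i + v i) * x i) ^ 2 - (∑ i, (u i - v i) * x i) ^ 2) := by
    intro x
    simp only [add_mul, sub_mul, sum_add_distrib, sum_sub_distrib]
    ring
  simp only [h]
  rw [integral_const_mul, integral_sub (int1 _ 2) (int1 _ 2), two', two', ← sum_sub_distrib,
    mul_sum]
  exact sum_congr rfl fun i _ => by ring

theorem three (u : I → ℝ) : ∫ x : GS I, (∑ i, u i * x i) ^ 3 ∂(gm I) = 0 := by
  rw [mom_dl, it3]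
  simp

theorem four (u : I → ℝ) :
    ∫ x : GS I, (∑ i, u i * x i) ^ 4 ∂(gm I) = 3 * (∑ i, u i ^ 2) ^ 2 := by
  rw [mom_dl, it4]

theorem norm4 : ∫ x : GS I, ‖x‖ ^ 4 ∂(gm I) ≤ 3 * (Fintype.card I : ℝ) ^ 2 := by
  classical
  have hs : ∀ (i : I) (x : GS I), ∑ j, (Pi.single i 1 : I → ℝ) j * x j = x i := by
    intro i x
    simp [Pi.single_apply]
  have hi : ∀ i : I, Integrable (fun x : GS I => x i ^ 4) (gm I) := fun i => by
    simpa only [hs] using int1 (Pi.single i 1) 4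
  have h4 : ∀ i : I, ∫ x : GS I, x i ^ 4 ∂(gm I) = 3 := fun i => by
    have := four (Pi.single i 1 : I → ℝ)
    simp only [hs] at this
    rw [this]
    simp [Pi.single_apply]
  calc ∫ x : GS I, ‖x‖ ^ 4 ∂(gm I)
      ≤ ∫ x : GS I, (Fintype.card I : ℝ) * ∑ i, x i ^ 4 ∂(gm I) := by
        refine integral_mono (norm_int 4)
          ((integrable_finsetSum _ fun i _ => hi i).const_mul _) fun x => ?_
        have h1 : ‖x‖ ^ 4 = (∑ i, x i ^ 2) ^ 2 := by
          rw [← EuclideanSpace.real_norm_sq_eq]; ring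
        have h2 := sq_sum_le_card_mul_sum_sq (s := (univ : Finset I)) (f := fun i => x i ^ 2)
        simp only [← pow_mul, card_univ] at h2
        exact h1.le.trans h2
    _ = 3 * (Fintype.card I : ℝ) ^ 2 := by
        rw [integral_const_mul, integral_finsetSum _ fun i _ => hi i]
        simp only [h4, sum_const, card_univ, nsmul_eq_mul]
        ring

theorem mix (p : GS I →L[ℝ] GS I) (hs : ∀ x y, inner ℝ (p x) y = inner ℝ x (p y))
    (hp : ∀ x, p (p x) = p x) :
    MeasurePreserving (fun z : GS I × GS I => p z.1 + (z.2 - p z.2)) ((gm I).prod (gm I))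
      (gm I) := by
  have hm : Measurable fun z : GS I × GS I => p z.1 + (z.2 - p z.2) := by fun_prop
  refine ⟨hm, ?_⟩
  apply Measure.ext_of_charFun
  ext t
  have h1 : ∀ z : GS I × GS I,
      Complex.exp ((inner ℝ (p z.1 + (z.2 - p z.2)) t : ℝ) * Complex.I) =
      Complex.exp ((inner ℝ z.1 (p t) : ℝ) * Complex.I) *
        Complex.exp ((inner ℝ z.2 (t - p t) : ℝ) * Complex.I) := by
    intro z
    rw [← Complex.exp_add, inner_add_left, inner_sub_left, inner_sub_right, hs, hs]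
    push_cast
    ring_nf
  have h2 : ‖t‖ ^ 2 = ‖p t‖ ^ 2 + ‖t - p t‖ ^ 2 := by
    have h0 : inner ℝ (p t) (t - p t) = 0 := by
      rw [hs, map_sub, hp, sub_self, inner_zero_right]
    have := norm_add_sq_real (p t) (t - p t)
    rw [h0, add_sub_cancel] at this
    linarith
  rw [charFun_apply, integral_map hm.aemeasurable (by fun_prop)]
  simp only [h1]
  rw [integral_prod_mul (fun x : GS I => Complex.exp ((inner ℝ x (p t) : ℝ) * Complex.I))
    (fun x : GS I => Complex.exp ((inner ℝ x (t - p t) : ℝ) * Complex.I)), ← charFun_apply,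
    ← charFun_apply, charFun_stdGaussian, charFun_stdGaussian, charFun_stdGaussian,
    ← Complex.exp_add]
  have h3 : ((‖t‖ : ℂ)) ^ 2 = (‖p t‖ : ℂ) ^ 2 + (‖t - p t‖ : ℂ) ^ 2 := by exact_mod_cast h2
  rw [h3]
  ring_nf

theorem rot : MeasurePreserving
    (fun z : GS I × GS I => ((√2)⁻¹ • (z.1 + z.2), (√2)⁻¹ • (z.1 - z.2)))
    ((gm I).prod (gm I)) ((gm I).prod (gm I)) := by
  have h1 : MeasurePreserving
      (ContinuousLinearMap.rotation (Real.pi / 4) : GS I × GS I → GS I × GS I)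
      ((gm I).prod (gm I)) ((gm I).prod (gm I)) :=
    ⟨(ContinuousLinearMap.rotation (Real.pi / 4) :
      GS I × GS I →L[ℝ] GS I × GS I).continuous.measurable,
      IsGaussian.map_rotation_eq_self (by simp) _⟩
  have h2 : MeasurePreserving (fun x : GS I => -x) (gm I) (gm I) :=
    ⟨measurable_neg, stdGaussian_map (LinearIsometryEquiv.neg ℝ)⟩
  have h3 := ((MeasurePreserving.id (gm I)).prod h2).comp h1
  have hc : √2 / 2 = (√2)⁻¹ := by
    have : √2 * √2 = 2 := Real.mul_self_sqrt (by norm_num)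
    have h0 : √2 ≠ 0 := by positivity
    field_simp
    linarith
  have he : (fun z : GS I × GS I => ((√2)⁻¹ • (z.1 + z.2), (√2)⁻¹ • (z.1 - z.2))) =
      Prod.map id (fun x : GS I => -x) ∘
        (ContinuousLinearMap.rotation (Real.pi / 4) : GS I × GS I → GS I × GS I) := by
    ext1 z
    simp only [Function.comp_apply, ContinuousLinearMap.rotation_apply, Real.cos_pi_div_four,
      Real.sin_pi_div_four, hc, Prod.map_apply, id]
    refine Prod.ext ?_ ?_
    · simp only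
      module
    · simp only
      module
  rw [he]
  exact h3

section net
variable {V : Type} [NormedAddCommGroup V] [NormedSpace ℝ V] [FiniteDimensional ℝ V]

theorem net1 : ∃ N : Finset V, N.card ≤ 5 ^ finrank ℝ V ∧
    ∀ x : V, ‖x‖ ≤ 1 → ∃ n ∈ N, ‖x - n‖ ≤ 1 / 2 := by
  classical
  let P : ℕ → Prop := fun k => ∃ s : Finset V, s.card = k ∧ (∀ c ∈ s, ‖c‖ ≤ 2) ∧
    ∀ c ∈ s, ∀ d ∈ s, c ≠ d → 1 ≤ ‖c - d‖
  have hb : ∀ k, P k → k ≤ 5 ^ finrank ℝ V := by
    rintro k ⟨s, rfl, h1, h2⟩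
    exact Besicovitch.card_le_of_separated s h1 h2
  have h0 : P 0 := ⟨∅, rfl, by simp, by simp⟩
  obtain ⟨s, hk, h1, h2⟩ : P (Nat.findGreatest P (5 ^ finrank ℝ V)) :=
    Nat.findGreatest_spec (Nat.zero_le _) h0
  refine ⟨s.image fun c => (1 / 2 : ℝ) • c, card_image_le.trans (hb _ ⟨s, rfl, h1, h2⟩), ?_⟩
  intro x hx
  by_contra hh
  push Not at hh
  have hf : ∀ c ∈ s, 1 < ‖(2 : ℝ) • x - c‖ := by
    intro c hc
    have h3 := hh _ (mem_image_of_mem _ hc)
    have h4 : (2 : ℝ) • x - c = (2 : ℝ) • (x - (1 / 2 : ℝ) • c) := by module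
    rw [h4, norm_smul, Real.norm_ofNat]
    linarith
  have hn : (2 : ℝ) • x ∉ s := fun h => by
    have := hf _ h
    rw [sub_self, norm_zero] at this
    linarith
  have hP : P (s.card + 1) := by
    refine ⟨insert ((2 : ℝ) • x) s, card_insert_of_notMem hn, ?_, ?_⟩
    · intro c hc
      rcases mem_insert.1 hc with rfl | hc
      · rw [norm_smul, Real.norm_ofNat]; linarith
      · exact h1 c hc
    · intro c hc d hd hcd
      rcases mem_insert.1 hc with rfl | hc
      · rcases mem_insert.1 hd with rfl | hd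
        · exact absurd rfl hcd
        · exact (hf d hd).le
      · rcases mem_insert.1 hd with rfl | hd
        · rw [norm_sub_rev]; exact (hf c hc).le
        · exact h2 c hc d hd hcd
  have := Nat.le_findGreatest (hb _ hP) hP
  omega

theorem netj (j : ℕ) : ∃ N : Finset V, N.card ≤ (5 ^ j) ^ finrank ℝ V ∧
    ∀ x : V, ‖x‖ ≤ 1 → ∃ n ∈ N, ‖x - n‖ ≤ 1 / 2 ^ j := by
  classical
  induction j with
  | zero => exact ⟨{0}, by simp, fun x hx => ⟨0, by simp, by simpa using hx⟩⟩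
  | succ j ih =>
    obtain ⟨N, hN, hx⟩ := ih
    obtain ⟨M, hM, hy⟩ := net1 (V := V)
    refine ⟨(M ×ˢ N).image fun q => q.1 + (1 / 2 : ℝ) • q.2, ?_, fun x h => ?_⟩
    · refine card_image_le.trans ?_
      rw [card_product, pow_succ, mul_pow, mul_comm]
      exact Nat.mul_le_mul hN hM
    · obtain ⟨m, hm, h1⟩ := hy x h
      obtain ⟨n, hn, h2⟩ := hx ((2 : ℝ) • (x - m)) (by rw [norm_smul, Real.norm_ofNat]; linarith)
      refine ⟨m + (1 / 2 : ℝ) • n, mem_image.2 ⟨(m, n), mem_product.2 ⟨hm, hn⟩, rfl⟩, ?_⟩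
      have h3 : x - (m + (1 / 2 : ℝ) • n) = (1 / 2 : ℝ) • ((2 : ℝ) • (x - m) - n) := by module
      rw [h3, norm_smul, Real.norm_of_nonneg (by norm_num), pow_succ]
      calc 1 / 2 * ‖(2 : ℝ) • (x - m) - n‖ ≤ 1 / 2 * (1 / 2 ^ j) := by gcongr
        _ = 1 / (2 ^ j * 2) := by field_simp

end net

end MomA

theorem mom : S_Mom where
  int := fun _ _ u k => MomA.int1 u k
  int2 := fun _ _ u v k m => MomA.int2 u v k m
  one := fun _ _ u => MomA.one u
  two := fun _ _ u v => MomA.two u v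
  three := fun _ _ u => MomA.three u
  four := fun _ _ u => MomA.four u
  norm_int := fun _ _ k => MomA.norm_int k
  norm4 := fun _ _ => MomA.norm4
  mix := fun _ _ p hs hp => MomA.mix p hs hp
  rot := fun _ _ => MomA.rot

theorem net : S_Net := fun _ _ _ _ j => MomA.netj j

end Pool.Agent.P.MP_1bacd4_an
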